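import Mathlib

/-!
# Finite fully transitive polyhedra in Euclidean 3-space: definitions

A polyhedron in Euclidean 3-space (a faithful realization of an abstract polyhedron) is recorded by
its set of vertices (points), its set of edges (unordered pairs of points) and its set of 2-faces
(sets of edges).
-/

namespace Pool.Agent.H38.FT

/-- Vertices, edges (unordered pairs of vertices) and 2-faces (sets of edges). -/
structure Cfg (X : Type*) where
  V : Set X
  E : Set (Sym2 X)
  F : Set (Set (Sym2 X))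

/-- A triple formed of a vertex, an edge and a 2-face. -/
abbrev Triple (X : Type*) := X × Sym2 X × Set (Sym2 X)

/-- Two triples are adjacent when they differ in exactly one of the three entries. -/
def Adjacent {X : Type*} (A B : Triple X) : Prop :=
  (A.1 ≠ B.1 ∧ A.2.1 = B.2.1 ∧ A.2.2 = B.2.2) ∨
  (A.1 = B.1 ∧ A.2.1 ≠ B.2.1 ∧ A.2.2 = B.2.2) ∨
  (A.1 = B.1 ∧ A.2.1 = B.2.1 ∧ A.2.2 ≠ B.2.2)

/-- `C` has all the entries that `A` and `B` have in common. -/
def HasCommon {X : Type*} (A B C : Triple X) : Prop :=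
  (A.1 = B.1 → C.1 = A.1) ∧ (A.2.1 = B.2.1 → C.2.1 = A.2.1) ∧ (A.2.2 = B.2.2 → C.2.2 = A.2.2)

namespace Cfg

variable {X Y : Type*}

/-- The image of a configuration under a map of the points. -/
def map (t : X → Y) (P : Cfg X) : Cfg Y where
  V := t '' P.V
  E := Sym2.map t '' P.E
  F := (fun f => Sym2.map t '' f) '' P.F

/-- A flag: a vertex, an edge containing it and a 2-face containing the edge. -/
def IsFlag (P : Cfg X) (A : Triple X) : Prop :=
  A.1 ∈ P.V ∧ A.2.1 ∈ P.E ∧ A.2.2 ∈ P.F ∧ A.1 ∈ A.2.1 ∧ A.2.1 ∈ A.2.2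

/-- The vertices, edges and 2-faces form an abstract polyhedron (an abstract polytope of rank 3):
every maximal chain has one element of each rank, the diamond condition holds and the
configuration is strongly flag-connected. -/
structure IsPolyhedron (P : Cfg X) : Prop where
  nonempty : P.V.Nonempty
  edge : ∀ e ∈ P.E, ∃ x ∈ P.V, ∃ y ∈ P.V, x ≠ y ∧ e = s(x, y)
  face : ∀ f ∈ P.F, f.Nonempty ∧ f ⊆ P.E
  vertex : ∀ x ∈ P.V, ∃ e ∈ P.E, x ∈ e
  diamond_edge : ∀ e ∈ P.E, {f | f ∈ P.F ∧ e ∈ f}.ncard = 2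
  diamond_face : ∀ f ∈ P.F, ∀ x, (∃ e ∈ f, x ∈ e) → {e | e ∈ f ∧ x ∈ e}.ncard = 2
  connected : ∀ A B, P.IsFlag A → P.IsFlag B →
    Relation.ReflTransGen (fun C D => P.IsFlag C ∧ P.IsFlag D ∧ Adjacent C D ∧ HasCommon A B D) A B

end Cfg

/-- Euclidean 3-space. -/
abbrev E3 := EuclideanSpace ℝ (Fin 3)

/-- Real 3 by 3 matrices. -/
abbrev Mat := Matrix (Fin 3) (Fin 3) ℝ

/-- The isometries of `E3` that map `P` to itself are transitive on the vertices, on the edges and
on the 2-faces of `P`. -/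
def FullyTransitive (P : Cfg E3) : Prop :=
  (∀ x ∈ P.V, ∀ y ∈ P.V, ∃ g : E3 ≃ᵢ E3, P.map g = P ∧ g x = y) ∧
  (∀ x ∈ P.E, ∀ y ∈ P.E, ∃ g : E3 ≃ᵢ E3, P.map g = P ∧ Sym2.map g x = y) ∧
  (∀ x ∈ P.F, ∀ y ∈ P.F, ∃ g : E3 ≃ᵢ E3, P.map g = P ∧ Sym2.map g '' x = y)

/-- `P` and `Q` are similar: some similarity of `E3` maps `Q` to `P`. -/
def Similar (P Q : Cfg E3) : Prop :=
  ∃ r : ℝ, 0 < r ∧ ∃ g : E3 ≃ᵢ E3, P = Q.map (fun x => r • g x)

/-- The golden ratio `(1 + √5) / 2`. -/
noncomputable abbrev gr : ℝ := Real.goldenRatio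

/-- The letters naming the generators. -/
inductive Letter
  | c | d | q | p | n | s
  deriving DecidableEq

/-- The generators: `c` is the rotation `(x, y, z) ↦ (z, x, y)`, `d` the half-turn
`(x, y, z) ↦ (x, -y, -z)`, `q` the quarter-turn `(x, y, z) ↦ (-y, x, z)`, `p` a rotation of order 5
about the line through `(0, 1, (1 + √5) / 2)`, `n` the central inversion and `s` the reflection
`(x, y, z) ↦ (y, x, z)`. -/
noncomputable def gen : Letter → Mat
  | .c => !![0, 0, 1; 1, 0, 0; 0, 1, 0]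
  | .d => !![1, 0, 0; 0, -1, 0; 0, 0, -1]
  | .q => !![0, -1, 0; 1, 0, 0; 0, 0, 1]
  | .p => !![(gr - 1) / 2, -gr / 2, 1 / 2; gr / 2, 1 / 2, (gr - 1) / 2; -1 / 2, (gr - 1) / 2, gr / 2]
  | .n => !![-1, 0, 0; 0, -1, 0; 0, 0, -1]
  | .s => !![0, 1, 0; 1, 0, 0; 0, 0, 1]

/-- The product of the generators named by a word. -/
noncomputable def ev (w : List Letter) : Mat := (w.map gen).prod

/-- The seven polyhedral groups: the rotation groups `T`, `O`, `I` of the tetrahedron, octahedron,
icosahedron, the full groups `Td`, `Oh`, `Ih` and the group `Th` generated by `T` and the central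
inversion. -/
inductive Tag
  | T | Th | Td | O | Oh | I | Ih
  deriving DecidableEq

/-- The letters of the generators of each group. -/
def Tag.letters : Tag → List Letter
  | .T => [.c, .d]
  | .Th => [.c, .d, .n]
  | .Td => [.c, .d, .s]
  | .O => [.c, .d, .q]
  | .Oh => [.c, .d, .q, .n]
  | .I => [.c, .d, .p]
  | .Ih => [.c, .d, .p, .n]

/-- The group of matrices generated by the generators of the tag. All generators have finite order,
so that the submonoid generated by them is a group. -/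
def Tag.group (t : Tag) : Submonoid Mat := Submonoid.closure {A | ∃ l ∈ t.letters, A = gen l}

end Pool.Agent.H38.FT
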