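import Pool.Agent.H38.FT.Table

/-!
# The list of the finite fully transitive polyhedra: items
-/

namespace Pool.Agent.H38.FT

open Matrix

/-- The three types of base faces of the one-parameter families. -/
inductive Kind
  | A | B | B'
  deriving DecidableEq

/-- The base face of the given type. -/
def Kind.face (k : Kind) (v : Fin 3 → ℝ) (σ a : Mat) : Set (Sym2 (Fin 3 → ℝ)) :=
  match k with
  | .A => faceA v σ a
  | .B => faceB v σ a
  | .B' => faceB v σ (σ * a)

/-- The base vertex with parameter `s`: `(1, s, 0)` for the groups `Th` and `Ih` and `(1, 1, s)` for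
the groups `Td` and `Oh`. -/
def Tag.vertex (t : Tag) (s : ℝ) : Fin 3 → ℝ :=
  match t with
  | .Th => ![1, s, 0]
  | .Ih => ![1, s, 0]
  | _ => ![1, 1, s]

/-- The range of the parameter: `0 < s ≤ 1` for `Th`; `0 < s`, `s ≠ gr` and `s ≠ 2 - gr` for `Ih`;
`0 < s` and `s ≠ 1` for `Td` and `Oh`. -/
def Tag.InRange (t : Tag) (s : ℝ) : Prop :=
  match t with
  | .Th => 0 < s ∧ s ≤ 1
  | .Ih => 0 < s ∧ s ≠ gr ∧ s ≠ 2 - gr
  | _ => 0 < s ∧ s ≠ 1

/-- An item of the list: a rigid polyhedron or a member of a one-parameter family (row of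
`familyList`, type of the base face, parameter). -/
inductive Item
  | rigid (e : Tag × Vtx × Word × Word × Word)
  | family (e : Tag × Word × Word) (k : Kind) (s : ℝ)

/-- The rigid item is in `rigidList`; the row of the family is in `familyList` and the parameter is
in the range. -/
def Item.Valid : Item → Prop
  | .rigid e => e ∈ rigidList
  | .family e _ s => e ∈ familyList ∧ e.1.InRange s

/-- The configuration of an item, in coordinates. -/
noncomputable def Item.cfg : Item → Cfg (Fin 3 → ℝ)
  | .rigid e => orbitCfg e.1 e.2.1.vec (faceC e.2.1.vec (ev e.2.2.1) (ev e.2.2.2.1) (ev e.2.2.2.2))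
  | .family e k s => orbitCfg e.1 (e.1.vertex s) (k.face (e.1.vertex s) (ev e.2.1) (ev e.2.2))

end Pool.Agent.H38.FT
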