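import Pool.Agent.H38.FT.Defs

/-!
Module M1: the finite groups of orthogonal 3 by 3 matrices without an invariant line. The theorem
to be proved (file `Pool/Agent/H38/FT/Groups.lean`, name `finite_groups`) is

theorem finite_groups (G : Set Mat) (hG : IsFinGroup G)
    (hirr : ∀ a : Fin 3 → ℝ, a ≠ 0 → ∃ A ∈ G, A *ᵥ a ≠ a ∧ A *ᵥ a ≠ -a) :
    ∃ U : Mat, Uᵀ * U = 1 ∧ ∃ t : Tag, ∀ M : Mat, M ∈ G ↔ Uᵀ * M * U ∈ t.group
-/

namespace Pool.Agent.H38.FT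

open Matrix

/-- A finite group of orthogonal matrices, as a set. -/
structure IsFinGroup (G : Set Mat) : Prop where
  fin : G.Finite
  one : (1 : Mat) ∈ G
  mul : ∀ A ∈ G, ∀ B ∈ G, A * B ∈ G
  orth : ∀ A ∈ G, Aᵀ * A = 1
  tr : ∀ A ∈ G, Aᵀ ∈ G

end Pool.Agent.H38.FT
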