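import Pool.Agent.H38.FT.Defs

/-!
Transport of the notions along bijections and similarities.
-/

namespace Pool.Agent.H38.FT

open Matrix

namespace Cfg

variable {X Y Z : Type*}

theorem map_map (P : Cfg X) (s : X → Y) (t : Y → Z) : (P.map s).map t = P.map (fun x => t (s x)) := by
  rcases P with ⟨V, E, F⟩
  simp only [map, Cfg.mk.injEq]
  refine ⟨?_, ?_, ?_⟩
  · rw [Set.image_image]
  · rw [Set.image_image]
    refine Set.image_congr fun e _ => ?_
    rw [Sym2.map_map]; rfl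
  · rw [Set.image_image]
    refine Set.image_congr fun f _ => ?_
    rw [Set.image_image]
    refine Set.image_congr fun e _ => ?_
    rw [Sym2.map_map]; rfl

theorem map_id' (P : Cfg X) : P.map (fun x => x) = P := by
  rcases P with ⟨V, E, F⟩
  have h : (Sym2.map (fun x : X => x)) = id := Sym2.map_id
  simp [map, h]

/-- The image of a triple. -/
def tmap (φ : X → Y) (A : Triple X) : Triple Y := (φ A.1, Sym2.map φ A.2.1, Sym2.map φ '' A.2.2)

variable {φ : X → Y}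

theorem tmap_flag (hφ : Function.Injective φ) (P : Cfg X) (A : Triple X) :
    (P.map φ).IsFlag (tmap φ A) ↔ P.IsFlag A := by
  have h1 := Sym2.map.injective hφ
  have h2 : Function.Injective (fun f : Set (Sym2 X) => Sym2.map φ '' f) :=
    Set.image_injective.2 h1
  unfold IsFlag tmap map
  simp only
  rw [hφ.mem_set_image, h1.mem_set_image, h1.mem_set_image, h2.mem_set_image]
  refine and_congr_right fun _ => and_congr_right fun _ => and_congr_right fun _ =>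
    and_congr_left fun _ => ?_
  rw [Sym2.mem_map]
  constructor
  · rintro ⟨a, ha, hab⟩
    rw [← hφ hab]; exact ha
  · intro h; exact ⟨_, h, rfl⟩

theorem exists_tmap {P : Cfg X} {B : Triple Y} (hB : (P.map φ).IsFlag B) : ∃ A, B = tmap φ A := by
  obtain ⟨h1, h2, h3, -, -⟩ := hB
  obtain ⟨a, -, ha⟩ := h1
  obtain ⟨e, -, he⟩ := h2
  obtain ⟨f, -, hf⟩ := h3
  refine ⟨(a, e, f), ?_⟩
  rcases B with ⟨b, c, d⟩
  simp only at ha he hf
  simp only [tmap, ha, he, hf]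

theorem tmap_adj (hφ : Function.Injective φ) {A B : Triple X} (h : Adjacent A B) :
    Adjacent (tmap φ A) (tmap φ B) := by
  have h1 := Sym2.map.injective hφ
  have h2 : Function.Injective (fun f : Set (Sym2 X) => Sym2.map φ '' f) :=
    Set.image_injective.2 h1
  unfold Adjacent tmap at *
  simp only
  rcases h with ⟨a, b, c⟩ | ⟨a, b, c⟩ | ⟨a, b, c⟩
  · exact Or.inl ⟨fun h => a (hφ h), by rw [b], by rw [c]⟩
  · exact Or.inr (Or.inl ⟨by rw [a], fun h => b (h1 h), by rw [c]⟩)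
  · exact Or.inr (Or.inr ⟨by rw [a], by rw [b], fun h => c (h2 h)⟩)

theorem tmap_common (hφ : Function.Injective φ) {A B C : Triple X} (h : HasCommon A B C) :
    HasCommon (tmap φ A) (tmap φ B) (tmap φ C) := by
  have h1 := Sym2.map.injective hφ
  have h2 : Function.Injective (fun f : Set (Sym2 X) => Sym2.map φ '' f) :=
    Set.image_injective.2 h1
  obtain ⟨a, b, c⟩ := h
  refine ⟨fun h => ?_, fun h => ?_, fun h => ?_⟩
  · exact congrArg φ (a (hφ h))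
  · exact congrArg (Sym2.map φ) (b (h1 h))
  · exact congrArg (fun f => Sym2.map φ '' f) (c (h2 h))

theorem IsPolyhedron.map (hφ : Function.Injective φ) {P : Cfg X} (hP : P.IsPolyhedron) :
    (P.map φ).IsPolyhedron where
  nonempty := hP.nonempty.image φ
  edge := by
    rintro _ ⟨e, he, rfl⟩
    obtain ⟨x, hx, y, hy, hxy, rfl⟩ := hP.edge e he
    exact ⟨φ x, ⟨x, hx, rfl⟩, φ y, ⟨y, hy, rfl⟩, fun h => hxy (hφ h), by simp⟩
  face := by
    rintro _ ⟨f, hf, rfl⟩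
    exact ⟨(hP.face f hf).1.image _, Set.image_mono (hP.face f hf).2⟩
  vertex := by
    rintro _ ⟨x, hx, rfl⟩
    obtain ⟨e, he, hxe⟩ := hP.vertex x hx
    exact ⟨_, ⟨e, he, rfl⟩, Sym2.mem_map.2 ⟨x, hxe, rfl⟩⟩
  diamond_edge := by
    rintro _ ⟨e, he, rfl⟩
    have h1 := Sym2.map.injective hφ
    have h2 : Function.Injective (fun f : Set (Sym2 X) => Sym2.map φ '' f) :=
      Set.image_injective.2 h1
    rw [← hP.diamond_edge e he, ← Set.ncard_image_of_injective _ h2]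
    congr 1
    ext g
    constructor
    · rintro ⟨⟨f, hf, rfl⟩, hg⟩
      exact ⟨f, ⟨hf, (h1.mem_set_image).1 hg⟩, rfl⟩
    · rintro ⟨f, ⟨hf, hef⟩, rfl⟩
      exact ⟨⟨f, hf, rfl⟩, ⟨e, hef, rfl⟩⟩
  diamond_face := by
    rintro _ ⟨f, hf, rfl⟩ z hz
    have h1 := Sym2.map.injective hφ
    obtain ⟨_, ⟨e, he, rfl⟩, hze⟩ := hz
    obtain ⟨x, hxe, rfl⟩ := Sym2.mem_map.1 hze
    rw [← hP.diamond_face f hf x ⟨e, he, hxe⟩, ← Set.ncard_image_of_injective _ h1]
    congr 1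
    ext g
    constructor
    · rintro ⟨⟨e', he', rfl⟩, hg⟩
      obtain ⟨x', hx', hxx⟩ := Sym2.mem_map.1 hg
      rw [hφ hxx] at hx'
      exact ⟨e', ⟨he', hx'⟩, rfl⟩
    · rintro ⟨e', ⟨he', hx'⟩, rfl⟩
      exact ⟨⟨e', he', rfl⟩, Sym2.mem_map.2 ⟨x, hx', rfl⟩⟩
  connected := by
    intro A' B' hA' hB'
    obtain ⟨A, rfl⟩ := exists_tmap hA'
    obtain ⟨B, rfl⟩ := exists_tmap hB'
    rw [tmap_flag hφ] at hA' hB'
    have h0 := hP.connected A B hA' hB'
    refine Relation.ReflTransGen.lift (r := fun C D => P.IsFlag C ∧ P.IsFlag D ∧ Adjacent C D ∧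
      HasCommon A B D) (tmap φ) ?_ _ _ h0
    rintro C D ⟨hC, hD, hCD, hc⟩
    exact ⟨(tmap_flag hφ P C).2 hC, (tmap_flag hφ P D).2 hD, tmap_adj hφ hCD, tmap_common hφ hc⟩

end Cfg

/-- Full transitivity is preserved by similarities. -/
theorem FullyTransitive.map {P : Cfg E3} (hP : FullyTransitive P) {r : ℝ} (hr : 0 < r)
    (g : E3 ≃ᵢ E3) : FullyTransitive (P.map (fun x => r • g x)) := by
  set φ : E3 → E3 := fun x => r • g x with hφ
  -- conjugation
  have key : ∀ h : E3 ≃ᵢ E3, P.map h = P → ∃ k : E3 ≃ᵢ E3, (P.map φ).map k = P.map φ ∧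
      ∀ x, k (φ x) = φ (h x) := by
    intro h hh
    have hiso : Isometry (fun y : E3 => r • g (h (g.symm (r⁻¹ • y)))) := by
      refine Isometry.of_dist_eq fun y z => ?_
      rw [dist_smul₀, g.isometry.dist_eq, h.isometry.dist_eq, g.symm.isometry.dist_eq, dist_smul₀]
      rw [← mul_assoc, ← norm_mul, mul_inv_cancel₀ hr.ne', norm_one, one_mul]
    let k : E3 ≃ᵢ E3 := IsometryEquiv.mk' (fun y => r • g (h (g.symm (r⁻¹ • y))))
      (fun y => r • g (h.symm (g.symm (r⁻¹ • y)))) (fun y => by simp [smul_smul, hr.ne']) hiso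
    have hk : ∀ x, k (φ x) = φ (h x) := by
      intro x
      change r • g (h (g.symm (r⁻¹ • (r • g x)))) = r • g (h x)
      rw [smul_smul, inv_mul_cancel₀ hr.ne', one_smul, IsometryEquiv.symm_apply_apply]
    refine ⟨k, ?_, hk⟩
    rw [Cfg.map_map]
    have : (fun x => k (φ x)) = fun x => φ (h x) := funext hk
    rw [this, ← Cfg.map_map, hh]
  have hs : ∀ (h k : E3 ≃ᵢ E3), (∀ x, k (φ x) = φ (h x)) → ∀ e : Sym2 E3,
      Sym2.map k (Sym2.map φ e) = Sym2.map φ (Sym2.map h e) := by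
    intro h k hk e
    rw [Sym2.map_map, Sym2.map_map]
    congr 1
    exact funext hk
  refine ⟨?_, ?_, ?_⟩
  · rintro _ ⟨x, hx, rfl⟩ _ ⟨y, hy, rfl⟩
    obtain ⟨h, hh, hxy⟩ := hP.1 x hx y hy
    obtain ⟨k, hk1, hk2⟩ := key h hh
    exact ⟨k, hk1, by rw [hk2, hxy]⟩
  · rintro _ ⟨x, hx, rfl⟩ _ ⟨y, hy, rfl⟩
    obtain ⟨h, hh, hxy⟩ := hP.2.1 x hx y hy
    obtain ⟨k, hk1, hk2⟩ := key h hh
    exact ⟨k, hk1, by rw [hs h k hk2, hxy]⟩
  · rintro _ ⟨x, hx, rfl⟩ _ ⟨y, hy, rfl⟩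
    obtain ⟨h, hh, hxy⟩ := hP.2.2 x hx y hy
    obtain ⟨k, hk1, hk2⟩ := key h hh
    refine ⟨k, hk1, ?_⟩
    change Sym2.map k '' (Sym2.map φ '' x) = Sym2.map φ '' y
    rw [← hxy, Set.image_image, Set.image_image]
    exact Set.image_congr fun e _ => hs h k hk2 e

/-- An orthogonal matrix gives an isometry of `E3`. -/
theorem exists_iso {A : Mat} (hA : Aᵀ * A = 1) :
    ∃ k : E3 ≃ᵢ E3, ∀ v : Fin 3 → ℝ, k (WithLp.toLp 2 v) = WithLp.toLp 2 (A *ᵥ v) := by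
  have hA' : A * Aᵀ = 1 := mul_eq_one_comm.1 hA
  have hn : ∀ v : Fin 3 → ℝ, ‖(WithLp.toLp 2 (A *ᵥ v) : E3)‖ = ‖(WithLp.toLp 2 v : E3)‖ := by
    intro v
    have h1 : ∀ w : Fin 3 → ℝ, ‖(WithLp.toLp 2 w : E3)‖ ^ 2 = w ⬝ᵥ w := by
      intro w
      rw [EuclideanSpace.norm_sq_eq]
      simp [dotProduct, sq]
    have h2 : (A *ᵥ v) ⬝ᵥ (A *ᵥ v) = v ⬝ᵥ v := by
      rw [dotProduct_mulVec, vecMul_mulVec, hA, ← dotProduct_mulVec, one_mulVec]
    have h3 : ‖(WithLp.toLp 2 (A *ᵥ v) : E3)‖ ^ 2 = ‖(WithLp.toLp 2 v : E3)‖ ^ 2 := by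
      rw [h1, h1, h2]
    exact (pow_left_inj₀ (norm_nonneg _) (norm_nonneg _) two_ne_zero).1 h3
  have hiso : Isometry (fun y : E3 => (WithLp.toLp 2 (A *ᵥ (WithLp.ofLp y)) : E3)) := by
    refine Isometry.of_dist_eq fun y z => ?_
    rw [dist_eq_norm, dist_eq_norm, ← WithLp.toLp_sub, ← mulVec_sub, hn]
    rfl
  refine ⟨IsometryEquiv.mk' (fun y : E3 => (WithLp.toLp 2 (A *ᵥ (WithLp.ofLp y)) : E3))
    (fun y => WithLp.toLp 2 (Aᵀ *ᵥ (WithLp.ofLp y))) (fun y => ?_) hiso, fun v => rfl⟩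
  simp only [mulVec_mulVec, hA', one_mulVec]

end Pool.Agent.H38.FT
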