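import Pool.Agent.H38.FT.Comb

/-!
Vertex degrees are at least 3, and two consecutive edges determine their face.
-/

namespace Pool.Agent.H38.FT

namespace Cfg

variable {X Y : Type*} {P : Cfg X}

/-- a vertex with at least three neighbours -/
def Deg3 (P : Cfg X) (x : X) : Prop :=
  ∃ y₁ y₂ y₃, y₁ ≠ y₂ ∧ y₁ ≠ y₃ ∧ y₂ ≠ y₃ ∧ s(x, y₁) ∈ P.E ∧ s(x, y₂) ∈ P.E ∧ s(x, y₃) ∈ P.E

theorem map_E_mem {t : X → X} (ht : P.map t = P) {x y : X} (he : s(x, y) ∈ P.E) :
    s(t x, t y) ∈ P.E := by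
  have : s(t x, t y) ∈ (P.map t).E := ⟨s(x, y), he, rfl⟩
  rwa [ht] at this

theorem map_F_mem {t : X → X} (ht : P.map t = P) {f : Set (Sym2 X)} (hf : f ∈ P.F) :
    Sym2.map t '' f ∈ P.F := by
  have : Sym2.map t '' f ∈ (P.map t).F := ⟨f, hf, rfl⟩
  rwa [ht] at this

theorem map_V_mem {t : X → X} (ht : P.map t = P) {x : X} (hx : x ∈ P.V) : t x ∈ P.V := by
  have : t x ∈ (P.map t).V := ⟨x, hx, rfl⟩
  rwa [ht] at this

/-- vertex-transitivity by injective symmetries -/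
def VTrans (P : Cfg X) : Prop :=
  ∀ x ∈ P.V, ∀ y ∈ P.V, ∃ g : X → X, Function.Injective g ∧ P.map g = P ∧ g x = y

theorem deg3_all (hT : P.VTrans) {x : X} (hx : x ∈ P.V) (h3 : P.Deg3 x) :
    ∀ y ∈ P.V, P.Deg3 y := by
  intro y hy
  obtain ⟨g, hg, hmap, hgx⟩ := hT x hx y hy
  obtain ⟨y₁, y₂, y₃, h12, h13, h23, e1, e2, e3⟩ := h3
  refine ⟨g y₁, g y₂, g y₃, fun h => h12 (hg h), fun h => h13 (hg h), fun h => h23 (hg h), ?_, ?_, ?_⟩
  · rw [← hgx]; exact map_E_mem hmap e1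
  · rw [← hgx]; exact map_E_mem hmap e2
  · rw [← hgx]; exact map_E_mem hmap e3

theorem IsPolyhedron.deg3 (h : P.IsPolyhedron) (hT : P.VTrans) : ∀ x ∈ P.V, P.Deg3 x := by
  by_contra hcon
  push Not at hcon
  obtain ⟨x₀, hx₀, hn⟩ := hcon
  have hnone : ∀ x ∈ P.V, ¬ P.Deg3 x := fun x hx h3 => hn (deg3_all hT hx h3 x₀ hx₀)
  -- in a face, all edges at a vertex of the face belong to the face
  have hall : ∀ f ∈ P.F, ∀ x y, s(x, y) ∈ f → ∀ z, s(y, z) ∈ P.E → s(y, z) ∈ f := by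
    intro f hf x y hxy z hz
    obtain ⟨t, htx, ht, -⟩ := h.next hf hxy
    by_cases h1 : z = x
    · rw [h1, Sym2.eq_swap]; exact hxy
    by_cases h2 : z = t
    · rw [h2]; exact ht
    exfalso
    refine hnone y (h.right_mem (h.face_sub hf hxy)) ⟨x, t, z, htx.symm, fun h => h1 h.symm,
      fun h => h2 h.symm, ?_, h.face_sub hf ht, hz⟩
    rw [Sym2.eq_swap]; exact h.face_sub hf hxy
  obtain ⟨e, he, -⟩ := h.vertex x₀ hx₀
  obtain ⟨f, g, hfg, hf, hg, hef, heg, -⟩ := h.two_faces he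
  have hsub : ∀ f ∈ P.F, ∀ g ∈ P.F, e ∈ f → e ∈ g → f ⊆ g := by
    intro f hf g hg hef heg
    refine h.face_induct hf g hef heg ?_
    intro a hag haf b hbf x hxa hxb
    obtain ⟨y, rfl⟩ := Sym2.mem_iff_exists.1 hxa
    obtain ⟨z, rfl⟩ := Sym2.mem_iff_exists.1 hxb
    refine hall g hg y x ?_ z (h.face_sub hf hbf)
    rw [Sym2.eq_swap]; exact hag
  exact hfg (Set.Subset.antisymm (hsub f hf g hg hef heg) (hsub g hg f hf heg hef))

/-- Two consecutive edges determine their face. -/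
theorem IsPolyhedron.corner_unique (h : P.IsPolyhedron) {x y z : X} (h3 : P.Deg3 y) (hxz : x ≠ z)
    {f g : Set (Sym2 X)} (hf : f ∈ P.F) (hg : g ∈ P.F) (hfx : s(x, y) ∈ f) (hfz : s(y, z) ∈ f)
    (hgx : s(x, y) ∈ g) (hgz : s(y, z) ∈ g) : f = g := by
  by_contra hne
  -- the faces containing one of the two edges
  have two : ∀ e, e ∈ f → e ∈ g → ∀ k ∈ P.F, e ∈ k → k = f ∨ k = g := by
    intro e hef heg k hk hek
    obtain ⟨f', g', hne', hf', hg', -, -, hall⟩ := h.two_faces (h.face_sub hf hef)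
    rcases hall f hf hef with h1 | h1 <;> rcases hall g hg heg with h2 | h2 <;>
      rcases hall k hk hek with h4 | h4
    · exact absurd (h1.trans h2.symm) hne
    · exact absurd (h1.trans h2.symm) hne
    · left; rw [h1, h4]
    · right; rw [h2, h4]
    · right; rw [h2, h4]
    · left; rw [h1, h4]
    · exact absurd (h1.trans h2.symm) hne
    · exact absurd (h1.trans h2.symm) hne
  -- the edges of f, g at y
  have edges : ∀ k, k ∈ P.F → s(x, y) ∈ k → s(y, z) ∈ k → ∀ t, s(y, t) ∈ k → t = x ∨ t = z := by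
    intro k hk hx hz t ht
    obtain ⟨z', hz'x, -, hall⟩ := h.next hk hx
    rcases hall z hz with h1 | h1
    · exact absurd h1.symm hxz
    · rcases hall t ht with h2 | h2
      · exact Or.inl h2
      · right; rw [h2, h1]
  have hcl := h.vertex_induct (x := y) ({s(x, y), s(y, z)} : Set (Sym2 X)) (e := s(x, y))
    (h.face_sub hf hfx) (Sym2.mem_mk_right x y) (by simp) (by
      intro a ha haE hya b hbE hyb k hk hak hbk
      have hk' : k = f ∨ k = g := by
        rcases ha with rfl | ha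
        · exact two _ hfx hgx k hk hak
        · rw [Set.mem_singleton_iff] at ha
          subst ha
          exact two _ hfz hgz k hk hak
      obtain ⟨t, rfl⟩ := Sym2.mem_iff_exists.1 hyb
      have : t = x ∨ t = z := by
        rcases hk' with rfl | rfl
        · exact edges _ hf hfx hfz t hbk
        · exact edges _ hg hgx hgz t hbk
      rcases this with rfl | rfl
      · left; exact Sym2.eq_swap
      · right; rfl)
  obtain ⟨y₁, y₂, y₃, h12, h13, h23, e1, e2, e3⟩ := h3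
  have hh : ∀ t, s(y, t) ∈ P.E → t = x ∨ t = z := by
    intro t ht
    rcases hcl _ ht (Sym2.mem_mk_left y t) with h1 | h1
    · left
      rw [Sym2.eq_iff] at h1
      rcases h1 with ⟨h1, h2⟩ | ⟨h1, h2⟩
      · rw [h2, h1]
      · exact h2
    · right
      rw [Set.mem_singleton_iff, Sym2.eq_iff] at h1
      rcases h1 with ⟨h1, h2⟩ | ⟨h1, h2⟩
      · exact h2
      · rw [h2, h1]
  rcases hh _ e1 with a1 | a1 <;> rcases hh _ e2 with a2 | a2 <;> rcases hh _ e3 with a3 | a3 <;>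
    simp_all

end Cfg

end Pool.Agent.H38.FT
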