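import Pool.Agent.H38.FT.Code

/-!
Elementary facts on the bit operations of the search.
-/

namespace Pool.Agent.H38.FT.Code

theorem tb_eq (m i : ℕ) : tb m i = m.testBit i := by
  unfold tb
  rw [Nat.testBit_eq_decide_div_mod_eq, Nat.shiftRight_eq_div_pow]
  by_cases h : m / 2 ^ i % 2 = 1
  · simp [h]
  · have h2 : (m / 2 ^ i % 2).beq 1 = false := by
      cases hb : (m / 2 ^ i % 2).beq 1
      · rfl
      · exact absurd (Nat.eq_of_beq_eq_true hb) h
    simp [h, h2]

theorem tb_zero (i : ℕ) : tb 0 i = false := by rw [tb_eq]; simp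

theorem tb_or (a b i : ℕ) : tb (a ||| b) i = (tb a i || tb b i) := by
  rw [tb_eq, tb_eq, tb_eq]; simp

theorem tb_one_shift (k i : ℕ) : tb (1 <<< k) i = true ↔ i = k := by
  rw [tb_eq, Nat.one_shiftLeft, Nat.testBit_two_pow]
  simp [eq_comm]

theorem tb_cond_shift (c : Bool) (k i : ℕ) :
    tb (cond c (1 <<< k) 0) i = true ↔ c = true ∧ i = k := by
  cases c
  · simp [tb_zero]
  · simp [tb_one_shift]

theorem ec_eq_iff {a b c d : ℕ} (ha : a < 64) (hb : b < 64) (hc : c < 64) (hd : d < 64) :
    ec a b = ec c d ↔ (a = c ∧ b = d) ∨ (a = d ∧ b = c) := by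
  unfold ec
  cases h1 : Nat.ble a b <;> cases h2 : Nat.ble c d <;>
    simp only [cond_true, cond_false] <;>
    simp only [Nat.ble_eq, Bool.eq_false_iff, ne_eq, not_le] at h1 h2 <;> omega

theorem ec_lt {a b : ℕ} (ha : a < 64) (hb : b < 64) : ec a b < 4096 := by
  unfold ec
  cases h1 : Nat.ble a b <;> simp only [cond_true, cond_false] <;> omega

theorem ec_comm (a b : ℕ) : ec a b = ec b a := by
  unfold ec
  cases h1 : Nat.ble a b <;> cases h2 : Nat.ble b a <;>
    simp only [cond_true, cond_false] <;>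
    simp only [Nat.ble_eq, Bool.eq_false_iff, ne_eq, not_le] at h1 h2 <;> omega

theorem mem_iff (x : ℕ) (l : List ℕ) : mem x l = true ↔ x ∈ l := by
  induction l with
  | nil => simp [mem]
  | cons y l ih =>
    unfold mem
    cases h : Nat.beq x y
    · simp only [cond_false, ih, List.mem_cons]
      have : x ≠ y := by
        intro hxy; rw [hxy] at h; simp at h
      simp [this]
    · simp only [cond_true, List.mem_cons, true_iff]
      left; exact Nat.eq_of_beq_eq_true h

theorem nbm_iff (u x y : ℕ) (l : List ℕ) : tb (nbm u x l) y = true ↔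
    ∃ p ∈ l, (act p 0 = x ∧ act p u = y) ∨ (act p u = x ∧ act p 0 = y) := by
  induction l with
  | nil => simp [nbm, tb_zero]
  | cons p l ih =>
    unfold nbm
    rw [tb_or, tb_or, Bool.or_eq_true, Bool.or_eq_true, tb_cond_shift, tb_cond_shift, ih]
    simp only [Nat.beq_eq, List.mem_cons, exists_eq_or_imp]
    constructor
    · rintro ((⟨h1, h2⟩ | ⟨h1, h2⟩) | h)
      · left; left; exact ⟨h1, h2.symm⟩
      · left; right; exact ⟨h1, h2.symm⟩
      · right; exact h
    · rintro ((⟨h1, h2⟩ | ⟨h1, h2⟩) | h)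
      · left; left; exact ⟨h1, h2.symm⟩
      · left; right; exact ⟨h1, h2.symm⟩
      · right; exact h

theorem nbW_iff (v t : ℕ) (l : List (ℕ × ℕ)) : tb (nbW v l) t = true ↔
    (v, t) ∈ l ∨ (t, v) ∈ l := by
  induction l with
  | nil => simp [nbW, tb_zero]
  | cons e l ih =>
    unfold nbW
    rw [tb_or, tb_or, Bool.or_eq_true, Bool.or_eq_true, tb_cond_shift, tb_cond_shift, ih]
    obtain ⟨a, b⟩ := e
    simp only [Nat.beq_eq, List.mem_cons, Prod.mk.injEq]
    constructor
    · rintro ((⟨h1, h2⟩ | ⟨h1, h2⟩) | h)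
      · left; left; exact ⟨h1.symm, h2⟩
      · right; left; exact ⟨h2, h1.symm⟩
      · rcases h with h | h
        · left; right; exact h
        · right; right; exact h
    · rintro ((⟨h1, h2⟩ | h) | (⟨h1, h2⟩ | h))
      · left; left; exact ⟨h1.symm, h2⟩
      · right; left; exact h
      · left; right; exact ⟨h2.symm, h1⟩
      · right; right; exact h

theorem mask_iff (p k : ℕ) (l : List (ℕ × ℕ)) : tb (mask p l) k = true ↔
    ∃ e ∈ l, ec (act p e.1) (act p e.2) = k := by
  induction l with
  | nil => simp [mask, tb_zero]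
  | cons e l ih =>
    unfold mask
    rw [tb_or, Bool.or_eq_true, tb_one_shift, ih]
    simp only [List.mem_cons, exists_eq_or_imp]
    constructor
    · rintro (h | h)
      · left; exact h.symm
      · right; exact h
    · rintro (h | h)
      · left; exact h.symm
      · right; exact h

theorem masks_eq (W : List (ℕ × ℕ)) (l : List ℕ) : masks W l = l.map (fun p => mask p W) := by
  induction l with
  | nil => rfl
  | cons p l ih =>
    unfold masks
    rw [force_eq, ih]; rfl

theorem cnt_two {m n : ℕ} (h : cnt m (List.range n) = 2) :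
    ∃ t₁ < n, ∃ t₂ < n, t₁ ≠ t₂ ∧ tb m t₁ = true ∧ tb m t₂ = true := by
  unfold cnt at h
  obtain ⟨a, b, hab⟩ := List.length_eq_two.1 h
  have hnd : ((List.range n).filter (fun v => tb m v)).Nodup := List.nodup_range.filter _
  have ha : a ∈ (List.range n).filter (fun v => tb m v) := by rw [hab]; simp
  have hb : b ∈ (List.range n).filter (fun v => tb m v) := by rw [hab]; simp
  rw [List.mem_filter, List.mem_range] at ha hb
  refine ⟨a, ha.1, b, hb.1, ?_, ha.2, hb.2⟩
  rw [hab] at hnd
  rintro rfl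
  simp at hnd

theorem cnt_three {m n : ℕ} (h : 3 ≤ cnt m (List.range n)) :
    ∃ t₁ < n, ∃ t₂ < n, ∃ t₃ < n, t₁ ≠ t₂ ∧ t₁ ≠ t₃ ∧ t₂ ≠ t₃ ∧
      tb m t₁ = true ∧ tb m t₂ = true ∧ tb m t₃ = true := by
  unfold cnt at h
  have hnd : ((List.range n).filter (fun v => tb m v)).Nodup := List.nodup_range.filter _
  have hm : ∀ a ∈ (List.range n).filter (fun v => tb m v), a < n ∧ tb m a = true := by
    intro a ha
    rw [List.mem_filter, List.mem_range] at ha
    exact ha
  generalize (List.range n).filter (fun v => tb m v) = l at *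
  match l, h, hnd, hm with
  | a :: b :: c :: l', _, hnd, hm =>
    have ha := hm a (by simp)
    have hb := hm b (by simp)
    have hc := hm c (by simp)
    simp only [List.nodup_cons, List.mem_cons, not_or] at hnd
    exact ⟨a, ha.1, b, hb.1, c, hc.1, hnd.1.1, hnd.1.2.1, hnd.2.1.1, ha.2, hb.2, hc.2⟩

theorem three_cnt {m n a b c : ℕ} (ha : a < n) (hb : b < n) (hc : c < n) (hab : a ≠ b)
    (hac : a ≠ c) (hbc : b ≠ c) (ta : tb m a = true) (tb' : tb m b = true)
    (tc : tb m c = true) : 3 ≤ cnt m (List.range n) := by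
  unfold cnt
  have hsub : ({a, b, c} : Finset ℕ) ⊆ ((List.range n).filter (fun v => tb m v)).toFinset := by
    intro x hx
    simp only [Finset.mem_insert, Finset.mem_singleton] at hx
    rw [List.mem_toFinset, List.mem_filter, List.mem_range]
    rcases hx with rfl | rfl | rfl
    · exact ⟨ha, ta⟩
    · exact ⟨hb, tb'⟩
    · exact ⟨hc, tc⟩
  have h1 := Finset.card_le_card hsub
  have h2 : ({a, b, c} : Finset ℕ).card = 3 := by
    rw [Finset.card_eq_three]
    exact ⟨a, b, c, hab, hac, hbc, rfl⟩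
  rw [h2] at h1
  exact h1.trans (List.toFinset_card_le _)

end Pool.Agent.H38.FT.Code
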