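import Pool.Agent.H38.FT.Size

/-!
Sums over the corners of a configuration at a vertex.
-/

namespace Pool.Agent.H38.FT

open Matrix Code

/-- `y, z` are different neighbours of `x` and the edges `{x, y}`, `{x, z}` are in a common face -/
def Corner {X : Type*} (P : Cfg X) (x : X) (p : X × X) : Prop :=
  p.1 ≠ p.2 ∧ ∃ f ∈ P.F, s(x, p.1) ∈ f ∧ s(x, p.2) ∈ f

/-- sum of the products `y · z` over the corners `(y, z)` at `x` -/
noncomputable def csum (P : Cfg (Fin 3 → ℝ)) (x : Fin 3 → ℝ) : ℝ :=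
  ∑ᶠ p ∈ {p | Corner P x p}, p.1 ⬝ᵥ p.2

theorem corner_map {X Y : Type*} {P : Cfg X} {t : X → Y} (ht : Function.Injective t) (x : X) :
    {p | Corner (P.map t) (t x) p} = Prod.map t t '' {p | Corner P x p} := by
  have key : ∀ (f : Set (Sym2 X)) (y : Y), s(t x, y) ∈ Sym2.map t '' f →
      ∃ z, y = t z ∧ s(x, z) ∈ f := by
    rintro f y ⟨e, he, h⟩
    induction e using Sym2.ind with
    | _ a b =>
      rw [Sym2.map_mk, Sym2.eq_iff] at h
      rcases h with ⟨h1, h2⟩ | ⟨h1, h2⟩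
      · refine ⟨b, h2.symm, ?_⟩
        rw [← ht h1]; exact he
      · refine ⟨a, h1.symm, ?_⟩
        rw [← ht h2, Sym2.eq_swap]; exact he
  ext ⟨y, z⟩
  constructor
  · rintro ⟨hne, f', ⟨f, hf, rfl⟩, h1, h2⟩
    obtain ⟨y', rfl, hy⟩ := key f _ h1
    obtain ⟨z', rfl, hz⟩ := key f _ h2
    exact ⟨(y', z'), ⟨fun h => hne (congrArg t h), f, hf, hy, hz⟩, rfl⟩
  · rintro ⟨⟨y', z'⟩, ⟨hne, f, hf, h1, h2⟩, h⟩
    simp only [Prod.map_apply, Prod.mk.injEq] at h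
    obtain ⟨rfl, rfl⟩ := h
    exact ⟨fun h => hne (ht h), _, ⟨f, hf, rfl⟩, ⟨_, h1, rfl⟩, ⟨_, h2, rfl⟩⟩

theorem csum_map {P : Cfg (Fin 3 → ℝ)} {t : (Fin 3 → ℝ) → (Fin 3 → ℝ)}
    (ht : Function.Injective t) {k : ℝ} (hk : ∀ y z, t y ⬝ᵥ t z = k * (y ⬝ᵥ z))
    (x : Fin 3 → ℝ) : csum (P.map t) (t x) = k * csum P x := by
  unfold csum
  rw [corner_map ht x, finsum_mem_image (ht.prodMap ht).injOn, ← smul_eq_mul, smul_finsum]
  apply finsum_congr
  intro p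
  rw [smul_finsum]
  apply finsum_congr
  intro _
  exact hk p.1 p.2

/-- the corner `j, k` at the vertex 0 in coded form -/
def corner0 (L : List ℕ) (p : ℕ × ℕ) : Bool :=
  !(Nat.beq p.1 p.2) && L.any fun m => tb m (ec 0 p.1) && tb m (ec 0 p.2)

/-- the list of the neighbours of the vertex 0 in coded form -/
def nb0 (n : ℕ) (L : List ℕ) : List ℕ := (List.range n).filter fun j => L.any fun m => tb m (ec 0 j)

theorem nb0_nodup (n : ℕ) (L : List ℕ) : (nb0 n L).Nodup := List.nodup_range.filter _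

theorem mem_nb0 {n : ℕ} {L : List ℕ} {j : ℕ} :
    j ∈ nb0 n L ↔ j < n ∧ ∃ m ∈ L, tb m (ec 0 j) = true := by
  unfold nb0
  simp only [List.mem_filter, List.mem_range, List.any_eq_true]

/-- the corners at the vertex 0 in coded form -/
def corners0 (n : ℕ) (L : List ℕ) : List (ℕ × ℕ) :=
  (nb0 n L ×ˢ nb0 n L).filter (corner0 L)

theorem corners0_nodup (n : ℕ) (L : List ℕ) : (corners0 n L).Nodup :=
  ((nb0_nodup n L).product (nb0_nodup n L)).filter _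

theorem mem_corners0 {n : ℕ} {L : List ℕ} {p : ℕ × ℕ} : p ∈ corners0 n L ↔
    (p.1 < n ∧ p.2 < n) ∧ p.1 ≠ p.2 ∧ ∃ m ∈ L, tb m (ec 0 p.1) = true ∧
      tb m (ec 0 p.2) = true := by
  obtain ⟨j, k⟩ := p
  unfold corners0 corner0
  simp only [List.mem_filter, List.mem_product, mem_nb0, Bool.and_eq_true, Bool.not_eq_true',
    List.any_eq_true]
  constructor
  · rintro ⟨⟨⟨h1, -⟩, h2, -⟩, h3, h4⟩
    refine ⟨⟨h1, h2⟩, ?_, h4⟩
    intro h
    rw [h] at h3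
    simp at h3
  · rintro ⟨⟨h1, h2⟩, h3, m, hm, h4, h5⟩
    refine ⟨⟨⟨h1, m, hm, h4⟩, h2, m, hm, h5⟩, ?_, m, hm, h4, h5⟩
    cases hb : Nat.beq j k
    · rfl
    · exact absurd (Nat.eq_of_beq_eq_true hb) h3

theorem mem_dec {X : Type*} {n : ℕ} {pt : ℕ → X}
    (hinj : ∀ i < n, ∀ j < n, pt i = pt j → i = j) {m i : ℕ} (hi : i < n) {y : X} :
    s(pt i, y) ∈ dec n pt m ↔ ∃ j < n, y = pt j ∧ tb m (ec i j) = true := by
  constructor
  · rintro ⟨a, ha, b, hb, htb, he⟩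
    rw [Sym2.eq_iff] at he
    rcases he with ⟨e1, e2⟩ | ⟨e1, e2⟩
    · rw [hinj _ hi _ ha e1]
      exact ⟨b, hb, e2, htb⟩
    · rw [hinj _ hi _ hb e1]
      refine ⟨a, ha, e2, ?_⟩
      rw [ec_comm]; exact htb
  · rintro ⟨j, hj, rfl, htb⟩
    exact ⟨i, hi, j, hj, htb, rfl⟩

theorem csum_cfgOf {n : ℕ} {pt : ℕ → Fin 3 → ℝ} {L : List ℕ}
    (hinj : ∀ i < n, ∀ j < n, pt i = pt j → i = j) (h0 : 0 < n) :
    csum (cfgOf n pt L) (pt 0) = ((corners0 n L).map fun p => pt p.1 ⬝ᵥ pt p.2).sum := by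
  have hset : {p | Corner (cfgOf n pt L) (pt 0) p} =
      (fun p : ℕ × ℕ => (pt p.1, pt p.2)) '' {p | p ∈ corners0 n L} := by
    ext ⟨y, z⟩
    constructor
    · rintro ⟨hne, f, ⟨m, hm, rfl⟩, h1, h2⟩
      simp only at h1 h2 hne
      rw [mem_dec hinj h0] at h1 h2
      obtain ⟨j, hj, rfl, hb1⟩ := h1
      obtain ⟨k, hk, rfl, hb2⟩ := h2
      refine ⟨(j, k), ?_, rfl⟩
      exact mem_corners0.2 ⟨⟨hj, hk⟩, fun h => hne (congrArg pt h), m, hm, hb1, hb2⟩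
    · rintro ⟨⟨j, k⟩, hjk, h⟩
      simp only [Prod.mk.injEq] at h
      obtain ⟨rfl, rfl⟩ := h
      obtain ⟨⟨hj, hk⟩, hne, m, hm, hb1, hb2⟩ := mem_corners0.1 hjk
      exact ⟨fun h => hne (hinj j hj k hk h), _, ⟨m, hm, rfl⟩,
        (mem_dec hinj h0).2 ⟨j, hj, rfl, hb1⟩, (mem_dec hinj h0).2 ⟨k, hk, rfl, hb2⟩⟩
  have hI : Set.InjOn (fun p : ℕ × ℕ => (pt p.1, pt p.2)) {p | p ∈ corners0 n L} := by
    rintro ⟨j, k⟩ h1 ⟨j', k'⟩ h2 h
    simp only [Prod.mk.injEq] at h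
    have h3 := mem_corners0.1 h1
    have h4 := mem_corners0.1 h2
    rw [hinj j h3.1.1 j' h4.1.1 h.1, hinj k h3.1.2 k' h4.1.2 h.2]
  unfold csum
  rw [hset, finsum_mem_image hI, ← List.sum_toFinset _ (corners0_nodup n L),
    ← finsum_mem_coe_finset]
  apply finsum_congr
  intro p
  simp

/-- coefficients of a quadratic form -/
abbrev Q3 := Z2 × Z2 × Z2

/-- four times the product of two coded points -/
def qd (u w : V3) : Q3 :=
  (zadd (zmul u.a0 w.a0) (zadd (zmul u.a1 w.a1) (zmul u.a2 w.a2)),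
   zadd (zadd (zmul u.a0 w.b0) (zmul u.b0 w.a0)) (zadd (zadd (zmul u.a1 w.b1) (zmul u.b1 w.a1))
     (zadd (zmul u.a2 w.b2) (zmul u.b2 w.a2))),
   zadd (zmul u.b0 w.b0) (zadd (zmul u.b1 w.b1) (zmul u.b2 w.b2)))

/-- value of a quadratic form -/
noncomputable def val3 (q : Q3) (x y : ℝ) : ℝ :=
  val q.1 * x ^ 2 + val q.2.1 * (x * y) + val q.2.2 * y ^ 2

theorem qd_eval (u w : V3) (x y : ℝ) : 4 * (u.toR x y ⬝ᵥ w.toR x y) = val3 (qd u w) x y := by
  unfold val3 qd V3.toR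
  simp only [val_add, val_mul, dotProduct, Fin.sum_univ_three]
  simp
  ring

/-- sum of coded quadratic forms over a list -/
def qsum (M : Model) : List (ℕ × ℕ) → Q3
  | [] => ((0, 0), (0, 0), (0, 0))
  | p :: l => (zadd (qd (M.pts.getD p.1 default) (M.pts.getD p.2 default)).1 (qsum M l).1,
      zadd (qd (M.pts.getD p.1 default) (M.pts.getD p.2 default)).2.1 (qsum M l).2.1,
      zadd (qd (M.pts.getD p.1 default) (M.pts.getD p.2 default)).2.2 (qsum M l).2.2)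

theorem qsum_eval (M : Model) (l : List (ℕ × ℕ)) (x y : ℝ) :
    4 * (l.map fun p => M.pt x y p.1 ⬝ᵥ M.pt x y p.2).sum = val3 (qsum M l) x y := by
  induction l with
  | nil =>
    unfold qsum val3 val
    simp
  | cons p l ih =>
    have hq : qsum M (p :: l) =
      (zadd (qd (M.pts.getD p.1 default) (M.pts.getD p.2 default)).1 (qsum M l).1,
      zadd (qd (M.pts.getD p.1 default) (M.pts.getD p.2 default)).2.1 (qsum M l).2.1,
      zadd (qd (M.pts.getD p.1 default) (M.pts.getD p.2 default)).2.2 (qsum M l).2.2) := rfl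
    rw [List.map_cons, List.sum_cons, mul_add, ih, hq]
    unfold Model.pt
    rw [qd_eval]
    unfold val3
    simp only [val_add]
    ring

theorem csum_eval {M : Model} {L : List ℕ} {x y : ℝ}
    (hinj : ∀ i < M.n, ∀ j < M.n, M.pt x y i = M.pt x y j → i = j) (h0 : 0 < M.n) :
    4 * csum (cfgOf M.n (M.pt x y) L) (M.pt x y 0) = val3 (qsum M (corners0 M.n L)) x y := by
  rw [csum_cfgOf hinj h0, qsum_eval]

end Pool.Agent.H38.FT
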