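import Pool.Agent.H38.FT.Model

/-!
Group elements with fixed vectors, up to conjugation and powers.
-/

namespace Pool.Agent.H38.FT

open Matrix Code

/-- A witness `(p, q, k, R)`: the element coded by `q` conjugates the `k`-th power of the element
coded by `p` into the element named by the word `R`. -/
abbrev Wit := ℕ × ℕ × ℕ × List Letter

namespace Model

/-- action of a power -/
def pw (p : ℕ) : ℕ → ℕ → ℕ
  | 0, i => i
  | k + 1, i => act p (pw p k i)

/-- test of a witness -/
def okWit (M : Model) (t : Tag) (es : List ℕ) (R : List (List Letter)) (w : Wit) : Bool :=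
  mem w.2.1 es && (decide (w.2.2.2 ∈ R) && ((w.2.2.2.all fun l => decide (l ∈ t.letters)) &&
    (List.range M.n).all fun i =>
      Nat.beq (act w.2.1 (pw w.1 w.2.2.1 i)) (M.actW w.2.2.2 (act w.2.1 i))))

/-- the element is the identity -/
def isId (M : Model) (p : ℕ) : Bool := (List.range M.n).all fun i => Nat.beq (act p i) i

/-- every element is the identity or has a witness -/
def okCover (M : Model) (es wp : List ℕ) : Bool := es.all fun p => M.isId p || mem p wp

/-- every element is the identity, or the element named by `S`, or has a witness, or its product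
with `S` has a witness -/
def okSig (M : Model) (t : Tag) (es wp : List ℕ) (S : List Letter) : Bool :=
  (S.all fun l => decide (l ∈ t.letters)) && es.all fun p => M.isId p ||
    (((List.range M.n).all fun i => Nat.beq (act p i) (M.actW S i)) || (mem p wp ||
      mem (enc ((List.range M.n).map fun i => act p (M.actW S i))) wp))

/-- the points of the model (for the parameters 1, 0) span the space -/
def Faithful (M : Model) : Prop :=
  ∀ A B : Mat, (∀ i < M.n, A *ᵥ M.pt 1 0 i = B *ᵥ M.pt 1 0 i) → A = B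

end Model

/-- some power of `A` is conjugate to one of the named elements -/
def ConjTo (t : Tag) (R : List (List Letter)) (A : Mat) : Prop :=
  ∃ C ∈ t.group, ∃ k : ℕ, ∃ r ∈ R, C * A ^ k = ev r * C

theorem Model.rep_pw {M : Model} {x y : ℝ} {A : Mat} {p : ℕ} (h : M.Rep x y A p) (k : ℕ) :
    ∀ i < M.n, Model.pw p k i < M.n ∧ A ^ k *ᵥ M.pt x y i = M.pt x y (Model.pw p k i) := by
  induction k with
  | zero => intro i hi; exact ⟨hi, by simp [Model.pw]⟩
  | succ k ih =>
    intro i hi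
    obtain ⟨h1, h2⟩ := ih i hi
    obtain ⟨h3, h4⟩ := h _ h1
    refine ⟨h3, ?_⟩
    rw [pow_succ', ← Matrix.mulVec_mulVec, h2, h4]
    rfl

theorem Model.conj_of_wit {M : Model} {t : Tag} {ws : List (List Letter × ℕ)}
    (hok : M.okGroup t ws = true) (hf : M.Faithful) {es : List ℕ} (hes : ws.map Prod.snd = es)
    {R : List (List Letter)} {w : Wit} (hw : M.okWit t es R w = true) {A : Mat}
    (hA : M.Rep 1 0 A w.1) : ∃ C ∈ t.group, ∃ r ∈ R, C * A ^ w.2.2.1 = ev r * C := by
  unfold Model.okWit at hw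
  rw [Bool.and_eq_true, Bool.and_eq_true, Bool.and_eq_true, mem_iff, List.all_eq_true,
    List.all_eq_true] at hw
  obtain ⟨h1, h2, h3, h4⟩ := hw
  rw [← hes] at h1
  obtain ⟨C, hC, hrep⟩ := Model.group_of_code hok h1
  refine ⟨C, hC, w.2.2.2, by simpa using h2, ?_⟩
  apply hf
  intro i hi
  have h5 := Nat.eq_of_beq_eq_true (h4 i (List.mem_range.2 hi))
  obtain ⟨h6, h7⟩ := Model.rep_pw hA w.2.2.1 i hi
  obtain ⟨h8, h9⟩ := hrep 1 0 _ h6
  obtain ⟨h10, h11⟩ := hrep 1 0 i hi
  rw [← Matrix.mulVec_mulVec, h7, h9, ← Matrix.mulVec_mulVec, h11,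
    Model.actW_eq (fun l hl => Model.okGroup_letters hok l (by simpa using h3 l hl)) 1 0 h10, h5]

theorem ConjTo.fix {t : Tag} {R : List (List Letter)} {A : Mat} (h : ConjTo t R A)
    {v : Fin 3 → ℝ} (hv : A *ᵥ v = v) :
    ∃ C ∈ t.group, ∃ r ∈ R, ev r *ᵥ (C *ᵥ v) = C *ᵥ v := by
  obtain ⟨C, hC, k, r, hr, heq⟩ := h
  refine ⟨C, hC, r, hr, ?_⟩
  have hk : A ^ k *ᵥ v = v := by
    clear heq
    induction k with
    | zero => simp
    | succ k ih => rw [pow_succ, ← Matrix.mulVec_mulVec, hv, ih]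
  rw [Matrix.mulVec_mulVec, ← heq, ← Matrix.mulVec_mulVec, hk]

theorem ConjTo.conj {t : Tag} {R : List (List Letter)} {A : Mat} (h : ConjTo t R A) {B : Mat}
    (hB : B ∈ t.group) : ConjTo t R (Bᵀ * A * B) := by
  obtain ⟨C, hC, k, r, hr, heq⟩ := h
  refine ⟨C * B, mul_mem hC hB, k, r, hr, ?_⟩
  have hBB : B * Bᵀ = 1 := Tag.orth' hB
  have hBB' : Bᵀ * B = 1 := Tag.orth hB
  have hpow : B * (Bᵀ * A * B) ^ k = A ^ k * B := by
    clear heq
    induction k with
    | zero => simp
    | succ k ih =>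
      rw [pow_succ, ← Matrix.mul_assoc, ih, Matrix.mul_assoc, ← Matrix.mul_assoc B,
        ← Matrix.mul_assoc B, hBB, Matrix.one_mul, ← Matrix.mul_assoc, ← pow_succ]
  rw [Matrix.mul_assoc, hpow, ← Matrix.mul_assoc, heq, Matrix.mul_assoc]

/-- Vectors with a nontrivial stabiliser, up to the action of the group. -/
theorem canon {M : Model} {t : Tag} {ws : List (List Letter × ℕ)}
    (hok : M.okGroup t ws = true) (hf : M.Faithful) {es : List ℕ} (hes : ws.map Prod.snd = es)
    {R sig : List (List Letter)} {wa wb : List Wit}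
    (ha : (wa.all fun w => M.okWit t es R w) = true)
    (hb : (wb.all fun w => M.okWit t es sig w && Nat.beq w.2.2.1 1) = true)
    (hc : M.okCover es (wa.map Prod.fst ++ wb.map Prod.fst) = true)
    (hs : (sig.all fun S => M.okSig t es (wa.map Prod.fst) S) = true)
    {v : Fin 3 → ℝ} (hv : ∃ A ∈ t.group, A ≠ 1 ∧ A *ᵥ v = v) :
    (∃ C ∈ t.group, ∃ r ∈ R, ev r *ᵥ (C *ᵥ v) = C *ᵥ v) ∨
    (∃ C ∈ t.group, ∃ S ∈ sig, ev S *ᵥ (C *ᵥ v) = C *ᵥ v ∧
      ∀ A ∈ t.group, A *ᵥ (C *ᵥ v) = C *ᵥ v → A = 1 ∨ A = ev S) := by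
  by_cases hax : ∃ A ∈ t.group, ConjTo t R A ∧ A *ᵥ v = v
  · left
    obtain ⟨A, hA, hconj, hAv⟩ := hax
    exact hconj.fix hAv
  right
  push Not at hax
  rw [List.all_eq_true] at ha hb hs
  -- an element with a witness in `wa` is of axis type
  have wax : ∀ A, ∀ p ∈ wa.map Prod.fst, M.Rep 1 0 A p → ConjTo t R A := by
    intro A p hp hrep
    rw [List.mem_map] at hp
    obtain ⟨w, hw, rfl⟩ := hp
    obtain ⟨C, hC, r, hr, heq⟩ := Model.conj_of_wit hok hf hes (ha w hw) hrep
    exact ⟨C, hC, _, r, hr, heq⟩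
  have idm : ∀ A p, M.Rep 1 0 A p → M.isId p = true → A = 1 := by
    intro A p hrep hid
    apply hf
    intro i hi
    unfold Model.isId at hid
    rw [List.all_eq_true] at hid
    rw [(hrep i hi).2, Nat.eq_of_beq_eq_true (hid i (List.mem_range.2 hi)), Matrix.one_mulVec]
  obtain ⟨A, hA, hA1, hAv⟩ := hv
  obtain ⟨p, hp, hrep⟩ := Model.code_of_group hok 1 0 hA
  rw [hes] at hp
  unfold Model.okCover at hc
  rw [List.all_eq_true] at hc
  have h1 := hc p hp
  rw [Bool.or_eq_true, mem_iff, List.mem_append] at h1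
  rcases h1 with h1 | h1 | h1
  · exact absurd (idm A p hrep h1) hA1
  · exact absurd hAv (hax A hA (wax A p h1 hrep))
  rw [List.mem_map] at h1
  obtain ⟨w, hw, rfl⟩ := h1
  have h2 := hb w hw
  rw [Bool.and_eq_true] at h2
  obtain ⟨C, hC, S, hS, heq⟩ := Model.conj_of_wit hok hf hes h2.1 hrep
  rw [Nat.eq_of_beq_eq_true h2.2, pow_one] at heq
  refine ⟨C, hC, S, hS, ?_, ?_⟩
  · rw [Matrix.mulVec_mulVec, ← heq, ← Matrix.mulVec_mulVec, hAv]
  have hfixS : ev S *ᵥ (C *ᵥ v) = C *ᵥ v := by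
    rw [Matrix.mulVec_mulVec, ← heq, ← Matrix.mulVec_mulVec, hAv]
  intro B hB hBv
  have h3 := hs S hS
  unfold Model.okSig at h3
  rw [Bool.and_eq_true, List.all_eq_true, List.all_eq_true] at h3
  obtain ⟨hSl, h3⟩ := h3
  have hSt : ∀ l ∈ S, l ∈ t.letters := fun l hl => by simpa using hSl l hl
  obtain ⟨p', hp', hrep'⟩ := Model.code_of_group hok 1 0 hB
  rw [hes] at hp'
  have h4 := h3 p' hp'
  -- an element fixing `C v` is not of axis type
  have noax : ∀ B ∈ t.group, B *ᵥ (C *ᵥ v) = C *ᵥ v → ¬ ConjTo t R B := by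
    intro B hB hBv hcj
    refine hax (Cᵀ * B * C) (mul_mem (mul_mem (Tag.tr hC) hB) hC) (hcj.conj hC) ?_
    rw [← Matrix.mulVec_mulVec, ← Matrix.mulVec_mulVec, hBv, Matrix.mulVec_mulVec, Tag.orth hC,
      Matrix.one_mulVec]
  rw [Bool.or_eq_true, Bool.or_eq_true, Bool.or_eq_true, mem_iff, mem_iff] at h4
  rcases h4 with h4 | h4 | h4 | h4
  · left; exact idm B p' hrep' h4
  · right
    apply hf
    intro i hi
    rw [List.all_eq_true] at h4
    rw [(hrep' i hi).2, Nat.eq_of_beq_eq_true (h4 i (List.mem_range.2 hi)),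
      Model.actW_eq (fun l hl => Model.okGroup_letters hok l (hSt l hl)) 1 0 hi]
  · exact absurd (wax B p' h4 hrep') (noax B hB hBv)
  · exfalso
    have hBS : B * ev S ∈ t.group := mul_mem hB (Tag.ev_mem hSt)
    refine noax (B * ev S) hBS ?_ (wax _ _ h4 ?_)
    · rw [← Matrix.mulVec_mulVec, hfixS, hBv]
    · intro i hi
      have hlt : M.actW S i < M.n :=
        Model.actW_lt (fun l hl => Model.okGroup_letters hok l (hSt l hl)) hi
      rw [act_enc _ _ i (by simpa using hi)]
      · simp only [List.getElem_map, List.getElem_range]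
        refine ⟨(hrep' _ hlt).1, ?_⟩
        rw [← Matrix.mulVec_mulVec,
          Model.actW_eq (fun l hl => Model.okGroup_letters hok l (hSt l hl)) 1 0 hi,
          (hrep' _ hlt).2]
      · intro d hd
        rw [List.mem_map] at hd
        obtain ⟨j, -, rfl⟩ := hd
        exact act_lt _ _

end Pool.Agent.H38.FT
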