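import Pool.Agent.H38.FT.Model

/-!
The points of a model are distinct.
-/

namespace Pool.Agent.H38.FT

open Matrix Code

theorem val_inj {z w : Z2} (h : val z = val w) : z = w := by
  unfold val at h
  by_cases h2 : z.2 = w.2
  · rw [h2] at h
    have h3 : (z.1 : ℝ) = w.1 := by linarith
    have h4 : z.1 = w.1 := by exact_mod_cast h3
    exact Prod.ext h4 h2
  · exfalso
    apply Real.goldenRatio_irrational
    refine ⟨((w.1 - z.1 : ℤ) : ℚ) / ((z.2 - w.2 : ℤ) : ℚ), ?_⟩
    have h3 : ((z.2 : ℝ) - w.2) ≠ 0 := by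
      intro h4
      apply h2
      have : (z.2 : ℝ) = w.2 := by linarith
      exact_mod_cast this
    push_cast
    rw [div_eq_iff h3]
    linear_combination -h

/-- equality of coded points -/
def v3eq (v w : V3) : Bool :=
  zeq v.a0 w.a0 && (zeq v.a1 w.a1 && (zeq v.a2 w.a2 && (zeq v.b0 w.b0 && (zeq v.b1 w.b1 &&
    zeq v.b2 w.b2))))

theorem v3eq_iff {v w : V3} : v3eq v w = true ↔ v = w := by
  unfold v3eq
  simp only [Bool.and_eq_true, zeq_iff]
  constructor
  · rintro ⟨h1, h2, h3, h4, h5, h6⟩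
    rcases v with ⟨a, b, c, d, e, f⟩
    rcases w with ⟨a', b', c', d', e', f'⟩
    simp only at *
    subst h1; subst h2; subst h3; subst h4; subst h5; subst h6
    rfl
  · rintro rfl
    simp

theorem toR_inj {v w : V3} (h : ∀ x y : ℝ, v.toR x y = w.toR x y) : v = w := by
  have h1 := h 1 0
  have h2 := h 0 1
  unfold V3.toR at h1 h2
  have a0 := congrFun h1 0
  have a1 := congrFun h1 1
  have a2 := congrFun h1 2
  have b0 := congrFun h2 0
  have b1 := congrFun h2 1
  have b2 := congrFun h2 2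
  simp at a0 a1 a2 b0 b1 b2
  have a0' := val_inj (z := v.a0) (w := w.a0) (by linarith)
  have a1' := val_inj (z := v.a1) (w := w.a1) (by linarith)
  have a2' := val_inj (z := v.a2) (w := w.a2) (by linarith)
  have b0' := val_inj (z := v.b0) (w := w.b0) (by linarith)
  have b1' := val_inj (z := v.b1) (w := w.b1) (by linarith)
  have b2' := val_inj (z := v.b2) (w := w.b2) (by linarith)
  rw [← v3eq_iff]
  unfold v3eq
  simp [zeq_iff, a0', a1', a2', b0', b1', b2']

namespace Model

/-- the coded points are distinct -/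
def distinct (M : Model) : Bool :=
  (List.range M.n).all fun i => (List.range M.n).all fun j =>
    Nat.beq i j || !(v3eq (M.pts.getD i default) (M.pts.getD j default))

theorem eq_of_distinct {M : Model} (h : M.distinct = true) {i j : ℕ} (hi : i < M.n)
    (hj : j < M.n) (hij : M.pts.getD i default = M.pts.getD j default) : i = j := by
  unfold distinct at h
  rw [List.all_eq_true] at h
  have h1 := h i (List.mem_range.2 hi)
  rw [List.all_eq_true] at h1
  have h2 := h1 j (List.mem_range.2 hj)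
  rw [Bool.or_eq_true] at h2
  rcases h2 with h2 | h2
  · exact Nat.eq_of_beq_eq_true h2
  · rw [hij, v3eq_iff.2 rfl] at h2
    simp at h2

/-- the coded points do not depend on `y` -/
def zeroB (M : Model) : Bool :=
  (List.range M.n).all fun i =>
    zeq (M.pts.getD i default).b0 (0, 0) && (zeq (M.pts.getD i default).b1 (0, 0) &&
      zeq (M.pts.getD i default).b2 (0, 0))

theorem inj_axis {M : Model} (h : M.distinct = true) (hz : M.zeroB = true) {x : ℝ} (hx : x ≠ 0)
    (y : ℝ) : ∀ i < M.n, ∀ j < M.n, M.pt x y i = M.pt x y j → i = j := by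
  intro i hi j hj hij
  apply eq_of_distinct h hi hj
  unfold zeroB at hz
  rw [List.all_eq_true] at hz
  have z1 := hz i (List.mem_range.2 hi)
  have z2 := hz j (List.mem_range.2 hj)
  simp only [Bool.and_eq_true, zeq_iff] at z1 z2
  obtain ⟨p1, p2, p3⟩ := z1
  obtain ⟨q1, q2, q3⟩ := z2
  unfold pt V3.toR at hij
  have v0 : val ((0, 0) : Z2) = 0 := by unfold val; simp
  rw [p1, p2, p3, q1, q2, q3, v0] at hij
  have a0 := congrFun hij 0
  have a1 := congrFun hij 1
  have a2 := congrFun hij 2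
  simp at a0 a1 a2
  have a0' := val_inj (a0.resolve_right hx)
  have a1' := val_inj (a1.resolve_right hx)
  have a2' := val_inj (a2.resolve_right hx)
  rw [← v3eq_iff]
  unfold v3eq
  rw [p1, p2, p3, q1, q2, q3]
  simp [zeq_iff, a0', a1', a2']

theorem inj_mirror {M : Model} (h : M.distinct = true) {t : Tag} {ws : List (List Letter × ℕ)}
    (hok : M.okGroup t ws = true) (htr : M.okTrans ws = true) (h0 : 0 < M.n) {S : Mat}
    (hS : ∀ x y, S *ᵥ M.pt x y 0 = M.pt x y 0) {x y : ℝ}
    (H : ∀ A ∈ t.group, A *ᵥ M.pt x y 0 = M.pt x y 0 → A = 1 ∨ A = S) :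
    ∀ i < M.n, ∀ j < M.n, M.pt x y i = M.pt x y j → i = j := by
  intro i hi j hj hij
  apply eq_of_distinct h hi hj
  unfold okTrans at htr
  rw [List.all_eq_true] at htr
  have hi1 := htr i (List.mem_range.2 hi)
  have hj1 := htr j (List.mem_range.2 hj)
  rw [List.any_eq_true] at hi1 hj1
  obtain ⟨e, he, he1⟩ := hi1
  obtain ⟨e', he', he1'⟩ := hj1
  have he2 := Nat.eq_of_beq_eq_true he1
  have he2' := Nat.eq_of_beq_eq_true he1'
  obtain ⟨A, hA, hrep⟩ := group_of_code hok (List.mem_map.2 ⟨e, he, rfl⟩)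
  obtain ⟨B, hB, hrep'⟩ := group_of_code hok (List.mem_map.2 ⟨e', he', rfl⟩)
  have k1 : ∀ x y, A *ᵥ M.pt x y 0 = M.pt x y i := fun x y => by
    rw [(hrep x y 0 h0).2, he2]
  have k2 : ∀ x y, B *ᵥ M.pt x y 0 = M.pt x y j := fun x y => by
    rw [(hrep' x y 0 h0).2, he2']
  have hfix : (Bᵀ * A) *ᵥ M.pt x y 0 = M.pt x y 0 := by
    rw [← Matrix.mulVec_mulVec, k1, hij, ← k2, Matrix.mulVec_mulVec, Tag.orth hB,
      Matrix.one_mulVec]
  have hBA : B * (Bᵀ * A) = A := by
    rw [← Matrix.mul_assoc, Tag.orth' hB, Matrix.one_mul]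
  apply toR_inj
  intro x' y'
  have e1 : M.pt x' y' i = M.pt x' y' j := by
    rw [← k1, ← k2, ← hBA]
    rcases H _ (mul_mem (Tag.tr hB) hA) hfix with h1 | h1
    · rw [h1, Matrix.mul_one]
    · rw [h1, ← Matrix.mulVec_mulVec, hS]
  exact e1

end Model

end Pool.Agent.H38.FT
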