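import Pool.Agent.H38.FT.Rows
import Pool.Agent.H38.FT.Bits

/-!
The configurations generated by the groups in coded form.
-/

namespace Pool.Agent.H38.FT

open Matrix Code

theorem dec_mask_of {X : Type*} {n : ℕ} {pt : ℕ → X} (hn : n ≤ 64) {p : ℕ} {g : X → X}
    (hg : ∀ i < n, act p i < n ∧ g (pt i) = pt (act p i))
    {W : List (ℕ × ℕ)} (hW : ∀ e ∈ W, e.1 < n ∧ e.2 < n)
    {f : Set (Sym2 X)} (hf : ∀ e, e ∈ f ↔ ∃ a ∈ W, e = s(pt a.1, pt a.2)) :
    dec n pt (mask p W) = Sym2.map g '' f := by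
  ext e
  constructor
  · rintro ⟨i, hi, j, hj, hb, rfl⟩
    rw [mask_iff] at hb
    obtain ⟨a, ha, hec⟩ := hb
    have h1 := hg a.1 (hW a ha).1
    have h2 := hg a.2 (hW a ha).2
    refine ⟨s(pt a.1, pt a.2), (hf _).2 ⟨a, ha, rfl⟩, ?_⟩
    have : Sym2.map g s(pt a.1, pt a.2) = s(pt (act p a.1), pt (act p a.2)) := by
      rw [← h1.2, ← h2.2]; rfl
    rw [this]
    rw [ec_eq_iff (by omega) (by omega) (by omega) (by omega)] at hec
    rcases hec with ⟨h3, h4⟩ | ⟨h3, h4⟩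
    · rw [h3, h4]
    · rw [h3, h4, Sym2.eq_swap]
  · rintro ⟨e', he', rfl⟩
    obtain ⟨a, ha, rfl⟩ := (hf _).1 he'
    have h1 := hg a.1 (hW a ha).1
    have h2 := hg a.2 (hW a ha).2
    refine ⟨act p a.1, h1.1, act p a.2, h2.1, ?_, ?_⟩
    · rw [mask_iff]; exact ⟨a, ha, rfl⟩
    · rw [← h1.2, ← h2.2]; rfl

/-- The listed configuration in coded form. -/
theorem orbitCfg_eq {M : Model} {t : Tag} {ws : List (List Letter × ℕ)}
    (hok : M.okGroup t ws = true) (htr : M.okTrans ws = true) (h0 : 0 < M.n) (hn : M.n ≤ 64)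
    {es : List ℕ} (hes : ws.map Prod.snd = es) {r : Row} (hr : M.okRow t r = true) (x y : ℝ) :
    orbitCfg t (M.pt x y 0) (r.spec.face (M.pt x y 0)) =
      cfgOf M.n (M.pt x y) (masks r.W es) := by
  have hface := Row.face_eq hok h0 hr x y
  have hW : ∀ e ∈ r.W, e.1 < M.n ∧ e.2 < M.n := by
    unfold Model.okRow at hr
    simp only [Bool.and_eq_true] at hr
    have := hr.2.2.1
    rw [List.all_eq_true] at this
    intro e he
    have h1 := this e he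
    rw [Bool.and_eq_true, Nat.blt_eq, Nat.blt_eq] at h1
    exact h1
  generalize r.spec.face (M.pt x y 0) = f at hface ⊢
  have key : ∀ g : Set (Sym2 (Fin 3 → ℝ)), (∃ A ∈ t.group, g = Sym2.map (fun x => A *ᵥ x) '' f) ↔
      ∃ m ∈ masks r.W es, g = dec M.n (M.pt x y) m := by
    intro g
    rw [masks_eq]
    constructor
    · rintro ⟨A, hA, rfl⟩
      obtain ⟨p, hp, hrep⟩ := Model.code_of_group hok x y hA
      rw [hes] at hp
      exact ⟨_, List.mem_map.2 ⟨p, hp, rfl⟩, (dec_mask_of hn hrep hW hface).symm⟩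
    · rintro ⟨m, hm, rfl⟩
      rw [List.mem_map] at hm
      obtain ⟨p, hp, rfl⟩ := hm
      rw [← hes] at hp
      obtain ⟨A, hA, hrep⟩ := Model.group_of_code hok hp
      exact ⟨A, hA, dec_mask_of hn (hrep x y) hW hface⟩
  unfold orbitCfg cfgOf
  congr 1
  · ext z
    exact Model.trans_of_ok hok htr h0 x y z
  · ext e
    constructor
    · rintro ⟨A, hA, he⟩
      obtain ⟨m, hm, hmA⟩ := (key _).1 ⟨A, hA, rfl⟩
      exact ⟨m, hm, by rw [← hmA]; exact he⟩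
    · rintro ⟨m, hm, he⟩
      obtain ⟨A, hA, hmA⟩ := (key _).2 ⟨m, hm, rfl⟩
      exact ⟨A, hA, by rw [← hmA]; exact he⟩
  · ext g
    exact key g

/-- images of coded configurations -/
theorem cfgOf_map {X Y : Type*} (n : ℕ) (pt : ℕ → X) (r : List ℕ) (φ : X → Y) :
    (cfgOf n pt r).map φ = cfgOf n (fun i => φ (pt i)) r := by
  have hd : ∀ m, Sym2.map φ '' dec n pt m = dec n (fun i => φ (pt i)) m := by
    intro m
    ext e
    constructor
    · rintro ⟨_, ⟨i, hi, j, hj, hb, rfl⟩, rfl⟩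
      exact ⟨i, hi, j, hj, hb, rfl⟩
    · rintro ⟨i, hi, j, hj, hb, rfl⟩
      exact ⟨s(pt i, pt j), ⟨i, hi, j, hj, hb, rfl⟩, rfl⟩
  unfold cfgOf Cfg.map
  congr 1
  · ext z
    constructor
    · rintro ⟨_, ⟨i, hi, rfl⟩, rfl⟩
      exact ⟨i, hi, rfl⟩
    · rintro ⟨i, hi, rfl⟩
      exact ⟨_, ⟨i, hi, rfl⟩, rfl⟩
  · ext e
    constructor
    · rintro ⟨e', ⟨m, hm, he'⟩, rfl⟩
      exact ⟨m, hm, by rw [← hd]; exact ⟨e', he', rfl⟩⟩
    · rintro ⟨m, hm, he⟩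
      rw [← hd] at he
      obtain ⟨e', he', rfl⟩ := he
      exact ⟨e', ⟨m, hm, he'⟩, rfl⟩
  · ext f
    constructor
    · rintro ⟨_, ⟨m, hm, rfl⟩, rfl⟩
      exact ⟨m, hm, hd m⟩
    · rintro ⟨m, hm, rfl⟩
      exact ⟨_, ⟨m, hm, rfl⟩, hd m⟩

end Pool.Agent.H38.FT
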