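import Pool.Agent.H38.FT.Fix
import Pool.Agent.H38.FT.Orbit
import Pool.Agent.H38.FT.Inj

/-!
From the search to the list: the two kinds of cases.
-/

namespace Pool.Agent.H38.FT

open Matrix Code

theorem Model.pt_smul (M : Model) (x : ℝ) : M.pt x 0 = fun i => x • M.pt 1 0 i := by
  funext i j
  unfold Model.pt V3.toR
  fin_cases j <;> (simp; try ring)

theorem axis_case {P : Cfg (Fin 3 → ℝ)} {t : Tag} (h : GP P t) {M : Model}
    {ws : List (List Letter × ℕ)} (hok : M.okGroup t ws = true) (htr : M.okTrans ws = true)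
    {es : List ℕ} (hes : ws.map Prod.snd = es) (h0 : 0 < M.n) (hn : M.n ≤ 64)
    (hd : M.distinct = true) (hz : M.zeroB = true) {R : List Row} {t' : Tag}
    {ws' : List (List Letter × ℕ)} (hok' : M.okGroup t' ws' = true) (htr' : M.okTrans ws' = true)
    {es' : List ℕ} (hes' : ws'.map Prod.snd = es') (hR : (R.all fun r => M.okRow t' r) = true)
    (hchk : check M.n es (R.map fun r => masks r.W es') = true) {x : ℝ} (hx : x ≠ 0)
    (hv : M.pt x 0 0 ∈ P.V) :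
    ∃ r ∈ R, P = (orbitCfg t' (M.pt 1 0 0) (r.spec.face (M.pt 1 0 0))).map (fun z => x • z) := by
  obtain ⟨m, hm, hP⟩ := h.eq_cfgOf hok htr h0 hn hv (Model.inj_axis hd hz hx 0) hes hchk
  rw [List.mem_map] at hm
  obtain ⟨r, hr, rfl⟩ := hm
  rw [List.all_eq_true] at hR
  refine ⟨r, hr, ?_⟩
  rw [orbitCfg_eq hok' htr' h0 hn hes' (hR r hr) 1 0, cfgOf_map, hP, Model.pt_smul]

theorem mirror_case {P : Cfg (Fin 3 → ℝ)} {t : Tag} (h : GP P t) {M : Model}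
    {ws : List (List Letter × ℕ)} (hok : M.okGroup t ws = true) (htr : M.okTrans ws = true)
    {es : List ℕ} (hes : ws.map Prod.snd = es) (h0 : 0 < M.n) (hn : M.n ≤ 64)
    (hd : M.distinct = true) {R : List Row} (hR : (R.all fun r => M.okRow t r) = true)
    (hchk : check M.n es (R.map fun r => masks r.W es) = true) {S : Mat}
    (hS : ∀ x y, S *ᵥ M.pt x y 0 = M.pt x y 0) {x y : ℝ}
    (H : ∀ A ∈ t.group, A *ᵥ M.pt x y 0 = M.pt x y 0 → A = 1 ∨ A = S)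
    (hv : M.pt x y 0 ∈ P.V) :
    ∃ r ∈ R, P = orbitCfg t (M.pt x y 0) (r.spec.face (M.pt x y 0)) := by
  obtain ⟨m, hm, hP⟩ := h.eq_cfgOf hok htr h0 hn hv (Model.inj_mirror hd hok htr h0 hS H) hes hchk
  rw [List.mem_map] at hm
  obtain ⟨r, hr, rfl⟩ := hm
  rw [List.all_eq_true] at hR
  exact ⟨r, hr, by rw [orbitCfg_eq hok htr h0 hn hes (hR r hr) x y, hP]⟩

theorem GP.ne_zero {P : Cfg (Fin 3 → ℝ)} {t : Tag} (h : GP P t) {v : Fin 3 → ℝ}
    (hv : v ∈ P.V) : v ≠ 0 := by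
  rintro rfl
  obtain ⟨e, he, -⟩ := h.poly.vertex _ hv
  obtain ⟨x, hx, y, hy, hxy, -⟩ := h.poly.edge e he
  obtain ⟨A, -, hA⟩ := h.tV _ hv _ hx
  obtain ⟨B, -, hB⟩ := h.tV _ hv _ hy
  rw [Matrix.mulVec_zero] at hA hB
  exact hxy (hA.symm.trans hB)

theorem GP.image_mem {P : Cfg (Fin 3 → ℝ)} {t : Tag} (h : GP P t) {v : Fin 3 → ℝ}
    (hv : v ∈ P.V) {A : Mat} (hA : A ∈ t.group) : A *ᵥ v ∈ P.V :=
  Cfg.map_V_mem (h.sym A hA) hv

end Pool.Agent.H38.FT
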