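import Pool.Agent.H38.FT.Sound2

/-!
The theorem of the finite search.
-/

namespace Pool.Agent.H38.FT.Code

open Cfg

variable {X : Type*} {P : Cfg X} {n : ℕ} {pt : ℕ → X} {elts : List ℕ}

theorem Sys.exists_loc (S : Sys P n pt elts) (h0 : 0 < n) {u : ℕ} (hu : u < n)
    (he : s(pt 0, pt u) ∈ P.E) : ∃ f1 f2 w1 w2 z1 z2, Loc P n pt f1 f2 u w1 w2 z1 z2 ∧
      w1 < w2 ∧ z1 ≠ z2 := by
  obtain ⟨f, g, hfg, hf, hg, hef, heg, hall⟩ := S.poly.two_faces he
  -- the corners of a face at the base edge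
  have corner : ∀ k ∈ P.F, s(pt 0, pt u) ∈ k → ∃ w z, Crn n pt k w 0 u ∧ Crn n pt k 0 u z := by
    intro k hk hek
    obtain ⟨z, hz, hez, -⟩ := S.poly.next hk hek
    obtain ⟨w, hw, hew, -⟩ := S.poly.next hk (x := pt u) (y := pt 0) (by
      rw [Sym2.eq_swap]; exact hek)
    obtain ⟨-, -, z', hz', -, rfl⟩ := S.code_of_edge (S.poly.face_sub hk hez)
    obtain ⟨-, -, w', hw', -, rfl⟩ := S.code_of_edge (S.poly.face_sub hk hew)
    refine ⟨w', z', ⟨hw', h0, hu, fun h => hw (by rw [h]), ?_, hek⟩,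
      ⟨h0, hu, hz', fun h => hz (by rw [h]), hek, hez⟩⟩
    rw [Sym2.eq_swap]; exact hew
  obtain ⟨w, z, c1, c1'⟩ := corner f hf hef
  obtain ⟨w', z', c2, c2'⟩ := corner g hg heg
  have hww : w ≠ w' := by
    rintro rfl
    exact hfg (S.crn_unique hf hg c1 c2)
  have hzz : z ≠ z' := by
    rintro rfl
    exact hfg (S.crn_unique hf hg c1' c2')
  rcases lt_or_gt_of_ne hww with h | h
  · exact ⟨f, g, w, w', z, z', ⟨hf, hg, hfg, hall, c1, c1', c2, c2'⟩, h, hzz⟩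
  · exact ⟨g, f, w', w, z', z, ⟨hg, hf, hfg.symm, fun k hk hek => (hall k hk hek).symm,
      c2, c2', c1, c1'⟩, h, hzz.symm⟩

/-- Soundness of the search: the set of faces of `P` is one of the listed ones. -/
theorem Sys.search (S : Sys P n pt elts) (hn : n ≤ 64) {rows : List (List ℕ)}
    (hchk : check n elts rows = true) : ∃ r ∈ rows, ∀ f, f ∈ P.F ↔ ∃ m ∈ r, f = dec n pt m := by
  classical
  obtain ⟨x, hx⟩ := S.poly.nonempty
  obtain ⟨i, hi, -⟩ := (S.V_iff x).1 hx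
  have h0 : 0 < n := by omega
  have hV0 : pt 0 ∈ P.V := (S.V_iff _).2 ⟨0, h0, rfl⟩
  -- the smallest neighbour of the vertex 0
  have hex : ∃ u, u < n ∧ s(pt 0, pt u) ∈ P.E := by
    obtain ⟨e, he, h0e⟩ := S.poly.vertex _ hV0
    obtain ⟨y, rfl⟩ := Sym2.mem_iff_exists.1 h0e
    obtain ⟨-, -, j, hj, -, rfl⟩ := S.code_of_edge he
    exact ⟨j, hj, he⟩
  obtain ⟨hu, he⟩ := Nat.find_spec hex
  have hmin : ∀ v < Nat.find hex, ¬ (v < n ∧ s(pt 0, pt v) ∈ P.E) :=
    fun v hv => Nat.find_min hex hv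
  generalize Nat.find hex = u at *
  have hu0 : u ≠ 0 := by
    rintro rfl
    exact S.poly.ne_of_mem he rfl
  unfold check at hchk
  rw [List.all_eq_true] at hchk
  have h1 := hchk u (List.mem_range.2 hu)
  rw [Bool.or_eq_true] at h1
  rcases h1 with h1 | h1
  · exact absurd (Nat.eq_of_beq_eq_true h1) hu0
  unfold checkU at h1
  rw [force_eq, force_eq, Bool.or_eq_true] at h1
  rcases h1 with h1 | h1
  · exfalso
    obtain ⟨y1, y2, y3, h12, h13, h23, e1, e2, e3⟩ := S.poly.deg3 S.vtrans _ hV0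
    obtain ⟨-, -, j1, hj1, -, rfl⟩ := S.code_of_edge e1
    obtain ⟨-, -, j2, hj2, -, rfl⟩ := S.code_of_edge e2
    obtain ⟨-, -, j3, hj3, -, rfl⟩ := S.code_of_edge e3
    have := three_cnt (m := nbm u 0 elts) hj1 hj2 hj3 (fun h => h12 (by rw [h]))
      (fun h => h13 (by rw [h])) (fun h => h23 (by rw [h]))
      (S.nb_complete h0 hu he h0 hj1 e1) (S.nb_complete h0 hu he h0 hj2 e2)
      (S.nb_complete h0 hu he h0 hj3 e3)
    have h2 := Nat.le_of_ble_eq_true h1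
    omega
  rw [Bool.or_eq_true] at h1
  rcases h1 with h1 | h1
  · exfalso
    rw [List.any_eq_true] at h1
    obtain ⟨v, hv, hb⟩ := h1
    rw [List.mem_range] at hv
    obtain ⟨-, hvn, hev⟩ := S.nb_sound h0 hu he hb
    exact hmin v hv ⟨hvn, hev⟩
  rw [Bool.or_eq_true, S.not_disc h0 hu he] at h1
  rcases h1 with h1 | h1
  · exact absurd h1 (by simp)
  obtain ⟨f1, f2, w1, w2, z1, z2, L, hw, hz⟩ := S.exists_loc h0 hu he
  have E1 : s(pt 0, pt w1) ∈ P.E := by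
    rw [Sym2.eq_swap]; exact S.poly.face_sub L.hf1 L.c1.e1
  have E2 : s(pt 0, pt w2) ∈ P.E := by
    rw [Sym2.eq_swap]; exact S.poly.face_sub L.hf2 L.c2.e1
  have E3 : s(pt u, pt z1) ∈ P.E := S.poly.face_sub L.hf1 L.c1'.e2
  have E4 : s(pt u, pt z2) ∈ P.E := S.poly.face_sub L.hf2 L.c2'.e2
  rw [List.all_eq_true] at h1
  have h2 := h1 w1 (List.mem_range.2 L.c1.ha)
  rw [S.nb_complete h0 hu he h0 L.c1.ha E1, Bool.not_true, Bool.false_or, Bool.or_eq_true] at h2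
  rcases h2 with h2 | h2
  · exact absurd (Nat.eq_of_beq_eq_true h2) L.c1.ne
  rw [List.all_eq_true] at h2
  have h3 := h2 w2 (List.mem_range.2 L.c2.ha)
  rw [S.nb_complete h0 hu he h0 L.c2.ha E2, Bool.not_true, Bool.false_or, Bool.or_eq_true,
    Bool.or_eq_true] at h3
  rcases h3 with h3 | h3 | h3
  · exact absurd (Nat.eq_of_beq_eq_true h3) L.c2.ne
  · have := Nat.le_of_ble_eq_true h3
    omega
  rw [List.all_eq_true] at h3
  have h4 := h3 z1 (List.mem_range.2 L.c1'.hc)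
  rw [S.nb_complete h0 hu he hu L.c1'.hc E3, Bool.not_true, Bool.false_or, Bool.or_eq_true] at h4
  rcases h4 with h4 | h4
  · exact absurd (Nat.eq_of_beq_eq_true h4).symm L.c1'.ne
  rw [List.all_eq_true] at h4
  have h5 := h4 z2 (List.mem_range.2 L.c2'.hc)
  rw [S.nb_complete h0 hu he hu L.c2'.hc E4, Bool.not_true, Bool.false_or, Bool.or_eq_true,
    Bool.or_eq_true] at h5
  rcases h5 with h5 | h5 | h5
  · exact absurd (Nat.eq_of_beq_eq_true h5).symm L.c2'.ne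
  · exact absurd (Nat.eq_of_beq_eq_true h5).symm hz
  exact L.checkQ_sound S hn h5

end Pool.Agent.H38.FT.Code
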