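import Pool.Agent.H38.FT.Model
import Pool.Agent.H38.FT.Search

/-!
Polyhedra in coordinates with one of the seven groups: the vertex set and the faces.
-/

namespace Pool.Agent.H38.FT

open Matrix Code

/-- A polyhedron in `ℝ³` on which the group of the tag `t` acts transitively on vertices, on edges
and on faces. -/
structure GP (P : Cfg (Fin 3 → ℝ)) (t : Tag) : Prop where
  poly : P.IsPolyhedron
  sym : ∀ A ∈ t.group, P.map (fun x => A *ᵥ x) = P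
  tV : ∀ x ∈ P.V, ∀ y ∈ P.V, ∃ A ∈ t.group, A *ᵥ x = y
  tE : ∀ e ∈ P.E, ∀ e' ∈ P.E, ∃ A ∈ t.group, Sym2.map (fun x => A *ᵥ x) e = e'
  tF : ∀ f ∈ P.F, ∀ f' ∈ P.F, ∃ A ∈ t.group, Sym2.map (fun x => A *ᵥ x) '' f = f'

theorem GP.vtrans {P : Cfg (Fin 3 → ℝ)} {t : Tag} (h : GP P t) : P.VTrans := by
  intro x hx y hy
  obtain ⟨A, hA, hxy⟩ := h.tV x hx y hy
  exact ⟨fun x => A *ᵥ x, Tag.inj hA, h.sym A hA, hxy⟩

theorem GP.impl {P : Cfg (Fin 3 → ℝ)} {t : Tag} (h : GP P t) {M : Model} {x y : ℝ} {A : Mat}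
    (hA : A ∈ t.group) {p : ℕ} (hrep : M.Rep x y A p) :
    Impl P M.n (M.pt x y) p (fun x => A *ᵥ x) :=
  ⟨Tag.inj hA, h.sym A hA, hrep⟩

theorem GP.sys {P : Cfg (Fin 3 → ℝ)} {t : Tag} (h : GP P t) {M : Model}
    {ws : List (List Letter × ℕ)} (hok : M.okGroup t ws = true) (htr : M.okTrans ws = true)
    (h0 : 0 < M.n) {x y : ℝ} (hpt : M.pt x y 0 ∈ P.V)
    (hinj : ∀ i < M.n, ∀ j < M.n, M.pt x y i = M.pt x y j → i = j) :
    Sys P M.n (M.pt x y) (ws.map Prod.snd) where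
  poly := h.poly
  V_iff z := by
    rw [← Model.trans_of_ok hok htr h0 x y z]
    constructor
    · intro hz
      obtain ⟨A, hA, hAz⟩ := h.tV _ hpt z hz
      exact ⟨A, hA, hAz.symm⟩
    · rintro ⟨A, hA, rfl⟩
      exact Cfg.map_V_mem (h.sym A hA) hpt
  inj := hinj
  vtrans := h.vtrans
  sym p hp := by
    obtain ⟨A, hA, hrep⟩ := Model.group_of_code hok hp
    exact ⟨_, h.impl hA (hrep x y)⟩
  tE e he e' he' := by
    obtain ⟨A, hA, hmap⟩ := h.tE e he e' he'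
    obtain ⟨p, hp, hrep⟩ := Model.code_of_group hok x y hA
    exact ⟨p, hp, _, h.impl hA hrep, hmap⟩
  tF f hf f' hf' := by
    obtain ⟨A, hA, hmap⟩ := h.tF f hf f' hf'
    obtain ⟨p, hp, hrep⟩ := Model.code_of_group hok x y hA
    exact ⟨p, hp, _, h.impl hA hrep, hmap⟩

theorem GP.eq_cfgOf {P : Cfg (Fin 3 → ℝ)} {t : Tag} (h : GP P t) {M : Model}
    {ws : List (List Letter × ℕ)} (hok : M.okGroup t ws = true) (htr : M.okTrans ws = true)
    (h0 : 0 < M.n) (hn : M.n ≤ 64) {x y : ℝ} (hpt : M.pt x y 0 ∈ P.V)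
    (hinj : ∀ i < M.n, ∀ j < M.n, M.pt x y i = M.pt x y j → i = j) {es : List ℕ}
    (hes : ws.map Prod.snd = es) {rows : List (List ℕ)} (hchk : check M.n es rows = true) :
    ∃ r ∈ rows, P = cfgOf M.n (M.pt x y) r := by
  have S := h.sys hok htr h0 hpt hinj
  rw [hes] at S
  obtain ⟨r, hr, hF⟩ := S.search hn hchk
  refine ⟨r, hr, ?_⟩
  have hE := h.poly.E_eq
  rcases P with ⟨V, E, F⟩
  unfold cfgOf
  congr 1
  · ext z; exact S.V_iff z
  · ext e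
    rw [Set.mem_ofPred_eq]
    refine (hE e).trans ?_
    constructor
    · rintro ⟨f, hf, he⟩
      obtain ⟨m, hm, rfl⟩ := (hF f).1 hf
      exact ⟨m, hm, he⟩
    · rintro ⟨m, hm, he⟩
      exact ⟨_, (hF _).2 ⟨m, hm, rfl⟩, he⟩
  · ext f; exact hF f

end Pool.Agent.H38.FT
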