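import Pool.Agent.H38.FT.Final
import Pool.Agent.H59.FT.Reduction
import Pool.Agent.H70.FT.Groups

/-!
# The finite fully transitive polyhedra in Euclidean 3-space

A finite polyhedron in Euclidean 3-space is fully transitive if and only if it is similar to a
configuration of the explicit list `IsListed`, and all configurations of the list are finite
polyhedra.
-/

namespace Pool.Agent.H38.FT.ClassifWeak

open Pool.Agent.H38.FT

theorem result :
    (∀ P : Cfg E3, IsFinitePolyhedron P →
      (FullyTransitive P ↔ ∃ Q, IsListed Q ∧ Similar P (Q.map (WithLp.toLp 2)))) ∧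
    (∀ Q, IsListed Q → IsFinitePolyhedron (Q.map (WithLp.toLp 2))) :=
  classification Pool.Agent.H70.FT.finite_groups Pool.Agent.H59.FT.reduction

end Pool.Agent.H38.FT.ClassifWeak
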