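import Mathlib

/-!
The finite search: permutations of `{0, ..., n - 1}`, `n ≤ 64`, are coded by natural numbers in base
64, edges `{a, b}` by numbers below 4096 and sets of edges by bit masks.
-/

namespace Pool.Agent.H38.FT.Code

/-- the image of `i` under the permutation coded by `p` -/
def act (p i : ℕ) : ℕ := (p >>> (6 * i)) % 64

/-- the code of the edge `{a, b}` -/
def ec (a b : ℕ) : ℕ := cond (Nat.ble a b) (64 * a + b) (64 * b + a)

/-- the `i`-th bit -/
def tb (m i : ℕ) : Bool := Nat.beq ((m >>> i) % 2) 1

/-- evaluates its argument first -/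
def force {α : Type} (x : ℕ) (f : ℕ → α) : α :=
  match x with
  | 0 => f 0
  | k + 1 => f (k + 1)

theorem force_eq {α : Type} (x : ℕ) (f : ℕ → α) : force x f = f x := by
  cases x <;> rfl

/-- membership in a list of numbers -/
def mem (x : ℕ) : List ℕ → Bool
  | [] => false
  | y :: l => cond (Nat.beq x y) true (mem x l)

/-- mask of the neighbours of `x` in the graph formed of the images of `{0, u}` -/
def nbm (u x : ℕ) : List ℕ → ℕ
  | [] => 0
  | p :: l => (cond (Nat.beq (act p 0) x) (1 <<< act p u) 0 |||
      cond (Nat.beq (act p u) x) (1 <<< act p 0) 0) ||| nbm u x l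

/-- number of elements of the list whose bit is set -/
def cnt (m : ℕ) (l : List ℕ) : ℕ := (l.filter (fun v => tb m v)).length

/-- add to the mask `R` both ends of the pair `(x, y)` if it contains one of them -/
def add2 (R x y : ℕ) : ℕ := cond (tb R x || tb R y) ((R ||| (1 <<< x)) ||| (1 <<< y)) R

/-- one round of growing along the edges `p {0, u}` -/
def grow1 (u : ℕ) : List ℕ → ℕ → ℕ
  | [], R => R
  | p :: l, R => force (add2 R (act p 0) (act p u)) (grow1 u l)

/-- iterate a map on masks -/
def iter (f : ℕ → ℕ) : ℕ → ℕ → ℕ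
  | 0, R => R
  | k + 1, R => force (f R) (iter f k)

/-- the graph of the images of `{0, u}` on `{0, ..., n - 1}` is not connected -/
def disc (n : ℕ) (elts : List ℕ) (u : ℕ) : Bool :=
  force (iter (grow1 u elts) 6 1) fun R =>
    elts.all (fun p => (tb R (act p 0)) == (tb R (act p u))) && tb R 0 &&
      (List.range n).any (fun i => !(tb R i))

/-- a quadruple of numbers -/
abbrev Quad := ℕ × ℕ × ℕ × ℕ

/-- the four base quadruples -/
def base (u w1 w2 z1 z2 : ℕ) : List Quad :=
  [(w1, 0, u, z1), (w2, 0, u, z2), (z1, u, 0, w1), (z2, u, 0, w2)]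

/-- the image of the quadruple `q` under `p` if it starts with `a, b, c` -/
def tryQ (a b c p : ℕ) (q : Quad) : Option ℕ :=
  cond (Nat.beq (act p q.2.1) b && (Nat.beq (act p q.2.2.1) c && Nat.beq (act p q.1) a))
    (some (act p q.2.2.2)) none

/-- the vertex following `a, b, c` -/
def nxt (elts : List ℕ) (bs : List Quad) (a b c : ℕ) : Option ℕ :=
  elts.findSome? (fun p => bs.findSome? (tryQ a b c p))

/-- follow a face from `a, b, c` until `w1, 0, u` is met; `none`: not closed within the given number
of steps, `some none`: no continuation -/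
def trace (nx : ℕ → ℕ → ℕ → Option ℕ) (w1 u : ℕ) :
    ℕ → ℕ → ℕ → ℕ → List (ℕ × ℕ) → Option (Option (List (ℕ × ℕ)))
  | 0, _, _, _, _ => none
  | k + 1, a, b, c, acc =>
    match nx a b c with
    | none => some none
    | some d' => force d' fun d =>
        cond (Nat.beq b w1 && (Nat.beq c 0 && Nat.beq d u)) (some (some acc))
          (trace nx w1 u k b c d ((c, d) :: acc))

/-- the stabiliser of `{0, u}` permutes the base quadruples -/
def consis (elts : List ℕ) (u w1 w2 z1 z2 : ℕ) : Bool :=
  elts.all fun p =>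
    (!(Nat.beq (act p 0) 0 && Nat.beq (act p u) u) ||
      (((Nat.beq (act p w1) w1 && Nat.beq (act p z1) z1) ||
        (Nat.beq (act p w1) w2 && Nat.beq (act p z1) z2)) &&
      ((Nat.beq (act p w2) w1 && Nat.beq (act p z2) z1) ||
        (Nat.beq (act p w2) w2 && Nat.beq (act p z2) z2)))) &&
    (!(Nat.beq (act p 0) u && Nat.beq (act p u) 0) ||
      (((Nat.beq (act p w1) z1 && Nat.beq (act p z1) w1) ||
        (Nat.beq (act p w1) z2 && Nat.beq (act p z1) w2)) &&
      ((Nat.beq (act p w2) z1 && Nat.beq (act p z2) w1) ||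
        (Nat.beq (act p w2) z2 && Nat.beq (act p z2) w2))))

/-- mask of the neighbours of `v` along the edges of the list -/
def nbW (v : ℕ) : List (ℕ × ℕ) → ℕ
  | [] => 0
  | e :: l => (cond (Nat.beq e.1 v) (1 <<< e.2) 0 ||| cond (Nat.beq e.2 v) (1 <<< e.1) 0) ||| nbW v l

/-- one round of growing around the vertex 0 -/
def grow2 (bs : List Quad) : List ℕ → ℕ → ℕ
  | [], R => R
  | p :: l, R => force (bs.foldl (fun R q => cond (Nat.beq (act p q.2.1) 0)
      (add2 R (act p q.1) (act p q.2.2.1)) R) R) (grow2 bs l)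

/-- the vertex figure at 0 is not connected -/
def vdisc (n : ℕ) (elts : List ℕ) (bs : List Quad) (u N0 : ℕ) : Bool :=
  force (iter (grow2 bs elts) 4 (1 <<< u)) fun R =>
    elts.all (fun p => bs.all fun q => !(Nat.beq (act p q.2.1) 0) ||
      (tb R (act p q.1)) == (tb R (act p q.2.2.1))) && tb R u &&
      (List.range n).any (fun i => tb N0 i && !(tb R i))

/-- mask of the image under `p` of a list of edges -/
def mask (p : ℕ) : List (ℕ × ℕ) → ℕ
  | [] => 0
  | e :: l => (1 <<< ec (act p e.1) (act p e.2)) ||| mask p l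

/-- the masks of the images of a list of edges -/
def masks (W : List (ℕ × ℕ)) : List ℕ → List ℕ
  | [] => []
  | p :: l => force (mask p W) fun m => m :: masks W l

/-- the last part of the test of a candidate -/
def checkW (n : ℕ) (elts : List ℕ) (rows : List (List ℕ)) (bs : List Quad) (u w2 N0 : ℕ)
    (W : List (ℕ × ℕ)) : Bool :=
  cond (W.all fun e => Nat.beq (cnt (nbW e.1 W) (List.range n)) 2 &&
      Nat.beq (cnt (nbW e.2 W) (List.range n)) 2)
    (vdisc n elts bs u N0 ||
      ((masks W elts).all (fun m => !(tb m (ec w2 0) && tb m (ec 0 u))) ||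
      rows.any (fun r => r.all (fun m => mem m (masks W elts)) &&
        (masks W elts).all (fun m => mem m r))))
    (W.any fun e => Nat.ble 3 (cnt (nbW e.1 W) (List.range n)))

/-- the test of a candidate -/
def checkQ (n : ℕ) (elts : List ℕ) (rows : List (List ℕ)) (u w1 w2 z1 z2 N0 : ℕ) : Bool :=
  cond (consis elts u w1 w2 z1 z2)
    (match trace (nxt elts (base u w1 w2 z1 z2)) w1 u 64 w1 0 u [(0, u), (w1, 0)] with
      | none => false
      | some none => true
      | some (some W) => checkW n elts rows (base u w1 w2 z1 z2) u w2 N0 W)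
    true

/-- the tests of all candidates with base edge `{0, u}` -/
def checkU (n : ℕ) (elts : List ℕ) (rows : List (List ℕ)) (u : ℕ) : Bool :=
  force (nbm u 0 elts) fun N0 => force (nbm u u elts) fun Nu =>
    Nat.ble (cnt N0 (List.range n)) 2 || ((List.range u).any (fun v => tb N0 v) ||
    (disc n elts u ||
    (List.range n).all fun w1 => !(tb N0 w1) || (Nat.beq w1 u ||
    (List.range n).all fun w2 => !(tb N0 w2) || (Nat.beq w2 u || (Nat.ble w2 w1 ||
    (List.range n).all fun z1 => !(tb Nu z1) || (Nat.beq z1 0 ||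
    (List.range n).all fun z2 => !(tb Nu z2) || (Nat.beq z2 0 || (Nat.beq z2 z1 ||
      checkQ n elts rows u w1 w2 z1 z2 N0))))))))

/-- the whole search -/
def check (n : ℕ) (elts : List ℕ) (rows : List (List ℕ)) : Bool :=
  (List.range n).all fun u => Nat.beq u 0 || checkU n elts rows u

end Pool.Agent.H38.FT.Code
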