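import Pool.Agent.H38.FT.Defs

/-!
General facts on the configurations that form an abstract polyhedron.
-/

namespace Pool.Agent.H38.FT

namespace Cfg

variable {X Y : Type*} {P : Cfg X}

theorem IsPolyhedron.two_faces (h : P.IsPolyhedron) {e : Sym2 X} (he : e ∈ P.E) :
    ∃ f g, f ≠ g ∧ f ∈ P.F ∧ g ∈ P.F ∧ e ∈ f ∧ e ∈ g ∧ ∀ k ∈ P.F, e ∈ k → k = f ∨ k = g := by
  obtain ⟨f, g, hfg, hs⟩ := Set.ncard_eq_two.1 (h.diamond_edge e he)
  have hf : f ∈ {f | f ∈ P.F ∧ e ∈ f} := by rw [hs]; simp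
  have hg : g ∈ {f | f ∈ P.F ∧ e ∈ f} := by rw [hs]; simp
  refine ⟨f, g, hfg, hf.1, hg.1, hf.2, hg.2, fun k hk hek => ?_⟩
  have : k ∈ {f | f ∈ P.F ∧ e ∈ f} := ⟨hk, hek⟩
  rw [hs] at this
  simpa using this

theorem IsPolyhedron.ne_of_mem (h : P.IsPolyhedron) {x y : X} (he : s(x, y) ∈ P.E) : x ≠ y := by
  obtain ⟨a, -, b, -, hab, hs⟩ := h.edge _ he
  rintro rfl
  rw [Sym2.eq_iff] at hs
  rcases hs with ⟨h1, h2⟩ | ⟨h1, h2⟩
  · exact hab (h1.symm.trans h2)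
  · exact hab (h2.symm.trans h1)

theorem IsPolyhedron.left_mem (h : P.IsPolyhedron) {x y : X} (he : s(x, y) ∈ P.E) : x ∈ P.V := by
  obtain ⟨a, ha, b, hb, hab, hs⟩ := h.edge _ he
  rw [Sym2.eq_iff] at hs
  rcases hs with ⟨h1, h2⟩ | ⟨h1, h2⟩
  · rw [h1]; exact ha
  · rw [h1]; exact hb

theorem IsPolyhedron.right_mem (h : P.IsPolyhedron) {x y : X} (he : s(x, y) ∈ P.E) : y ∈ P.V := by
  rw [Sym2.eq_swap] at he
  exact h.left_mem he

theorem IsPolyhedron.face_sub (h : P.IsPolyhedron) {f : Set (Sym2 X)} (hf : f ∈ P.F)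
    {e : Sym2 X} (he : e ∈ f) : e ∈ P.E := (h.face f hf).2 he

/-- In a face, an edge `{x, y}` is followed at `y` by exactly one other edge `{y, z}`. -/
theorem IsPolyhedron.next (h : P.IsPolyhedron) {f : Set (Sym2 X)} (hf : f ∈ P.F) {x y : X}
    (he : s(x, y) ∈ f) :
    ∃ z, z ≠ x ∧ s(y, z) ∈ f ∧ ∀ t, s(y, t) ∈ f → t = x ∨ t = z := by
  obtain ⟨a, b, hab, hs⟩ := Set.ncard_eq_two.1
    (h.diamond_face f hf y ⟨s(x, y), he, Sym2.mem_mk_right x y⟩)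
  have hxy : s(x, y) ∈ {e | e ∈ f ∧ y ∈ e} := ⟨he, Sym2.mem_mk_right x y⟩
  -- the other edge
  have : ∃ e', e' ≠ s(x, y) ∧ e' ∈ f ∧ y ∈ e' ∧ ∀ e'', e'' ∈ f → y ∈ e'' → e'' = s(x, y) ∨ e'' = e' := by
    have ha : a ∈ {e | e ∈ f ∧ y ∈ e} := by rw [hs]; simp
    have hb : b ∈ {e | e ∈ f ∧ y ∈ e} := by rw [hs]; simp
    have h1 : s(x, y) = a ∨ s(x, y) = b := by
      have := hxy
      rw [hs] at this
      simpa using this
    rcases h1 with h1 | h1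
    · refine ⟨b, ?_, hb.1, hb.2, fun e'' he'' hy => ?_⟩
      · rw [h1]; exact hab.symm
      · have : e'' ∈ {e | e ∈ f ∧ y ∈ e} := ⟨he'', hy⟩
        rw [hs] at this
        rw [h1]
        simpa using this
    · refine ⟨a, ?_, ha.1, ha.2, fun e'' he'' hy => ?_⟩
      · rw [h1]; exact hab
      · have : e'' ∈ {e | e ∈ f ∧ y ∈ e} := ⟨he'', hy⟩
        rw [hs] at this
        rw [h1]
        simpa [or_comm] using this
  obtain ⟨e', hne, he', hy, hall⟩ := this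
  obtain ⟨z, rfl⟩ := Sym2.mem_iff_exists.1 hy
  refine ⟨z, ?_, he', fun t ht => ?_⟩
  · rintro rfl
    exact hne Sym2.eq_swap
  · rcases hall _ ht (Sym2.mem_mk_left y t) with h1 | h1
    · left
      rw [Sym2.eq_iff] at h1
      rcases h1 with ⟨h1, h2⟩ | ⟨h1, h2⟩
      · rw [h2, h1]
      · exact h2
    · right
      rw [Sym2.eq_iff] at h1
      rcases h1 with ⟨h1, h2⟩ | ⟨h1, h2⟩
      · exact h2
      · rw [h2, h1]

/-- Induction along a face. -/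
theorem IsPolyhedron.face_induct (h : P.IsPolyhedron) {f : Set (Sym2 X)} (hf : f ∈ P.F)
    (S : Set (Sym2 X)) {e : Sym2 X} (he : e ∈ f) (heS : e ∈ S)
    (hS : ∀ a ∈ S, a ∈ f → ∀ b ∈ f, ∀ x, x ∈ a → x ∈ b → b ∈ S) : f ⊆ S := by
  intro e' he'
  obtain ⟨x, -, y, -, -, hxy⟩ := h.edge e (h.face_sub hf he)
  obtain ⟨x', -, y', -, -, hxy'⟩ := h.edge e' (h.face_sub hf he')
  have hxe : x ∈ e := by rw [hxy]; exact Sym2.mem_mk_left x y
  have hxe' : x' ∈ e' := by rw [hxy']; exact Sym2.mem_mk_left x' y'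
  have hxV : x ∈ P.V := by
    apply h.left_mem (y := y); rw [← hxy]; exact h.face_sub hf he
  have hxV' : x' ∈ P.V := by
    apply h.left_mem (y := y'); rw [← hxy']; exact h.face_sub hf he'
  have hc := h.connected (x, e, f) (x', e', f) ⟨hxV, h.face_sub hf he, hf, hxe, he⟩
    ⟨hxV', h.face_sub hf he', hf, hxe', he'⟩
  have key : ∀ B : Triple X, Relation.ReflTransGen (fun C D => P.IsFlag C ∧ P.IsFlag D ∧
      Adjacent C D ∧ HasCommon (x, e, f) (x', e', f) D) (x, e, f) B → B.2.2 = f ∧ B.2.1 ∈ S ∧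
      B.2.1 ∈ f ∧ B.1 ∈ B.2.1 := by
    intro B hB
    induction hB with
    | refl => exact ⟨rfl, heS, he, hxe⟩
    | tail _ hstep ih =>
      obtain ⟨hC, hD, hadj, hcom⟩ := hstep
      rename_i C D _
      have hDf : D.2.2 = f := hcom.2.2 rfl
      have hDe : D.2.1 ∈ f := by have := hD.2.2.2.2; rwa [hDf] at this
      refine ⟨hDf, ?_, hDe, hD.2.2.2.1⟩
      rcases hadj with ⟨h1, h2, h3⟩ | ⟨h1, h2, h3⟩ | ⟨h1, h2, h3⟩
      · rw [← h2]; exact ih.2.1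
      · refine hS _ ih.2.1 ih.2.2.1 _ hDe C.1 ih.2.2.2 ?_
        rw [h1]; exact hD.2.2.2.1
      · rw [← h2]; exact ih.2.1
  exact (key _ hc).2.1

/-- Induction around a vertex. -/
theorem IsPolyhedron.vertex_induct (h : P.IsPolyhedron) {x : X} (S : Set (Sym2 X))
    {e : Sym2 X} (he : e ∈ P.E) (hx : x ∈ e) (heS : e ∈ S)
    (hS : ∀ a ∈ S, a ∈ P.E → x ∈ a → ∀ b ∈ P.E, x ∈ b → ∀ f ∈ P.F, a ∈ f → b ∈ f → b ∈ S) :
    ∀ b ∈ P.E, x ∈ b → b ∈ S := by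
  intro e' he' hx'
  obtain ⟨f, -, -, hf, -, hef, -, -⟩ := h.two_faces he
  obtain ⟨f', -, -, hf', -, hef', -, -⟩ := h.two_faces he'
  have hxV : x ∈ P.V := by
    obtain ⟨y, rfl⟩ := Sym2.mem_iff_exists.1 hx
    exact h.left_mem he
  have hc := h.connected (x, e, f) (x, e', f') ⟨hxV, he, hf, hx, hef⟩ ⟨hxV, he', hf', hx', hef'⟩
  have key : ∀ B : Triple X, Relation.ReflTransGen (fun C D => P.IsFlag C ∧ P.IsFlag D ∧
      Adjacent C D ∧ HasCommon (x, e, f) (x, e', f') D) (x, e, f) B → B.1 = x ∧ B.2.1 ∈ S := by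
    intro B hB
    induction hB with
    | refl => exact ⟨rfl, heS⟩
    | tail _ hstep ih =>
      obtain ⟨hC, hD, hadj, hcom⟩ := hstep
      rename_i C D _
      have hDx : D.1 = x := hcom.1 rfl
      refine ⟨hDx, ?_⟩
      rcases hadj with ⟨h1, h2, h3⟩ | ⟨h1, h2, h3⟩ | ⟨h1, h2, h3⟩
      · rw [← h2]; exact ih.2
      · refine hS _ ih.2 hC.2.1 ?_ _ hD.2.1 ?_ _ hC.2.2.1 hC.2.2.2.2 ?_
        · rw [← ih.1]; exact hC.2.2.2.1
        · rw [← hDx]; exact hD.2.2.2.1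
        · rw [h3]; exact hD.2.2.2.2
      · rw [← h2]; exact ih.2
  exact (key _ hc).2

/-- Induction over the whole polyhedron. -/
theorem IsPolyhedron.graph_induct (h : P.IsPolyhedron) (S : Set X) {x : X} (hx : x ∈ P.V)
    (hxS : x ∈ S) (hS : ∀ a ∈ S, ∀ b, s(a, b) ∈ P.E → b ∈ S) : P.V ⊆ S := by
  intro y hy
  obtain ⟨e, he, hxe⟩ := h.vertex x hx
  obtain ⟨e', he', hye⟩ := h.vertex y hy
  obtain ⟨f, -, -, hf, -, hef, -, -⟩ := h.two_faces he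
  obtain ⟨f', -, -, hf', -, hef', -, -⟩ := h.two_faces he'
  have hc := h.connected (x, e, f) (y, e', f') ⟨hx, he, hf, hxe, hef⟩ ⟨hy, he', hf', hye, hef'⟩
  have key : ∀ B : Triple X, Relation.ReflTransGen (fun C D => P.IsFlag C ∧ P.IsFlag D ∧
      Adjacent C D ∧ HasCommon (x, e, f) (y, e', f') D) (x, e, f) B → B.1 ∈ S := by
    intro B hB
    induction hB with
    | refl => exact hxS
    | tail _ hstep ih =>
      obtain ⟨hC, hD, hadj, hcom⟩ := hstep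
      rename_i C D _
      rcases hadj with ⟨h1, h2, h3⟩ | ⟨h1, h2, h3⟩ | ⟨h1, h2, h3⟩
      · refine hS _ ih _ ?_
        have h4 : C.1 ∈ D.2.1 := by rw [← h2]; exact hC.2.2.2.1
        have h5 : D.1 ∈ D.2.1 := hD.2.2.2.1
        have h6 : D.2.1 = s(C.1, D.1) := by
          exact (Sym2.mem_and_mem_iff h1).1 ⟨h4, h5⟩
        rw [← h6]; exact hD.2.1
      · rw [← h1]; exact ih
      · rw [← h1]; exact ih
  exact key _ hc

theorem IsPolyhedron.mem_V_of_edge (h : P.IsPolyhedron) {e : Sym2 X} (he : e ∈ P.E) {x : X}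
    (hx : x ∈ e) : x ∈ P.V := by
  obtain ⟨y, rfl⟩ := Sym2.mem_iff_exists.1 hx
  exact h.left_mem he

/-- `P` is determined by its faces. -/
theorem IsPolyhedron.E_eq (h : P.IsPolyhedron) (e : Sym2 X) : e ∈ P.E ↔ ∃ f ∈ P.F, e ∈ f := by
  constructor
  · intro he
    obtain ⟨f, -, -, hf, -, hef, -, -⟩ := h.two_faces he
    exact ⟨f, hf, hef⟩
  · rintro ⟨f, hf, he⟩
    exact h.face_sub hf he

end Cfg

end Pool.Agent.H38.FT
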