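import Pool.Agent.H38.FT.ListDefs

/-!
# The list of the finite fully transitive polyhedra: tables
-/

namespace Pool.Agent.H38.FT

open Matrix

/-- The base vertices of the rigid polyhedra: `(1, 1, 1)`, `(1, 0, 0)` and `(0, 1, (1 + √5) / 2)`. -/
inductive Vtx
  | v111 | v100 | v01g
  deriving DecidableEq

/-- the coordinates of the base vertices -/
noncomputable def Vtx.vec : Vtx → (Fin 3 → ℝ)
  | .v111 => ![1, 1, 1]
  | .v100 => ![1, 0, 0]
  | .v01g => ![0, 1, gr]

/-- Words in the generators. -/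
abbrev Word := List Letter

/-- The words `τ`, `m₁`, `m₂` of the polyhedra with group `Td` and base vertex `(1, 1, 1)`. The
numbers of vertices, edges, faces and the length of the faces are (4, 6, 3, 4); (4, 6, 4, 3). -/
def rows4 : List (Word × Word × Word) :=
  [([.d], [.s], [.s]), ([.c, .d, .s], [.s], [.s])]

/-- The words of the polyhedra with group `Oh` and base vertex `(1, 0, 0)`: (6, 12, 4, 6);
(6, 12, 8, 3). -/
def rows6 : List (Word × Word × Word) :=
  [([.c, .q], [.n, .q, .c], [.n, .q, .c]), ([.n, .c, .q], [.n, .q, .c], [.n, .q, .c])]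

/-- The words of the polyhedra with group `Oh` and base vertex `(1, 1, 1)`: (8, 12, 4, 6);
(8, 12, 6, 4). -/
def rows8 : List (Word × Word × Word) :=
  [([.c, .q], [.n, .d, .q], [.n, .d, .q]), ([.n, .d], [.n, .d, .q], [.n, .d, .q])]

/-- The words of the polyhedra with group `Ih` and base vertex `(0, 1, gr)`: (12, 30, 10, 6);
(12, 30, 6, 10); (12, 30, 12, 5); (12, 30, 20, 3); (12, 30, 20, 3); (12, 30, 12, 5);
(12, 30, 6, 10); (12, 30, 10, 6). -/
def rows12 : List (Word × Word × Word) := [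
  ([.c, .p], [.n, .d], [.n, .d]),
  ([.p, .c], [.n, .d], [.n, .d]),
  ([.n, .c, .d, .p, .p], [.n, .d], [.n, .d]),
  ([.n, .d, .p, .p, .c], [.n, .d], [.n, .d]),
  ([.n, .c, .p], [.n, .d], [.n, .d]),
  ([.n, .p, .c], [.n, .d], [.n, .d]),
  ([.c, .d, .p, .p], [.n, .d], [.n, .d]),
  ([.d, .p, .p, .c], [.n, .d], [.n, .d])]

/-- The words of the polyhedra with group `Ih` and base vertex `(1, 1, 1)`: (20, 30, 6, 10);
(20, 30, 12, 5); (20, 30, 6, 10); (20, 30, 12, 5); (20, 60, 30, 4); (20, 60, 12, 10);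
(20, 60, 12, 10); (20, 60, 30, 4); (20, 60, 12, 10); (20, 60, 12, 10). -/
def rows20 : List (Word × Word × Word) := [
  ([.c, .p], [.n, .d, .p, .p], [.n, .d, .p, .p]),
  ([.n, .d, .p], [.n, .d, .p, .p], [.n, .d, .p, .p]),
  ([.d, .p], [.n, .d, .p, .p], [.n, .d, .p, .p]),
  ([.n, .c, .p], [.n, .d, .p, .p], [.n, .d, .p, .p]),
  ([.d], [.n, .c, .d, .p, .p], [.n, .d, .p, .p]),
  ([.d], [.n, .d, .p, .p], [.n, .d, .p, .p, .c]),
  ([.d], [.n, .c, .d, .p, .p], [.n, .d, .p, .p, .c]),
  ([.n, .d], [.n, .c, .d, .p, .p], [.n, .d, .p, .p]),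
  ([.n, .d], [.n, .d, .p, .p], [.n, .d, .p, .p, .c]),
  ([.n, .d], [.n, .c, .d, .p, .p], [.n, .d, .p, .p, .c])]

/-- The words `τ` of the polyhedra with group `Ih` and base vertex `(1, 0, 0)`. -/
def taus30 : List Word := [[.p, .c], [.d, .p], [.c, .p], [.n, .p, .c], [.n, .d, .p], [.n, .c, .p]]

/-- The pairs of words `m₁`, `m₂` of the polyhedra with group `Ih` and base vertex `(1, 0, 0)`. -/
def pairs30 : List (Word × Word) := [
  ([.d], [.n, .c, .c, .d, .c]),
  ([.d], [.n, .c, .d, .c, .c]),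
  ([.n, .c, .c, .d, .c], [.n, .c, .d, .c, .c])]

/-- The words of the polyhedra with group `Ih` and base vertex `(1, 0, 0)`: all combinations of
`taus30` and `pairs30`. They have 30 vertices and 60 edges; the numbers of faces and the lengths of
the faces are (6, 20); (10, 12); (12, 10); (10, 12); (6, 20); (12, 10); (6, 20); (6, 20); (20, 6);
(6, 20); (10, 12); (12, 10); (10, 12); (6, 20); (12, 10); (6, 20); (6, 20); (20, 6). -/
def rows30 : List (Word × Word × Word) :=
  taus30.flatMap fun τ => pairs30.map fun m => (τ, m.1, m.2)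

/-- The 42 rigid polyhedra: group, base vertex `v` and words for `τ`, `m₁`, `m₂`; the faces are the
images of `faceC v τ m₁ m₂`. The rows with `m₁ = m₂` are the 18 finite regular polyhedra. -/
def rigidList : List (Tag × Vtx × Word × Word × Word) :=
  (rows4.map fun r => (.Td, .v111, r)) ++ (rows6.map fun r => (.Oh, .v100, r)) ++
  (rows8.map fun r => (.Oh, .v111, r)) ++ (rows12.map fun r => (.Ih, .v01g, r)) ++
  (rows20.map fun r => (.Ih, .v111, r)) ++ (rows30.map fun r => (.Ih, .v100, r))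

/-- The 10 pairs (group, `a`) of the one-parameter families, with the word of the reflection `σ`:
the reflection in the plane `z = 0` for `Th` and `Ih`, in the plane `x = y` for `Td` and `Oh`. -/
def familyList : List (Tag × Word × Word) := [
  (.Th, [.n, .c, .c, .d, .c], [.c]),
  (.Th, [.n, .c, .c, .d, .c], [.d, .c]),
  (.Td, [.s], [.d, .c]),
  (.Oh, [.n, .d, .q], [.d, .c, .q]),
  (.Ih, [.n, .c, .c, .d, .c], [.p]),
  (.Ih, [.n, .c, .c, .d, .c], [.p, .p]),
  (.Ih, [.n, .c, .c, .d, .c], [.n, .p]),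
  (.Ih, [.n, .c, .c, .d, .c], [.c, .p, .d]),
  (.Ih, [.n, .c, .c, .d, .c], [.c, .c, .p]),
  (.Ih, [.n, .c, .c, .d, .c], [.c, .d, .p])]

/-- The configurations of the list, in coordinates: the rigid polyhedra, and for each row of
`familyList` and each vector `v` whose stabiliser in the group consists of `1` and the reflection
`σ`, the three polyhedra with base faces `faceA v σ a`, `faceB v σ a`, `faceB v σ (σ a)`. -/
def IsListed (Q : Cfg (Fin 3 → ℝ)) : Prop :=
  (∃ e ∈ rigidList, Q = orbitCfg e.1 e.2.1.vec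
    (faceC e.2.1.vec (ev e.2.2.1) (ev e.2.2.2.1) (ev e.2.2.2.2))) ∨
  (∃ e ∈ familyList, ∃ v : Fin 3 → ℝ,
    (∀ A ∈ e.1.group, A *ᵥ v = v ↔ A = 1 ∨ A = ev e.2.1) ∧
    (Q = orbitCfg e.1 v (faceA v (ev e.2.1) (ev e.2.2)) ∨
      Q = orbitCfg e.1 v (faceB v (ev e.2.1) (ev e.2.2)) ∨
      Q = orbitCfg e.1 v (faceB v (ev e.2.1) (ev e.2.1 * ev e.2.2))))

end Pool.Agent.H38.FT
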