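import Pool.Agent.H38.FT.CaseLemmas
import Pool.Agent.H38.FT.Table

/-!
The listed configurations are generated by transitive groups.
-/

namespace Pool.Agent.H38.FT

open Matrix Code

/-- maps of unordered pairs and products -/
theorem sym2_mul (A B : Mat) (e : Sym2 (Fin 3 → ℝ)) :
    Sym2.map (fun x => (A * B) *ᵥ x) e =
      Sym2.map (fun x => A *ᵥ x) (Sym2.map (fun x => B *ᵥ x) e) := by
  rw [Sym2.map_map]
  congr 1
  funext z
  simp [Matrix.mulVec_mulVec]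

theorem sym2_one (e : Sym2 (Fin 3 → ℝ)) : Sym2.map (fun x => (1 : Mat) *ᵥ x) e = e := by
  have : (fun x : Fin 3 → ℝ => (1 : Mat) *ᵥ x) = id := by funext z; simp
  rw [this, Sym2.map_id]; rfl

theorem image_mul (A B : Mat) (f : Set (Sym2 (Fin 3 → ℝ))) :
    Sym2.map (fun x => (A * B) *ᵥ x) '' f =
      Sym2.map (fun x => A *ᵥ x) '' (Sym2.map (fun x => B *ᵥ x) '' f) := by
  rw [Set.image_image]
  apply Set.image_congr
  intro e _
  exact sym2_mul A B e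

theorem image_one (f : Set (Sym2 (Fin 3 → ℝ))) :
    Sym2.map (fun x => (1 : Mat) *ᵥ x) '' f = f := by
  ext e
  constructor
  · rintro ⟨e', he', rfl⟩
    rw [sym2_one]; exact he'
  · intro he
    exact ⟨e, he, sym2_one e⟩

/-- the elements of the group are symmetries of the orbit configuration -/
theorem orbitCfg_sym (t : Tag) (v : Fin 3 → ℝ) (f : Set (Sym2 (Fin 3 → ℝ))) {A : Mat}
    (hA : A ∈ t.group) : (orbitCfg t v f).map (fun x => A *ᵥ x) = orbitCfg t v f := by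
  unfold orbitCfg Cfg.map
  congr 1
  · ext z
    constructor
    · rintro ⟨_, ⟨B, hB, rfl⟩, rfl⟩
      exact ⟨A * B, mul_mem hA hB, by simp [Matrix.mulVec_mulVec]⟩
    · rintro ⟨B, hB, rfl⟩
      refine ⟨Aᵀ *ᵥ (B *ᵥ v), ⟨Aᵀ * B, mul_mem (Tag.tr hA) hB, by simp [Matrix.mulVec_mulVec]⟩, ?_⟩
      simp only
      rw [Matrix.mulVec_mulVec, Matrix.mulVec_mulVec, Tag.orth' hA, Matrix.one_mul]
  · ext e
    constructor
    · rintro ⟨e', ⟨B, hB, he'⟩, rfl⟩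
      refine ⟨A * B, mul_mem hA hB, ?_⟩
      rw [image_mul]
      exact ⟨e', he', rfl⟩
    · rintro ⟨B, hB, he⟩
      refine ⟨Sym2.map (fun x => Aᵀ *ᵥ x) e, ⟨Aᵀ * B, mul_mem (Tag.tr hA) hB, ?_⟩, ?_⟩
      · rw [image_mul]
        exact ⟨e, he, rfl⟩
      · rw [← sym2_mul, Tag.orth' hA, sym2_one]
  · ext g
    constructor
    · rintro ⟨_, ⟨B, hB, rfl⟩, rfl⟩
      exact ⟨A * B, mul_mem hA hB, by rw [image_mul]⟩
    · rintro ⟨B, hB, rfl⟩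
      refine ⟨_, ⟨Aᵀ * B, mul_mem (Tag.tr hA) hB, rfl⟩, ?_⟩
      simp only
      rw [← image_mul, ← Matrix.mul_assoc, Tag.orth' hA, Matrix.one_mul]

/-- the edges of the base face form one orbit -/
def OneOrbit (t : Tag) (f : Set (Sym2 (Fin 3 → ℝ))) : Prop :=
  ∃ e₀, ∀ e ∈ f, ∃ A ∈ t.group, e = Sym2.map (fun x => A *ᵥ x) e₀

theorem orbitCfg_trans {t : Tag} {v : Fin 3 → ℝ} {f : Set (Sym2 (Fin 3 → ℝ))}
    (hf : OneOrbit t f) :
    (∀ x ∈ (orbitCfg t v f).V, ∀ y ∈ (orbitCfg t v f).V, ∃ A ∈ t.group, A *ᵥ x = y) ∧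
    (∀ e ∈ (orbitCfg t v f).E, ∀ e' ∈ (orbitCfg t v f).E,
      ∃ A ∈ t.group, Sym2.map (fun x => A *ᵥ x) e = e') ∧
    (∀ g ∈ (orbitCfg t v f).F, ∀ g' ∈ (orbitCfg t v f).F,
      ∃ A ∈ t.group, Sym2.map (fun x => A *ᵥ x) '' g = g') := by
  obtain ⟨e₀, he₀⟩ := hf
  refine ⟨?_, ?_, ?_⟩
  · rintro _ ⟨A, hA, rfl⟩ _ ⟨B, hB, rfl⟩
    refine ⟨B * Aᵀ, mul_mem hB (Tag.tr hA), ?_⟩
    rw [Matrix.mulVec_mulVec, Matrix.mul_assoc, Tag.orth hA, Matrix.mul_one]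
  · rintro _ ⟨A, hA, e, he, rfl⟩ _ ⟨B, hB, e', he', rfl⟩
    obtain ⟨C, hC, rfl⟩ := he₀ e he
    obtain ⟨D, hD, rfl⟩ := he₀ e' he'
    refine ⟨B * D * (A * C)ᵀ, mul_mem (mul_mem hB hD) (Tag.tr (mul_mem hA hC)), ?_⟩
    have h3 : B * D * (A * C)ᵀ * A * C = B * D := by
      rw [Matrix.mul_assoc (B * D * (A * C)ᵀ) A C, Matrix.mul_assoc (B * D),
        Tag.orth (mul_mem hA hC), Matrix.mul_one]
    rw [← sym2_mul, ← sym2_mul, ← sym2_mul, h3]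
  · rintro _ ⟨A, hA, rfl⟩ _ ⟨B, hB, rfl⟩
    refine ⟨B * Aᵀ, mul_mem hB (Tag.tr hA), ?_⟩
    rw [← image_mul, Matrix.mul_assoc, Tag.orth hA, Matrix.mul_one]

theorem closure_le_group {t : Tag} {X : Set Mat} (hX : ∀ A ∈ X, A ∈ t.group) :
    Submonoid.closure X ≤ t.group := (Submonoid.closure_le).2 hX

theorem oneOrbit_C {t : Tag} {v : Fin 3 → ℝ} {τ m₁ m₂ : Mat} (h1 : τ ∈ t.group)
    (h2 : m₁ ∈ t.group) (h3 : m₂ ∈ t.group) : OneOrbit t (faceC v τ m₁ m₂) := by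
  refine ⟨s(v, τ *ᵥ v), ?_⟩
  rintro e ⟨B, hB, hor⟩
  have hB' : B ∈ t.group := by
    refine closure_le_group ?_ hB
    rintro A (rfl | hA)
    · exact h2
    · rw [Set.mem_singleton_iff] at hA
      subst hA
      exact mul_mem (mul_mem h1 h3) (Tag.tr h1)
  rcases hor with rfl | rfl
  · exact ⟨B, hB', rfl⟩
  · exact ⟨B, hB', rfl⟩

theorem oneOrbit_AB {t : Tag} {v : Fin 3 → ℝ} {a : Mat} {X : Set Mat} (ha : a ∈ t.group)
    (hX : ∀ A ∈ X, A ∈ t.group) :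
    OneOrbit t (faceGen X s(v, aᵀ *ᵥ v) s(v, a *ᵥ v)) := by
  refine ⟨s(v, aᵀ *ᵥ v), ?_⟩
  rintro e ⟨B, hB, hor⟩
  have hB' : B ∈ t.group := closure_le_group hX hB
  rcases hor with rfl | rfl
  · exact ⟨B, hB', rfl⟩
  · refine ⟨B * a, mul_mem hB' ha, ?_⟩
    rw [sym2_mul]
    congr 1
    rw [Sym2.map_mk, Matrix.mulVec_mulVec, Tag.orth' ha, Matrix.one_mulVec, Sym2.eq_swap]

theorem oneOrbit_A {t : Tag} {v : Fin 3 → ℝ} {σ a : Mat} (h1 : σ ∈ t.group)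
    (h2 : a ∈ t.group) : OneOrbit t (faceA v σ a) := by
  apply oneOrbit_AB h2
  intro A hA
  rw [Set.mem_singleton_iff] at hA
  subst hA
  exact mul_mem (mul_mem h2 h1) h2

theorem oneOrbit_B {t : Tag} {v : Fin 3 → ℝ} {σ a : Mat} (h1 : σ ∈ t.group)
    (h2 : a ∈ t.group) : OneOrbit t (faceB v σ a) := by
  apply oneOrbit_AB h2
  rintro A (rfl | hA)
  · exact mul_mem (mul_mem (Tag.tr h2) h1) h2
  · rw [Set.mem_singleton_iff] at hA
    subst hA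
    exact mul_mem (mul_mem h2 h1) (Tag.tr h2)

end Pool.Agent.H38.FT
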