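import Pool.Agent.H38.FT.GroupFacts

/-!
The orbits of nonzero vectors span the space.
-/

namespace Pool.Agent.H38.FT

open Matrix

theorem c_mem (t : Tag) : gen .c ∈ t.group := by
  apply Tag.gen_mem
  cases t <;> simp [Tag.letters]

theorem d_mem (t : Tag) : gen .d ∈ t.group := by
  apply Tag.gen_mem
  cases t <;> simp [Tag.letters]

theorem gen_c_apply (v : Fin 3 → ℝ) : gen .c *ᵥ v = ![v 2, v 0, v 1] := by
  funext i
  fin_cases i <;> simp [gen, Matrix.mulVec, dotProduct, Fin.sum_univ_three]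

theorem gen_d_apply (v : Fin 3 → ℝ) : gen .d *ᵥ v = ![v 0, -v 1, -v 2] := by
  funext i
  fin_cases i <;> simp [gen, Matrix.mulVec, dotProduct, Fin.sum_univ_three]

/-- An invariant subspace that contains `v - d v`, `v - c² d c v` and so on is everything. -/
theorem top_of_invariant (W : Submodule ℝ (Fin 3 → ℝ))
    (hc : ∀ w ∈ W, gen .c *ᵥ w ∈ W) (hd : ∀ w ∈ W, gen .d *ᵥ w ∈ W)
    {w : Fin 3 → ℝ} (hw : w ∈ W) (hw0 : w ≠ 0) : W = ⊤ := by
  -- the subspace contains the coordinate components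
  have comp0 : ∀ w ∈ W, ![w 0, 0, 0] ∈ W := by
    intro w hw
    have h1 := W.smul_mem (1 / 2 : ℝ) (W.add_mem hw (hd w hw))
    rw [gen_d_apply] at h1
    have h2 : ![w 0, 0, 0] = (1 / 2 : ℝ) • (w + ![w 0, -w 1, -w 2]) := by
      funext i
      match i with
      | 0 => show w 0 = (1 / 2) * (w 0 + w 0); ring
      | 1 => show 0 = (1 / 2) * (w 1 + -w 1); ring
      | 2 => show 0 = (1 / 2) * (w 2 + -w 2); ring
    rw [h2]
    exact h1
  have rot : ∀ a b c : ℝ, ![a, b, c] ∈ W → ![c, a, b] ∈ W := by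
    intro a b c h
    have := hc _ h
    rw [gen_c_apply] at this
    simpa using this
  have e0 : ∃ a : ℝ, a ≠ 0 ∧ ![a, 0, 0] ∈ W := by
    by_cases h0 : w 0 = 0
    · by_cases h1 : w 1 = 0
      · have h2 : w 2 ≠ 0 := by
          intro h2
          apply hw0
          funext i
          fin_cases i
          · exact h0
          · exact h1
          · exact h2
        have h3 := comp0 _ (hc w hw)
        rw [gen_c_apply] at h3
        exact ⟨w 2, h2, by simpa using h3⟩
      · have h3 := comp0 _ (hc _ (hc w hw))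
        rw [gen_c_apply, gen_c_apply] at h3
        exact ⟨w 1, h1, by simpa using h3⟩
    · exact ⟨w 0, h0, comp0 w hw⟩
  obtain ⟨a, ha, h1⟩ := e0
  have h2 := rot _ _ _ h1
  have h3 := rot _ _ _ h2
  rw [eq_top_iff]
  intro z _
  have : z = (z 0 / a) • ![a, 0, 0] + (z 1 / a) • ![0, a, 0] + (z 2 / a) • ![0, 0, a] := by
    funext i
    fin_cases i <;> simp [ha]
  rw [this]
  exact W.add_mem (W.add_mem (W.smul_mem _ h1) (W.smul_mem _ h2)) (W.smul_mem _ h3)

/-- The orbit of a nonzero vector is not contained in a plane. -/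
theorem orbit_span (t : Tag) {v : Fin 3 → ℝ} (hv : v ≠ 0) {V : Set (Fin 3 → ℝ)}
    (hvV : v ∈ V) (hV : ∀ A ∈ t.group, ∀ x ∈ V, A *ᵥ x ∈ V) : affineSpan ℝ V = ⊤ := by
  have hne : (affineSpan ℝ V : Set (Fin 3 → ℝ)).Nonempty := ⟨v, subset_affineSpan ℝ V hvV⟩
  rw [← AffineSubspace.direction_eq_top_iff_of_nonempty hne, direction_affineSpan]
  have inv : ∀ A ∈ t.group, ∀ w ∈ vectorSpan ℝ V, A *ᵥ w ∈ vectorSpan ℝ V := by
    intro A hA w hw
    have hle : vectorSpan ℝ V ≤ (vectorSpan ℝ V).comap (Matrix.mulVecLin A) := by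
      rw [vectorSpan_def, Submodule.span_le]
      rintro _ ⟨x, hx, y, hy, rfl⟩
      simp only [SetLike.mem_coe, Submodule.mem_comap, Matrix.mulVecLin_apply]
      have : A *ᵥ (x -ᵥ y) = (A *ᵥ x) -ᵥ (A *ᵥ y) := by
        simp only [vsub_eq_sub]
        exact Matrix.mulVec_sub A x y
      rw [this]
      exact Submodule.subset_span ⟨_, hV A hA x hx, _, hV A hA y hy, rfl⟩
    exact hle hw
  have hd1 : v - gen .d *ᵥ v ∈ vectorSpan ℝ V :=
    vsub_mem_vectorSpan ℝ hvV (hV _ (d_mem t) v hvV)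
  have hd2 : v - (gen .c * gen .d * gen .c * gen .c) *ᵥ v ∈ vectorSpan ℝ V :=
    vsub_mem_vectorSpan ℝ hvV (hV _ (mul_mem (mul_mem (mul_mem (c_mem t) (d_mem t)) (c_mem t))
      (c_mem t)) v hvV)
  have e2 : (gen .c * gen .d * gen .c * gen .c) *ᵥ v = ![-v 0, v 1, -v 2] := by
    rw [← Matrix.mulVec_mulVec, ← Matrix.mulVec_mulVec, ← Matrix.mulVec_mulVec, gen_c_apply v,
      gen_c_apply, gen_d_apply, gen_c_apply]
    simp
  by_cases h0 : v - gen .d *ᵥ v = 0
  · refine top_of_invariant _ (fun w hw => inv _ (c_mem t) w hw) (fun w hw => inv _ (d_mem t) w hw)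
      hd2 ?_
    intro h2
    apply hv
    rw [gen_d_apply] at h0
    rw [e2] at h2
    have a1 := congrFun h0 1
    have a2 := congrFun h0 2
    have a3 := congrFun h2 0
    simp at a1 a2 a3
    funext i
    fin_cases i
    · simp; linarith
    · simp; linarith
    · simp; linarith
  · exact top_of_invariant _ (fun w hw => inv _ (c_mem t) w hw) (fun w hw => inv _ (d_mem t) w hw)
      hd1 h0

end Pool.Agent.H38.FT
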