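import Pool.Agent.H38.FT.Forward2
import Pool.Agent.H38.FT.Converse
import Pool.Agent.H38.FT.SpanAff
import Pool.Agent.H38.FT.Q.Tet
import Pool.Agent.H38.FT.Q.Oct
import Pool.Agent.H38.FT.Q.Cub
import Pool.Agent.H38.FT.Q.Ico
import Pool.Agent.H38.FT.Q.Dod
import Pool.Agent.H38.FT.Q.Ici
import Pool.Agent.H38.FT.Q.Thm
import Pool.Agent.H38.FT.Q.Tdm
import Pool.Agent.H38.FT.Q.Ohs
import Pool.Agent.H38.FT.Q.Ihm

/-!
The listed configurations are polyhedra with transitive groups (partly generated).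
-/

namespace Pool.Agent.H38.FT

open Matrix Code

deriving instance DecidableEq for Spec

/-- A finite polyhedron spanning the space with a transitive group. -/
structure Good (Q : Cfg (Fin 3 → ℝ)) : Prop where
  gp : ∃ t : Tag, GP Q t
  fin : Q.V.Finite
  span : affineSpan ℝ Q.V = ⊤

/-- A finite polyhedron spanning the space on which the group of the tag acts transitively. -/
structure GoodT (Q : Cfg (Fin 3 → ℝ)) (t : Tag) : Prop where
  gp : GP Q t
  fin : Q.V.Finite
  span : affineSpan ℝ Q.V = ⊤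

theorem GoodT.good {Q : Cfg (Fin 3 → ℝ)} {t : Tag} (h : GoodT Q t) : Good Q :=
  ⟨⟨t, h.gp⟩, h.fin, h.span⟩

theorem good_of {t : Tag} {v : Fin 3 → ℝ} (hv : v ≠ 0) {f : Set (Sym2 (Fin 3 → ℝ))}
    (hone : OneOrbit t f) {M : Model} {ws : List (List Letter × ℕ)} (hok : M.okGroup t ws = true)
    (htr : M.okTrans ws = true) {es : List ℕ} (hes : ws.map Prod.snd = es) (h0 : 0 < M.n)
    (hn : M.n ≤ 64) {r : Row} (hr : M.okRow t r = true) {x y : ℝ} (hpt : M.pt x y 0 = v)
    (hf : r.spec.face v = f)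
    (hinj : ∀ i < M.n, ∀ j < M.n, M.pt x y i = M.pt x y j → i = j)
    (hpoly : checkPoly M.n (masks r.W es) = true) : GoodT (orbitCfg t v f) t := by
  have hP : (orbitCfg t v f).IsPolyhedron := by
    rw [← hf, ← hpt, orbitCfg_eq hok htr h0 hn hes hr x y]
    exact checkPoly_sound hn hinj hpoly
  obtain ⟨h1, h2, h3⟩ := orbitCfg_trans (v := v) hone
  refine ⟨⟨hP, fun A hA => orbitCfg_sym t v f hA, h1, h2, h3⟩, ?_, ?_⟩
  · have : (orbitCfg t v f).V = (fun i => M.pt x y i) '' {i | i < M.n} := by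
      ext z
      have := Model.trans_of_ok hok htr h0 x y z
      rw [hpt] at this
      constructor
      · intro hz
        obtain ⟨i, hi, rfl⟩ := this.1 hz
        exact ⟨i, hi, rfl⟩
      · rintro ⟨i, hi, rfl⟩
        exact this.2 ⟨i, hi, rfl⟩
    rw [this]
    exact (Set.finite_lt_nat M.n).image _
  · refine orbit_span t hv ⟨1, one_mem _, by simp⟩ ?_
    rintro A hA _ ⟨B, hB, rfl⟩
    exact ⟨A * B, mul_mem hA hB, by simp [Matrix.mulVec_mulVec]⟩

/-- the row of a model with a given description -/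
def inC (t : Tag) (v : Vtx) (R : List Row)
    (e : Tag × Vtx × List Letter × List Letter × List Letter) : Bool :=
  decide (e.1 = t) && (decide (e.2.1 = v) &&
    R.any fun r => decide (r.spec = .C e.2.2.1 e.2.2.2.1 e.2.2.2.2))

theorem inC_sound {t : Tag} {v : Vtx} {R : List Row}
    {e : Tag × Vtx × List Letter × List Letter × List Letter} (h : inC t v R e = true) :
    e.1 = t ∧ e.2.1 = v ∧ ∃ r ∈ R, r.spec = .C e.2.2.1 e.2.2.2.1 e.2.2.2.2 := by
  unfold inC at h
  simp only [Bool.and_eq_true, decide_eq_true_eq, List.any_eq_true] at h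
  exact h

theorem words_of {t : Tag} {s : Spec} (h : Model.okWords t s = true) :
    (∀ τ m₁ m₂, s = .C τ m₁ m₂ → ev τ ∈ t.group ∧ ev m₁ ∈ t.group ∧ ev m₂ ∈ t.group) ∧
    (∀ σ a, s = .A σ a ∨ s = .B σ a → ev σ ∈ t.group ∧ ev a ∈ t.group) := by
  constructor
  · rintro τ m₁ m₂ rfl
    unfold Model.okWords at h
    simp only [List.all_append, Bool.and_eq_true, List.all_eq_true, decide_eq_true_eq] at h
    exact ⟨Tag.ev_mem h.1.1, Tag.ev_mem h.1.2, Tag.ev_mem h.2⟩
  · rintro σ a (rfl | rfl)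
    · unfold Model.okWords at h
      simp only [List.all_append, Bool.and_eq_true, List.all_eq_true, decide_eq_true_eq] at h
      exact ⟨Tag.ev_mem h.1, Tag.ev_mem h.2⟩
    · unfold Model.okWords at h
      simp only [List.all_append, Bool.and_eq_true, List.all_eq_true, decide_eq_true_eq] at h
      exact ⟨Tag.ev_mem h.1, Tag.ev_mem h.2⟩

theorem okRow_words {M : Model} {t : Tag} {r : Row} (h : M.okRow t r = true) :
    Model.okWords t r.spec = true := by
  unfold Model.okRow at h
  rw [Bool.and_eq_true] at h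
  exact h.1

theorem Vtx.ne_zero (v : Vtx) : v.vec ≠ 0 := by
  intro h
  cases v
  · have := congrFun h 0
    simp [Vtx.vec] at this
  · have := congrFun h 0
    simp [Vtx.vec] at this
  · have := congrFun h 1
    simp [Vtx.vec] at this

theorem good_rigid {t : Tag} {v : Vtx} {M : Model} {ws : List (List Letter × ℕ)}
    (hok : M.okGroup t ws = true)
    (htr : M.okTrans ws = true) {es : List ℕ} (hes : ws.map Prod.snd = es) (h0 : 0 < M.n)
    (hn : M.n ≤ 64) (hd : M.distinct = true) (hz : M.zeroB = true) {R : List Row}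
    (hR : (R.all fun r => M.okRow t r) = true) (hpt : M.pt 1 0 0 = v.vec)
    (hpoly : (R.all fun r => checkPoly M.n (masks r.W es)) = true)
    {e : Tag × Vtx × List Letter × List Letter × List Letter} (he : inC t v R e = true) :
    GoodT (orbitCfg e.1 e.2.1.vec
      (faceC e.2.1.vec (ev e.2.2.1) (ev e.2.2.2.1) (ev e.2.2.2.2))) e.1 := by
  obtain ⟨h1, h2, r, hr, hspec⟩ := inC_sound he
  rw [List.all_eq_true] at hR hpoly
  obtain ⟨k1, k2, k3⟩ := (words_of (okRow_words (hR r hr))).1 _ _ _ hspec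
  rw [h1, h2]
  exact good_of (Vtx.ne_zero v) (oneOrbit_C k1 k2 k3) hok htr hes h0 hn (hR r hr) hpt
    (by rw [hspec]; rfl) (Model.inj_axis hd hz one_ne_zero 0) (hpoly r hr)

/-- the rows of a model with a given description -/
def inF (R : List Row) (σ a : List Letter) : Bool :=
  (R.any fun r => decide (r.spec = .A σ a)) && ((R.any fun r => decide (r.spec = .B σ a)) &&
    R.any fun r => decide (r.spec = .B σ (σ ++ a)))

theorem good_family {t : Tag} {M : Model} {ws : List (List Letter × ℕ)}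
    (hok : M.okGroup t ws = true)
    (htr : M.okTrans ws = true) {es : List ℕ} (hes : ws.map Prod.snd = es) (h0 : 0 < M.n)
    (hn : M.n ≤ 64) (hd : M.distinct = true) {R : List Row}
    (hR : (R.all fun r => M.okRow t r) = true)
    (hpoly : (R.all fun r => checkPoly M.n (masks r.W es)) = true) {σ a : List Letter}
    (he : inF R σ a = true) (hS : ∀ x y, ev σ *ᵥ M.pt x y 0 = M.pt x y 0) {v : Fin 3 → ℝ}
    {x y : ℝ} (hpt : M.pt x y 0 = v)
    (hst : ∀ A ∈ t.group, A *ᵥ v = v ↔ A = 1 ∨ A = ev σ) :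
    GoodT (orbitCfg t v (faceA v (ev σ) (ev a))) t ∧
    GoodT (orbitCfg t v (faceB v (ev σ) (ev a))) t ∧
    GoodT (orbitCfg t v (faceB v (ev σ) (ev σ * ev a))) t := by
  have hinj := Model.inj_mirror hd hok htr h0 hS (x := x) (y := y) (by
    rw [hpt]; exact fun A hA h => (hst A hA).1 h)
  unfold inF at he
  simp only [Bool.and_eq_true, List.any_eq_true, decide_eq_true_eq] at he
  obtain ⟨⟨r1, hr1, s1⟩, ⟨r2, hr2, s2⟩, ⟨r3, hr3, s3⟩⟩ := he
  rw [List.all_eq_true] at hR hpoly
  have w1 := (words_of (okRow_words (hR r1 hr1))).2 _ _ (Or.inl s1)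
  have w3 := (words_of (okRow_words (hR r3 hr3))).2 _ _ (Or.inr s3)
  have hv : v ≠ 0 := by
    rintro rfl
    have h1 := (hst (gen .c) (c_mem t)).1 (by simp)
    have h2 := (hst (gen .d) (d_mem t)).1 (by simp)
    have c1 : gen .c ≠ 1 := by
      intro h
      have := congrFun (congrFun h 0) 0
      simp [gen] at this
    have d1 : gen .d ≠ 1 := by
      intro h
      have := congrFun (congrFun h 1) 1
      simp [gen] at this
      norm_num at this
    have cd : gen .c ≠ gen .d := by
      intro h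
      have := congrFun (congrFun h 0) 0
      simp [gen] at this
    exact cd ((h1.resolve_left c1).trans (h2.resolve_left d1).symm)
  refine ⟨?_, ?_, ?_⟩
  · exact good_of hv (oneOrbit_A w1.1 w1.2) hok htr hes h0 hn (hR r1 hr1) hpt
      (by rw [s1]; rfl) hinj (hpoly r1 hr1)
  · exact good_of hv (oneOrbit_B w1.1 w1.2) hok htr hes h0 hn (hR r2 hr2) hpt
      (by rw [s2]; rfl) hinj (hpoly r2 hr2)
  · refine good_of hv (oneOrbit_B w1.1 (mul_mem w1.1 w1.2)) hok htr hes h0 hn (hR r3 hr3) hpt
      ?_ hinj (hpoly r3 hr3)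
    rw [s3]
    simp only [Spec.face, ev_append]

theorem rigid_cover : (rigidList.all fun e =>
    (inC .Td .v111 tetR e ||
    (inC .Oh .v100 octR e ||
    (inC .Oh .v111 cubR e ||
    (inC .Ih .v01g icoR e ||
    (inC .Ih .v111 dodR e ||
    inC .Ih .v100 iciR e)))))) = true := by
  decide +kernel

theorem family_cover : (familyList.all fun e =>

    (decide (e.1 = .Th) && (decide (e.2.1 = [.n, .c, .c, .d, .c]) && inF thmR e.2.1 e.2.2)) ||
    ((decide (e.1 = .Td) && (decide (e.2.1 = [.s]) && inF tdmR e.2.1 e.2.2)) ||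
    ((decide (e.1 = .Oh) && (decide (e.2.1 = [.n, .d, .q]) && inF ohsR e.2.1 e.2.2)) ||
    ((decide (e.1 = .Ih) && (decide (e.2.1 = [.n, .c, .c, .d, .c]) && inF ihmR e.2.1 e.2.2)))))) = true := by
  decide +kernel

/-- The rigid configurations are polyhedra with transitive groups. -/
theorem rigid_good {e : Tag × Vtx × Word × Word × Word} (he : e ∈ rigidList) :
    GoodT (orbitCfg e.1 e.2.1.vec
      (faceC e.2.1.vec (ev e.2.2.1) (ev e.2.2.2.1) (ev e.2.2.2.2))) e.1 := by
  have h1 := rigid_cover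
  rw [List.all_eq_true] at h1
  have h2 := h1 e he
  simp only [Bool.or_eq_true] at h2
  rcases h2 with h2 | h2 | h2 | h2 | h2 | h2
  · exact good_rigid tetTd_ok tetTd_trans tetTd_map (by decide) (by decide) tetM_distinct tetM_zeroB
      tetR_ok (by rw [tetM_pt]; simp [Vtx.vec]) tet_poly h2
  · exact good_rigid octOh_ok octOh_trans octOh_map (by decide) (by decide) octM_distinct octM_zeroB
      octR_ok (by rw [octM_pt]; simp [Vtx.vec]) oct_poly h2
  · exact good_rigid cubOh_ok cubOh_trans cubOh_map (by decide) (by decide) cubM_distinct cubM_zeroB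
      cubR_ok (by rw [cubM_pt]; simp [Vtx.vec]) cub_poly h2
  · exact good_rigid icoIh_ok icoIh_trans icoIh_map (by decide) (by decide) icoM_distinct icoM_zeroB
      icoR_ok (by rw [icoM_pt]; simp [Vtx.vec]) ico_poly h2
  · exact good_rigid dodIh_ok dodIh_trans dodIh_map (by decide) (by decide) dodM_distinct dodM_zeroB
      dodR_ok (by rw [dodM_pt]; simp [Vtx.vec]) dod_poly h2
  · exact good_rigid iciIh_ok iciIh_trans iciIh_map (by decide) (by decide) iciM_distinct iciM_zeroB
      iciR_ok (by rw [iciM_pt]; simp [Vtx.vec]) ici_poly h2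

/-- The members of the families are polyhedra with transitive groups. -/
theorem family_good {e : Tag × Word × Word} (he : e ∈ familyList) {v : Fin 3 → ℝ}
    (hst : ∀ A ∈ e.1.group, A *ᵥ v = v ↔ A = 1 ∨ A = ev e.2.1) :
    GoodT (orbitCfg e.1 v (faceA v (ev e.2.1) (ev e.2.2))) e.1 ∧
    GoodT (orbitCfg e.1 v (faceB v (ev e.2.1) (ev e.2.2))) e.1 ∧
    GoodT (orbitCfg e.1 v (faceB v (ev e.2.1) (ev e.2.1 * ev e.2.2))) e.1 := by
  have h1 := family_cover
  rw [List.all_eq_true] at h1
  have h2 := h1 e he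
  simp only [Bool.or_eq_true, Bool.and_eq_true, decide_eq_true_eq] at h2
  obtain ⟨t, σ, a⟩ := e
  simp only at h2 hst
  rcases h2 with ⟨rfl, rfl, h2⟩ | ⟨rfl, rfl, h2⟩ | ⟨rfl, rfl, h2⟩ | ⟨rfl, rfl, h2⟩
  · have hfix : ev [.n, .c, .c, .d, .c] *ᵥ v = v :=
      (hst _ (Tag.ev_mem (by decide))).2 (Or.inr rfl)
    exact good_family thmTh_ok thmTh_trans thmTh_map (by decide) (by decide)
      thmM_distinct thmR_ok thm_poly h2 thm_fix (x := v 0) (y := v 1)
      (by rw [thmM_pt]; exact (fix_nccdc hfix).symm) hst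
  · have hfix : ev [.s] *ᵥ v = v :=
      (hst _ (Tag.ev_mem (by decide))).2 (Or.inr rfl)
    exact good_family tdmTd_ok tdmTd_trans tdmTd_map (by decide) (by decide)
      tdmM_distinct tdmR_ok tdm_poly h2 tdm_fix (x := v 0) (y := v 2)
      (by rw [tdmM_pt]; exact (fix_s hfix).symm) hst
  · have hfix : ev [.n, .d, .q] *ᵥ v = v :=
      (hst _ (Tag.ev_mem (by decide))).2 (Or.inr rfl)
    exact good_family ohsOh_ok ohsOh_trans ohsOh_map (by decide) (by decide)
      ohsM_distinct ohsR_ok ohs_poly h2 ohs_fix (x := v 0) (y := v 2)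
      (by rw [ohsM_pt]; exact (fix_ndq hfix).symm) hst
  · have hfix : ev [.n, .c, .c, .d, .c] *ᵥ v = v :=
      (hst _ (Tag.ev_mem (by decide))).2 (Or.inr rfl)
    exact good_family ihmIh_ok ihmIh_trans ihmIh_map (by decide) (by decide)
      ihmM_distinct ihmR_ok ihm_poly h2 ihm_fix (x := v 0) (y := v 1)
      (by rw [ihmM_pt]; exact (fix_nccdc hfix).symm) hst

/-- The listed configurations are polyhedra with transitive groups. -/
theorem listed_good {Q : Cfg (Fin 3 → ℝ)} (hQ : IsListed Q) : Good Q := by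
  rcases hQ with ⟨e, he, rfl⟩ | ⟨e, he, v, hst, rfl | rfl | rfl⟩
  · exact (rigid_good he).good
  · exact (family_good he hst).1.good
  · exact (family_good he hst).2.1.good
  · exact (family_good he hst).2.2.good

end Pool.Agent.H38.FT
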