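import Pool.Agent.H38.FT.Defs
import Pool.Agent.H38.FT.Code

/-!
Sets of edges coded by bit masks.
-/

namespace Pool.Agent.H38.FT.Code

variable {X : Type*}

/-- The set of edges coded by the mask `m`, the vertices being the points `pt i`, `i < n`. -/
def dec (n : ℕ) (pt : ℕ → X) (m : ℕ) : Set (Sym2 X) :=
  {e | ∃ i < n, ∃ j < n, tb m (ec i j) = true ∧ e = s(pt i, pt j)}

/-- The configuration with vertices `pt i`, `i < n`, whose faces are coded by the masks in `r`. -/
def cfgOf (n : ℕ) (pt : ℕ → X) (r : List ℕ) : Cfg X where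
  V := {x | ∃ i < n, x = pt i}
  E := {e | ∃ m ∈ r, e ∈ dec n pt m}
  F := {f | ∃ m ∈ r, f = dec n pt m}

/-
Module M3 (file `Pool/Agent/H38/FT/CheckPoly.lean`): define a kernel-evaluable test

def checkPoly (n : ℕ) (r : List ℕ) : Bool

and prove

theorem checkPoly_sound {X : Type*} {n : ℕ} {pt : ℕ → X} {r : List ℕ} (hn : n ≤ 64)
    (hinj : ∀ i < n, ∀ j < n, pt i = pt j → i = j) (h : checkPoly n r = true) :
    (cfgOf n pt r).IsPolyhedron
-/

end Pool.Agent.H38.FT.Code
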