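import Pool.Agent.H38.FT.GroupFacts

/-!
Models: finite sets of points permuted by the generators.
-/

namespace Pool.Agent.H38.FT

open Matrix Code

namespace Code

/-- code of a list of digits in base 64 -/
def enc : List ℕ → ℕ
  | [] => 0
  | d :: l => d + 64 * enc l

theorem act_enc (l : List ℕ) (hl : ∀ d ∈ l, d < 64) (i : ℕ) (hi : i < l.length) :
    act (enc l) i = l[i] := by
  induction l generalizing i with
  | nil => simp at hi
  | cons d l ih =>
    have hd : d < 64 := hl d (by simp)
    cases i with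
    | zero =>
      unfold act enc
      simp only [Nat.mul_zero, Nat.shiftRight_zero, List.getElem_cons_zero]
      omega
    | succ i =>
      have h1 := ih (fun d hd => hl d (by simp [hd])) i (by simpa using hi)
      unfold act at h1 ⊢
      rw [Nat.shiftRight_eq_div_pow] at h1 ⊢
      simp only [List.getElem_cons_succ]
      rw [← h1]
      have h2 : 2 ^ (6 * (i + 1)) = 64 * 2 ^ (6 * i) := by
        rw [Nat.mul_add, pow_add]; norm_num; ring
      have h3 : enc (d :: l) = d + 64 * enc l := rfl
      have h4 : (d + 64 * enc l) / 64 = enc l := by omega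
      rw [h2, ← Nat.div_div_eq_div_mul, h3, h4]

/-- code of the composition of two coded permutations -/
def comp (n g p : ℕ) : ℕ := enc ((List.range n).map fun i => act g (act p i))

theorem act_lt (p i : ℕ) : act p i < 64 := Nat.mod_lt _ (by norm_num)

theorem act_comp {n g p i : ℕ} (hi : i < n) : act (comp n g p) i = act g (act p i) := by
  unfold comp
  rw [act_enc _ _ i (by simpa using hi)]
  · simp
  · intro d hd
    rw [List.mem_map] at hd
    obtain ⟨j, -, rfl⟩ := hd
    exact act_lt _ _

end Code

/-- A finite set of coded points and the codes of the permutations of the points by the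
generators. -/
structure Model where
  n : ℕ
  pts : List V3
  gc : Letter → ℕ

namespace Model

/-- the `i`-th point -/
noncomputable def pt (M : Model) (x y : ℝ) (i : ℕ) : Fin 3 → ℝ := (M.pts.getD i default).toR x y

/-- the matrix `A` permutes the points as the coded permutation `p` -/
def Rep (M : Model) (x y : ℝ) (A : Mat) (p : ℕ) : Prop :=
  ∀ i < M.n, act p i < M.n ∧ A *ᵥ M.pt x y i = M.pt x y (act p i)

/-- the generator `l` permutes the points as coded -/
def okLetter (M : Model) (l : Letter) : Bool :=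
  (List.range M.n).all fun i => Nat.blt (act (M.gc l) i) M.n &&
    grel l (M.pts.getD i default) (M.pts.getD (act (M.gc l) i) default)

theorem rep_gen {M : Model} {l : Letter} (h : M.okLetter l = true) (x y : ℝ) :
    M.Rep x y (gen l) (M.gc l) := by
  intro i hi
  unfold okLetter at h
  rw [List.all_eq_true] at h
  have h1 := h i (List.mem_range.2 hi)
  rw [Bool.and_eq_true] at h1
  refine ⟨?_, grel_sound h1.2 x y⟩
  have := h1.1
  rw [Nat.blt_eq] at this
  exact this

theorem rep_one (M : Model) (x y : ℝ) {p : ℕ} (hp : ∀ i < M.n, act p i = i) :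
    M.Rep x y 1 p := by
  intro i hi
  rw [hp i hi, Matrix.one_mulVec]
  exact ⟨hi, rfl⟩

theorem rep_mul {M : Model} {x y : ℝ} {A B : Mat} {g p r : ℕ} (hA : M.Rep x y A g)
    (hB : M.Rep x y B p) (h : ∀ i < M.n, act r i = act g (act p i)) :
    M.Rep x y (A * B) r := by
  intro i hi
  obtain ⟨h1, h2⟩ := hB i hi
  obtain ⟨h3, h4⟩ := hA _ h1
  rw [h i hi]
  exact ⟨h3, by rw [← Matrix.mulVec_mulVec, h2, h4]⟩

/-- action of a word -/
def actW (M : Model) : List Letter → ℕ → ℕ
  | [], i => i
  | l :: w, i => act (M.gc l) (M.actW w i)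

theorem actW_lt {M : Model} {w : List Letter} (h : ∀ l ∈ w, M.okLetter l = true) {i : ℕ}
    (hi : i < M.n) : M.actW w i < M.n := by
  induction w with
  | nil => exact hi
  | cons l w ih =>
    exact (rep_gen (h l (by simp)) 0 0 _ (ih (fun l hl => h l (by simp [hl])))).1

theorem actW_eq {M : Model} {w : List Letter} (h : ∀ l ∈ w, M.okLetter l = true) (x y : ℝ)
    {i : ℕ} (hi : i < M.n) : ev w *ᵥ M.pt x y i = M.pt x y (M.actW w i) := by
  induction w with
  | nil => simp [ev, actW]
  | cons l w ih =>
    have h1 := ih (fun l hl => h l (by simp [hl]))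
    have h2 : ev (l :: w) = gen l * ev w := by simp [ev]
    rw [h2, ← Matrix.mulVec_mulVec, h1]
    exact (rep_gen (h l (by simp)) x y _ (actW_lt (fun l hl => h l (by simp [hl])) hi)).2

theorem rep_ev {M : Model} {w : List Letter} (h : ∀ l ∈ w, M.okLetter l = true) (x y : ℝ)
    {p : ℕ} (hp : ∀ i < M.n, act p i = M.actW w i) : M.Rep x y (ev w) p := by
  intro i hi
  rw [hp i hi]
  exact ⟨actW_lt h hi, actW_eq h x y hi⟩

/-- The list of words with codes represents all elements of the group of the tag `t`. -/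
def okGroup (M : Model) (t : Tag) (ws : List (List Letter × ℕ)) : Bool :=
  (t.letters.all fun l => M.okLetter l) &&
  ((ws.all fun e => (e.1.all fun l => decide (l ∈ t.letters)) &&
    (List.range M.n).all fun i => Nat.beq (act e.2 i) (M.actW e.1 i)) &&
  ((ws.any fun e => (List.range M.n).all fun i => Nat.beq (act e.2 i) i) &&
  (ws.all fun e => t.letters.all fun l => mem (comp M.n (M.gc l) e.2) (ws.map Prod.snd))))

theorem okGroup_letters {M : Model} {t : Tag} {ws : List (List Letter × ℕ)}
    (h : M.okGroup t ws = true) : ∀ l ∈ t.letters, M.okLetter l = true := by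
  unfold okGroup at h
  rw [Bool.and_eq_true, List.all_eq_true] at h
  exact h.1

theorem code_of_group {M : Model} {t : Tag} {ws : List (List Letter × ℕ)}
    (h : M.okGroup t ws = true) (x y : ℝ) {A : Mat} (hA : A ∈ t.group) :
    ∃ p ∈ ws.map Prod.snd, M.Rep x y A p := by
  have hl := okGroup_letters h
  unfold okGroup at h
  rw [Bool.and_eq_true, Bool.and_eq_true, Bool.and_eq_true] at h
  obtain ⟨-, -, h2, h3⟩ := h
  unfold Tag.group at hA
  induction hA using Submonoid.closure_induction_left with
  | one =>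
    rw [List.any_eq_true] at h2
    obtain ⟨e, he, h4⟩ := h2
    rw [List.all_eq_true] at h4
    exact ⟨e.2, List.mem_map.2 ⟨e, he, rfl⟩, M.rep_one x y fun i hi =>
      Nat.eq_of_beq_eq_true (h4 i (List.mem_range.2 hi))⟩
  | mul_left A hA B hB ih =>
    obtain ⟨l, hlt, rfl⟩ := hA
    obtain ⟨p, hp, hrep⟩ := ih
    rw [List.mem_map] at hp
    obtain ⟨e, he, rfl⟩ := hp
    rw [List.all_eq_true] at h3
    have h4 := h3 e he
    rw [List.all_eq_true] at h4
    have h5 := h4 l hlt
    rw [mem_iff] at h5
    exact ⟨_, h5, rep_mul (rep_gen (hl l hlt) x y) hrep fun i hi => act_comp hi⟩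

theorem group_of_code {M : Model} {t : Tag} {ws : List (List Letter × ℕ)}
    (h : M.okGroup t ws = true) {p : ℕ} (hp : p ∈ ws.map Prod.snd) :
    ∃ A ∈ t.group, ∀ x y, M.Rep x y A p := by
  have hl := okGroup_letters h
  unfold okGroup at h
  rw [Bool.and_eq_true, Bool.and_eq_true, Bool.and_eq_true] at h
  obtain ⟨-, h1, -, -⟩ := h
  rw [List.mem_map] at hp
  obtain ⟨e, he, rfl⟩ := hp
  rw [List.all_eq_true] at h1
  have h2 := h1 e he
  rw [Bool.and_eq_true, List.all_eq_true, List.all_eq_true] at h2
  have h3 : ∀ l ∈ e.1, l ∈ t.letters := fun l hl => by simpa using h2.1 l hl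
  exact ⟨ev e.1, Tag.ev_mem h3, fun x y => rep_ev (fun l hle => hl l (h3 l hle)) x y fun i hi =>
    Nat.eq_of_beq_eq_true (h2.2 i (List.mem_range.2 hi))⟩

/-- the group is transitive on the points -/
def okTrans (M : Model) (ws : List (List Letter × ℕ)) : Bool :=
  (List.range M.n).all fun i => ws.any fun e => Nat.beq (act e.2 0) i

theorem trans_of_ok {M : Model} {t : Tag} {ws : List (List Letter × ℕ)}
    (h : M.okGroup t ws = true) (h' : M.okTrans ws = true) (h0 : 0 < M.n) (x y : ℝ) (z : Fin 3 → ℝ) :
    (∃ A ∈ t.group, z = A *ᵥ M.pt x y 0) ↔ ∃ i < M.n, z = M.pt x y i := by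
  constructor
  · rintro ⟨A, hA, rfl⟩
    obtain ⟨p, -, hrep⟩ := code_of_group h x y hA
    exact ⟨act p 0, (hrep 0 h0).1, (hrep 0 h0).2⟩
  · rintro ⟨i, hi, rfl⟩
    unfold okTrans at h'
    rw [List.all_eq_true] at h'
    have h1 := h' i (List.mem_range.2 hi)
    rw [List.any_eq_true] at h1
    obtain ⟨e, he, h2⟩ := h1
    obtain ⟨A, hA, hrep⟩ := group_of_code h (List.mem_map.2 ⟨e, he, rfl⟩)
    refine ⟨A, hA, ?_⟩
    rw [(hrep x y 0 h0).2, Nat.eq_of_beq_eq_true h2]

end Model

end Pool.Agent.H38.FT
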