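import Pool.Agent.H38.FT.ListDefs
import Pool.Agent.H38.FT.Model
import Pool.Agent.H38.FT.Dec

/-!
The listed polyhedra in coded form.
-/

namespace Pool.Agent.H38.FT

open Matrix Code

/-- A description of a listed polyhedron by words. -/
inductive Spec
  | C (τ m₁ m₂ : List Letter)
  | A (σ a : List Letter)
  | B (σ a : List Letter)

/-- the base face of the description -/
noncomputable def Spec.face (s : Spec) (v : Fin 3 → ℝ) : Set (Sym2 (Fin 3 → ℝ)) :=
  match s with
  | .C τ m₁ m₂ => faceC v (ev τ) (ev m₁) (ev m₂)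
  | .A σ a => faceA v (ev σ) (ev a)
  | .B σ a => faceB v (ev σ) (ev a)

/-- A description with codes: `q` codes the inverse of the first element (`τ` or `a`), `X` the
generators of the group of the base face, `W` lists the edges of the base face. -/
structure Row where
  spec : Spec
  q : ℕ
  X : List ℕ
  W : List (ℕ × ℕ)

/-- the same unordered pair -/
def sameE (e : ℕ × ℕ) (a b : ℕ) : Bool :=
  (Nat.beq e.1 a && Nat.beq e.2 b) || (Nat.beq e.1 b && Nat.beq e.2 a)

/-- membership of an unordered pair in a list -/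
def memE (W : List (ℕ × ℕ)) (a b : ℕ) : Bool := W.any fun e => sameE e a b

/-- every edge of the list is a base edge or the image of a later one -/
def reachE (X : List ℕ) (a1 b1 a2 b2 : ℕ) : List (ℕ × ℕ) → Bool
  | [] => true
  | e :: l => (sameE e a1 b1 || (sameE e a2 b2 ||
      X.any fun g => l.any fun e' => sameE e (act g e'.1) (act g e'.2))) &&
      reachE X a1 b1 a2 b2 l

namespace Model

/-- `q` codes the inverse of the permutation of the word -/
def okInv (M : Model) (w : List Letter) (q : ℕ) : Bool :=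
  (List.range M.n).all fun i => Nat.beq (act q (M.actW w i)) i &&
    (Nat.beq (M.actW w (act q i)) i && Nat.blt (act q i) M.n)

/-- test of the generators of the group of the base face -/
def okX (M : Model) (s : Spec) (q : ℕ) (X : List ℕ) : Bool :=
  match s, X with
  | .C τ m₁ m₂, [g₁, g₂] => M.okInv τ q && (List.range M.n).all fun i =>
      Nat.beq (act g₁ i) (M.actW m₁ i) &&
      Nat.beq (act g₂ i) (M.actW τ (M.actW m₂ (act q i)))
  | .A σ a, [g₁] => M.okInv a q && (List.range M.n).all fun i =>
      Nat.beq (act g₁ i) (M.actW a (M.actW σ (M.actW a i)))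
  | .B σ a, [g₁, g₂] => M.okInv a q && (List.range M.n).all fun i =>
      Nat.beq (act g₁ i) (act q (M.actW σ (M.actW a i))) &&
      Nat.beq (act g₂ i) (M.actW a (M.actW σ (act q i)))
  | _, _ => false

/-- the second ends of the two base edges at the vertex 0 -/
def ends (M : Model) (s : Spec) (q : ℕ) : ℕ × ℕ :=
  match s with
  | .C τ _ _ => (M.actW τ 0, M.actW τ 0)
  | .A _ a => (act q 0, M.actW a 0)
  | .B _ a => (act q 0, M.actW a 0)

/-- the words use letters of the tag -/
def okWords (t : Tag) (s : Spec) : Bool :=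
  match s with
  | .C τ m₁ m₂ => (τ ++ m₁ ++ m₂).all fun l => decide (l ∈ t.letters)
  | .A σ a => (σ ++ a).all fun l => decide (l ∈ t.letters)
  | .B σ a => (σ ++ a).all fun l => decide (l ∈ t.letters)

/-- test of a row -/
def okRow (M : Model) (t : Tag) (r : Row) : Bool :=
  okWords t r.spec && (M.okX r.spec r.q r.X &&
  ((r.W.all fun e => Nat.blt e.1 M.n && Nat.blt e.2 M.n) &&
  (memE r.W 0 (M.ends r.spec r.q).1 && (memE r.W 0 (M.ends r.spec r.q).2 &&
  ((r.X.all fun g => r.W.all fun e => memE r.W (act g e.1) (act g e.2)) &&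
  reachE r.X 0 (M.ends r.spec r.q).1 0 (M.ends r.spec r.q).2 r.W)))))

end Model

theorem sameE_sound {e : ℕ × ℕ} {a b : ℕ} (h : sameE e a b = true) (pt : ℕ → Fin 3 → ℝ) :
    s(pt e.1, pt e.2) = s(pt a, pt b) := by
  unfold sameE at h
  rw [Bool.or_eq_true, Bool.and_eq_true, Bool.and_eq_true] at h
  rcases h with ⟨h1, h2⟩ | ⟨h1, h2⟩
  · rw [Nat.eq_of_beq_eq_true h1, Nat.eq_of_beq_eq_true h2]
  · rw [Nat.eq_of_beq_eq_true h1, Nat.eq_of_beq_eq_true h2, Sym2.eq_swap]

theorem memE_sound {W : List (ℕ × ℕ)} {a b : ℕ} (h : memE W a b = true)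
    (pt : ℕ → Fin 3 → ℝ) : ∃ e ∈ W, s(pt a, pt b) = s(pt e.1, pt e.2) := by
  unfold memE at h
  rw [List.any_eq_true] at h
  obtain ⟨e, he, h1⟩ := h
  exact ⟨e, he, (sameE_sound h1 pt).symm⟩

/-- the generated face in coded form -/
theorem faceGen_eq {M : Model} {x y : ℝ} {X : List ℕ} {XM : Set Mat} {u w : ℕ}
    {W : List (ℕ × ℕ)}
    (hX1 : ∀ A ∈ XM, ∃ g ∈ X, M.Rep x y A g) (hX2 : ∀ g ∈ X, ∃ A ∈ XM, M.Rep x y A g)
    (hW : (W.all fun e => Nat.blt e.1 M.n && Nat.blt e.2 M.n) = true)
    (h1 : memE W 0 u = true) (h2 : memE W 0 w = true)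
    (hc : (X.all fun g => W.all fun e => memE W (act g e.1) (act g e.2)) = true)
    (hr : reachE X 0 u 0 w W = true) :
    ∀ e, e ∈ faceGen XM s(M.pt x y 0, M.pt x y u) s(M.pt x y 0, M.pt x y w) ↔
      ∃ a ∈ W, e = s(M.pt x y a.1, M.pt x y a.2) := by
  have hWn : ∀ e ∈ W, e.1 < M.n ∧ e.2 < M.n := by
    intro e he
    rw [List.all_eq_true] at hW
    have := hW e he
    rw [Bool.and_eq_true, Nat.blt_eq, Nat.blt_eq] at this
    exact this
  intro e
  constructor
  · rintro ⟨B, hB, hor⟩
    have key : ∀ e₀ : Sym2 (Fin 3 → ℝ), (∃ a ∈ W, e₀ = s(M.pt x y a.1, M.pt x y a.2)) →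
        ∃ a ∈ W, Sym2.map (fun x => B *ᵥ x) e₀ = s(M.pt x y a.1, M.pt x y a.2) := by
      clear hor
      induction hB using Submonoid.closure_induction_left with
      | one =>
        rintro e₀ ⟨a, ha, rfl⟩
        exact ⟨a, ha, by simp⟩
      | mul_left A hA B hB ih =>
        intro e₀ he₀
        obtain ⟨a, ha, hea⟩ := ih e₀ he₀
        obtain ⟨g, hg, hrep⟩ := hX1 A hA
        rw [List.all_eq_true] at hc
        have h3 := hc g hg
        rw [List.all_eq_true] at h3
        obtain ⟨b, hb, heb⟩ := memE_sound (h3 a ha) (M.pt x y)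
        refine ⟨b, hb, ?_⟩
        have h4 : Sym2.map (fun x => (A * B) *ᵥ x) e₀ =
            Sym2.map (fun x => A *ᵥ x) (Sym2.map (fun x => B *ᵥ x) e₀) := by
          rw [Sym2.map_map]
          congr 1
          funext z
          simp [Matrix.mulVec_mulVec]
        rw [h4, hea, Sym2.map_mk, (hrep _ (hWn a ha).1).2, (hrep _ (hWn a ha).2).2]
        exact heb
    rcases hor with rfl | rfl
    · exact key _ (memE_sound h1 (M.pt x y))
    · exact key _ (memE_sound h2 (M.pt x y))
  · -- every edge of the list is generated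
    have key : ∀ l : List (ℕ × ℕ), (∀ e ∈ l, e.1 < M.n ∧ e.2 < M.n) → reachE X 0 u 0 w l = true →
        ∀ a ∈ l, s(M.pt x y a.1, M.pt x y a.2) ∈
          faceGen XM s(M.pt x y 0, M.pt x y u) s(M.pt x y 0, M.pt x y w) := by
      intro l
      induction l with
      | nil => intro _ _ a ha; simp at ha
      | cons b l ih =>
        intro hl hrl a ha
        unfold reachE at hrl
        rw [Bool.and_eq_true, Bool.or_eq_true, Bool.or_eq_true] at hrl
        obtain ⟨hb, hrl⟩ := hrl
        have ih' := ih (fun e he => hl e (List.mem_cons_of_mem _ he)) hrl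
        rcases List.mem_cons.1 ha with rfl | ha
        · rcases hb with hb | hb | hb
          · refine ⟨1, one_mem _, Or.inl ?_⟩
            rw [sameE_sound hb (M.pt x y)]
            simp
          · refine ⟨1, one_mem _, Or.inr ?_⟩
            rw [sameE_sound hb (M.pt x y)]
            simp
          · rw [List.any_eq_true] at hb
            obtain ⟨g, hg, hb⟩ := hb
            rw [List.any_eq_true] at hb
            obtain ⟨c, hc', hb⟩ := hb
            obtain ⟨A, hA, hrep⟩ := hX2 g hg
            have hcn := hl c (List.mem_cons_of_mem _ hc')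
            obtain ⟨B, hB, hor⟩ := ih' c hc'
            have h3 : s(M.pt x y a.1, M.pt x y a.2) =
                Sym2.map (fun x => A *ᵥ x) s(M.pt x y c.1, M.pt x y c.2) := by
              rw [Sym2.map_mk, (hrep _ hcn.1).2, (hrep _ hcn.2).2]
              exact sameE_sound hb (M.pt x y)
            refine ⟨A * B, mul_mem (Submonoid.subset_closure hA) hB, ?_⟩
            have h4 : ∀ e₀, Sym2.map (fun x => (A * B) *ᵥ x) e₀ =
                Sym2.map (fun x => A *ᵥ x) (Sym2.map (fun x => B *ᵥ x) e₀) := by
              intro e₀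
              rw [Sym2.map_map]
              congr 1
              funext z
              simp [Matrix.mulVec_mulVec]
            rw [h4, h4, h3]
            rcases hor with hor | hor
            · left; rw [hor]
            · right; rw [hor]
        · exact ih' a ha
    rintro ⟨a, ha, rfl⟩
    exact key W hWn hr a ha

theorem Model.rep_inv {M : Model} {w : List Letter} (h : ∀ l ∈ w, M.okLetter l = true) {q : ℕ}
    (hq : M.okInv w q = true) (horth : (ev w)ᵀ * ev w = 1) (x y : ℝ) :
    M.Rep x y (ev w)ᵀ q := by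
  intro i hi
  unfold Model.okInv at hq
  rw [List.all_eq_true] at hq
  have h1 := hq i (List.mem_range.2 hi)
  rw [Bool.and_eq_true, Bool.and_eq_true, Nat.blt_eq] at h1
  obtain ⟨-, h2, h3⟩ := h1
  refine ⟨h3, ?_⟩
  have h4 := Model.actW_eq h x y h3
  rw [Nat.eq_of_beq_eq_true h2] at h4
  rw [← h4, Matrix.mulVec_mulVec, horth, Matrix.one_mulVec]

theorem Model.rep_word {M : Model} {w : List Letter} (h : ∀ l ∈ w, M.okLetter l = true)
    (x y : ℝ) : ∀ i < M.n, M.actW w i < M.n ∧ ev w *ᵥ M.pt x y i = M.pt x y (M.actW w i) :=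
  fun _ hi => ⟨Model.actW_lt h hi, Model.actW_eq h x y hi⟩

/-- The base face of the description of a row is the face given by its list of edges. -/
theorem Row.face_eq {M : Model} {t : Tag} {ws : List (List Letter × ℕ)}
    (hok : M.okGroup t ws = true) (h0 : 0 < M.n) {r : Row} (hr : M.okRow t r = true) (x y : ℝ) :
    ∀ e, e ∈ r.spec.face (M.pt x y 0) ↔ ∃ a ∈ r.W, e = s(M.pt x y a.1, M.pt x y a.2) := by
  obtain ⟨spec, q, X, W⟩ := r
  unfold Model.okRow at hr
  simp only [Bool.and_eq_true] at hr
  obtain ⟨hw, hX, hW, h1, h2, hc, hre⟩ := hr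
  have hl := Model.okGroup_letters hok
  cases spec with
  | C τ m₁ m₂ =>
    unfold Model.okWords at hw
    simp only [List.all_append, Bool.and_eq_true] at hw
    obtain ⟨⟨w1, w2⟩, w3⟩ := hw
    have L1 : ∀ l ∈ τ, l ∈ t.letters := by simpa [List.all_eq_true] using w1
    have L2 : ∀ l ∈ m₁, l ∈ t.letters := by simpa [List.all_eq_true] using w2
    have L3 : ∀ l ∈ m₂, l ∈ t.letters := by simpa [List.all_eq_true] using w3
    match X, hX with
    | [g₁, g₂], hX =>
      unfold Model.okX at hX
      simp only [Bool.and_eq_true] at hX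
      obtain ⟨hq, hX⟩ := hX
      rw [List.all_eq_true] at hX
      have O1 : ∀ l ∈ τ, M.okLetter l = true := fun l h => hl l (L1 l h)
      have O2 : ∀ l ∈ m₁, M.okLetter l = true := fun l h => hl l (L2 l h)
      have O3 : ∀ l ∈ m₂, M.okLetter l = true := fun l h => hl l (L3 l h)
      have hinv := Model.rep_inv O1 hq (Tag.orth (Tag.ev_mem L1)) x y
      have r1 : M.Rep x y (ev m₁) g₁ := by
        intro i hi
        have h3 := hX i (List.mem_range.2 hi)
        rw [Bool.and_eq_true] at h3
        rw [Nat.eq_of_beq_eq_true h3.1]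
        exact Model.rep_word O2 x y i hi
      have r2 : M.Rep x y (ev τ * ev m₂ * (ev τ)ᵀ) g₂ := by
        intro i hi
        have h3 := hX i (List.mem_range.2 hi)
        rw [Bool.and_eq_true] at h3
        rw [Nat.eq_of_beq_eq_true h3.2]
        obtain ⟨a1, a2⟩ := hinv i hi
        obtain ⟨a3, a4⟩ := Model.rep_word O3 x y _ a1
        obtain ⟨a5, a6⟩ := Model.rep_word O1 x y _ a3
        exact ⟨a5, by rw [← Matrix.mulVec_mulVec, ← Matrix.mulVec_mulVec, a2, a4, a6]⟩
      have := faceGen_eq (M := M) (x := x) (y := y) (X := [g₁, g₂])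
        (XM := {ev m₁, ev τ * ev m₂ * (ev τ)ᵀ}) (u := M.actW τ 0) (w := M.actW τ 0) (W := W)
        (by
          rintro A (rfl | hA)
          · exact ⟨g₁, by simp, r1⟩
          · rw [Set.mem_singleton_iff] at hA
            subst hA
            exact ⟨g₂, by simp, r2⟩)
        (by
          intro g hg
          simp only [List.mem_cons, List.not_mem_nil, or_false] at hg
          rcases hg with rfl | rfl
          · exact ⟨_, by simp, r1⟩
          · exact ⟨_, by simp, r2⟩) hW h1 h2 hc hre
      rw [← (Model.rep_word O1 x y 0 h0).2] at this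
      exact this
  | A σ a =>
    unfold Model.okWords at hw
    simp only [List.all_append, Bool.and_eq_true] at hw
    obtain ⟨w1, w2⟩ := hw
    have L1 : ∀ l ∈ σ, l ∈ t.letters := by simpa [List.all_eq_true] using w1
    have L2 : ∀ l ∈ a, l ∈ t.letters := by simpa [List.all_eq_true] using w2
    match X, hX with
    | [g₁], hX =>
      unfold Model.okX at hX
      simp only [Bool.and_eq_true] at hX
      obtain ⟨hq, hX⟩ := hX
      rw [List.all_eq_true] at hX
      have O1 : ∀ l ∈ σ, M.okLetter l = true := fun l h => hl l (L1 l h)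
      have O2 : ∀ l ∈ a, M.okLetter l = true := fun l h => hl l (L2 l h)
      have hinv := Model.rep_inv O2 hq (Tag.orth (Tag.ev_mem L2)) x y
      have r1 : M.Rep x y (ev a * ev σ * ev a) g₁ := by
        intro i hi
        rw [Nat.eq_of_beq_eq_true (hX i (List.mem_range.2 hi))]
        obtain ⟨a1, a2⟩ := Model.rep_word O2 x y i hi
        obtain ⟨a3, a4⟩ := Model.rep_word O1 x y _ a1
        obtain ⟨a5, a6⟩ := Model.rep_word O2 x y _ a3
        exact ⟨a5, by rw [← Matrix.mulVec_mulVec, ← Matrix.mulVec_mulVec, a2, a4, a6]⟩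
      have := faceGen_eq (M := M) (x := x) (y := y) (X := [g₁])
        (XM := {ev a * ev σ * ev a}) (u := act q 0) (w := M.actW a 0) (W := W)
        (by
          intro A hA
          rw [Set.mem_singleton_iff] at hA
          subst hA
          exact ⟨g₁, by simp, r1⟩)
        (by
          intro g hg
          simp only [List.mem_cons, List.not_mem_nil, or_false] at hg
          subst hg
          exact ⟨_, by simp, r1⟩) hW h1 h2 hc hre
      rw [← (Model.rep_word O2 x y 0 h0).2, ← (hinv 0 h0).2] at this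
      exact this
  | B σ a =>
    unfold Model.okWords at hw
    simp only [List.all_append, Bool.and_eq_true] at hw
    obtain ⟨w1, w2⟩ := hw
    have L1 : ∀ l ∈ σ, l ∈ t.letters := by simpa [List.all_eq_true] using w1
    have L2 : ∀ l ∈ a, l ∈ t.letters := by simpa [List.all_eq_true] using w2
    match X, hX with
    | [g₁, g₂], hX =>
      unfold Model.okX at hX
      simp only [Bool.and_eq_true] at hX
      obtain ⟨hq, hX⟩ := hX
      rw [List.all_eq_true] at hX
      have O1 : ∀ l ∈ σ, M.okLetter l = true := fun l h => hl l (L1 l h)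
      have O2 : ∀ l ∈ a, M.okLetter l = true := fun l h => hl l (L2 l h)
      have hinv := Model.rep_inv O2 hq (Tag.orth (Tag.ev_mem L2)) x y
      have r1 : M.Rep x y ((ev a)ᵀ * ev σ * ev a) g₁ := by
        intro i hi
        have h3 := hX i (List.mem_range.2 hi)
        rw [Bool.and_eq_true] at h3
        rw [Nat.eq_of_beq_eq_true h3.1]
        obtain ⟨a1, a2⟩ := Model.rep_word O2 x y i hi
        obtain ⟨a3, a4⟩ := Model.rep_word O1 x y _ a1
        obtain ⟨a5, a6⟩ := hinv _ a3
        exact ⟨a5, by rw [← Matrix.mulVec_mulVec, ← Matrix.mulVec_mulVec, a2, a4, a6]⟩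
      have r2 : M.Rep x y (ev a * ev σ * (ev a)ᵀ) g₂ := by
        intro i hi
        have h3 := hX i (List.mem_range.2 hi)
        rw [Bool.and_eq_true] at h3
        rw [Nat.eq_of_beq_eq_true h3.2]
        obtain ⟨a1, a2⟩ := hinv i hi
        obtain ⟨a3, a4⟩ := Model.rep_word O1 x y _ a1
        obtain ⟨a5, a6⟩ := Model.rep_word O2 x y _ a3
        exact ⟨a5, by rw [← Matrix.mulVec_mulVec, ← Matrix.mulVec_mulVec, a2, a4, a6]⟩
      have := faceGen_eq (M := M) (x := x) (y := y) (X := [g₁, g₂])
        (XM := {(ev a)ᵀ * ev σ * ev a, ev a * ev σ * (ev a)ᵀ}) (u := act q 0) (w := M.actW a 0)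
        (W := W)
        (by
          rintro A (rfl | hA)
          · exact ⟨g₁, by simp, r1⟩
          · rw [Set.mem_singleton_iff] at hA
            subst hA
            exact ⟨g₂, by simp, r2⟩)
        (by
          intro g hg
          simp only [List.mem_cons, List.not_mem_nil, or_false] at hg
          rcases hg with rfl | rfl
          · exact ⟨_, by simp, r1⟩
          · exact ⟨_, by simp, r2⟩) hW h1 h2 hc hre
      rw [← (Model.rep_word O2 x y 0 h0).2, ← (hinv 0 h0).2] at this
      exact this

end Pool.Agent.H38.FT
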