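import Pool.Agent.H38.FT.FamSep

/-!
The valency of the vertices of the items with 12 vertices.
-/

namespace Pool.Agent.H38.FT

open Matrix Code

/-- the number of neighbours -/
noncomputable def deg {X : Type*} (P : Cfg X) (x : X) : ℕ := {y | s(x, y) ∈ P.E}.ncard

theorem deg_map {X Y : Type*} {P : Cfg X} {t : X → Y} (ht : Function.Injective t) (x : X) :
    deg (P.map t) (t x) = deg P x := by
  have hset : {y | s(t x, y) ∈ (P.map t).E} = t '' {y | s(x, y) ∈ P.E} := by
    ext y
    constructor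
    · rintro ⟨e, he, h⟩
      induction e using Sym2.ind with
      | _ a b =>
        rw [Sym2.map_mk, Sym2.eq_iff] at h
        rcases h with ⟨h1, h2⟩ | ⟨h1, h2⟩
        · refine ⟨b, ?_, h2⟩
          have : s(x, b) ∈ P.E := by rw [← ht h1]; exact he
          exact this
        · refine ⟨a, ?_, h1⟩
          have : s(x, a) ∈ P.E := by rw [← ht h2, Sym2.eq_swap]; exact he
          exact this
    · rintro ⟨z, hz, rfl⟩
      exact ⟨s(x, z), hz, by rw [Sym2.map_mk]⟩
  unfold deg
  rw [hset, Set.ncard_image_of_injective _ ht]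

theorem deg_cfgOf {X : Type*} {n : ℕ} {pt : ℕ → X} {L : List ℕ}
    (hinj : ∀ i < n, ∀ j < n, pt i = pt j → i = j) (h0 : 0 < n) :
    deg (cfgOf n pt L) (pt 0) = (nb0 n L).length := by
  classical
  have hset : {y | s(pt 0, y) ∈ (cfgOf n pt L).E} = pt '' ((nb0 n L).toFinset : Set ℕ) := by
    ext y
    constructor
    · rintro ⟨m, hm, h⟩
      obtain ⟨j, hj, rfl, hb⟩ := (mem_dec hinj h0).1 h
      refine ⟨j, ?_, rfl⟩
      simp only [List.coe_toFinset, nb0, List.mem_filter, List.mem_range, List.any_eq_true,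
        Set.mem_ofPred_eq]
      exact ⟨hj, m, hm, hb⟩
    · rintro ⟨j, hj, rfl⟩
      simp only [List.coe_toFinset, nb0, List.mem_filter, List.mem_range, List.any_eq_true,
        Set.mem_ofPred_eq] at hj
      obtain ⟨hj, m, hm, hb⟩ := hj
      exact ⟨m, hm, (mem_dec hinj h0).2 ⟨j, hj, rfl, hb⟩⟩
  have hI : Set.InjOn pt ((nb0 n L).toFinset : Set ℕ) := by
    intro i hi j hj h
    simp only [List.coe_toFinset, nb0, List.mem_filter, List.mem_range, Set.mem_ofPred_eq] at hi hj
    exact hinj i hi.1 j hj.1 h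
  unfold deg
  rw [hset, hI.ncard_image, Set.ncard_coe_finset, List.toFinset_card_of_nodup]
  exact (List.nodup_range).filter _

theorem sim_deg {P P' : Cfg (Fin 3 → ℝ)} {t : Tag} (h : GP P t) {c : ℝ} (hc : 0 < c) {A : Mat}
    (hA : Aᵀ * A = 1) (hP : P = P'.map (fun x => c • (A *ᵥ x))) {v v' : Fin 3 → ℝ}
    (hv : v ∈ P.V) (hv' : v' ∈ P'.V) : deg P v = deg P' v' := by
  have h1 : c • (A *ᵥ v') ∈ P.V := by rw [hP]; exact ⟨v', hv', rfl⟩
  obtain ⟨B, hB, hBv⟩ := h.tV _ h1 v hv
  have h2 := deg_map (P := P') (sim_inj hA hc.ne') v'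
  rw [← hP] at h2
  have h3 := deg_map (P := P) (Tag.inj hB) (c • (A *ᵥ v'))
  rw [h.sym B hB] at h3
  rw [← h2, ← h3]
  change _ = deg P (B *ᵥ (c • (A *ᵥ v')))
  rw [hBv]

theorem ico_deg : (icoR.all fun r => Nat.beq (nb0 icoM.n (masks r.W icoIhE)).length 5) = true := by
  decide +kernel

theorem thm_deg : (thmR.all fun r => Nat.beq (nb0 thmM.n (masks r.W thmThE)).length 4) = true := by
  decide +kernel

theorem tdm_deg : (tdmR.all fun r => Nat.beq (nb0 tdmM.n (masks r.W tdmTdE)).length 4) = true := by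
  decide +kernel

theorem deg_ico {e : Tag × Vtx × Word × Word × Word} (he : (Item.rigid e).Valid)
    (hs : (Item.rigid e).size = 12) : ∃ v ∈ (Item.rigid e).cfg.V, deg (Item.rigid e).cfg v = 5 := by
  have h1 := rigid_cover
  rw [List.all_eq_true] at h1
  have h2 := h1 e he
  simp only [Bool.or_eq_true] at h2
  have hd := ico_deg
  have hR := icoR_ok
  rw [List.all_eq_true] at hd hR
  rcases h2 with h2 | h2 | h2 | h2 | h2 | h2
  · obtain ⟨h3, h4, -⟩ := inC_sound h2
    obtain ⟨t, v, w⟩ := e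
    simp only at h3 h4
    subst h3; subst h4; exact absurd hs (by simp [Item.size])
  · obtain ⟨h3, h4, -⟩ := inC_sound h2
    obtain ⟨t, v, w⟩ := e
    simp only at h3 h4
    subst h3; subst h4; exact absurd hs (by simp [Item.size])
  · obtain ⟨h3, h4, -⟩ := inC_sound h2
    obtain ⟨t, v, w⟩ := e
    simp only at h3 h4
    subst h3; subst h4; exact absurd hs (by simp [Item.size])
  · obtain ⟨h3, h4, r, hr, hspec⟩ := inC_sound h2
    have hc : (Item.rigid e).cfg = cfgOf icoM.n (icoM.pt 1 0) (masks r.W icoIhE) := by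
      rw [← orbitCfg_eq icoIh_ok icoIh_trans (by decide) (by decide) icoIh_map (hR r hr) 1 0,
        show icoM.pt 1 0 0 = Vtx.v01g.vec by rw [icoM_pt]; simp [Vtx.vec], hspec]
      unfold Item.cfg
      simp only
      rw [h3, h4]
      rfl
    rw [hc]
    refine ⟨icoM.pt 1 0 0, ⟨0, by decide, rfl⟩, ?_⟩
    rw [deg_cfgOf (Model.inj_axis icoM_distinct icoM_zeroB one_ne_zero 0) (by decide)]
    exact Nat.eq_of_beq_eq_true (hd r hr)
  · obtain ⟨h3, h4, -⟩ := inC_sound h2
    obtain ⟨t, v, w⟩ := e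
    simp only at h3 h4
    subst h3; subst h4; exact absurd hs (by simp [Item.size])
  · obtain ⟨h3, h4, -⟩ := inC_sound h2
    obtain ⟨t, v, w⟩ := e
    simp only at h3 h4
    subst h3; subst h4; exact absurd hs (by simp [Item.size])

theorem deg_fam {e : Tag × Word × Word} {k : Kind} {s : ℝ} (hi : (Item.family e k s).Valid)
    (hs : (Item.family e k s).size = 12) :
    ∃ v ∈ (Item.family e k s).cfg.V, deg (Item.family e k s).cfg v = 4 := by
  have hst := stab_item hi.1 hi.2
  have h1 := family_cover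
  rw [List.all_eq_true] at h1
  have h2 := h1 e hi.1
  simp only [Bool.or_eq_true, Bool.and_eq_true, decide_eq_true_eq] at h2
  have d1 := thm_deg
  have d2 := tdm_deg
  rw [List.all_eq_true] at d1 d2
  rcases h2 with ⟨h3, h4, h2⟩ | ⟨h3, h4, h2⟩ | ⟨h3, -, -⟩ | ⟨h3, -, -⟩
  · obtain ⟨r, hr, -, hc⟩ := family_coded thmTh_ok thmTh_trans (by decide) (by decide)
      thmTh_map thmR_ok (e := e) h3 h2 k (s := s) (by rw [thmM_pt, h3]; rfl)
    rw [hc]
    refine ⟨thmM.pt 1 s 0, ⟨0, by decide, rfl⟩, ?_⟩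
    rw [deg_cfgOf _ (by decide)]
    · exact Nat.eq_of_beq_eq_true (d1 r hr)
    · refine Model.inj_mirror thmM_distinct thmTh_ok thmTh_trans (by decide) thm_fix ?_
      rw [h3, h4] at hst
      rw [thmM_pt]
      exact fun A hA h => (hst A hA).1 h
  · obtain ⟨r, hr, -, hc⟩ := family_coded tdmTd_ok tdmTd_trans (by decide) (by decide)
      tdmTd_map tdmR_ok (e := e) h3 h2 k (s := s) (by rw [tdmM_pt, h3]; rfl)
    rw [hc]
    refine ⟨tdmM.pt 1 s 0, ⟨0, by decide, rfl⟩, ?_⟩
    rw [deg_cfgOf _ (by decide)]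
    · exact Nat.eq_of_beq_eq_true (d2 r hr)
    · refine Model.inj_mirror tdmM_distinct tdmTd_ok tdmTd_trans (by decide) tdm_fix ?_
      rw [h3, h4] at hst
      rw [tdmM_pt]
      exact fun A hA h => (hst A hA).1 h
  · obtain ⟨t, w⟩ := e
    simp only at h3
    subst h3
    exact absurd hs (by simp [Item.size])
  · obtain ⟨t, w⟩ := e
    simp only at h3
    subst h3
    exact absurd hs (by simp [Item.size])

end Pool.Agent.H38.FT
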