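import Pool.Agent.H38.FT.Defs

/-!
# Finite polyhedra in Euclidean 3-space
-/

namespace Pool.Agent.H38.FT

/-- A finite polyhedron in `E3`: an abstract polyhedron whose vertices are finitely many points of
`E3` that do not all lie in a plane, whose edges are pairs of vertices and whose 2-faces are sets of
edges. -/
structure IsFinitePolyhedron (P : Cfg E3) : Prop where
  poly : P.IsPolyhedron
  fin : P.V.Finite
  span : affineSpan ℝ P.V = ⊤

end Pool.Agent.H38.FT
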