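import Pool.Agent.H38.FT.Forward2

/-!
Every polyhedron with one of the seven groups is listed (generated).
-/

namespace Pool.Agent.H38.FT

open Matrix Code

variable {P : Cfg (Fin 3 → ℝ)}

theorem fwd_T (h : GP P .T) : Concl P := by
  obtain ⟨v, hv⟩ := h.poly.nonempty
  rcases canon octT_ok octM_faithful octT_map waT_ok wbT_ok coverT_ok sigT_ok (h.stab hv) with
    ⟨C, hC, r, hr, hfix⟩ | ⟨C, hC, S, hS, hfix, H⟩
  · have hv' := h.image_mem hv hC
    have hne := h.ne_zero hv'
    generalize C *ᵥ v = w at *
    simp only [axT, List.mem_cons, List.not_mem_nil, or_false] at hr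
    rcases hr with rfl | rfl
    · have e := fix_c hfix
      have hx : w 0 ≠ 0 := by
        intro h0
        apply hne
        rw [e, h0]
        simp
      exact tet_T h hx (by rw [← e]; exact hv')
    · have e := fix_d hfix
      have hx : w 0 ≠ 0 := by
        intro h0
        apply hne
        rw [e, h0]
        simp
      exact oct_T h hx (by rw [← e]; exact hv')
  · simp [sgT] at hS

theorem fwd_Th (h : GP P .Th) : Concl P := by
  obtain ⟨v, hv⟩ := h.poly.nonempty
  rcases canon octTh_ok octM_faithful octTh_map waTh_ok wbTh_ok coverTh_ok sigTh_ok (h.stab hv) with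
    ⟨C, hC, r, hr, hfix⟩ | ⟨C, hC, S, hS, hfix, H⟩
  · have hv' := h.image_mem hv hC
    have hne := h.ne_zero hv'
    generalize C *ᵥ v = w at *
    simp only [axTh, List.mem_cons, List.not_mem_nil, or_false] at hr
    rcases hr with rfl | rfl | rfl
    · have e := fix_c hfix
      have hx : w 0 ≠ 0 := by
        intro h0
        apply hne
        rw [e, h0]
        simp
      exact cub_Th h hx (by rw [← e]; exact hv')
    · have e := fix_d hfix
      have hx : w 0 ≠ 0 := by
        intro h0
        apply hne
        rw [e, h0]
        simp
      exact oct_Th h hx (by rw [← e]; exact hv')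
    · exact absurd (fix_n hfix) hne
  · have hv' := h.image_mem hv hC
    generalize C *ᵥ v = w at *
    simp only [sgTh, List.mem_cons, List.not_mem_nil, or_false] at hS
    subst hS
    have e := fix_nccdc hfix
    rw [e] at hv' H
    exact thm_Th h hv' H

theorem fwd_Td (h : GP P .Td) : Concl P := by
  obtain ⟨v, hv⟩ := h.poly.nonempty
  rcases canon octTd_ok octM_faithful octTd_map waTd_ok wbTd_ok coverTd_ok sigTd_ok (h.stab hv) with
    ⟨C, hC, r, hr, hfix⟩ | ⟨C, hC, S, hS, hfix, H⟩
  · have hv' := h.image_mem hv hC
    have hne := h.ne_zero hv'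
    generalize C *ᵥ v = w at *
    simp only [axTd, List.mem_cons, List.not_mem_nil, or_false] at hr
    rcases hr with rfl | rfl
    · have e := fix_c hfix
      have hx : w 0 ≠ 0 := by
        intro h0
        apply hne
        rw [e, h0]
        simp
      exact tet_Td h hx (by rw [← e]; exact hv')
    · have e := fix_d hfix
      have hx : w 0 ≠ 0 := by
        intro h0
        apply hne
        rw [e, h0]
        simp
      exact oct_Td h hx (by rw [← e]; exact hv')
  · have hv' := h.image_mem hv hC
    generalize C *ᵥ v = w at *
    simp only [sgTd, List.mem_cons, List.not_mem_nil, or_false] at hS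
    subst hS
    have e := fix_s hfix
    rw [e] at hv' H
    exact tdm_Td h hv' H

theorem fwd_O (h : GP P .O) : Concl P := by
  obtain ⟨v, hv⟩ := h.poly.nonempty
  rcases canon octO_ok octM_faithful octO_map waO_ok wbO_ok coverO_ok sigO_ok (h.stab hv) with
    ⟨C, hC, r, hr, hfix⟩ | ⟨C, hC, S, hS, hfix, H⟩
  · have hv' := h.image_mem hv hC
    have hne := h.ne_zero hv'
    generalize C *ᵥ v = w at *
    simp only [axO, List.mem_cons, List.not_mem_nil, or_false] at hr
    rcases hr with rfl | rfl | rfl
    · have e := fix_c hfix
      have hx : w 0 ≠ 0 := by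
        intro h0
        apply hne
        rw [e, h0]
        simp
      exact cub_O h hx (by rw [← e]; exact hv')
    · have e := fix_d hfix
      have hx : w 0 ≠ 0 := by
        intro h0
        apply hne
        rw [e, h0]
        simp
      exact oct_O h hx (by rw [← e]; exact hv')
    · have e := fix_qd hfix
      have hx : w 0 ≠ 0 := by
        intro h0
        apply hne
        rw [e, h0]
        simp
      exact cuo_O h hx (by rw [← e]; exact hv')
  · simp [sgO] at hS

theorem fwd_Oh (h : GP P .Oh) : Concl P := by
  obtain ⟨v, hv⟩ := h.poly.nonempty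
  rcases canon octOh_ok octM_faithful octOh_map waOh_ok wbOh_ok coverOh_ok sigOh_ok (h.stab hv) with
    ⟨C, hC, r, hr, hfix⟩ | ⟨C, hC, S, hS, hfix, H⟩
  · have hv' := h.image_mem hv hC
    have hne := h.ne_zero hv'
    generalize C *ᵥ v = w at *
    simp only [axOh, List.mem_cons, List.not_mem_nil, or_false] at hr
    rcases hr with rfl | rfl | rfl | rfl
    · have e := fix_c hfix
      have hx : w 0 ≠ 0 := by
        intro h0
        apply hne
        rw [e, h0]
        simp
      exact cub_Oh h hx (by rw [← e]; exact hv')
    · have e := fix_d hfix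
      have hx : w 0 ≠ 0 := by
        intro h0
        apply hne
        rw [e, h0]
        simp
      exact oct_Oh h hx (by rw [← e]; exact hv')
    · have e := fix_qd hfix
      have hx : w 0 ≠ 0 := by
        intro h0
        apply hne
        rw [e, h0]
        simp
      exact cuo_Oh h hx (by rw [← e]; exact hv')
    · exact absurd (fix_n hfix) hne
  · have hv' := h.image_mem hv hC
    generalize C *ᵥ v = w at *
    simp only [sgOh, List.mem_cons, List.not_mem_nil, or_false] at hS
    rcases hS with rfl | rfl
    · have e := fix_nqq hfix
      rw [e] at hv' H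
      exact ohz_Oh h hv' H
    · have e := fix_ndq hfix
      rw [e] at hv' H
      exact ohs_Oh h hv' H

theorem fwd_I (h : GP P .I) : Concl P := by
  obtain ⟨v, hv⟩ := h.poly.nonempty
  rcases canon icoI_ok icoM_faithful icoI_map waI_ok wbI_ok coverI_ok sigI_ok (h.stab hv) with
    ⟨C, hC, r, hr, hfix⟩ | ⟨C, hC, S, hS, hfix, H⟩
  · have hv' := h.image_mem hv hC
    have hne := h.ne_zero hv'
    generalize C *ᵥ v = w at *
    simp only [axI, List.mem_cons, List.not_mem_nil, or_false] at hr
    rcases hr with rfl | rfl | rfl
    · have e := fix_c hfix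
      have hx : w 0 ≠ 0 := by
        intro h0
        apply hne
        rw [e, h0]
        simp
      exact dod_I h hx (by rw [← e]; exact hv')
    · have e := fix_p hfix
      have hx : w 1 ≠ 0 := by
        intro h0
        apply hne
        rw [e, h0]
        simp
      exact ico_I h hx (by rw [← e]; exact hv')
    · have e := fix_d hfix
      have hx : w 0 ≠ 0 := by
        intro h0
        apply hne
        rw [e, h0]
        simp
      exact ici_I h hx (by rw [← e]; exact hv')
  · simp [sgI] at hS

theorem fwd_Ih (h : GP P .Ih) : Concl P := by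
  obtain ⟨v, hv⟩ := h.poly.nonempty
  rcases canon icoIh_ok icoM_faithful icoIh_map waIh_ok wbIh_ok coverIh_ok sigIh_ok (h.stab hv) with
    ⟨C, hC, r, hr, hfix⟩ | ⟨C, hC, S, hS, hfix, H⟩
  · have hv' := h.image_mem hv hC
    have hne := h.ne_zero hv'
    generalize C *ᵥ v = w at *
    simp only [axIh, List.mem_cons, List.not_mem_nil, or_false] at hr
    rcases hr with rfl | rfl | rfl | rfl
    · have e := fix_c hfix
      have hx : w 0 ≠ 0 := by
        intro h0
        apply hne
        rw [e, h0]
        simp
      exact dod_Ih h hx (by rw [← e]; exact hv')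
    · have e := fix_p hfix
      have hx : w 1 ≠ 0 := by
        intro h0
        apply hne
        rw [e, h0]
        simp
      exact ico_Ih h hx (by rw [← e]; exact hv')
    · have e := fix_d hfix
      have hx : w 0 ≠ 0 := by
        intro h0
        apply hne
        rw [e, h0]
        simp
      exact ici_Ih h hx (by rw [← e]; exact hv')
    · exact absurd (fix_n hfix) hne
  · have hv' := h.image_mem hv hC
    generalize C *ᵥ v = w at *
    simp only [sgIh, List.mem_cons, List.not_mem_nil, or_false] at hS
    subst hS
    have e := fix_nccdc hfix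
    rw [e] at hv' H
    exact ihm_Ih h hv' H

/-- Every polyhedron with one of the seven groups is a multiple of a listed one. -/
theorem forward {t : Tag} (h : GP P t) : Concl P := by
  cases t
  · exact fwd_T h
  · exact fwd_Th h
  · exact fwd_Td h
  · exact fwd_O h
  · exact fwd_Oh h
  · exact fwd_I h
  · exact fwd_Ih h

end Pool.Agent.H38.FT
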