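import Pool.Agent.H38.FT.Trans
import Pool.Agent.H38.FT.FinPoly
import Pool.Agent.H38.FT.GroupDefs
import Pool.Agent.H38.FT.Forward3
import Pool.Agent.H38.FT.Converse2

/-!
The final assembly: from coordinates to Euclidean 3-space.
-/

namespace Pool.Agent.H38.FT

open Matrix

/-- conversion of a similarity in coordinates -/
theorem concl_similar {P : Cfg E3} {g : E3 ≃ᵢ E3} {P' : Cfg (Fin 3 → ℝ)}
    (hP : P = P'.map (fun x => g (WithLp.toLp 2 x))) (h : Concl P') :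
    ∃ Q, IsListed Q ∧ Similar P (Q.map (WithLp.toLp 2)) := by
  obtain ⟨Q, hQ, c, hc, rfl⟩ := h
  refine ⟨Q, hQ, |c|, abs_pos.2 hc, ?_⟩
  have hc' : |c| ≠ 0 := (abs_pos.2 hc).ne'
  have hiso : Isometry (fun y : E3 => |c|⁻¹ • g (c • y)) := by
    refine Isometry.of_dist_eq fun y z => ?_
    rw [dist_smul₀, g.isometry.dist_eq, dist_smul₀, ← mul_assoc, norm_inv, Real.norm_eq_abs,
      abs_abs, Real.norm_eq_abs, inv_mul_cancel₀ hc', one_mul]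
  refine ⟨IsometryEquiv.mk' (fun y : E3 => |c|⁻¹ • g (c • y)) (fun y => c⁻¹ • g.symm (|c| • y))
    (fun y => ?_) hiso, ?_⟩
  · simp [smul_smul, hc, hc']
  · rw [hP, Cfg.map_map, Cfg.map_map]
    congr 1
    funext x
    change g (WithLp.toLp 2 (c • x)) = |c| • (|c|⁻¹ • g (c • (WithLp.toLp 2 x)))
    rw [smul_smul, mul_inv_cancel₀ hc', one_smul]
    rfl

theorem toLp_injective : Function.Injective (WithLp.toLp 2 : (Fin 3 → ℝ) → E3) :=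
  WithLp.toLp_injective 2

theorem GP.fullyTransitive {Q : Cfg (Fin 3 → ℝ)} {t : Tag} (h : GP Q t) :
    FullyTransitive (Q.map (WithLp.toLp 2) : Cfg E3) := by
  have key : ∀ A ∈ t.group, ∃ k : E3 ≃ᵢ E3, (Q.map (WithLp.toLp 2) : Cfg E3).map k =
      Q.map (WithLp.toLp 2) ∧ ∀ v : Fin 3 → ℝ, k (WithLp.toLp 2 v) = WithLp.toLp 2 (A *ᵥ v) := by
    intro A hA
    obtain ⟨k, hk⟩ := exists_iso (Tag.orth hA)
    refine ⟨k, ?_, hk⟩
    rw [Cfg.map_map]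
    have : (fun x : Fin 3 → ℝ => k (WithLp.toLp 2 x)) = fun x => WithLp.toLp 2 (A *ᵥ x) := funext hk
    rw [this, ← Cfg.map_map, h.sym A hA]
  have hs : ∀ (A : Mat) (k : E3 ≃ᵢ E3),
      (∀ v : Fin 3 → ℝ, k (WithLp.toLp 2 v) = WithLp.toLp 2 (A *ᵥ v)) → ∀ e : Sym2 (Fin 3 → ℝ),
      Sym2.map k (Sym2.map (WithLp.toLp 2) e) =
        Sym2.map (WithLp.toLp 2) (Sym2.map (fun x => A *ᵥ x) e) := by
    intro A k hk e
    rw [Sym2.map_map, Sym2.map_map]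
    congr 1
    exact funext hk
  refine ⟨?_, ?_, ?_⟩
  · rintro _ ⟨x, hx, rfl⟩ _ ⟨y, hy, rfl⟩
    obtain ⟨A, hA, hxy⟩ := h.tV x hx y hy
    obtain ⟨k, hk1, hk2⟩ := key A hA
    exact ⟨k, hk1, by rw [hk2, hxy]⟩
  · rintro _ ⟨x, hx, rfl⟩ _ ⟨y, hy, rfl⟩
    obtain ⟨A, hA, hxy⟩ := h.tE x hx y hy
    obtain ⟨k, hk1, hk2⟩ := key A hA
    exact ⟨k, hk1, by rw [hs A k hk2, hxy]⟩
  · rintro _ ⟨x, hx, rfl⟩ _ ⟨y, hy, rfl⟩
    obtain ⟨A, hA, hxy⟩ := h.tF x hx y hy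
    obtain ⟨k, hk1, hk2⟩ := key A hA
    refine ⟨k, hk1, ?_⟩
    change Sym2.map k '' (Sym2.map (WithLp.toLp 2) '' x) = Sym2.map (WithLp.toLp 2) '' y
    rw [← hxy, Set.image_image, Set.image_image]
    exact Set.image_congr fun e _ => hs A k hk2 e

theorem listed_finitePolyhedron {Q : Cfg (Fin 3 → ℝ)} (hQ : IsListed Q) :
    IsFinitePolyhedron (Q.map (WithLp.toLp 2)) := by
  obtain ⟨⟨t, h⟩, hfin, hspan⟩ := listed_good hQ
  refine ⟨h.poly.map toLp_injective, hfin.image _, ?_⟩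
  have := AffineMap.span_eq_top_of_surjective (k := ℝ)
    (WithLp.linearEquiv 2 ℝ (Fin 3 → ℝ)).symm.toLinearMap.toAffineMap (s := Q.V)
    (WithLp.linearEquiv 2 ℝ (Fin 3 → ℝ)).symm.surjective hspan
  exact this

theorem listed_fullyTransitive {Q : Cfg (Fin 3 → ℝ)} (hQ : IsListed Q) {P : Cfg E3}
    (hP : Similar P (Q.map (WithLp.toLp 2))) : FullyTransitive P := by
  obtain ⟨⟨t, h⟩, -, -⟩ := listed_good hQ
  obtain ⟨r, hr, g, rfl⟩ := hP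
  exact h.fullyTransitive.map hr g

/-- The classification, given the module M1 and the reduction. -/
theorem classification
    (hM1 : ∀ G : Set Mat, IsFinGroup G →
      (∀ a : Fin 3 → ℝ, a ≠ 0 → ∃ A ∈ G, A *ᵥ a ≠ a ∧ A *ᵥ a ≠ -a) →
      ∃ U : Mat, Uᵀ * U = 1 ∧ ∃ t : Tag, ∀ M : Mat, M ∈ G ↔ Uᵀ * M * U ∈ t.group)
    (hred : ∀ (P : Cfg E3), P.IsPolyhedron → P.V.Finite → affineSpan ℝ P.V = ⊤ →
      FullyTransitive P → (∀ G : Set Mat, IsFinGroup G →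
      (∀ a : Fin 3 → ℝ, a ≠ 0 → ∃ A ∈ G, A *ᵥ a ≠ a ∧ A *ᵥ a ≠ -a) →
      ∃ U : Mat, Uᵀ * U = 1 ∧ ∃ t : Tag, ∀ M : Mat, M ∈ G ↔ Uᵀ * M * U ∈ t.group) →
      ∃ (t : Tag) (g : E3 ≃ᵢ E3) (P' : Cfg (Fin 3 → ℝ)),
      GP P' t ∧ P = P'.map (fun x => g (WithLp.toLp 2 x))) :
    (∀ P : Cfg E3, IsFinitePolyhedron P →
      (FullyTransitive P ↔ ∃ Q, IsListed Q ∧ Similar P (Q.map (WithLp.toLp 2)))) ∧
    (∀ Q, IsListed Q → IsFinitePolyhedron (Q.map (WithLp.toLp 2))) := by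
  refine ⟨fun P hP => ⟨fun h => ?_, fun ⟨Q, hQ, hPQ⟩ => listed_fullyTransitive hQ hPQ⟩,
    fun Q hQ => listed_finitePolyhedron hQ⟩
  obtain ⟨t, g, P', hGP, hPP⟩ := hred P hP.poly hP.fin hP.span h hM1
  exact concl_similar hPP (forward hGP)

end Pool.Agent.H38.FT
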