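import Pool.Agent.H38.FT.Norm2
import Pool.Agent.H38.FT.Final

/-!
Every finite fully transitive polyhedron is similar to a valid item, and the valid items are finite
fully transitive polyhedra.
-/

namespace Pool.Agent.H38.FT

open Matrix

/-- the group of an item -/
def Item.tag : Item → Tag
  | .rigid e => e.1
  | .family e _ _ => e.1

/-- stabiliser of the base vertex of a valid item -/
theorem stab_item {e : Tag × Word × Word} (he : e ∈ familyList) {s : ℝ} (hs : e.1.InRange s) :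
    ∀ A ∈ e.1.group, A *ᵥ e.1.vertex s = e.1.vertex s ↔ A = 1 ∨ A = ev e.2.1 := by
  have h1 := family_cover
  rw [List.all_eq_true] at h1
  have h2 := h1 e he
  simp only [Bool.or_eq_true, Bool.and_eq_true, decide_eq_true_eq] at h2
  obtain ⟨t, σ, a⟩ := e
  simp only at h2 hs
  rcases h2 with ⟨rfl, rfl, h2⟩ | ⟨rfl, rfl, h2⟩ | ⟨rfl, rfl, h2⟩ | ⟨rfl, rfl, h2⟩
  · exact stab_Th hs.1
  · exact stab_Td hs.1 hs.2
  · exact stab_Oh hs.1 hs.2
  · exact stab_Ih hs.1 hs.2.1 hs.2.2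

theorem item_good {i : Item} (hi : i.Valid) : GoodT i.cfg i.tag := by
  cases i with
  | rigid e => exact rigid_good hi
  | family e k s =>
    obtain ⟨g1, g2, g3⟩ := family_good hi.1 (stab_item hi.1 hi.2)
    cases k
    · exact g1
    · exact g2
    · exact g3

theorem item_finitePolyhedron {i : Item} (hi : i.Valid) :
    IsFinitePolyhedron (i.cfg.map (WithLp.toLp 2)) := by
  obtain ⟨h, hfin, hspan⟩ := item_good hi
  refine ⟨h.poly.map toLp_injective, hfin.image _, ?_⟩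
  exact AffineMap.span_eq_top_of_surjective (k := ℝ)
    (WithLp.linearEquiv 2 ℝ (Fin 3 → ℝ)).symm.toLinearMap.toAffineMap (s := i.cfg.V)
    (WithLp.linearEquiv 2 ℝ (Fin 3 → ℝ)).symm.surjective hspan

theorem item_fullyTransitive {i : Item} (hi : i.Valid) :
    FullyTransitive (i.cfg.map (WithLp.toLp 2) : Cfg E3) :=
  (item_good hi).gp.fullyTransitive

theorem concl2_similar {P : Cfg E3} {g : E3 ≃ᵢ E3} {P' : Cfg (Fin 3 → ℝ)}
    (hP : P = P'.map (fun x => g (WithLp.toLp 2 x))) (h : Concl2 P') :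
    ∃ i : Item, i.Valid ∧ Similar P (i.cfg.map (WithLp.toLp 2)) := by
  obtain ⟨i, hi, c, hc, A, hA, rfl⟩ := h
  obtain ⟨k, hk⟩ := exists_iso hA
  refine ⟨i, hi, |c|, abs_pos.2 hc, ?_⟩
  have hc' : |c| ≠ 0 := (abs_pos.2 hc).ne'
  have hiso : Isometry (fun y : E3 => |c|⁻¹ • g (c • k y)) := by
    refine Isometry.of_dist_eq fun y z => ?_
    rw [dist_smul₀, g.isometry.dist_eq, dist_smul₀, k.isometry.dist_eq, ← mul_assoc, norm_inv,
      Real.norm_eq_abs, abs_abs, Real.norm_eq_abs, inv_mul_cancel₀ hc', one_mul]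
  refine ⟨IsometryEquiv.mk' (fun y : E3 => |c|⁻¹ • g (c • k y))
    (fun y => k.symm (c⁻¹ • g.symm (|c| • y))) (fun y => ?_) hiso, ?_⟩
  · simp [smul_smul, hc, hc']
  · rw [hP, Cfg.map_map, Cfg.map_map]
    congr 1
    funext x
    change g (WithLp.toLp 2 (c • (A *ᵥ x))) = |c| • (|c|⁻¹ • g (c • k (WithLp.toLp 2 x)))
    rw [smul_smul, mul_inv_cancel₀ hc', one_smul, hk]
    rfl

end Pool.Agent.H38.FT
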