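import Pool.Agent.H38.FT.CSum

/-!
The members of the families with the groups `Th`, `Td`, `Oh` are pairwise not similar (same group).
-/

namespace Pool.Agent.H38.FT

open Matrix Code

theorem orth_dot {A : Mat} (hA : Aᵀ * A = 1) (y z : Fin 3 → ℝ) :
    (A *ᵥ y) ⬝ᵥ (A *ᵥ z) = y ⬝ᵥ z := by
  rw [Matrix.dotProduct_mulVec, Matrix.vecMul_mulVec, hA, Matrix.vecMul_one]

theorem sim_dot {A : Mat} (hA : Aᵀ * A = 1) (c : ℝ) (y z : Fin 3 → ℝ) :
    (c • (A *ᵥ y)) ⬝ᵥ (c • (A *ᵥ z)) = c ^ 2 * (y ⬝ᵥ z) := by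
  rw [smul_dotProduct, dotProduct_smul, orth_dot hA, smul_eq_mul, smul_eq_mul]
  ring

theorem sim_inj {A : Mat} (hA : Aᵀ * A = 1) {c : ℝ} (hc : c ≠ 0) :
    Function.Injective (fun x : Fin 3 → ℝ => c • (A *ᵥ x)) := by
  intro x y hxy
  have h1 := congrArg (fun z => Aᵀ *ᵥ (c⁻¹ • z)) hxy
  simpa [smul_smul, hc, mulVec_mulVec, hA] using h1

theorem csum_sym {P : Cfg (Fin 3 → ℝ)} {t : Tag} (h : GP P t) {A : Mat} (hA : A ∈ t.group)
    (x : Fin 3 → ℝ) : csum P (A *ᵥ x) = csum P x := by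
  have := csum_map (P := P) (Tag.inj hA) (k := 1)
    (fun y z => by rw [orth_dot (Tag.orth hA), one_mul]) x
  rw [h.sym A hA, one_mul] at this
  exact this

theorem edge_dot {P : Cfg (Fin 3 → ℝ)} {t : Tag} (h : GP P t) {x y z w : Fin 3 → ℝ}
    (h1 : s(x, y) ∈ P.E) (h2 : s(z, w) ∈ P.E) : x ⬝ᵥ y = z ⬝ᵥ w := by
  obtain ⟨A, hA, hmap⟩ := h.tE _ h1 _ h2
  rw [Sym2.map_mk, Sym2.eq_iff] at hmap
  rcases hmap with ⟨rfl, rfl⟩ | ⟨rfl, rfl⟩
  · rw [orth_dot (Tag.orth hA)]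
  · rw [orth_dot (Tag.orth hA), dotProduct_comm]

theorem sim_data {P P' : Cfg (Fin 3 → ℝ)} {t : Tag} (h : GP P t) {c : ℝ}
    (hc : 0 < c) {A : Mat} (hA : Aᵀ * A = 1) (hP : P = P'.map (fun x => c • (A *ᵥ x)))
    {v v' z z' : Fin 3 → ℝ} (hv : v ∈ P.V) (hv' : v' ∈ P'.V) (hz : s(v, z) ∈ P.E)
    (hz' : s(v', z') ∈ P'.E) :
    v ⬝ᵥ v = c ^ 2 * (v' ⬝ᵥ v') ∧ v ⬝ᵥ z = c ^ 2 * (v' ⬝ᵥ z') ∧
      csum P v = c ^ 2 * csum P' v' := by
  have h1 : c • (A *ᵥ v') ∈ P.V := by rw [hP]; exact ⟨v', hv', rfl⟩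
  have h2 : s(c • (A *ᵥ v'), c • (A *ᵥ z')) ∈ P.E := by
    rw [hP]
    exact ⟨s(v', z'), hz', by rw [Sym2.map_mk]⟩
  obtain ⟨B, hB, hBv⟩ := h.tV _ h1 v hv
  refine ⟨?_, ?_, ?_⟩
  · rw [← hBv, orth_dot (Tag.orth hB), sim_dot hA]
  · rw [edge_dot h hz h2, sim_dot hA]
  · have h3 := csum_map (P := P') (sim_inj hA hc.ne') (sim_dot hA c) v'
    rw [← hP] at h3
    rw [← h3, ← hBv, csum_sym h hB]

/-- there is an edge at the vertex 0 with the given product of the ends -/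
def edgeAt (M : Model) (L : List ℕ) (Q : Q3) : Bool :=
  L.any fun m => (List.range M.n).any fun j => tb m (ec 0 j) &&
    decide (qd (M.pts.getD 0 default) (M.pts.getD j default) = Q)

theorem edgeAt_sound {M : Model} {L : List ℕ} {Q : Q3} (h : edgeAt M L Q = true) (h0 : 0 < M.n)
    (x y : ℝ) : ∃ z, s(M.pt x y 0, z) ∈ (cfgOf M.n (M.pt x y) L).E ∧
      4 * (M.pt x y 0 ⬝ᵥ z) = val3 Q x y := by
  unfold edgeAt at h
  simp only [List.any_eq_true, Bool.and_eq_true, decide_eq_true_eq, List.mem_range] at h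
  obtain ⟨m, hm, j, hj, hb, hQ⟩ := h
  refine ⟨M.pt x y j, ⟨m, hm, 0, h0, j, hj, hb, rfl⟩, ?_⟩
  unfold Model.pt
  rw [qd_eval, hQ]

/-- four times the product of the ends of an edge -/
def eQ (e : Tag × Word × Word) : Q3 :=
  match e.1, e.2.2 with
  | .Th, [.c] => ((0, 0), (4, 0), (0, 0))
  | .Th, _ => ((0, 0), (-4, 0), (0, 0))
  | .Td, _ => ((-4, 0), (0, 0), (0, 0))
  | _, _ => ((4, 0), (0, 0), (0, 0))

/-- four times the sum over the corners -/
def cQ (e : Tag × Word × Word) (k : Kind) : Q3 :=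
  match e.1, e.2.2, k with
  | .Th, _, .A => ((0, 0), (0, 0), (0, 0))
  | .Th, [.c], .B => ((0, 0), (16, 0), (0, 0))
  | .Th, [.c], .B' => ((0, 0), (-16, 0), (0, 0))
  | .Th, _, .B => ((0, 0), (-16, 0), (0, 0))
  | .Th, _, .B' => ((0, 0), (16, 0), (0, 0))
  | .Td, _, .A => ((-16, 0), (0, 0), (-16, 0))
  | .Td, _, .B => ((0, 0), (0, 0), (0, 0))
  | .Td, _, .B' => ((16, 0), (0, 0), (-16, 0))
  | .Oh, _, .A => ((-16, 0), (0, 0), (-16, 0))
  | .Oh, _, .B => ((16, 0), (0, 0), (-16, 0))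
  | _, _, _ => ((0, 0), (0, 0), (0, 0))

/-- the test of the metric data of the rows -/
def metOK (M : Model) (t : Tag) (es : List ℕ) (R : List Row) : Bool :=
  R.all fun r => familyList.all fun e => kinds.all fun k =>
    !(decide (e.1 = t) && decide (r.spec = specOf e k)) ||
      (edgeAt M (masks r.W es) (eQ e) &&
        decide (qsum M (corners0 M.n (masks r.W es)) = cQ e k))

theorem thm_met : metOK thmM .Th thmThE thmR = true := by decide +kernel

theorem tdm_met : metOK tdmM .Td tdmTdE tdmR = true := by decide +kernel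

theorem ohs_met : metOK ohsM .Oh ohsOhE ohsR = true := by decide +kernel

theorem met_sound {M : Model} {t : Tag} {ws : List (List Letter × ℕ)}
    (hok : M.okGroup t ws = true) (htr : M.okTrans ws = true) (h0 : 0 < M.n) (hn : M.n ≤ 64)
    {es : List ℕ} (hes : ws.map Prod.snd = es) {R : List Row}
    (hR : (R.all fun r => M.okRow t r) = true) {e : Tag × Word × Word} (he : e ∈ familyList)
    (ht : e.1 = t) (hin : inF R e.2.1 e.2.2 = true) (k : Kind) {s : ℝ}
    (hpt : M.pt 1 s 0 = e.1.vertex s) (hmet : metOK M t es R = true)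
    (hinj : ∀ i < M.n, ∀ j < M.n, M.pt 1 s i = M.pt 1 s j → i = j) :
    ∃ z, s(e.1.vertex s, z) ∈ (Item.family e k s).cfg.E ∧
      4 * (e.1.vertex s ⬝ᵥ z) = val3 (eQ e) 1 s ∧
      4 * csum (Item.family e k s).cfg (e.1.vertex s) = val3 (cQ e k) 1 s := by
  obtain ⟨r, hr, hspec, hc⟩ := family_coded hok htr h0 hn hes hR ht hin k hpt
  unfold metOK at hmet
  simp only [List.all_eq_true] at hmet
  have h1 := hmet r hr e he k (mem_kinds k)
  simp only [ht, hspec, decide_true, Bool.and_self, Bool.not_true, Bool.false_or,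
    Bool.and_eq_true, decide_eq_true_eq] at h1
  obtain ⟨z, hz, hz'⟩ := edgeAt_sound h1.1 h0 1 s
  have h2 := csum_eval (L := masks r.W es) hinj h0
  rw [h1.2] at h2
  rw [hc, ← hpt]
  exact ⟨z, hz, hz', h2⟩

/-- the metric data of the families with the groups `Th`, `Td`, `Oh` -/
theorem fam_met {e : Tag × Word × Word} {k : Kind} {s : ℝ} (hi : (Item.family e k s).Valid)
    (ht : e.1 ≠ .Ih) : ∃ z, s(e.1.vertex s, z) ∈ (Item.family e k s).cfg.E ∧
      4 * (e.1.vertex s ⬝ᵥ z) = val3 (eQ e) 1 s ∧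
      4 * csum (Item.family e k s).cfg (e.1.vertex s) = val3 (cQ e k) 1 s := by
  have hst := stab_item hi.1 hi.2
  have h1 := family_cover
  rw [List.all_eq_true] at h1
  have h2 := h1 e hi.1
  simp only [Bool.or_eq_true, Bool.and_eq_true, decide_eq_true_eq] at h2
  rcases h2 with ⟨h3, h4, h2⟩ | ⟨h3, h4, h2⟩ | ⟨h3, h4, h2⟩ | ⟨h3, h4, h2⟩
  · refine met_sound thmTh_ok thmTh_trans (by decide) (by decide) thmTh_map thmR_ok hi.1 h3 h2 k
      (by rw [thmM_pt, h3]; rfl) thm_met ?_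
    refine Model.inj_mirror thmM_distinct thmTh_ok thmTh_trans (by decide) thm_fix ?_
    rw [h3, h4] at hst
    rw [thmM_pt]
    exact fun A hA h => (hst A hA).1 h
  · refine met_sound tdmTd_ok tdmTd_trans (by decide) (by decide) tdmTd_map tdmR_ok hi.1 h3 h2 k
      (by rw [tdmM_pt, h3]; rfl) tdm_met ?_
    refine Model.inj_mirror tdmM_distinct tdmTd_ok tdmTd_trans (by decide) tdm_fix ?_
    rw [h3, h4] at hst
    rw [tdmM_pt]
    exact fun A hA h => (hst A hA).1 h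
  · refine met_sound ohsOh_ok ohsOh_trans (by decide) (by decide) ohsOh_map ohsR_ok hi.1 h3 h2 k
      (by rw [ohsM_pt, h3]; rfl) ohs_met ?_
    refine Model.inj_mirror ohsM_distinct ohsOh_ok ohsOh_trans (by decide) ohs_fix ?_
    rw [h3, h4] at hst
    rw [ohsM_pt]
    exact fun A hA h => (hst A hA).1 h
  · exact absurd h3 ht

theorem base_mem {e : Tag × Word × Word} (k : Kind) (s : ℝ) :
    e.1.vertex s ∈ (Item.family e k s).cfg.V := ⟨1, one_mem _, by rw [one_mulVec]⟩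

theorem fam_eqs {e e' : Tag × Word × Word} {k k' : Kind} {s s' : ℝ}
    (he : (Item.family e k s).Valid) (he' : (Item.family e' k' s').Valid) (ht : e.1 ≠ .Ih)
    (ht' : e'.1 ≠ .Ih) {c : ℝ} (hc : 0 < c) {A : Mat} (hA : Aᵀ * A = 1)
    (h : (Item.family e k s).cfg = (Item.family e' k' s').cfg.map (fun x => c • (A *ᵥ x))) :
    e.1.vertex s ⬝ᵥ e.1.vertex s = c ^ 2 * (e'.1.vertex s' ⬝ᵥ e'.1.vertex s') ∧
      val3 (eQ e) 1 s = c ^ 2 * val3 (eQ e') 1 s' ∧
      val3 (cQ e k) 1 s = c ^ 2 * val3 (cQ e' k') 1 s' := by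
  obtain ⟨z, hz, hz1, hz2⟩ := fam_met he ht
  obtain ⟨z', hz', hz1', hz2'⟩ := fam_met he' ht'
  have g : GP (Item.family e k s).cfg e.1 := (item_good he).gp
  obtain ⟨h1, h2, h3⟩ := sim_data g hc hA h (base_mem k s) (base_mem k' s') hz hz'
  refine ⟨h1, ?_, ?_⟩
  · rw [← hz1, ← hz1', h2]; ring
  · rw [← hz2, ← hz2', h3]; ring

/-- the parameter is determined: group `Th` -/
theorem param_Th {s s' c : ℝ} (hs : 0 < s) (hs1 : s ≤ 1) (hs' : 0 < s') (hs1' : s' ≤ 1)
    (h1 : 1 + s ^ 2 = c ^ 2 * (1 + s' ^ 2)) (h2 : s = c ^ 2 * s') : s = s' ∧ c ^ 2 = 1 := by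
  have h3 : (s - s') * (1 - s * s') = 0 := by
    have : s * (1 + s' ^ 2) = s' * (1 + s ^ 2) := by rw [h1, h2]; ring
    linear_combination this
  have h4 : s = s' := by
    rcases mul_eq_zero.1 h3 with h | h
    · linarith
    · nlinarith
  refine ⟨h4, ?_⟩
  rw [← h4] at h2
  have : s * (c ^ 2 - 1) = 0 := by linear_combination -h2
  rcases mul_eq_zero.1 this with h | h
  · linarith
  · linarith

/-- the parameter is determined: groups `Td`, `Oh` -/
theorem param_Td {s s' c : ℝ} (hs : 0 < s) (hs' : 0 < s')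
    (h1 : 2 + s ^ 2 = c ^ 2 * (2 + s' ^ 2)) (h2 : c ^ 2 = 1) : s = s' := by
  rw [h2] at h1
  nlinarith

theorem fam_distinct {e e' : Tag × Word × Word} {k k' : Kind} {s s' : ℝ}
    (he : (Item.family e k s).Valid) (he' : (Item.family e' k' s').Valid) (ht : e.1 ≠ .Ih)
    (htt : e.1 = e'.1) {c : ℝ} (hc : 0 < c) {A : Mat} (hA : Aᵀ * A = 1)
    (h : (Item.family e k s).cfg = (Item.family e' k' s').cfg.map (fun x => c • (A *ᵥ x))) :
    Item.family e k s = Item.family e' k' s' := by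
  obtain ⟨h1, h2, h3⟩ := fam_eqs he he' ht (by rw [← htt]; exact ht) hc hA h
  have v0 : val ((0, 0) : Z2) = 0 := by unfold val; simp
  have v4 : val ((4, 0) : Z2) = 4 := by unfold val; simp
  have v4' : val ((-4, 0) : Z2) = -4 := by unfold val; simp
  have v16 : val ((16, 0) : Z2) = 16 := by unfold val; simp
  have v16' : val ((-16, 0) : Z2) = -16 := by unfold val; simp
  obtain ⟨he1, hr⟩ := he
  obtain ⟨he1', hr'⟩ := he'
  simp only [familyList, List.mem_cons, List.not_mem_nil, or_false] at he1 he1'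
  rcases he1 with rfl | rfl | rfl | rfl | rfl | rfl | rfl | rfl | rfl | rfl <;>
    simp only [ne_eq, not_true_eq_false] at ht <;>
    rcases he1' with rfl | rfl | rfl | rfl | rfl | rfl | rfl | rfl | rfl | rfl <;>
    simp only [reduceCtorEq] at htt
  · obtain ⟨a1, a2⟩ := hr
    obtain ⟨b1, b2⟩ := hr'
    simp [Tag.vertex, dotProduct, Fin.sum_univ_three] at h1
    simp only [eQ, val3, v0, v4, v4'] at h2
    obtain ⟨rfl, hc2⟩ := param_Th (c := c) a1 a2 b1 b2 (by linarith) (by linarith)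
    cases k <;> cases k' <;> first
      | rfl
      | (exfalso; simp only [cQ, val3, v0, v16, v16', hc2] at h3; nlinarith)
  · exfalso
    simp only [eQ, val3, v0, v4, v4'] at h2
    have := mul_pos (pow_pos hc 2) hr'.1
    have := hr.1
    linarith
  · exfalso
    simp only [eQ, val3, v0, v4, v4'] at h2
    have := mul_pos (pow_pos hc 2) hr'.1
    have := hr.1
    linarith
  · obtain ⟨a1, a2⟩ := hr
    obtain ⟨b1, b2⟩ := hr'
    simp [Tag.vertex, dotProduct, Fin.sum_univ_three] at h1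
    simp only [eQ, val3, v0, v4, v4'] at h2
    obtain ⟨rfl, hc2⟩ := param_Th (c := c) a1 a2 b1 b2 (by linarith) (by linarith)
    cases k <;> cases k' <;> first
      | rfl
      | (exfalso; simp only [cQ, val3, v0, v16, v16', hc2] at h3; nlinarith)
  · obtain ⟨a1, a2⟩ := hr
    obtain ⟨b1, b2⟩ := hr'
    simp [Tag.vertex, dotProduct, Fin.sum_univ_three] at h1
    simp only [eQ, val3, v0, v4, v4'] at h2
    have hc2 : c ^ 2 = 1 := by linarith
    obtain rfl := param_Td (c := c) a1 b1 (by linarith) hc2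
    have hs2 : s ^ 2 ≠ 1 := fun h => a2 (by nlinarith)
    cases k <;> cases k' <;> first
      | rfl
      | (exfalso; simp only [cQ, val3, v0, v16, v16', hc2] at h3; nlinarith)
      | (exfalso; simp only [cQ, val3, v0, v16, v16', hc2] at h3; exact hs2 (by linarith))
  · obtain ⟨a1, a2⟩ := hr
    obtain ⟨b1, b2⟩ := hr'
    simp [Tag.vertex, dotProduct, Fin.sum_univ_three] at h1
    simp only [eQ, val3, v0, v4, v4'] at h2
    have hc2 : c ^ 2 = 1 := by linarith
    obtain rfl := param_Td (c := c) a1 b1 (by linarith) hc2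
    have hs2 : s ^ 2 ≠ 1 := fun h => a2 (by nlinarith)
    cases k <;> cases k' <;> first
      | rfl
      | (exfalso; simp only [cQ, val3, v0, v16, v16', hc2] at h3; nlinarith)
      | (exfalso; simp only [cQ, val3, v0, v16, v16', hc2] at h3; exact hs2 (by linarith))
end Pool.Agent.H38.FT
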