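import Pool.Agent.H38.FT.Trans

/-!
Two configurations similar to a third one are similar.
-/

namespace Pool.Agent.H38.FT

theorem Similar.cancel {P I J : Cfg E3} (h1 : Similar P I) (h2 : Similar P J) : Similar I J := by
  obtain ⟨r, hr, g, hg⟩ := h1
  obtain ⟨s, hs, k, hk⟩ := h2
  refine ⟨s / r, div_pos hs hr, ?_⟩
  have hsr : s / r ≠ 0 := (div_pos hs hr).ne'
  have hiso : Isometry (fun x : E3 => (s / r)⁻¹ • g.symm (r⁻¹ • (s • k x))) := by
    refine Isometry.of_dist_eq fun y z => ?_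
    rw [dist_smul₀, g.symm.isometry.dist_eq, dist_smul₀, dist_smul₀, k.isometry.dist_eq,
      ← mul_assoc, ← mul_assoc, ← norm_mul, ← norm_mul]
    have : (s / r)⁻¹ * r⁻¹ * s = 1 := by field_simp
    rw [this, norm_one, one_mul]
  refine ⟨IsometryEquiv.mk' (fun x : E3 => (s / r)⁻¹ • g.symm (r⁻¹ • (s • k x)))
    (fun y => k.symm (s⁻¹ • (r • g ((s / r) • y)))) (fun y => ?_) hiso, ?_⟩
  · simp only [IsometryEquiv.apply_symm_apply]
    rw [smul_smul s, mul_inv_cancel₀ hs.ne', one_smul, smul_smul r⁻¹, inv_mul_cancel₀ hr.ne',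
      one_smul, IsometryEquiv.symm_apply_apply, smul_smul, inv_mul_cancel₀ hsr, one_smul]
  · have e1 : P.map (fun y => g.symm (r⁻¹ • y)) = I := by
      rw [hg, Cfg.map_map]
      have : (fun x : E3 => g.symm (r⁻¹ • (r • g x))) = fun x => x := by
        funext x
        rw [smul_smul, inv_mul_cancel₀ hr.ne', one_smul, IsometryEquiv.symm_apply_apply]
      rw [this, Cfg.map_id']
    rw [← e1, hk, Cfg.map_map]
    congr 1
    funext x
    change g.symm (r⁻¹ • (s • k x)) = (s / r) • ((s / r)⁻¹ • g.symm (r⁻¹ • (s • k x)))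
    generalize g.symm (r⁻¹ • (s • k x)) = z
    rw [smul_smul, mul_inv_cancel₀ hsr, one_smul]

end Pool.Agent.H38.FT
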