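import Pool.Agent.H38.FT.Deg
import Pool.Agent.H38.FT.SimEq

/-!
The classification with uniqueness.
-/

namespace Pool.Agent.H38.FT

open Matrix Code

/-- configurations of different rigid items are not similar -/
def RigidDistinct : Prop := ∀ e e' : Tag × Vtx × Word × Word × Word, e ∈ rigidList →
  e' ∈ rigidList → e ≠ e' → ∀ c : ℝ, 0 < c → ∀ A : Mat, Aᵀ * A = 1 →
  (Item.rigid e).cfg ≠ ((Item.rigid e').cfg).map (fun x => c • (A *ᵥ x))

theorem rigid_size_check : (rigidList.all fun e => !(Nat.beq (Item.rigid e).size 24) &&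
    !(Nat.beq (Item.rigid e).size 60)) = true := by
  decide +kernel

theorem rigid_family_ne {e : Tag × Vtx × Word × Word × Word} {e' : Tag × Word × Word} {k : Kind}
    {s : ℝ} (hi : (Item.rigid e).Valid) (hj : (Item.family e' k s).Valid)
    (hsz : (Item.rigid e).size = (Item.family e' k s).size) :
    (Item.rigid e).size = 12 ∧ (Item.family e' k s).size = 12 := by
  have h1 := rigid_size_check
  rw [List.all_eq_true] at h1
  have h2 := h1 e hi
  have h3 : (Item.family e' k s).size = 12 ∨ (Item.family e' k s).size = 24 ∨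
      (Item.family e' k s).size = 60 := by
    have h4 := family_cover
    rw [List.all_eq_true] at h4
    have h5 := h4 e' hj.1
    obtain ⟨t, w⟩ := e'
    simp only [Bool.or_eq_true, Bool.and_eq_true, decide_eq_true_eq] at h5
    rcases h5 with ⟨rfl, -⟩ | ⟨rfl, -⟩ | ⟨rfl, -⟩ | ⟨rfl, -⟩
    · left; rfl
    · left; rfl
    · right; left; rfl
    · right; right; rfl
  rcases h3 with h3 | h3 | h3
  · exact ⟨hsz.trans h3, h3⟩
  · rw [hsz.trans h3] at h2
    exact absurd h2 (by decide)
  · rw [hsz.trans h3] at h2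
    exact absurd h2 (by decide)

theorem items_distinct (hrig : RigidDistinct) {i j : Item} (hi : i.Valid) (hj : j.Valid) {c : ℝ}
    (hc : 0 < c) {A : Mat} (hA : Aᵀ * A = 1)
    (h : i.cfg = j.cfg.map (fun x => c • (A *ᵥ x))) : i = j := by
  have hsz : i.size = j.size := by
    rw [← item_size hi, ← item_size hj, h, map_V_ncard hc.ne' hA]
  have gi : GP i.cfg i.tag := (item_good hi).gp
  have gj : GP j.cfg j.tag := (item_good hj).gp
  cases i with
  | rigid e =>
    cases j with
    | rigid e' =>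
      by_contra hne
      exact hrig e e' hi hj (fun he => hne (by rw [he])) c hc A hA h
    | family e' k' s' =>
      exfalso
      obtain ⟨h1, h2⟩ := rigid_family_ne hi hj hsz
      obtain ⟨v, hv, hd⟩ := deg_ico hi h1
      obtain ⟨v', hv', hd'⟩ := deg_fam hj h2
      have := sim_deg gi hc hA h hv hv'
      omega
  | family e k s =>
    cases j with
    | rigid e' =>
      exfalso
      obtain ⟨h1, h2⟩ := rigid_family_ne hj hi hsz.symm
      obtain ⟨v, hv, hd⟩ := deg_ico hj h1
      obtain ⟨v', hv', hd'⟩ := deg_fam hi h2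
      have := sim_deg gi hc hA h hv' hv
      omega
    | family e' k' s' =>
      have h4 := family_cover
      rw [List.all_eq_true] at h4
      have h5 := h4 e hi.1
      have h5' := h4 e' hj.1
      simp only [Bool.or_eq_true, Bool.and_eq_true, decide_eq_true_eq] at h5 h5'
      by_cases htt : e.1 = e'.1
      · by_cases ht : e.1 = .Ih
        · exact ih_distinct hi hj ht (by rw [← htt]; exact ht) hc hA h
        · exact fam_distinct hi hj ht htt hc hA h
      · exfalso
        have key : ∀ (e e' : Tag × Word × Word) (k k' : Kind) (s s' : ℝ),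
            (Item.family e k s).size = (Item.family e' k' s').size → e.1 ≠ e'.1 →
            (e.1 = .Th ∨ e.1 = .Td ∨ e.1 = .Oh ∨ e.1 = .Ih) →
            (e'.1 = .Th ∨ e'.1 = .Td ∨ e'.1 = .Oh ∨ e'.1 = .Ih) →
            (e.1 = .Th ∧ e'.1 = .Td) ∨ (e.1 = .Td ∧ e'.1 = .Th) := by
          rintro ⟨t, w⟩ ⟨t', w'⟩ k k' s s' hs hne hor hor'
          simp only at hne hor hor'
          rcases hor with rfl | rfl | rfl | rfl <;> rcases hor' with rfl | rfl | rfl | rfl <;>
            simp_all [Item.size]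
        have hor : e.1 = .Th ∨ e.1 = .Td ∨ e.1 = .Oh ∨ e.1 = .Ih := by
          rcases h5 with h | h | h | h <;> simp [h.1]
        have hor' : e'.1 = .Th ∨ e'.1 = .Td ∨ e'.1 = .Oh ∨ e'.1 = .Ih := by
          rcases h5' with h | h | h | h <;> simp [h.1]
        rcases key e e' k k' s s' hsz htt hor hor' with ⟨h6, h7⟩ | ⟨h6, h7⟩
        · -- reverse the similarity
          have hrev : (Item.family e' k' s').cfg =
              (Item.family e k s).cfg.map (fun x => c⁻¹ • (Aᵀ *ᵥ x)) := by
            rw [h, Cfg.map_map]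
            have : (fun x : Fin 3 → ℝ => c⁻¹ • (Aᵀ *ᵥ (c • (A *ᵥ x)))) = fun x => x := by
              funext x
              rw [mulVec_smul, mulVec_mulVec, hA, one_mulVec, smul_smul,
                inv_mul_cancel₀ hc.ne', one_smul]
            rw [this, Cfg.map_id']
          have gi' : GP (Item.family e k s).cfg .Th := by
            have : GP (Item.family e k s).cfg e.1 := gi
            rw [h6] at this; exact this
          have hr := hj.2
          rw [h7] at hr
          exact th_td_distinct gi' h7 hr.1 hrev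
        · have gj' : GP (Item.family e' k' s').cfg .Th := by
            have : GP (Item.family e' k' s').cfg e'.1 := gj
            rw [h7] at this; exact this
          have hr := hi.2
          rw [h6] at hr
          exact th_td_distinct gj' h6 hr.1 h

/-- The classification with uniqueness, given `RigidDistinct`, the module M1 and the reduction. -/
theorem classification2 (hrig : RigidDistinct)
    (hM1 : ∀ G : Set Mat, IsFinGroup G →
      (∀ a : Fin 3 → ℝ, a ≠ 0 → ∃ A ∈ G, A *ᵥ a ≠ a ∧ A *ᵥ a ≠ -a) →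
      ∃ U : Mat, Uᵀ * U = 1 ∧ ∃ t : Tag, ∀ M : Mat, M ∈ G ↔ Uᵀ * M * U ∈ t.group)
    (hred : ∀ (P : Cfg E3), P.IsPolyhedron → P.V.Finite → affineSpan ℝ P.V = ⊤ →
      FullyTransitive P → (∀ G : Set Mat, IsFinGroup G →
      (∀ a : Fin 3 → ℝ, a ≠ 0 → ∃ A ∈ G, A *ᵥ a ≠ a ∧ A *ᵥ a ≠ -a) →
      ∃ U : Mat, Uᵀ * U = 1 ∧ ∃ t : Tag, ∀ M : Mat, M ∈ G ↔ Uᵀ * M * U ∈ t.group) →
      ∃ (t : Tag) (g : E3 ≃ᵢ E3) (P' : Cfg (Fin 3 → ℝ)),
      GP P' t ∧ P = P'.map (fun x => g (WithLp.toLp 2 x))) :
    (∀ P : Cfg E3, IsFinitePolyhedron P → (FullyTransitive P ↔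
      ∃! i : Item, i.Valid ∧ Similar P (i.cfg.map (WithLp.toLp 2)))) ∧
    (∀ i : Item, i.Valid → IsFinitePolyhedron (i.cfg.map (WithLp.toLp 2)) ∧
      FullyTransitive (i.cfg.map (WithLp.toLp 2))) := by
  refine ⟨fun P hP => ⟨fun h => ?_, ?_⟩,
    fun i hi => ⟨item_finitePolyhedron hi, item_fullyTransitive hi⟩⟩
  · obtain ⟨t, g, P', hGP, hPP⟩ := hred P hP.poly hP.fin hP.span h hM1
    obtain ⟨i, hi, hPi⟩ := concl2_similar hPP (forward2 hGP)
    refine ⟨i, ⟨hi, hPi⟩, ?_⟩
    rintro j ⟨hj, hPj⟩
    obtain ⟨c, hc, A, hA, hji⟩ := similar_matrix (item_good hj).gp (item_good hi).gp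
      (item_good hj).fin (item_good hi).fin (hPj.cancel hPi)
    exact items_distinct hrig hj hi hc hA hji
  · rintro ⟨i, ⟨hi, r, hr, g, rfl⟩, -⟩
    exact (item_fullyTransitive hi).map hr g

end Pool.Agent.H38.FT
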