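import Pool.Agent.H38.FT.GP

/-!
Nontrivial stabilisers of the vertices, and fixed vectors of some matrices.
-/

namespace Pool.Agent.H38.FT

open Matrix Code

/-- Every vertex has a nontrivial stabiliser. -/
theorem GP.stab {P : Cfg (Fin 3 → ℝ)} {t : Tag} (h : GP P t) {v : Fin 3 → ℝ} (hv : v ∈ P.V) :
    ∃ A ∈ t.group, A ≠ 1 ∧ A *ᵥ v = v := by
  obtain ⟨y₁, y₂, y₃, h12, h13, h23, e1, e2, e3⟩ := h.poly.deg3 h.vtrans v hv
  obtain ⟨A, hA, hA1⟩ := h.tE _ e1 _ e2
  obtain ⟨B, hB, hB1⟩ := h.tE _ e1 _ e3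
  rw [Sym2.map_mk, Sym2.eq_iff] at hA1 hB1
  rcases hA1 with ⟨a1, a2⟩ | ⟨a1, a2⟩
  · refine ⟨A, hA, ?_, a1⟩
    rintro rfl
    rw [Matrix.one_mulVec] at a2
    exact h12 a2
  rcases hB1 with ⟨b1, b2⟩ | ⟨b1, b2⟩
  · refine ⟨B, hB, ?_, b1⟩
    rintro rfl
    rw [Matrix.one_mulVec] at b2
    exact h13 b2
  -- both exchange
  have hAt : Aᵀ *ᵥ v = y₁ := by
    rw [← a2, Matrix.mulVec_mulVec, Tag.orth hA, Matrix.one_mulVec]
  have hAt2 : Aᵀ *ᵥ y₂ = v := by
    rw [← a1, Matrix.mulVec_mulVec, Tag.orth hA, Matrix.one_mulVec]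
  refine ⟨B * Aᵀ, mul_mem hB (Tag.tr hA), ?_, ?_⟩
  · intro hBA
    have : (B * Aᵀ) *ᵥ y₂ = y₃ := by rw [← Matrix.mulVec_mulVec, hAt2, b1]
    rw [hBA, Matrix.one_mulVec] at this
    exact h23 this
  · rw [← Matrix.mulVec_mulVec, hAt, b2]

theorem fix_c {v : Fin 3 → ℝ} (h : ev [.c] *ᵥ v = v) : v = ![v 0, v 0, v 0] := by
  simp only [ev, List.map_cons, List.map_nil, List.prod_cons, List.prod_nil, Matrix.mul_one] at h
  have h0 := congrFun h 0
  have h1 := congrFun h 1
  have h2 := congrFun h 2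
  simp [gen, Matrix.mulVec, dotProduct, Fin.sum_univ_three] at h0 h1 h2
  funext i
  fin_cases i
  · rfl
  · simp [h1]
  · simp [← h2, h1]

theorem fix_d {v : Fin 3 → ℝ} (h : ev [.d] *ᵥ v = v) : v = ![v 0, 0, 0] := by
  simp only [ev, List.map_cons, List.map_nil, List.prod_cons, List.prod_nil, Matrix.mul_one] at h
  have h1 := congrFun h 1
  have h2 := congrFun h 2
  simp [gen, Matrix.mulVec, dotProduct, Fin.sum_univ_three] at h1 h2
  funext i
  fin_cases i
  · rfl
  · simp; linarith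
  · simp; linarith

theorem fix_n {v : Fin 3 → ℝ} (h : ev [.n] *ᵥ v = v) : v = 0 := by
  simp only [ev, List.map_cons, List.map_nil, List.prod_cons, List.prod_nil, Matrix.mul_one] at h
  have h0 := congrFun h 0
  have h1 := congrFun h 1
  have h2 := congrFun h 2
  simp [gen, Matrix.mulVec, dotProduct, Fin.sum_univ_three] at h0 h1 h2
  funext i
  fin_cases i
  · simp; linarith
  · simp; linarith
  · simp; linarith

theorem fix_s {v : Fin 3 → ℝ} (h : ev [.s] *ᵥ v = v) : v = ![v 0, v 0, v 2] := by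
  simp only [ev, List.map_cons, List.map_nil, List.prod_cons, List.prod_nil, Matrix.mul_one] at h
  have h1 := congrFun h 1
  simp [gen, Matrix.mulVec, dotProduct, Fin.sum_univ_three] at h1
  funext i
  fin_cases i
  · rfl
  · simp [h1]
  · rfl

theorem ev_qd : ev [.q, .d] = !![0, 1, 0; 1, 0, 0; 0, 0, -1] := by
  simp only [ev, List.map_cons, List.map_nil, List.prod_cons, List.prod_nil, Matrix.mul_one, gen]
  ext i j; fin_cases i <;> fin_cases j <;> simp [Matrix.mul_apply, Fin.sum_univ_three]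

theorem ev_ndq : ev [.n, .d, .q] = !![0, 1, 0; 1, 0, 0; 0, 0, 1] := by
  simp only [ev, List.map_cons, List.map_nil, List.prod_cons, List.prod_nil, Matrix.mul_one, gen]
  ext i j; fin_cases i <;> fin_cases j <;> simp [Matrix.mul_apply, Fin.sum_univ_three]

theorem ev_nqq : ev [.n, .q, .q] = !![1, 0, 0; 0, 1, 0; 0, 0, -1] := by
  simp only [ev, List.map_cons, List.map_nil, List.prod_cons, List.prod_nil, Matrix.mul_one, gen]
  ext i j; fin_cases i <;> fin_cases j <;> simp [Matrix.mul_apply, Fin.sum_univ_three]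

theorem ev_nccdc : ev [.n, .c, .c, .d, .c] = !![1, 0, 0; 0, 1, 0; 0, 0, -1] := by
  simp only [ev, List.map_cons, List.map_nil, List.prod_cons, List.prod_nil, Matrix.mul_one, gen]
  ext i j; fin_cases i <;> fin_cases j <;> simp [Matrix.mul_apply, Fin.sum_univ_three]

theorem fix_qd {v : Fin 3 → ℝ} (h : ev [.q, .d] *ᵥ v = v) : v = ![v 0, v 0, 0] := by
  rw [ev_qd] at h
  have h1 := congrFun h 1
  have h2 := congrFun h 2
  simp [Matrix.mulVec, dotProduct, Fin.sum_univ_three] at h1 h2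
  funext i
  fin_cases i
  · rfl
  · simp [h1]
  · simp; linarith

theorem fix_ndq {v : Fin 3 → ℝ} (h : ev [.n, .d, .q] *ᵥ v = v) : v = ![v 0, v 0, v 2] := by
  rw [ev_ndq] at h
  have h1 := congrFun h 1
  simp [Matrix.mulVec, dotProduct, Fin.sum_univ_three] at h1
  funext i
  fin_cases i
  · rfl
  · simp [h1]
  · rfl

theorem fix_nqq {v : Fin 3 → ℝ} (h : ev [.n, .q, .q] *ᵥ v = v) : v = ![v 0, v 1, 0] := by
  rw [ev_nqq] at h
  have h2 := congrFun h 2
  simp [Matrix.mulVec, dotProduct, Fin.sum_univ_three] at h2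
  funext i
  fin_cases i
  · rfl
  · rfl
  · simp; linarith

theorem fix_nccdc {v : Fin 3 → ℝ} (h : ev [.n, .c, .c, .d, .c] *ᵥ v = v) :
    v = ![v 0, v 1, 0] := by
  rw [ev_nccdc] at h
  have h2 := congrFun h 2
  simp [Matrix.mulVec, dotProduct, Fin.sum_univ_three] at h2
  funext i
  fin_cases i
  · rfl
  · rfl
  · simp; linarith

theorem fix_p {v : Fin 3 → ℝ} (h : ev [.p] *ᵥ v = v) : v = ![0, v 1, gr * v 1] := by
  simp only [ev, List.map_cons, List.map_nil, List.prod_cons, List.prod_nil, Matrix.mul_one] at h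
  have h0 := congrFun h 0
  have h1 := congrFun h 1
  have hg := gr_sq
  have hg1 : (1 : ℝ) < gr := Real.one_lt_goldenRatio
  simp only [gen] at h0 h1
  generalize gr = g at *
  simp [Matrix.mulVec, dotProduct, Fin.sum_univ_three] at h0 h1
  -- (g - 3) x - g y + z = 0, g x - y + (g - 1) z = 0
  have e0 : (g - 3) * v 0 - g * v 1 + v 2 = 0 := by linear_combination 2 * h0
  have e1 : g * v 0 - v 1 + (g - 1) * v 2 = 0 := by linear_combination 2 * h1
  have hz : v 2 = g * v 1 - (g - 3) * v 0 := by linear_combination e0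
  have h3 : (g - (g - 1) * (g - 3)) * v 0 + ((g - 1) * g - 1) * v 1 = 0 := by
    rw [hz] at e1
    linear_combination e1
  have h4 : (g - 1) * g - 1 = 0 := by linear_combination hg
  rw [h4, zero_mul, add_zero] at h3
  have h5 : g - (g - 1) * (g - 3) = 4 * g - 4 := by linear_combination -hg
  rw [h5] at h3
  have h6 : v 0 = 0 := by
    rcases mul_eq_zero.1 h3 with h | h
    · exfalso; linarith
    · exact h
  funext i
  fin_cases i
  · simp [h6]
  · rfl
  · simp [hz, h6]

end Pool.Agent.H38.FT
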