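import Pool.Agent.H38.FT.CaseLemmas
import Pool.Agent.H38.FT.CanonData
import Pool.Agent.H38.FT.Table
import Pool.Agent.H38.FT.K.CubO
import Pool.Agent.H38.FT.K.CubOh
import Pool.Agent.H38.FT.K.CubTh
import Pool.Agent.H38.FT.K.CuoO
import Pool.Agent.H38.FT.K.CuoOh
import Pool.Agent.H38.FT.K.DodI
import Pool.Agent.H38.FT.K.DodIh
import Pool.Agent.H38.FT.K.IciI
import Pool.Agent.H38.FT.K.IciIh
import Pool.Agent.H38.FT.K.IcoI
import Pool.Agent.H38.FT.K.IcoIh
import Pool.Agent.H38.FT.K.IhmIh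
import Pool.Agent.H38.FT.K.OctO
import Pool.Agent.H38.FT.K.OctOh
import Pool.Agent.H38.FT.K.OctT
import Pool.Agent.H38.FT.K.OctTd
import Pool.Agent.H38.FT.K.OctTh
import Pool.Agent.H38.FT.K.OhsOh
import Pool.Agent.H38.FT.K.OhzOh
import Pool.Agent.H38.FT.K.TdmTd
import Pool.Agent.H38.FT.K.TetT
import Pool.Agent.H38.FT.K.TetTd
import Pool.Agent.H38.FT.K.ThmTh

/-!
Every polyhedron with one of the seven groups is listed.
-/

namespace Pool.Agent.H38.FT

open Matrix Code

/-- `P` is a multiple of a listed configuration. -/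
def Concl (P : Cfg (Fin 3 → ℝ)) : Prop :=
  ∃ Q, IsListed Q ∧ ∃ c : ℝ, c ≠ 0 ∧ P = Q.map (fun z => c • z)

/-- the rows are in `rigidList` -/
def rigidOK (t : Tag) (v : Vtx) (R : List Row) : Bool := R.all fun r =>
  match r.spec with
  | .C τ m₁ m₂ => decide ((t, v, τ, m₁, m₂) ∈ rigidList)
  | _ => false

/-- the rows belong to `familyList` -/
def famOK (t : Tag) (S : List Letter) (R : List Row) : Bool := R.all fun r =>
  match r.spec with
  | .A σ a => decide (σ = S) && decide ((t, S, a) ∈ familyList)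
  | .B σ a => decide (σ = S) && (decide ((t, S, a) ∈ familyList) ||
      familyList.any fun e => decide (e.1 = t) && (decide (e.2.1 = S) && decide (a = S ++ e.2.2)))
  | _ => false

theorem rigid_listed {t : Tag} {v : Vtx} {R : List Row} (h : rigidOK t v R = true) {r : Row}
    (hr : r ∈ R) : IsListed (orbitCfg t v.vec (r.spec.face v.vec)) := by
  unfold rigidOK at h
  rw [List.all_eq_true] at h
  have h1 := h r hr
  obtain ⟨spec, q, X, W⟩ := r
  cases spec with
  | C τ m₁ m₂ =>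
    simp only [decide_eq_true_eq] at h1
    exact Or.inl ⟨_, h1, rfl⟩
  | A σ a => simp at h1
  | B σ a => simp at h1

theorem ev_append (w w' : List Letter) : ev (w ++ w') = ev w * ev w' := by
  unfold ev
  rw [List.map_append, List.prod_append]

theorem fam_listed {t : Tag} {S : List Letter} {R : List Row} (h : famOK t S R = true)
    {v : Fin 3 → ℝ} (hst : ∀ A ∈ t.group, A *ᵥ v = v ↔ A = 1 ∨ A = ev S) {r : Row}
    (hr : r ∈ R) : IsListed (orbitCfg t v (r.spec.face v)) := by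
  unfold famOK at h
  rw [List.all_eq_true] at h
  have h1 := h r hr
  obtain ⟨spec, q, X, W⟩ := r
  cases spec with
  | C τ m₁ m₂ => simp at h1
  | A σ a =>
    simp only [Bool.and_eq_true, decide_eq_true_eq] at h1
    obtain ⟨rfl, h2⟩ := h1
    exact Or.inr ⟨_, h2, v, hst, Or.inl rfl⟩
  | B σ a =>
    simp only [Bool.and_eq_true, Bool.or_eq_true, decide_eq_true_eq, List.any_eq_true] at h1
    obtain ⟨rfl, h2 | ⟨⟨t', σ', a'⟩, h2, rfl, rfl, h5⟩⟩ := h1
    · exact Or.inr ⟨_, h2, v, hst, Or.inr (Or.inl rfl)⟩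
    · simp only at h5 hst ⊢
      subst h5
      refine Or.inr ⟨_, h2, v, hst, Or.inr (Or.inr ?_)⟩
      simp only [Spec.face, ev_append]

theorem Concl.of_axis {P : Cfg (Fin 3 → ℝ)} {x : ℝ} (hx : x ≠ 0) {Q : Cfg (Fin 3 → ℝ)}
    (hQ : IsListed Q) (h : P = Q.map (fun z => x • z)) : Concl P := ⟨Q, hQ, x, hx, h⟩

theorem Concl.of_mirror {P : Cfg (Fin 3 → ℝ)} (hQ : IsListed P) : Concl P := by
  refine ⟨P, hQ, 1, one_ne_zero, ?_⟩
  have h1 : (fun z : Fin 3 → ℝ => (1 : ℝ) • z) = id := by funext z; simp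
  rw [h1]
  rcases P with ⟨V, E, F⟩
  unfold Cfg.map
  simp

theorem tetM_pt (x y : ℝ) : tetM.pt x y 0 = ![x, x, x] := by
  unfold Model.pt tetM V3.toR val
  funext i
  fin_cases i <;> simp

theorem octM_pt (x y : ℝ) : octM.pt x y 0 = ![x, 0, 0] := by
  unfold Model.pt octM V3.toR val
  funext i
  fin_cases i <;> simp

theorem cubM_pt (x y : ℝ) : cubM.pt x y 0 = ![x, x, x] := by
  unfold Model.pt cubM V3.toR val
  funext i
  fin_cases i <;> simp

theorem cuoM_pt (x y : ℝ) : cuoM.pt x y 0 = ![x, x, 0] := by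
  unfold Model.pt cuoM V3.toR val
  funext i
  fin_cases i <;> simp

theorem thmM_pt (x y : ℝ) : thmM.pt x y 0 = ![x, y, 0] := by
  unfold Model.pt thmM V3.toR val
  funext i
  fin_cases i <;> simp

theorem tdmM_pt (x y : ℝ) : tdmM.pt x y 0 = ![x, x, y] := by
  unfold Model.pt tdmM V3.toR val
  funext i
  fin_cases i <;> simp

theorem ohzM_pt (x y : ℝ) : ohzM.pt x y 0 = ![x, y, 0] := by
  unfold Model.pt ohzM V3.toR val
  funext i
  fin_cases i <;> simp

theorem ohsM_pt (x y : ℝ) : ohsM.pt x y 0 = ![x, x, y] := by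
  unfold Model.pt ohsM V3.toR val
  funext i
  fin_cases i <;> simp

theorem icoM_pt (x y : ℝ) : icoM.pt x y 0 = ![0, x, gr * x] := by
  unfold Model.pt icoM V3.toR val
  funext i
  fin_cases i <;> simp
  ring

theorem dodM_pt (x y : ℝ) : dodM.pt x y 0 = ![x, x, x] := by
  unfold Model.pt dodM V3.toR val
  funext i
  fin_cases i <;> simp

theorem iciM_pt (x y : ℝ) : iciM.pt x y 0 = ![x, 0, 0] := by
  unfold Model.pt iciM V3.toR val
  funext i
  fin_cases i <;> simp

theorem ihmM_pt (x y : ℝ) : ihmM.pt x y 0 = ![x, y, 0] := by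
  unfold Model.pt ihmM V3.toR val
  funext i
  fin_cases i <;> simp

end Pool.Agent.H38.FT
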