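import Pool.Agent.H38.FT.Forward

/-!
The cases of the classification (generated).
-/

namespace Pool.Agent.H38.FT

open Matrix Code

variable {P : Cfg (Fin 3 → ℝ)}

theorem tet_rigidOK : rigidOK .Td .v111 tetR = true := by decide +kernel

theorem tet_listed {r : Row} (hr : r ∈ tetR) :
    IsListed (orbitCfg .Td (tetM.pt 1 0 0) (r.spec.face (tetM.pt 1 0 0))) := by
  have h1 : tetM.pt 1 0 0 = Vtx.v111.vec := by rw [tetM_pt]; simp [Vtx.vec]
  rw [h1]
  exact rigid_listed tet_rigidOK hr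

theorem oct_rigidOK : rigidOK .Oh .v100 octR = true := by decide +kernel

theorem oct_listed {r : Row} (hr : r ∈ octR) :
    IsListed (orbitCfg .Oh (octM.pt 1 0 0) (r.spec.face (octM.pt 1 0 0))) := by
  have h1 : octM.pt 1 0 0 = Vtx.v100.vec := by rw [octM_pt]; simp [Vtx.vec]
  rw [h1]
  exact rigid_listed oct_rigidOK hr

theorem cub_rigidOK : rigidOK .Oh .v111 cubR = true := by decide +kernel

theorem cub_listed {r : Row} (hr : r ∈ cubR) :
    IsListed (orbitCfg .Oh (cubM.pt 1 0 0) (r.spec.face (cubM.pt 1 0 0))) := by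
  have h1 : cubM.pt 1 0 0 = Vtx.v111.vec := by rw [cubM_pt]; simp [Vtx.vec]
  rw [h1]
  exact rigid_listed cub_rigidOK hr

theorem ico_rigidOK : rigidOK .Ih .v01g icoR = true := by decide +kernel

theorem ico_listed {r : Row} (hr : r ∈ icoR) :
    IsListed (orbitCfg .Ih (icoM.pt 1 0 0) (r.spec.face (icoM.pt 1 0 0))) := by
  have h1 : icoM.pt 1 0 0 = Vtx.v01g.vec := by rw [icoM_pt]; simp [Vtx.vec]
  rw [h1]
  exact rigid_listed ico_rigidOK hr

theorem dod_rigidOK : rigidOK .Ih .v111 dodR = true := by decide +kernel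

theorem dod_listed {r : Row} (hr : r ∈ dodR) :
    IsListed (orbitCfg .Ih (dodM.pt 1 0 0) (r.spec.face (dodM.pt 1 0 0))) := by
  have h1 : dodM.pt 1 0 0 = Vtx.v111.vec := by rw [dodM_pt]; simp [Vtx.vec]
  rw [h1]
  exact rigid_listed dod_rigidOK hr

theorem ici_rigidOK : rigidOK .Ih .v100 iciR = true := by decide +kernel

theorem ici_listed {r : Row} (hr : r ∈ iciR) :
    IsListed (orbitCfg .Ih (iciM.pt 1 0 0) (r.spec.face (iciM.pt 1 0 0))) := by
  have h1 : iciM.pt 1 0 0 = Vtx.v100.vec := by rw [iciM_pt]; simp [Vtx.vec]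
  rw [h1]
  exact rigid_listed ici_rigidOK hr

theorem cuoM_faithful : cuoM.Faithful := by
  apply Model.faithful_of_okSpan (i0 := 0) (j0 := 2) (i1 := 0) (j1 := 3) (i2 := 1) (j2 := 9)
  decide +kernel

theorem cuo_famOK : famOK .Th [.n, .c, .c, .d, .c] cuoR = true := by decide +kernel

theorem cuo_stab_check : (cuoThE.all fun p => !(Nat.beq (act p 0) 0) || (cuoM.isId p ||
    (List.range cuoM.n).all fun i => Nat.beq (act p i) (cuoM.actW [.n, .c, .c, .d, .c] i))) = true := by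
  decide +kernel

theorem cuo_stab (A : Mat) (hA : A ∈ Tag.Th.group) : A *ᵥ cuoM.pt 1 0 0 = cuoM.pt 1 0 0 ↔
    A = 1 ∨ A = ev [.n, .c, .c, .d, .c] := by
  constructor
  · intro hfix
    obtain ⟨p, hp, hrep⟩ := Model.code_of_group cuoTh_ok 1 0 hA
    rw [cuoTh_map] at hp
    have hc := cuo_stab_check
    rw [List.all_eq_true] at hc
    have h1 := hc p hp
    have h0 : act p 0 = 0 := by
      apply Model.inj_axis cuoM_distinct cuoM_zeroB one_ne_zero 0 _ (hrep 0 (by decide)).1 0 (by decide)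
      rw [← (hrep 0 (by decide)).2, hfix]
    rw [Bool.or_eq_true, Bool.or_eq_true] at h1
    rcases h1 with h1 | h1 | h1
    · rw [h0] at h1; simp at h1
    · left
      apply cuoM_faithful
      intro i hi
      unfold Model.isId at h1
      rw [List.all_eq_true] at h1
      rw [(hrep i hi).2, Nat.eq_of_beq_eq_true (h1 i (List.mem_range.2 hi)), Matrix.one_mulVec]
    · right
      apply cuoM_faithful
      intro i hi
      rw [List.all_eq_true] at h1
      rw [(hrep i hi).2, Nat.eq_of_beq_eq_true (h1 i (List.mem_range.2 hi)),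
        Model.actW_eq (fun l hl => Model.okGroup_letters cuoTh_ok l (by
          revert l; decide)) 1 0 hi]
  · rintro (rfl | rfl)
    · rw [Matrix.one_mulVec]
    · rw [cuoM_pt, ev_nccdc]
      funext i
      fin_cases i <;> simp [Matrix.mulVec, dotProduct, Fin.sum_univ_three]

theorem cuo_listed {r : Row} (hr : r ∈ cuoR) :
    IsListed (orbitCfg .Th (cuoM.pt 1 0 0) (r.spec.face (cuoM.pt 1 0 0))) :=
  fam_listed cuo_famOK cuo_stab hr

theorem tet_T (h : GP P .T) {x : ℝ} (hx : x ≠ 0) (hv : ![x, x, x] ∈ P.V) : Concl P := by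
  rw [← tetM_pt x 0] at hv
  obtain ⟨r, hr, hP⟩ := axis_case h tetT_ok tetT_trans tetT_map (by decide) (by decide)
    tetM_distinct tetM_zeroB tetTd_ok tetTd_trans tetTd_map tetR_ok tetT_check hx hv
  exact Concl.of_axis hx (tet_listed hr) hP

theorem oct_T (h : GP P .T) {x : ℝ} (hx : x ≠ 0) (hv : ![x, 0, 0] ∈ P.V) : Concl P := by
  rw [← octM_pt x 0] at hv
  obtain ⟨r, hr, hP⟩ := axis_case h octT_ok octT_trans octT_map (by decide) (by decide)
    octM_distinct octM_zeroB octOh_ok octOh_trans octOh_map octR_ok octT_check hx hv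
  exact Concl.of_axis hx (oct_listed hr) hP

theorem cub_Th (h : GP P .Th) {x : ℝ} (hx : x ≠ 0) (hv : ![x, x, x] ∈ P.V) : Concl P := by
  rw [← cubM_pt x 0] at hv
  obtain ⟨r, hr, hP⟩ := axis_case h cubTh_ok cubTh_trans cubTh_map (by decide) (by decide)
    cubM_distinct cubM_zeroB cubOh_ok cubOh_trans cubOh_map cubR_ok cubTh_check hx hv
  exact Concl.of_axis hx (cub_listed hr) hP

theorem oct_Th (h : GP P .Th) {x : ℝ} (hx : x ≠ 0) (hv : ![x, 0, 0] ∈ P.V) : Concl P := by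
  rw [← octM_pt x 0] at hv
  obtain ⟨r, hr, hP⟩ := axis_case h octTh_ok octTh_trans octTh_map (by decide) (by decide)
    octM_distinct octM_zeroB octOh_ok octOh_trans octOh_map octR_ok octTh_check hx hv
  exact Concl.of_axis hx (oct_listed hr) hP

theorem tet_Td (h : GP P .Td) {x : ℝ} (hx : x ≠ 0) (hv : ![x, x, x] ∈ P.V) : Concl P := by
  rw [← tetM_pt x 0] at hv
  obtain ⟨r, hr, hP⟩ := axis_case h tetTd_ok tetTd_trans tetTd_map (by decide) (by decide)
    tetM_distinct tetM_zeroB tetTd_ok tetTd_trans tetTd_map tetR_ok tetTd_check hx hv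
  exact Concl.of_axis hx (tet_listed hr) hP

theorem oct_Td (h : GP P .Td) {x : ℝ} (hx : x ≠ 0) (hv : ![x, 0, 0] ∈ P.V) : Concl P := by
  rw [← octM_pt x 0] at hv
  obtain ⟨r, hr, hP⟩ := axis_case h octTd_ok octTd_trans octTd_map (by decide) (by decide)
    octM_distinct octM_zeroB octOh_ok octOh_trans octOh_map octR_ok octTd_check hx hv
  exact Concl.of_axis hx (oct_listed hr) hP

theorem cub_O (h : GP P .O) {x : ℝ} (hx : x ≠ 0) (hv : ![x, x, x] ∈ P.V) : Concl P := by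
  rw [← cubM_pt x 0] at hv
  obtain ⟨r, hr, hP⟩ := axis_case h cubO_ok cubO_trans cubO_map (by decide) (by decide)
    cubM_distinct cubM_zeroB cubOh_ok cubOh_trans cubOh_map cubR_ok cubO_check hx hv
  exact Concl.of_axis hx (cub_listed hr) hP

theorem oct_O (h : GP P .O) {x : ℝ} (hx : x ≠ 0) (hv : ![x, 0, 0] ∈ P.V) : Concl P := by
  rw [← octM_pt x 0] at hv
  obtain ⟨r, hr, hP⟩ := axis_case h octO_ok octO_trans octO_map (by decide) (by decide)
    octM_distinct octM_zeroB octOh_ok octOh_trans octOh_map octR_ok octO_check hx hv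
  exact Concl.of_axis hx (oct_listed hr) hP

theorem cuo_O (h : GP P .O) {x : ℝ} (hx : x ≠ 0) (hv : ![x, x, 0] ∈ P.V) : Concl P := by
  rw [← cuoM_pt x 0] at hv
  obtain ⟨r, hr, hP⟩ := axis_case h cuoO_ok cuoO_trans cuoO_map (by decide) (by decide)
    cuoM_distinct cuoM_zeroB cuoTh_ok cuoTh_trans cuoTh_map cuoR_ok cuoO_check hx hv
  exact Concl.of_axis hx (cuo_listed hr) hP

theorem cub_Oh (h : GP P .Oh) {x : ℝ} (hx : x ≠ 0) (hv : ![x, x, x] ∈ P.V) : Concl P := by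
  rw [← cubM_pt x 0] at hv
  obtain ⟨r, hr, hP⟩ := axis_case h cubOh_ok cubOh_trans cubOh_map (by decide) (by decide)
    cubM_distinct cubM_zeroB cubOh_ok cubOh_trans cubOh_map cubR_ok cubOh_check hx hv
  exact Concl.of_axis hx (cub_listed hr) hP

theorem oct_Oh (h : GP P .Oh) {x : ℝ} (hx : x ≠ 0) (hv : ![x, 0, 0] ∈ P.V) : Concl P := by
  rw [← octM_pt x 0] at hv
  obtain ⟨r, hr, hP⟩ := axis_case h octOh_ok octOh_trans octOh_map (by decide) (by decide)
    octM_distinct octM_zeroB octOh_ok octOh_trans octOh_map octR_ok octOh_check hx hv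
  exact Concl.of_axis hx (oct_listed hr) hP

theorem cuo_Oh (h : GP P .Oh) {x : ℝ} (hx : x ≠ 0) (hv : ![x, x, 0] ∈ P.V) : Concl P := by
  rw [← cuoM_pt x 0] at hv
  obtain ⟨r, hr, hP⟩ := axis_case h cuoOh_ok cuoOh_trans cuoOh_map (by decide) (by decide)
    cuoM_distinct cuoM_zeroB cuoTh_ok cuoTh_trans cuoTh_map cuoR_ok cuoOh_check hx hv
  exact Concl.of_axis hx (cuo_listed hr) hP

theorem dod_I (h : GP P .I) {x : ℝ} (hx : x ≠ 0) (hv : ![x, x, x] ∈ P.V) : Concl P := by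
  rw [← dodM_pt x 0] at hv
  obtain ⟨r, hr, hP⟩ := axis_case h dodI_ok dodI_trans dodI_map (by decide) (by decide)
    dodM_distinct dodM_zeroB dodIh_ok dodIh_trans dodIh_map dodR_ok dodI_check hx hv
  exact Concl.of_axis hx (dod_listed hr) hP

theorem ico_I (h : GP P .I) {x : ℝ} (hx : x ≠ 0) (hv : ![0, x, gr * x] ∈ P.V) : Concl P := by
  rw [← icoM_pt x 0] at hv
  obtain ⟨r, hr, hP⟩ := axis_case h icoI_ok icoI_trans icoI_map (by decide) (by decide)
    icoM_distinct icoM_zeroB icoIh_ok icoIh_trans icoIh_map icoR_ok icoI_check hx hv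
  exact Concl.of_axis hx (ico_listed hr) hP

theorem ici_I (h : GP P .I) {x : ℝ} (hx : x ≠ 0) (hv : ![x, 0, 0] ∈ P.V) : Concl P := by
  rw [← iciM_pt x 0] at hv
  obtain ⟨r, hr, hP⟩ := axis_case h iciI_ok iciI_trans iciI_map (by decide) (by decide)
    iciM_distinct iciM_zeroB iciIh_ok iciIh_trans iciIh_map iciR_ok iciI_check hx hv
  exact Concl.of_axis hx (ici_listed hr) hP

theorem dod_Ih (h : GP P .Ih) {x : ℝ} (hx : x ≠ 0) (hv : ![x, x, x] ∈ P.V) : Concl P := by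
  rw [← dodM_pt x 0] at hv
  obtain ⟨r, hr, hP⟩ := axis_case h dodIh_ok dodIh_trans dodIh_map (by decide) (by decide)
    dodM_distinct dodM_zeroB dodIh_ok dodIh_trans dodIh_map dodR_ok dodIh_check hx hv
  exact Concl.of_axis hx (dod_listed hr) hP

theorem ico_Ih (h : GP P .Ih) {x : ℝ} (hx : x ≠ 0) (hv : ![0, x, gr * x] ∈ P.V) : Concl P := by
  rw [← icoM_pt x 0] at hv
  obtain ⟨r, hr, hP⟩ := axis_case h icoIh_ok icoIh_trans icoIh_map (by decide) (by decide)
    icoM_distinct icoM_zeroB icoIh_ok icoIh_trans icoIh_map icoR_ok icoIh_check hx hv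
  exact Concl.of_axis hx (ico_listed hr) hP

theorem ici_Ih (h : GP P .Ih) {x : ℝ} (hx : x ≠ 0) (hv : ![x, 0, 0] ∈ P.V) : Concl P := by
  rw [← iciM_pt x 0] at hv
  obtain ⟨r, hr, hP⟩ := axis_case h iciIh_ok iciIh_trans iciIh_map (by decide) (by decide)
    iciM_distinct iciM_zeroB iciIh_ok iciIh_trans iciIh_map iciR_ok iciIh_check hx hv
  exact Concl.of_axis hx (ici_listed hr) hP

theorem thm_fix (x y : ℝ) : ev [.n, .c, .c, .d, .c] *ᵥ thmM.pt x y 0 = thmM.pt x y 0 := by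
  rw [thmM_pt, ev_nccdc]
  funext i
  fin_cases i <;> simp [Matrix.mulVec, dotProduct, Fin.sum_univ_three]

theorem thm_famOK : famOK .Th [.n, .c, .c, .d, .c] thmR = true := by decide +kernel

theorem thm_Th (h : GP P .Th) {x y : ℝ} (hv : ![x, y, 0] ∈ P.V)
    (H : ∀ A ∈ Tag.Th.group, A *ᵥ ![x, y, 0] = ![x, y, 0] → A = 1 ∨ A = ev [.n, .c, .c, .d, .c]) : Concl P := by
  rw [← thmM_pt x y] at hv H
  obtain ⟨r, hr, hP⟩ := mirror_case h thmTh_ok thmTh_trans thmTh_map (by decide) (by decide)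
    thmM_distinct thmR_ok thmTh_check thm_fix H hv
  refine Concl.of_mirror ?_
  rw [hP]
  refine fam_listed thm_famOK (fun A hA => ⟨H A hA, ?_⟩) hr
  rintro (rfl | rfl)
  · rw [Matrix.one_mulVec]
  · exact thm_fix x y

theorem tdm_fix (x y : ℝ) : ev [.s] *ᵥ tdmM.pt x y 0 = tdmM.pt x y 0 := by
  rw [tdmM_pt]
  funext i
  fin_cases i <;> simp [ev, gen, Matrix.mulVec, dotProduct, Fin.sum_univ_three]

theorem tdm_famOK : famOK .Td [.s] tdmR = true := by decide +kernel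

theorem tdm_Td (h : GP P .Td) {x y : ℝ} (hv : ![x, x, y] ∈ P.V)
    (H : ∀ A ∈ Tag.Td.group, A *ᵥ ![x, x, y] = ![x, x, y] → A = 1 ∨ A = ev [.s]) : Concl P := by
  rw [← tdmM_pt x y] at hv H
  obtain ⟨r, hr, hP⟩ := mirror_case h tdmTd_ok tdmTd_trans tdmTd_map (by decide) (by decide)
    tdmM_distinct tdmR_ok tdmTd_check tdm_fix H hv
  refine Concl.of_mirror ?_
  rw [hP]
  refine fam_listed tdm_famOK (fun A hA => ⟨H A hA, ?_⟩) hr
  rintro (rfl | rfl)
  · rw [Matrix.one_mulVec]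
  · exact tdm_fix x y

theorem ohz_fix (x y : ℝ) : ev [.n, .q, .q] *ᵥ ohzM.pt x y 0 = ohzM.pt x y 0 := by
  rw [ohzM_pt, ev_nqq]
  funext i
  fin_cases i <;> simp [Matrix.mulVec, dotProduct, Fin.sum_univ_three]

theorem ohz_Oh (h : GP P .Oh) {x y : ℝ} (hv : ![x, y, 0] ∈ P.V)
    (H : ∀ A ∈ Tag.Oh.group, A *ᵥ ![x, y, 0] = ![x, y, 0] → A = 1 ∨ A = ev [.n, .q, .q]) : Concl P := by
  rw [← ohzM_pt x y] at hv H
  obtain ⟨r, hr, hP⟩ := mirror_case h ohzOh_ok ohzOh_trans ohzOh_map (by decide) (by decide)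
    ohzM_distinct ohzR_ok ohzOh_check ohz_fix H hv
  simp [ohzR] at hr

theorem ohs_fix (x y : ℝ) : ev [.n, .d, .q] *ᵥ ohsM.pt x y 0 = ohsM.pt x y 0 := by
  rw [ohsM_pt, ev_ndq]
  funext i
  fin_cases i <;> simp [Matrix.mulVec, dotProduct, Fin.sum_univ_three]

theorem ohs_famOK : famOK .Oh [.n, .d, .q] ohsR = true := by decide +kernel

theorem ohs_Oh (h : GP P .Oh) {x y : ℝ} (hv : ![x, x, y] ∈ P.V)
    (H : ∀ A ∈ Tag.Oh.group, A *ᵥ ![x, x, y] = ![x, x, y] → A = 1 ∨ A = ev [.n, .d, .q]) : Concl P := by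
  rw [← ohsM_pt x y] at hv H
  obtain ⟨r, hr, hP⟩ := mirror_case h ohsOh_ok ohsOh_trans ohsOh_map (by decide) (by decide)
    ohsM_distinct ohsR_ok ohsOh_check ohs_fix H hv
  refine Concl.of_mirror ?_
  rw [hP]
  refine fam_listed ohs_famOK (fun A hA => ⟨H A hA, ?_⟩) hr
  rintro (rfl | rfl)
  · rw [Matrix.one_mulVec]
  · exact ohs_fix x y

theorem ihm_fix (x y : ℝ) : ev [.n, .c, .c, .d, .c] *ᵥ ihmM.pt x y 0 = ihmM.pt x y 0 := by
  rw [ihmM_pt, ev_nccdc]
  funext i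
  fin_cases i <;> simp [Matrix.mulVec, dotProduct, Fin.sum_univ_three]

theorem ihm_famOK : famOK .Ih [.n, .c, .c, .d, .c] ihmR = true := by decide +kernel

theorem ihm_Ih (h : GP P .Ih) {x y : ℝ} (hv : ![x, y, 0] ∈ P.V)
    (H : ∀ A ∈ Tag.Ih.group, A *ᵥ ![x, y, 0] = ![x, y, 0] → A = 1 ∨ A = ev [.n, .c, .c, .d, .c]) : Concl P := by
  rw [← ihmM_pt x y] at hv H
  obtain ⟨r, hr, hP⟩ := mirror_case h ihmIh_ok ihmIh_trans ihmIh_map (by decide) (by decide)
    ihmM_distinct ihmR_ok ihmIh_check ihm_fix H hv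
  refine Concl.of_mirror ?_
  rw [hP]
  refine fam_listed ihm_famOK (fun A hA => ⟨H A hA, ?_⟩) hr
  rintro (rfl | rfl)
  · rw [Matrix.one_mulVec]
  · exact ihm_fix x y

end Pool.Agent.H38.FT
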