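import Pool.Agent.H38.FT.Defs
import Pool.Agent.H38.FT.Bits

/-!
Points of 3-space whose coordinates are linear forms in two real numbers `x, y` with coefficients in
`(1/2) ℤ[gr]`, and the action of the generators on them.
-/

namespace Pool.Agent.H38.FT

open Matrix

/-- The pair `(a, b)` stands for `a + b gr`. -/
abbrev Z2 := ℤ × ℤ

/-- the real number coded by a pair -/
noncomputable def val (z : Z2) : ℝ := z.1 + z.2 * gr

/-- product of coded numbers -/
def zmul (z w : Z2) : Z2 := (z.1 * w.1 + z.2 * w.2, z.1 * w.2 + z.2 * w.1 + z.2 * w.2)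

/-- sum of coded numbers -/
def zadd (z w : Z2) : Z2 := (z.1 + w.1, z.2 + w.2)

/-- opposite of a coded number -/
def zneg (z : Z2) : Z2 := (-z.1, -z.2)

/-- equality of coded numbers -/
def zeq (z w : Z2) : Bool := decide (z.1 = w.1) && decide (z.2 = w.2)

theorem zeq_iff {z w : Z2} : zeq z w = true ↔ z = w := by
  unfold zeq
  rw [Bool.and_eq_true, decide_eq_true_iff, decide_eq_true_iff, Prod.ext_iff]

theorem gr_sq : gr * gr = gr + 1 := by
  have := Real.goldenRatio_sq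
  nlinarith [this]

theorem val_mul (z w : Z2) : val (zmul z w) = val z * val w := by
  unfold val zmul
  push_cast
  linear_combination (-(z.2 : ℝ) * w.2) * gr_sq

theorem val_add (z w : Z2) : val (zadd z w) = val z + val w := by
  unfold val zadd
  push_cast
  ring

theorem val_neg (z : Z2) : val (zneg z) = - val z := by
  unfold val zneg
  push_cast
  ring

/-- A point; the `i`-th coordinate is `(aᵢ x + bᵢ y) / 2`. -/
structure V3 where
  a0 : Z2
  b0 : Z2
  a1 : Z2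
  b1 : Z2
  a2 : Z2
  b2 : Z2

instance : Inhabited V3 := ⟨⟨(0, 0), (0, 0), (0, 0), (0, 0), (0, 0), (0, 0)⟩⟩

/-- the coded point for given values of `x` and `y` -/
noncomputable def V3.toR (v : V3) (x y : ℝ) : Fin 3 → ℝ :=
  ![(val v.a0 * x + val v.b0 * y) / 2, (val v.a1 * x + val v.b1 * y) / 2,
    (val v.a2 * x + val v.b2 * y) / 2]

/-- `w` is the image of `v` under the generator `l` -/
def grel (l : Letter) (v w : V3) : Bool :=
  match l with
  | .c => zeq w.a0 v.a2 && zeq w.b0 v.b2 && zeq w.a1 v.a0 && zeq w.b1 v.b0 && zeq w.a2 v.a1 &&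
      zeq w.b2 v.b1
  | .d => zeq w.a0 v.a0 && zeq w.b0 v.b0 && zeq w.a1 (zneg v.a1) && zeq w.b1 (zneg v.b1) &&
      zeq w.a2 (zneg v.a2) && zeq w.b2 (zneg v.b2)
  | .q => zeq w.a0 (zneg v.a1) && zeq w.b0 (zneg v.b1) && zeq w.a1 v.a0 && zeq w.b1 v.b0 &&
      zeq w.a2 v.a2 && zeq w.b2 v.b2
  | .n => zeq w.a0 (zneg v.a0) && zeq w.b0 (zneg v.b0) && zeq w.a1 (zneg v.a1) &&
      zeq w.b1 (zneg v.b1) && zeq w.a2 (zneg v.a2) && zeq w.b2 (zneg v.b2)
  | .s => zeq w.a0 v.a1 && zeq w.b0 v.b1 && zeq w.a1 v.a0 && zeq w.b1 v.b0 && zeq w.a2 v.a2 &&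
      zeq w.b2 v.b2
  | .p =>
      zeq (zadd w.a0 w.a0) (zadd (zadd (zmul (-1, 1) v.a0) (zmul (0, -1) v.a1)) v.a2) &&
      zeq (zadd w.b0 w.b0) (zadd (zadd (zmul (-1, 1) v.b0) (zmul (0, -1) v.b1)) v.b2) &&
      zeq (zadd w.a1 w.a1) (zadd (zadd (zmul (0, 1) v.a0) v.a1) (zmul (-1, 1) v.a2)) &&
      zeq (zadd w.b1 w.b1) (zadd (zadd (zmul (0, 1) v.b0) v.b1) (zmul (-1, 1) v.b2)) &&
      zeq (zadd w.a2 w.a2) (zadd (zadd (zneg v.a0) (zmul (-1, 1) v.a1)) (zmul (0, 1) v.a2)) &&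
      zeq (zadd w.b2 w.b2) (zadd (zadd (zneg v.b0) (zmul (-1, 1) v.b1)) (zmul (0, 1) v.b2))

theorem grel_sound {l : Letter} {v w : V3} (h : grel l v w = true) (x y : ℝ) :
    gen l *ᵥ v.toR x y = w.toR x y := by
  cases l
  case c =>
    simp only [grel, Bool.and_eq_true, zeq_iff] at h
    obtain ⟨⟨⟨⟨⟨h1, h2⟩, h3⟩, h4⟩, h5⟩, h6⟩ := h
    unfold V3.toR gen
    rw [h1, h2, h3, h4, h5, h6]
    funext i
    fin_cases i <;> simp [Matrix.mulVec, dotProduct, Fin.sum_univ_three]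
  case d =>
    simp only [grel, Bool.and_eq_true, zeq_iff] at h
    obtain ⟨⟨⟨⟨⟨h1, h2⟩, h3⟩, h4⟩, h5⟩, h6⟩ := h
    unfold V3.toR gen
    rw [h1, h2, h3, h4, h5, h6]
    funext i
    fin_cases i <;> (simp [Matrix.mulVec, dotProduct, Fin.sum_univ_three, val_neg]; try ring)
  case q =>
    simp only [grel, Bool.and_eq_true, zeq_iff] at h
    obtain ⟨⟨⟨⟨⟨h1, h2⟩, h3⟩, h4⟩, h5⟩, h6⟩ := h
    unfold V3.toR gen
    rw [h1, h2, h3, h4, h5, h6]
    funext i
    fin_cases i <;> (simp [Matrix.mulVec, dotProduct, Fin.sum_univ_three, val_neg]; try ring)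
  case n =>
    simp only [grel, Bool.and_eq_true, zeq_iff] at h
    obtain ⟨⟨⟨⟨⟨h1, h2⟩, h3⟩, h4⟩, h5⟩, h6⟩ := h
    unfold V3.toR gen
    rw [h1, h2, h3, h4, h5, h6]
    funext i
    fin_cases i <;> (simp [Matrix.mulVec, dotProduct, Fin.sum_univ_three, val_neg]; try ring)
  case s =>
    simp only [grel, Bool.and_eq_true, zeq_iff] at h
    obtain ⟨⟨⟨⟨⟨h1, h2⟩, h3⟩, h4⟩, h5⟩, h6⟩ := h
    unfold V3.toR gen
    rw [h1, h2, h3, h4, h5, h6]
    funext i
    fin_cases i <;> simp [Matrix.mulVec, dotProduct, Fin.sum_univ_three]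
  case p =>
    simp only [grel, Bool.and_eq_true, zeq_iff] at h
    obtain ⟨⟨⟨⟨⟨h1, h2⟩, h3⟩, h4⟩, h5⟩, h6⟩ := h
    have v1 : val ((-1, 1) : Z2) = gr - 1 := by unfold val; push_cast; ring
    have v2 : val ((0, -1) : Z2) = - gr := by unfold val; push_cast; ring
    have v3 : val ((0, 1) : Z2) = gr := by unfold val; push_cast; ring
    have k1 := congrArg val h1
    have k2 := congrArg val h2
    have k3 := congrArg val h3
    have k4 := congrArg val h4
    have k5 := congrArg val h5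
    have k6 := congrArg val h6
    simp only [val_add, val_mul, val_neg, v1, v2, v3] at k1 k2 k3 k4 k5 k6
    unfold V3.toR gen
    funext i
    fin_cases i
    · simp [Matrix.mulVec, dotProduct, Fin.sum_univ_three]
      linear_combination (-x / 4) * k1 + (-y / 4) * k2
    · simp [Matrix.mulVec, dotProduct, Fin.sum_univ_three]
      linear_combination (-x / 4) * k3 + (-y / 4) * k4
    · simp [Matrix.mulVec, dotProduct, Fin.sum_univ_three]
      linear_combination (-x / 4) * k5 + (-y / 4) * k6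

end Pool.Agent.H38.FT
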