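import Pool.Agent.H38.FT.Defs
import Pool.Agent.H38.FT.Points

/-!
The matrices of the groups are orthogonal, and their transposes belong to the groups.
-/

namespace Pool.Agent.H38.FT

open Matrix

theorem gen_orth (l : Letter) : (gen l)ᵀ * gen l = 1 := by
  have h := gr_sq
  cases l
  case p =>
    unfold gen
    generalize gr = g at *
    ext i j; fin_cases i <;> fin_cases j <;>
      simp [Matrix.mul_apply, Fin.sum_univ_three] <;>
      first
        | linear_combination (1 / 2) * h
        | linear_combination (1 / 4) * h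
        | linear_combination (-1 / 4) * h
  all_goals
    unfold gen
    ext i j; fin_cases i <;> fin_cases j <;> simp [Matrix.mul_apply, Fin.sum_univ_three]

theorem gen_p_sq : gen .p * gen .p =
    !![-gr / 2, -1 / 2, (gr - 1) / 2; 1 / 2, (1 - gr) / 2, gr / 2;
      (1 - gr) / 2, gr / 2, 1 / 2] := by
  have h := gr_sq
  unfold gen
  generalize gr = g at *
  ext i j; fin_cases i <;> fin_cases j <;>
    simp [Matrix.mul_apply, Fin.sum_univ_three] <;>
    first
      | ring1
      | linear_combination (1 / 2) * h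
      | linear_combination (1 / 4) * h
      | linear_combination (-1 / 4) * h

theorem gen_p_tr : (gen .p)ᵀ = (gen .p * gen .p) * (gen .p * gen .p) := by
  rw [gen_p_sq]
  have h := gr_sq
  unfold gen
  generalize gr = g at *
  ext i j; fin_cases i <;> fin_cases j <;>
    simp [Matrix.mul_apply, Fin.sum_univ_three] <;>
    first
      | ring1
      | linear_combination (1 / 2) * h
      | linear_combination (1 / 4) * h
      | linear_combination (-1 / 4) * h
      | linear_combination (-1 / 2) * h

/-- the transpose of a generator is a power of it -/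
theorem gen_tr (l : Letter) : ∃ k : ℕ, (gen l)ᵀ = gen l ^ k := by
  cases l
  case p => exact ⟨4, by rw [gen_p_tr]; noncomm_ring⟩
  case c =>
    refine ⟨2, ?_⟩
    rw [pow_two]
    unfold gen
    ext i j; fin_cases i <;> fin_cases j <;> simp [Matrix.mul_apply, Fin.sum_univ_three]
  case q =>
    refine ⟨3, ?_⟩
    rw [pow_succ, pow_two]
    unfold gen
    ext i j; fin_cases i <;> fin_cases j <;> simp [Matrix.mul_apply, Fin.sum_univ_three]
  all_goals
    refine ⟨1, ?_⟩
    rw [pow_one]
    unfold gen
    ext i j; fin_cases i <;> fin_cases j <;> simp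

/-- the group elements are orthogonal -/
theorem Tag.orth {t : Tag} {A : Mat} (hA : A ∈ t.group) : Aᵀ * A = 1 := by
  unfold Tag.group at hA
  induction hA using Submonoid.closure_induction with
  | mem A hA => obtain ⟨l, -, rfl⟩ := hA; exact gen_orth l
  | one => simp
  | mul A B _ _ h1 h2 =>
    rw [Matrix.transpose_mul, Matrix.mul_assoc, ← Matrix.mul_assoc Aᵀ, h1, Matrix.one_mul, h2]

theorem Tag.orth' {t : Tag} {A : Mat} (hA : A ∈ t.group) : A * Aᵀ = 1 :=
  mul_eq_one_comm.1 (Tag.orth hA)

theorem Tag.gen_mem {t : Tag} {l : Letter} (hl : l ∈ t.letters) : gen l ∈ t.group :=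
  Submonoid.subset_closure ⟨l, hl, rfl⟩

/-- the transposes belong to the group -/
theorem Tag.tr {t : Tag} {A : Mat} (hA : A ∈ t.group) : Aᵀ ∈ t.group := by
  unfold Tag.group at hA
  induction hA using Submonoid.closure_induction with
  | mem A hA =>
    obtain ⟨l, hl, rfl⟩ := hA
    obtain ⟨k, hk⟩ := gen_tr l
    rw [hk]
    exact pow_mem (Tag.gen_mem hl) k
  | one => simp
  | mul A B _ _ h1 h2 =>
    rw [Matrix.transpose_mul]
    exact mul_mem h2 h1

theorem Tag.ev_mem {t : Tag} {w : List Letter} (h : ∀ l ∈ w, l ∈ t.letters) :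
    ev w ∈ t.group := by
  unfold ev
  apply Submonoid.list_prod_mem
  intro A hA
  rw [List.mem_map] at hA
  obtain ⟨l, hl, rfl⟩ := hA
  exact Tag.gen_mem (h l hl)

theorem Tag.inj {t : Tag} {A : Mat} (hA : A ∈ t.group) :
    Function.Injective (fun x : Fin 3 → ℝ => A *ᵥ x) := by
  intro x y h
  have h1 : Aᵀ *ᵥ (A *ᵥ x) = Aᵀ *ᵥ (A *ᵥ y) := by
    simp only at h
    rw [h]
  rwa [Matrix.mulVec_mulVec, Matrix.mulVec_mulVec, Tag.orth hA, Matrix.one_mulVec,
    Matrix.one_mulVec] at h1

end Pool.Agent.H38.FT
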