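import Pool.Agent.H38.FT.Defs

/-!
# The list of the finite fully transitive polyhedra: constructions
-/

namespace Pool.Agent.H38.FT

open Matrix

/-- The images of the edges `e₁`, `e₂` under the group generated by the matrices in `X`. -/
def faceGen (X : Set Mat) (e₁ e₂ : Sym2 (Fin 3 → ℝ)) : Set (Sym2 (Fin 3 → ℝ)) :=
  {e | ∃ B ∈ Submonoid.closure X,
    e = Sym2.map (fun x => B *ᵥ x) e₁ ∨ e = Sym2.map (fun x => B *ᵥ x) e₂}

/-- The configuration whose vertices are the images of `v` and whose faces are the images of `f`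
under the group of the tag `t`; its edges are the edges of the faces. -/
def orbitCfg (t : Tag) (v : Fin 3 → ℝ) (f : Set (Sym2 (Fin 3 → ℝ))) : Cfg (Fin 3 → ℝ) where
  V := {x | ∃ A ∈ t.group, x = A *ᵥ v}
  E := {e | ∃ A ∈ t.group, e ∈ Sym2.map (fun x => A *ᵥ x) '' f}
  F := {g | ∃ A ∈ t.group, g = Sym2.map (fun x => A *ᵥ x) '' f}

/-- Base face of the rigid polyhedra: the images of the edge `{v, τ v}` under the group generated
by `m₁` and `τ m₂ τ⁻¹`. -/
def faceC (v : Fin 3 → ℝ) (τ m₁ m₂ : Mat) : Set (Sym2 (Fin 3 → ℝ)) :=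
  faceGen {m₁, τ * m₂ * τᵀ} s(v, τ *ᵥ v) s(v, τ *ᵥ v)

/-- First type of base face of the one-parameter families: the images of the edges `{v, a⁻¹ v}` and
`{v, a v}` under the group generated by `a σ a`. -/
def faceA (v : Fin 3 → ℝ) (σ a : Mat) : Set (Sym2 (Fin 3 → ℝ)) :=
  faceGen {a * σ * a} s(v, aᵀ *ᵥ v) s(v, a *ᵥ v)

/-- Second type of base face of the one-parameter families: the images of the edges `{v, a⁻¹ v}` and
`{v, a v}` under the group generated by `a⁻¹ σ a` and `a σ a⁻¹`. -/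
def faceB (v : Fin 3 → ℝ) (σ a : Mat) : Set (Sym2 (Fin 3 → ℝ)) :=
  faceGen {aᵀ * σ * a, a * σ * aᵀ} s(v, aᵀ *ᵥ v) s(v, a *ᵥ v)

end Pool.Agent.H38.FT
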