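import Pool.Agent.H38.FT.Stab
import Pool.Agent.H38.FT.Trans
import Pool.Agent.H38.FT.Forward3
import Pool.Agent.H38.FT.Converse2
import Pool.Agent.H38.FT.K.CutTd

/-!
Normalization of the parameter: every polyhedron with one of the seven groups is similar to a valid
item.
-/

namespace Pool.Agent.H38.FT

open Matrix Code

/-- `P` is similar (by a linear similarity) to a valid item. -/
def Concl2 (P : Cfg (Fin 3 → ℝ)) : Prop :=
  ∃ i : Item, i.Valid ∧ ∃ c : ℝ, c ≠ 0 ∧ ∃ A : Mat, Aᵀ * A = 1 ∧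
    P = i.cfg.map (fun z => c • (A *ᵥ z))

theorem Concl2.of_map {P : Cfg (Fin 3 → ℝ)} {B : Mat} (hB : Bᵀ * B = 1)
    (h : Concl2 (P.map (fun z => B *ᵥ z))) : Concl2 P := by
  obtain ⟨i, hi, c, hc, A, hA, h1⟩ := h
  have hB' : B * Bᵀ = 1 := mul_eq_one_comm.1 hB
  refine ⟨i, hi, c, hc, Bᵀ * A, ?_, ?_⟩
  · rw [transpose_mul, transpose_transpose, Matrix.mul_assoc, ← Matrix.mul_assoc B, hB',
      Matrix.one_mul, hA]
  · have h2 : (P.map (fun z => B *ᵥ z)).map (fun z => Bᵀ *ᵥ z) = P := by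
      rw [Cfg.map_map]
      have : (fun z : Fin 3 → ℝ => Bᵀ *ᵥ (B *ᵥ z)) = fun z => z := by
        funext z
        rw [mulVec_mulVec, hB, one_mulVec]
      rw [this, Cfg.map_id']
    rw [← h2, h1, Cfg.map_map]
    congr 1
    funext z
    rw [mulVec_smul, mulVec_mulVec]

theorem Concl2.of_smul {P : Cfg (Fin 3 → ℝ)} {c : ℝ} (hc : c ≠ 0) (h : Concl2 P) :
    Concl2 (P.map (fun z => c • z)) := by
  obtain ⟨i, hi, d, hd, A, hA, rfl⟩ := h
  refine ⟨i, hi, c * d, mul_ne_zero hc hd, A, hA, ?_⟩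
  rw [Cfg.map_map]
  congr 1
  funext z
  rw [smul_smul]

/-! ### scaling -/

theorem faceGen_smul (X : Set Mat) (x : ℝ) (a b c d : Fin 3 → ℝ) :
    faceGen X s(x • a, x • b) s(x • c, x • d) =
      Sym2.map (fun z => x • z) '' faceGen X s(a, b) s(c, d) := by
  ext e
  constructor
  · rintro ⟨B, hB, rfl | rfl⟩
    · refine ⟨_, ⟨B, hB, Or.inl rfl⟩, ?_⟩
      simp [mulVec_smul]
    · refine ⟨_, ⟨B, hB, Or.inr rfl⟩, ?_⟩
      simp [mulVec_smul]
  · rintro ⟨_, ⟨B, hB, rfl | rfl⟩, rfl⟩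
    · refine ⟨B, hB, Or.inl ?_⟩
      simp [mulVec_smul]
    · refine ⟨B, hB, Or.inr ?_⟩
      simp [mulVec_smul]

theorem Kind.face_smul (k : Kind) (x : ℝ) (v : Fin 3 → ℝ) (σ a : Mat) :
    k.face (x • v) σ a = Sym2.map (fun z => x • z) '' k.face v σ a := by
  cases k
  · simp only [Kind.face, faceA, mulVec_smul, faceGen_smul]
  · simp only [Kind.face, faceB, mulVec_smul, faceGen_smul]
  · simp only [Kind.face, faceB, mulVec_smul, faceGen_smul]

theorem orbitCfg_smul (t : Tag) (x : ℝ) (v : Fin 3 → ℝ) (f : Set (Sym2 (Fin 3 → ℝ))) :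
    orbitCfg t (x • v) (Sym2.map (fun z => x • z) '' f) =
      (orbitCfg t v f).map (fun z => x • z) := by
  have key : ∀ A : Mat, Sym2.map (fun z => A *ᵥ z) '' (Sym2.map (fun z => x • z) '' f) =
      Sym2.map (fun z => x • z) '' (Sym2.map (fun z => A *ᵥ z) '' f) := by
    intro A
    rw [Set.image_image, Set.image_image]
    refine Set.image_congr fun e _ => ?_
    rw [Sym2.map_map, Sym2.map_map]
    congr 1
    funext z
    simp [mulVec_smul]
  unfold orbitCfg Cfg.map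
  congr 1
  · ext z
    constructor
    · rintro ⟨A, hA, rfl⟩
      exact ⟨A *ᵥ v, ⟨A, hA, rfl⟩, by simp [mulVec_smul]⟩
    · rintro ⟨_, ⟨A, hA, rfl⟩, rfl⟩
      exact ⟨A, hA, by simp [mulVec_smul]⟩
  · ext e
    constructor
    · rintro ⟨A, hA, he⟩
      rw [key] at he
      obtain ⟨e', he', rfl⟩ := he
      exact ⟨e', ⟨A, hA, he'⟩, rfl⟩
    · rintro ⟨e', ⟨A, hA, he'⟩, rfl⟩
      refine ⟨A, hA, ?_⟩
      rw [key]
      exact ⟨e', he', rfl⟩
  · ext g
    constructor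
    · rintro ⟨A, hA, rfl⟩
      exact ⟨_, ⟨A, hA, rfl⟩, (key A).symm⟩
    · rintro ⟨_, ⟨A, hA, rfl⟩, rfl⟩
      exact ⟨A, hA, (key A).symm⟩

/-! ### rows of the families -/

theorem fam_kind {t : Tag} {S : List Letter} {R : List Row} (h : famOK t S R = true) {r : Row}
    (hr : r ∈ R) : ∃ e ∈ familyList, e.1 = t ∧ e.2.1 = S ∧ ∃ k : Kind, ∀ v : Fin 3 → ℝ,
      r.spec.face v = k.face v (ev e.2.1) (ev e.2.2) := by
  unfold famOK at h
  rw [List.all_eq_true] at h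
  have h1 := h r hr
  obtain ⟨spec, q, X, W⟩ := r
  cases spec with
  | C τ m₁ m₂ => simp at h1
  | A σ a =>
    simp only [Bool.and_eq_true, decide_eq_true_eq] at h1
    obtain ⟨rfl, h2⟩ := h1
    exact ⟨_, h2, rfl, rfl, .A, fun v => rfl⟩
  | B σ a =>
    simp only [Bool.and_eq_true, Bool.or_eq_true, decide_eq_true_eq, List.any_eq_true] at h1
    obtain ⟨rfl, h2 | ⟨⟨t', σ', a'⟩, h2, rfl, rfl, h5⟩⟩ := h1
    · exact ⟨_, h2, rfl, rfl, .B, fun v => rfl⟩
    · simp only at h5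
      subst h5
      refine ⟨_, h2, rfl, rfl, .B', fun v => ?_⟩
      simp only [Spec.face, Kind.face, ev_append]

theorem Concl2.of_row {P : Cfg (Fin 3 → ℝ)} {t : Tag} {S : List Letter} {R : List Row}
    (h : famOK t S R = true) {r : Row} (hr : r ∈ R) {x s : ℝ} (hx : x ≠ 0) (hs : t.InRange s)
    {v : Fin 3 → ℝ} (hv : v = x • t.vertex s) (hP : P = orbitCfg t v (r.spec.face v)) :
    Concl2 P := by
  obtain ⟨e, he, rfl, -, k, hk⟩ := fam_kind h hr
  refine ⟨.family e k s, ⟨he, hs⟩, x, hx, 1, by simp, ?_⟩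
  rw [hP, hk, hv, Kind.face_smul, orbitCfg_smul]
  simp only [one_mulVec]
  rfl

theorem Concl2.of_row1 {P : Cfg (Fin 3 → ℝ)} {t : Tag} {S : List Letter} {R : List Row}
    (h : famOK t S R = true) {r : Row} (hr : r ∈ R) {x s : ℝ} (hx : x ≠ 0) (hs : t.InRange s)
    (hP : P = (orbitCfg t (t.vertex s) (r.spec.face (t.vertex s))).map (fun z => x • z)) :
    Concl2 P := by
  obtain ⟨e, he, rfl, -, k, hk⟩ := fam_kind h hr
  refine ⟨.family e k s, ⟨he, hs⟩, x, hx, 1, by simp, ?_⟩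
  rw [hP, hk]
  simp only [one_mulVec]
  rfl

/-! ### explicit elements -/

theorem ev_nd : ev [.n, .d] = !![-1, 0, 0; 0, 1, 0; 0, 0, 1] := by
  ext i j
  fin_cases i <;> fin_cases j <;> simp [ev, gen, Matrix.mul_apply, Fin.sum_univ_three]

theorem ev_ncdcc : ev [.n, .c, .d, .c, .c] = !![1, 0, 0; 0, -1, 0; 0, 0, 1] := by
  ext i j
  fin_cases i <;> fin_cases j <;> simp [ev, gen, Matrix.mul_apply, Fin.sum_univ_three]

theorem ev_ccdc : ev [.c, .c, .d, .c] = !![-1, 0, 0; 0, -1, 0; 0, 0, 1] := by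
  ext i j
  fin_cases i <;> fin_cases j <;> simp [ev, gen, Matrix.mul_apply, Fin.sum_univ_three]

theorem ev_cdcc : ev [.c, .d, .c, .c] = !![-1, 0, 0; 0, 1, 0; 0, 0, -1] := by
  ext i j
  fin_cases i <;> fin_cases j <;> simp [ev, gen, Matrix.mul_apply, Fin.sum_univ_three]

theorem ev_d : ev [.d] = !![1, 0, 0; 0, -1, 0; 0, 0, -1] := by
  simp [ev, gen]

theorem ev_c : ev [.c] = !![0, 0, 1; 1, 0, 0; 0, 1, 0] := by
  simp [ev, gen]

theorem ev_s : ev [.s] = !![0, 1, 0; 1, 0, 0; 0, 0, 1] := by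
  simp [ev, gen]

/-- the stabiliser of an image -/
theorem transport {t : Tag} {v w : Fin 3 → ℝ} {S B : Mat} (hB : B ∈ t.group)
    (H : ∀ A ∈ t.group, A *ᵥ v = v → A = 1 ∨ A = S) (hBS : B * S = S * B) (hw : B *ᵥ v = w) :
    ∀ A ∈ t.group, A *ᵥ w = w → A = 1 ∨ A = S := by
  intro A hA hAw
  have h1 : (Bᵀ * A * B) *ᵥ v = v := by
    rw [← mulVec_mulVec, ← mulVec_mulVec, hw, hAw, ← hw, mulVec_mulVec, Tag.orth hB, one_mulVec]
  have h2 : A = B * (Bᵀ * A * B) * Bᵀ := by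
    rw [← Matrix.mul_assoc, ← Matrix.mul_assoc, Tag.orth' hB, Matrix.one_mul, Matrix.mul_assoc,
      Tag.orth' hB, Matrix.mul_one]
  rcases H _ (mul_mem (mul_mem (Tag.tr hB) hA) hB) h1 with h3 | h3
  · left
    rw [h2, h3, Matrix.mul_one, Tag.orth' hB]
  · right
    rw [h2, h3, hBS, Matrix.mul_assoc, Tag.orth' hB, Matrix.mul_one]

end Pool.Agent.H38.FT
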