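import Pool.Agent.H38.FT.Norm

/-!
Normalization of the parameter: the cases.
-/

namespace Pool.Agent.H38.FT

open Matrix Code

theorem norm_of_gens {t : Tag} {B : Mat} (hB : Bᵀ * B = 1)
    (h : ∀ l ∈ t.letters, Bᵀ * gen l * B ∈ t.group) : ∀ A ∈ t.group, Bᵀ * A * B ∈ t.group := by
  have hB' : B * Bᵀ = 1 := mul_eq_one_comm.1 hB
  intro A hA
  unfold Tag.group at hA
  induction hA using Submonoid.closure_induction_left with
  | one => rw [Matrix.mul_one, hB]; exact one_mem _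
  | mul_left C hC D hD ih =>
    obtain ⟨l, hl, rfl⟩ := hC
    have : Bᵀ * (gen l * D) * B = (Bᵀ * gen l * B) * (Bᵀ * D * B) := by
      have h1 : (Bᵀ * gen l * B) * (Bᵀ * D * B) = Bᵀ * gen l * (B * Bᵀ) * D * B := by
        simp only [Matrix.mul_assoc]
      rw [h1, hB', Matrix.mul_one]
      simp only [Matrix.mul_assoc]
    rw [this]
    exact mul_mem (h l hl) ih

/-- conjugation by an element normalizing the group -/
theorem GP.conj {P : Cfg (Fin 3 → ℝ)} {t : Tag} (h : GP P t) {B : Mat} (hB : Bᵀ * B = 1)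
    (hN : ∀ A ∈ t.group, Bᵀ * A * B ∈ t.group) (hN' : ∀ A ∈ t.group, B * A * Bᵀ ∈ t.group) :
    GP (P.map (fun z => B *ᵥ z)) t := by
  have hB' : B * Bᵀ = 1 := mul_eq_one_comm.1 hB
  have hinj : Function.Injective (fun z : Fin 3 → ℝ => B *ᵥ z) := by
    intro x y hxy
    have := congrArg (fun z => Bᵀ *ᵥ z) hxy
    simpa [mulVec_mulVec, hB] using this
  have hcomp : ∀ A : Mat, ∀ z : Fin 3 → ℝ, (B * A * Bᵀ) *ᵥ (B *ᵥ z) = B *ᵥ (A *ᵥ z) := by
    intro A z
    rw [mulVec_mulVec, mulVec_mulVec, Matrix.mul_assoc, hB, Matrix.mul_one]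
  have hs : ∀ A : Mat, ∀ e : Sym2 (Fin 3 → ℝ),
      Sym2.map (fun z => (B * A * Bᵀ) *ᵥ z) (Sym2.map (fun z => B *ᵥ z) e) =
        Sym2.map (fun z => B *ᵥ z) (Sym2.map (fun z => A *ᵥ z) e) := by
    intro A e
    rw [Sym2.map_map, Sym2.map_map]
    congr 1
    exact funext (hcomp A)
  refine ⟨h.poly.map hinj, ?_, ?_, ?_, ?_⟩
  · intro A hA
    have h1 := h.sym _ (hN A hA)
    have h2 : (fun z : Fin 3 → ℝ => A *ᵥ (B *ᵥ z)) =
        fun z => B *ᵥ ((Bᵀ * A * B) *ᵥ z) := by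
      funext z
      rw [mulVec_mulVec, mulVec_mulVec, ← Matrix.mul_assoc, ← Matrix.mul_assoc, hB',
        Matrix.one_mul]
    rw [Cfg.map_map, h2, ← Cfg.map_map, h1]
  · rintro _ ⟨x, hx, rfl⟩ _ ⟨y, hy, rfl⟩
    obtain ⟨A, hA, rfl⟩ := h.tV x hx y hy
    exact ⟨_, hN' A hA, hcomp A x⟩
  · rintro _ ⟨e, he, rfl⟩ _ ⟨e', he', rfl⟩
    obtain ⟨A, hA, rfl⟩ := h.tE e he e' he'
    exact ⟨_, hN' A hA, hs A e⟩
  · rintro _ ⟨f, hf, rfl⟩ _ ⟨f', hf', rfl⟩
    obtain ⟨A, hA, rfl⟩ := h.tF f hf f' hf'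
    refine ⟨_, hN' A hA, ?_⟩
    change Sym2.map (fun z => (B * A * Bᵀ) *ᵥ z) '' (Sym2.map (fun z => B *ᵥ z) '' f) =
      Sym2.map (fun z => B *ᵥ z) '' (Sym2.map (fun z => A *ᵥ z) '' f)
    rw [Set.image_image, Set.image_image]
    exact Set.image_congr fun e _ => hs A e

theorem smul_inj' {x : ℝ} (hx : x ≠ 0) {v w : Fin 3 → ℝ} (h : x • v = x • w) : v = w := by
  have := congrArg (fun z => x⁻¹ • z) h
  simpa [smul_smul, hx] using this

/-! ### Th -/

theorem th_pos {P : Cfg (Fin 3 → ℝ)} (h : GP P .Th) {x y : ℝ} (hx : 0 < x) (hy : 0 < y)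
    (hle : y ≤ x) (hv : ![x, y, 0] ∈ P.V) : Concl2 P := by
  have hs : 0 < y / x := div_pos hy hx
  have hvx : (![x, y, 0] : Fin 3 → ℝ) = x • ![1, y / x, 0] := by
    funext i
    fin_cases i
    · simp
    · simp [mul_div_cancel₀ _ hx.ne']
    · simp
  have H : ∀ A ∈ Tag.Th.group, A *ᵥ thmM.pt x y 0 = thmM.pt x y 0 →
      A = 1 ∨ A = ev [.n, .c, .c, .d, .c] := by
    intro A hA hAv
    rw [thmM_pt, hvx, mulVec_smul] at hAv
    exact (stab_Th hs A hA).1 (smul_inj' hx.ne' hAv)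
  rw [← thmM_pt x y] at hv
  obtain ⟨r, hr, hP⟩ := mirror_case h thmTh_ok thmTh_trans thmTh_map (by decide) (by decide)
    thmM_distinct thmR_ok thmTh_check thm_fix H hv
  exact Concl2.of_row (t := .Th) thm_famOK hr hx.ne' ⟨hs, (div_le_one hx).2 hle⟩
    (by rw [thmM_pt]; exact hvx) hP

theorem ev_q : ev [.q] = !![0, -1, 0; 1, 0, 0; 0, 0, 1] := by simp [ev, gen]

theorem q_norm : ∀ A ∈ Tag.Th.group, (ev [.q])ᵀ * A * ev [.q] ∈ Tag.Th.group := by
  have hB : (ev [.q])ᵀ * ev [.q] = 1 := by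
    rw [ev_q]
    ext i j
    fin_cases i <;> fin_cases j <;> simp [Matrix.mul_apply, Fin.sum_univ_three]
  apply norm_of_gens hB
  intro l hl
  simp only [Tag.letters, List.mem_cons, List.not_mem_nil, or_false] at hl
  rcases hl with rfl | rfl | rfl
  · have : (ev [.q])ᵀ * gen .c * ev [.q] = ev [.c, .c, .d] := by
      rw [ev_q]
      ext i j
      fin_cases i <;> fin_cases j <;> simp [ev, gen, Matrix.mul_apply, Fin.sum_univ_three]
    rw [this]
    exact Tag.ev_mem (by decide)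
  · have : (ev [.q])ᵀ * gen .d * ev [.q] = ev [.c, .d, .c, .c] := by
      rw [ev_q]
      ext i j
      fin_cases i <;> fin_cases j <;> simp [ev, gen, Matrix.mul_apply, Fin.sum_univ_three]
    rw [this]
    exact Tag.ev_mem (by decide)
  · have : (ev [.q])ᵀ * gen .n * ev [.q] = ev [.n] := by
      rw [ev_q]
      ext i j
      fin_cases i <;> fin_cases j <;> simp [ev, gen, Matrix.mul_apply, Fin.sum_univ_three]
    rw [this]
    exact Tag.ev_mem (by decide)

theorem q_norm' : ∀ A ∈ Tag.Th.group, ev [.q] * A * (ev [.q])ᵀ ∈ Tag.Th.group := by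
  have hB : ((ev [.q])ᵀ)ᵀ * (ev [.q])ᵀ = 1 := by
    rw [ev_q]
    ext i j
    fin_cases i <;> fin_cases j <;> simp [Matrix.mul_apply, Fin.sum_univ_three]
  have key := norm_of_gens (t := .Th) hB ?_
  · intro A hA
    have := key A hA
    rwa [transpose_transpose] at this
  intro l hl
  rw [transpose_transpose]
  simp only [Tag.letters, List.mem_cons, List.not_mem_nil, or_false] at hl
  rcases hl with rfl | rfl | rfl
  · have : ev [.q] * gen .c * (ev [.q])ᵀ = ev [.c, .d, .c] := by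
      rw [ev_q]
      ext i j
      fin_cases i <;> fin_cases j <;> simp [ev, gen, Matrix.mul_apply, Fin.sum_univ_three]
    rw [this]
    exact Tag.ev_mem (by decide)
  · have : ev [.q] * gen .d * (ev [.q])ᵀ = ev [.c, .d, .c, .c] := by
      rw [ev_q]
      ext i j
      fin_cases i <;> fin_cases j <;> simp [ev, gen, Matrix.mul_apply, Fin.sum_univ_three]
    rw [this]
    exact Tag.ev_mem (by decide)
  · have : ev [.q] * gen .n * (ev [.q])ᵀ = ev [.n] := by
      rw [ev_q]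
      ext i j
      fin_cases i <;> fin_cases j <;> simp [ev, gen, Matrix.mul_apply, Fin.sum_univ_three]
    rw [this]
    exact Tag.ev_mem (by decide)

/-- both coordinates positive -/
theorem th_pos2 {P : Cfg (Fin 3 → ℝ)} (h : GP P .Th) {x y : ℝ} (hx : 0 < x) (hy : 0 < y)
    (hv : ![x, y, 0] ∈ P.V) : Concl2 P := by
  rcases le_total y x with hle | hle
  · exact th_pos h hx hy hle hv
  · have hB : (ev [.q])ᵀ * ev [.q] = 1 := by
      rw [ev_q]
      ext i j
      fin_cases i <;> fin_cases j <;> simp [Matrix.mul_apply, Fin.sum_univ_three]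
    refine Concl2.of_map hB ?_
    have h' := h.conj hB q_norm q_norm'
    refine th_pos h' hy hx hle ?_
    have h1 : ev [.q] *ᵥ ![x, y, 0] ∈ (P.map (fun z => ev [.q] *ᵥ z)).V := ⟨_, hv, rfl⟩
    have h2 := h'.image_mem h1 (A := ev [.n, .d]) (Tag.ev_mem (by decide))
    have h3 : ev [.n, .d] *ᵥ (ev [.q] *ᵥ ![x, y, 0]) = ![y, x, 0] := by
      rw [ev_nd, ev_q]
      funext i
      fin_cases i <;> simp [Matrix.mulVec, dotProduct, Fin.sum_univ_three]
    rw [h3] at h2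
    exact h2

/-- signs of the coordinates, for groups containing the diagonal matrices -/
theorem diag_pos {P : Cfg (Fin 3 → ℝ)} {t : Tag} (h : GP P t) (h1 : ev [.n, .d] ∈ t.group)
    (h2 : ev [.n, .c, .d, .c, .c] ∈ t.group) {x y : ℝ} (hx : x ≠ 0) (hy : y ≠ 0)
    (hv : ![x, y, 0] ∈ P.V)
    (H : ∀ A ∈ t.group, A *ᵥ ![x, y, 0] = ![x, y, 0] → A = 1 ∨ A = ev [.n, .c, .c, .d, .c]) :
    ∃ x' y' : ℝ, 0 < x' ∧ 0 < y' ∧ ![x', y', 0] ∈ P.V ∧
    (∀ A ∈ t.group, A *ᵥ ![x', y', 0] = ![x', y', 0] → A = 1 ∨ A = ev [.n, .c, .c, .d, .c]) := by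
  have e1 : ∀ x y : ℝ, ev [.n, .d] *ᵥ ![x, y, 0] = ![-x, y, 0] := by
    intro x y
    rw [ev_nd]
    funext i
    fin_cases i <;> simp [Matrix.mulVec, dotProduct, Fin.sum_univ_three]
  have e2 : ∀ x y : ℝ, ev [.n, .c, .d, .c, .c] *ᵥ ![x, y, 0] = ![x, -y, 0] := by
    intro x y
    rw [ev_ncdcc]
    funext i
    fin_cases i <;> simp [Matrix.mulVec, dotProduct, Fin.sum_univ_three]
  have c1 : ev [.n, .d] * ev [.n, .c, .c, .d, .c] = ev [.n, .c, .c, .d, .c] * ev [.n, .d] := by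
    rw [ev_nd, ev_nccdc]
    ext i j
    fin_cases i <;> fin_cases j <;> simp [Matrix.mul_apply, Fin.sum_univ_three]
  have c2 : ev [.n, .c, .d, .c, .c] * ev [.n, .c, .c, .d, .c] =
      ev [.n, .c, .c, .d, .c] * ev [.n, .c, .d, .c, .c] := by
    rw [ev_ncdcc, ev_nccdc]
    ext i j
    fin_cases i <;> fin_cases j <;> simp [Matrix.mul_apply, Fin.sum_univ_three]
  have step1 : ∃ x' : ℝ, 0 < x' ∧ ![x', y, 0] ∈ P.V ∧
      (∀ A ∈ t.group, A *ᵥ ![x', y, 0] = ![x', y, 0] → A = 1 ∨ A = ev [.n, .c, .c, .d, .c]) := by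
    rcases lt_or_gt_of_ne hx with hx' | hx'
    · refine ⟨-x, by linarith, ?_, transport h1 H c1 (e1 x y)⟩
      rw [← e1]
      exact h.image_mem hv h1
    · exact ⟨x, hx', hv, H⟩
  obtain ⟨x', hx', hv', H'⟩ := step1
  rcases lt_or_gt_of_ne hy with hy' | hy'
  · refine ⟨x', -y, hx', by linarith, ?_, transport h2 H' c2 (e2 x' y)⟩
    rw [← e2]
    exact h.image_mem hv' h2
  · exact ⟨x', y, hx', hy', hv', H'⟩

theorem xy_ne_zero {t : Tag} {x y : ℝ}
    (H : ∀ A ∈ t.group, A *ᵥ ![x, y, 0] = ![x, y, 0] → A = 1 ∨ A = ev [.n, .c, .c, .d, .c]) :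
    x ≠ 0 ∧ y ≠ 0 := by
  constructor
  · rintro rfl
    have h1 : ev [.c, .d, .c, .c] *ᵥ ![0, y, 0] = ![0, y, 0] := by
      rw [ev_cdcc]
      funext i
      fin_cases i <;> simp [Matrix.mulVec, dotProduct, Fin.sum_univ_three]
    rcases H _ (Tag.ev_mem (by cases t <;> decide)) h1 with h2 | h2
    · rw [ev_cdcc] at h2
      have := congrFun (congrFun h2 0) 0
      norm_num at this
    · rw [ev_cdcc, ev_nccdc] at h2
      have := congrFun (congrFun h2 0) 0
      norm_num at this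
  · rintro rfl
    have h1 : ev [.d] *ᵥ ![x, 0, 0] = ![x, 0, 0] := by
      rw [ev_d]
      funext i
      fin_cases i <;> simp [Matrix.mulVec, dotProduct, Fin.sum_univ_three]
    rcases H _ (Tag.ev_mem (by cases t <;> decide)) h1 with h2 | h2
    · rw [ev_d] at h2
      have := congrFun (congrFun h2 1) 1
      norm_num at this
    · rw [ev_d, ev_nccdc] at h2
      have := congrFun (congrFun h2 1) 1
      norm_num at this

theorem th_gen {P : Cfg (Fin 3 → ℝ)} (h : GP P .Th) {x y : ℝ} (hv : ![x, y, 0] ∈ P.V)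
    (H : ∀ A ∈ Tag.Th.group, A *ᵥ ![x, y, 0] = ![x, y, 0] → A = 1 ∨ A = ev [.n, .c, .c, .d, .c]) :
    Concl2 P := by
  obtain ⟨hx, hy⟩ := xy_ne_zero H
  obtain ⟨x', y', hx', hy', hv', -⟩ := diag_pos h (Tag.ev_mem (by decide))
    (Tag.ev_mem (by decide)) hx hy hv H
  exact th_pos2 h hx' hy' hv'

/-! ### Ih -/

/-- the matrix of the generator `p` for a general parameter -/
noncomputable def pm (g : ℝ) : Mat :=
  !![(g - 1) / 2, -g / 2, 1 / 2; g / 2, 1 / 2, (g - 1) / 2; -1 / 2, (g - 1) / 2, g / 2]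

theorem gen_p_eq : gen .p = pm gr := rfl

theorem gen_c_eq : gen .c = !![0, 0, 1; 1, 0, 0; 0, 1, 0] := rfl

theorem gen_d_eq : gen .d = !![1, 0, 0; 0, -1, 0; 0, 0, -1] := rfl

theorem cc_eq : (!![0, 0, 1; 1, 0, 0; 0, 1, 0] * !![0, 0, 1; 1, 0, 0; 0, 1, 0] : Mat) =
    !![0, 1, 0; 0, 0, 1; 1, 0, 0] := by
  ext i j
  fin_cases i <;> fin_cases j <;> simp [Matrix.mul_apply, Fin.sum_univ_three]

theorem pcc_gen (g : ℝ) : pm g * !![0, 1, 0; 0, 0, 1; 1, 0, 0] =
    !![1 / 2, (g - 1) / 2, -g / 2; (g - 1) / 2, g / 2, 1 / 2; g / 2, -1 / 2, (g - 1) / 2] := by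
  unfold pm
  ext i j
  fin_cases i <;> fin_cases j <;> simp [Matrix.mul_apply, Fin.sum_univ_three]

theorem dccp_gen (g : ℝ) : (!![1, 0, 0; 0, -1, 0; 0, 0, -1] * !![0, 1, 0; 0, 0, 1; 1, 0, 0] : Mat) *
    pm g = !![g / 2, 1 / 2, (g - 1) / 2; 1 / 2, -(g - 1) / 2, -g / 2; -(g - 1) / 2, g / 2, -1 / 2] := by
  unfold pm
  ext i j
  fin_cases i <;> fin_cases j <;> (simp [Matrix.mul_apply, Fin.sum_univ_three]; try ring)

theorem ev_pcc : ev [.p, .c, .c] =
    !![1 / 2, (gr - 1) / 2, -gr / 2; (gr - 1) / 2, gr / 2, 1 / 2; gr / 2, -1 / 2, (gr - 1) / 2] := by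
  have h : ev [.p, .c, .c] = gen .p * (gen .c * gen .c) := by simp [ev]
  rw [h, gen_c_eq, cc_eq, gen_p_eq, pcc_gen]

theorem ev_dccp : ev [.d, .c, .c, .p] =
    !![gr / 2, 1 / 2, (gr - 1) / 2; 1 / 2, -(gr - 1) / 2, -gr / 2;
      -(gr - 1) / 2, gr / 2, -1 / 2] := by
  have h : ev [.d, .c, .c, .p] = gen .d * (gen .c * gen .c) * gen .p := by
    simp [ev, Matrix.mul_assoc]
  rw [h, gen_c_eq, cc_eq, gen_p_eq, gen_d_eq, dccp_gen]

theorem pcc_fix (x : ℝ) : ev [.p, .c, .c] *ᵥ ![x, gr * x, 0] = ![x, gr * x, 0] := by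
  rw [ev_pcc]
  have hg := gr_sq
  generalize gr = g at *
  funext i
  fin_cases i
  · simp [Matrix.mulVec, dotProduct, Fin.sum_univ_three]
    linear_combination (x / 2) * hg
  · simp [Matrix.mulVec, dotProduct, Fin.sum_univ_three]
    linear_combination (x / 2) * hg
  · simp [Matrix.mulVec, dotProduct, Fin.sum_univ_three]
    ring

theorem dccp_fix (x : ℝ) : ev [.d, .c, .c, .p] *ᵥ ![x, (2 - gr) * x, 0] = ![x, (2 - gr) * x, 0] := by
  rw [ev_dccp]
  have hg := gr_sq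
  generalize gr = g at *
  funext i
  fin_cases i
  · simp [Matrix.mulVec, dotProduct, Fin.sum_univ_three]
    ring
  · simp [Matrix.mulVec, dotProduct, Fin.sum_univ_three]
    linear_combination (x / 2) * hg
  · simp [Matrix.mulVec, dotProduct, Fin.sum_univ_three]
    linear_combination (-x / 2) * hg

theorem ih_gen {P : Cfg (Fin 3 → ℝ)} (h : GP P .Ih) {x y : ℝ} (hv : ![x, y, 0] ∈ P.V)
    (H : ∀ A ∈ Tag.Ih.group, A *ᵥ ![x, y, 0] = ![x, y, 0] → A = 1 ∨ A = ev [.n, .c, .c, .d, .c]) :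
    Concl2 P := by
  obtain ⟨hx, hy⟩ := xy_ne_zero H
  obtain ⟨x', y', hx', hy', hv', H'⟩ := diag_pos h (Tag.ev_mem (by decide))
    (Tag.ev_mem (by decide)) hx hy hv H
  clear H hv hx hy
  have hg := gr_gt
  have hs : 0 < y' / x' := div_pos hy' hx'
  have h1 : y' / x' ≠ gr := by
    intro h0
    have h2 : y' = gr * x' := by rw [← h0]; field_simp
    rw [h2] at H'
    rcases H' _ (Tag.ev_mem (by decide)) (pcc_fix x') with h3 | h3
    · rw [ev_pcc] at h3
      have := congrFun (congrFun h3 2) 1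
      simp at this
    · rw [ev_pcc, ev_nccdc] at h3
      have := congrFun (congrFun h3 2) 1
      simp at this
  have h2 : y' / x' ≠ 2 - gr := by
    intro h0
    have h2 : y' = (2 - gr) * x' := by rw [← h0]; field_simp
    rw [h2] at H'
    rcases H' _ (Tag.ev_mem (by decide)) (dccp_fix x') with h3 | h3
    · rw [ev_dccp] at h3
      have := congrFun (congrFun h3 0) 1
      norm_num at this
    · rw [ev_dccp, ev_nccdc] at h3
      have := congrFun (congrFun h3 0) 1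
      norm_num at this
  have hvx : (![x', y', 0] : Fin 3 → ℝ) = x' • ![1, y' / x', 0] := by
    funext i
    fin_cases i
    · simp
    · simp [mul_div_cancel₀ _ hx'.ne']
    · simp
  rw [← ihmM_pt x' y'] at hv' H'
  obtain ⟨r, hr, hP⟩ := mirror_case h ihmIh_ok ihmIh_trans ihmIh_map (by decide) (by decide)
    ihmM_distinct ihmR_ok ihmIh_check ihm_fix H' hv'
  exact Concl2.of_row (t := .Ih) ihm_famOK hr hx'.ne' ⟨hs, h1, h2⟩
    (by rw [ihmM_pt]; exact hvx) hP

/-! ### Oh and Td -/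

theorem vxx {x z : ℝ} (hx : x ≠ 0) : (![x, x, z] : Fin 3 → ℝ) = x • ![1, 1, z / x] := by
  funext i
  fin_cases i
  · simp
  · simp
  · simp [mul_div_cancel₀ _ hx]

theorem c_fix (x : ℝ) : ev [.c] *ᵥ ![x, x, x] = ![x, x, x] := by
  rw [ev_c]
  funext i
  fin_cases i <;> simp [Matrix.mulVec, dotProduct, Fin.sum_univ_three]

theorem ccdc_apply (x z : ℝ) : ev [.c, .c, .d, .c] *ᵥ ![x, x, z] = ![-x, -x, z] := by
  rw [ev_ccdc]
  funext i
  fin_cases i <;> simp [Matrix.mulVec, dotProduct, Fin.sum_univ_three]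

theorem oh_gen {P : Cfg (Fin 3 → ℝ)} (h : GP P .Oh) {x z : ℝ} (hv : ![x, x, z] ∈ P.V)
    (H : ∀ A ∈ Tag.Oh.group, A *ᵥ ![x, x, z] = ![x, x, z] → A = 1 ∨ A = ev [.n, .d, .q]) :
    Concl2 P := by
  have hx : x ≠ 0 := by
    rintro rfl
    have h1 : ev [.c, .c, .d, .c] *ᵥ ![0, 0, z] = ![0, 0, z] := by
      rw [ccdc_apply]; simp
    rcases H _ (Tag.ev_mem (by decide)) h1 with h2 | h2
    · rw [ev_ccdc] at h2
      have := congrFun (congrFun h2 0) 0
      norm_num at this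
    · rw [ev_ccdc, ev_ndq] at h2
      have := congrFun (congrFun h2 0) 0
      norm_num at this
  have hz : z ≠ 0 := by
    rintro rfl
    have h1 : ev [.n, .q, .q] *ᵥ ![x, x, 0] = ![x, x, 0] := by
      rw [ev_nqq]
      funext i
      fin_cases i <;> simp [Matrix.mulVec, dotProduct, Fin.sum_univ_three]
    rcases H _ (Tag.ev_mem (by decide)) h1 with h2 | h2
    · rw [ev_nqq] at h2
      have := congrFun (congrFun h2 2) 2
      simp at this
      norm_num at this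
    · rw [ev_nqq, ev_ndq] at h2
      have := congrFun (congrFun h2 0) 0
      norm_num at this
  have e2 : ∀ x z : ℝ, ev [.n, .q, .q] *ᵥ ![x, x, z] = ![x, x, -z] := by
    intro x z
    rw [ev_nqq]
    funext i
    fin_cases i <;> simp [Matrix.mulVec, dotProduct, Fin.sum_univ_three]
  have c1 : ev [.c, .c, .d, .c] * ev [.n, .d, .q] = ev [.n, .d, .q] * ev [.c, .c, .d, .c] := by
    rw [ev_ccdc, ev_ndq]
    ext i j
    fin_cases i <;> fin_cases j <;> simp [Matrix.mul_apply, Fin.sum_univ_three]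
  have c2 : ev [.n, .q, .q] * ev [.n, .d, .q] = ev [.n, .d, .q] * ev [.n, .q, .q] := by
    rw [ev_nqq, ev_ndq]
    ext i j
    fin_cases i <;> fin_cases j <;> simp [Matrix.mul_apply, Fin.sum_univ_three]
  have g1 : ev [.c, .c, .d, .c] ∈ Tag.Oh.group := Tag.ev_mem (by decide)
  have g2 : ev [.n, .q, .q] ∈ Tag.Oh.group := Tag.ev_mem (by decide)
  have step1 : ∃ x' : ℝ, 0 < x' ∧ ![x', x', z] ∈ P.V ∧
      (∀ A ∈ Tag.Oh.group, A *ᵥ ![x', x', z] = ![x', x', z] → A = 1 ∨ A = ev [.n, .d, .q]) := by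
    rcases lt_or_gt_of_ne hx with hx' | hx'
    · refine ⟨-x, by linarith, ?_, transport g1 H c1 (ccdc_apply x z)⟩
      rw [← ccdc_apply]
      exact h.image_mem hv g1
    · exact ⟨x, hx', hv, H⟩
  obtain ⟨x', hx', hv', H'⟩ := step1
  have step2 : ∃ z' : ℝ, 0 < z' ∧ ![x', x', z'] ∈ P.V ∧
      (∀ A ∈ Tag.Oh.group, A *ᵥ ![x', x', z'] = ![x', x', z'] → A = 1 ∨ A = ev [.n, .d, .q]) := by
    rcases lt_or_gt_of_ne hz with hz' | hz'
    · refine ⟨-z, by linarith, ?_, transport g2 H' c2 (e2 x' z)⟩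
      rw [← e2]
      exact h.image_mem hv' g2
    · exact ⟨z, hz', hv', H'⟩
  obtain ⟨z', hz', hv2, H2⟩ := step2
  clear H H' hv hv' hx hz
  have hne : z' / x' ≠ 1 := by
    intro h0
    have h3 : z' = x' := by field_simp at h0; exact h0
    rw [h3] at H2
    rcases H2 _ (Tag.ev_mem (by decide)) (c_fix x') with h2 | h2
    · rw [ev_c] at h2
      have := congrFun (congrFun h2 0) 0
      norm_num at this
    · rw [ev_c, ev_ndq] at h2
      have := congrFun (congrFun h2 0) 1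
      norm_num at this
  rw [← ohsM_pt x' z'] at hv2 H2
  obtain ⟨r, hr, hP⟩ := mirror_case h ohsOh_ok ohsOh_trans ohsOh_map (by decide) (by decide)
    ohsM_distinct ohsR_ok ohsOh_check ohs_fix H2 hv2
  exact Concl2.of_row (t := .Oh) ohs_famOK hr hx'.ne' ⟨div_pos hz' hx', hne⟩
    (by rw [ohsM_pt]; exact vxx hx'.ne') hP

theorem td_pos {P : Cfg (Fin 3 → ℝ)} (h : GP P .Td) {x z : ℝ} (hx : 0 < x) (hz : 0 < z)
    (hne : z ≠ x) (hv : ![x, x, z] ∈ P.V) : Concl2 P := by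
  have hs : 0 < z / x := div_pos hz hx
  have hs1 : z / x ≠ 1 := by
    intro h0
    exact hne (by field_simp at h0; exact h0)
  have H : ∀ A ∈ Tag.Td.group, A *ᵥ tdmM.pt x z 0 = tdmM.pt x z 0 → A = 1 ∨ A = ev [.s] := by
    intro A hA hAv
    rw [tdmM_pt, vxx hx.ne', mulVec_smul] at hAv
    exact (stab_Td hs hs1 A hA).1 (smul_inj' hx.ne' hAv)
  rw [← tdmM_pt x z] at hv
  obtain ⟨r, hr, hP⟩ := mirror_case h tdmTd_ok tdmTd_trans tdmTd_map (by decide) (by decide)
    tdmM_distinct tdmR_ok tdmTd_check tdm_fix H hv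
  exact Concl2.of_row (t := .Td) tdm_famOK hr hx.ne' ⟨hs, hs1⟩
    (by rw [tdmM_pt]; exact vxx hx.ne') hP

theorem cutM_pt (x y : ℝ) : cutM.pt x y 0 = ![x, x, 0] := by
  unfold Model.pt cutM V3.toR val
  funext i
  fin_cases i <;> simp

theorem cut_famOK : famOK .Th [.n, .c, .c, .d, .c] cutR = true := by decide +kernel

theorem td_zero {P : Cfg (Fin 3 → ℝ)} (h : GP P .Td) {x : ℝ} (hx : 0 < x)
    (hv : ![x, x, 0] ∈ P.V) : Concl2 P := by
  rw [← cutM_pt x 0] at hv
  obtain ⟨r, hr, hP⟩ := axis_case h cutTd_ok cutTd_trans cutTd_map (by decide) (by decide)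
    cutM_distinct cutM_zeroB cutTh_ok cutTh_trans cutTh_map cutR_ok cutTd_check hx.ne' hv
  refine Concl2.of_row1 (t := .Th) (s := 1) cut_famOK hr hx.ne' ⟨one_pos, le_rfl⟩ ?_
  rw [cutM_pt] at hP
  exact hP

theorem n_apply (v : Fin 3 → ℝ) : ev [.n] *ᵥ v = -v := by
  funext i
  fin_cases i <;> simp [ev, gen, Matrix.mulVec, dotProduct, Fin.sum_univ_three]

theorem ev_n : ev [.n] = -1 := by
  ext i j
  fin_cases i <;> fin_cases j <;> simp [ev, gen]

theorem td_gen {P : Cfg (Fin 3 → ℝ)} (h : GP P .Td) {x z : ℝ} (hv : ![x, x, z] ∈ P.V)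
    (H : ∀ A ∈ Tag.Td.group, A *ᵥ ![x, x, z] = ![x, x, z] → A = 1 ∨ A = ev [.s]) :
    Concl2 P := by
  have hx : x ≠ 0 := by
    rintro rfl
    have h1 : ev [.c, .c, .d, .c] *ᵥ ![0, 0, z] = ![0, 0, z] := by
      rw [ccdc_apply]; simp
    rcases H _ (Tag.ev_mem (by decide)) h1 with h2 | h2
    · rw [ev_ccdc] at h2
      have := congrFun (congrFun h2 0) 0
      norm_num at this
    · rw [ev_ccdc, ev_s] at h2
      have := congrFun (congrFun h2 0) 0
      norm_num at this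
  have c1 : ev [.c, .c, .d, .c] * ev [.s] = ev [.s] * ev [.c, .c, .d, .c] := by
    rw [ev_ccdc, ev_s]
    ext i j
    fin_cases i <;> fin_cases j <;> simp [Matrix.mul_apply, Fin.sum_univ_three]
  have g1 : ev [.c, .c, .d, .c] ∈ Tag.Td.group := Tag.ev_mem (by decide)
  have step1 : ∃ x' : ℝ, 0 < x' ∧ ![x', x', z] ∈ P.V ∧
      (∀ A ∈ Tag.Td.group, A *ᵥ ![x', x', z] = ![x', x', z] → A = 1 ∨ A = ev [.s]) := by
    rcases lt_or_gt_of_ne hx with hx' | hx'
    · refine ⟨-x, by linarith, ?_, transport g1 H c1 (ccdc_apply x z)⟩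
      rw [← ccdc_apply]
      exact h.image_mem hv g1
    · exact ⟨x, hx', hv, H⟩
  obtain ⟨x', hx', hv', H'⟩ := step1
  clear H hv hx
  rcases lt_trichotomy z 0 with hz | rfl | hz
  · have hB : (ev [.n])ᵀ * ev [.n] = 1 := by rw [ev_n]; simp
    refine Concl2.of_map hB ?_
    have h' : GP (P.map (fun z => ev [.n] *ᵥ z)) .Td := by
      refine h.conj hB ?_ ?_
      · intro A hA; rw [ev_n]; simpa using hA
      · intro A hA; rw [ev_n]; simpa using hA
    have hne : -z ≠ x' := by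
      intro h0
      have h1 : z = -x' := by linarith
      rw [h1] at H'
      have h2 : ev [.c, .d] *ᵥ ![x', x', -x'] = ![x', x', -x'] := by
        funext i
        fin_cases i <;>
          simp [ev, gen, Matrix.mulVec, Matrix.mul_apply, dotProduct, Fin.sum_univ_three]
      rcases H' _ (Tag.ev_mem (by decide)) h2 with h3 | h3
      · have := congrFun (congrFun h3 0) 0
        simp [ev, gen, Matrix.mul_apply, Fin.sum_univ_three] at this
      · have := congrFun (congrFun h3 0) 1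
        simp [ev, gen, Matrix.mul_apply, Fin.sum_univ_three] at this
    refine td_pos h' hx' (neg_pos.2 hz) hne ?_
    have h1 : ev [.n] *ᵥ ![x', x', z] ∈ (P.map (fun z => ev [.n] *ᵥ z)).V := ⟨_, hv', rfl⟩
    have h2 := h'.image_mem h1 g1
    have h3 : ev [.c, .c, .d, .c] *ᵥ (ev [.n] *ᵥ ![x', x', z]) = ![x', x', -z] := by
      rw [n_apply]
      have : (-![x', x', z] : Fin 3 → ℝ) = ![-x', -x', -z] := by
        funext i
        fin_cases i <;> simp
      rw [this, ccdc_apply]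
      simp
    rw [h3] at h2
    exact h2
  · exact td_zero h hx' hv'
  · refine td_pos h hx' hz ?_ hv'
    intro h0
    rw [h0] at H'
    rcases H' _ (Tag.ev_mem (by decide)) (c_fix x') with h2 | h2
    · rw [ev_c] at h2
      have := congrFun (congrFun h2 0) 0
      norm_num at this
    · rw [ev_c, ev_s] at h2
      have := congrFun (congrFun h2 0) 1
      norm_num at this

/-- Every polyhedron with one of the seven groups is similar to a valid item. -/
theorem forward2 {P : Cfg (Fin 3 → ℝ)} {t : Tag} (h : GP P t) : Concl2 P := by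
  obtain ⟨Q, hQ, c, hc, rfl⟩ := forward h
  refine Concl2.of_smul hc ?_
  rcases hQ with ⟨e, he, rfl⟩ | ⟨e, he, v, hst, hor⟩
  · refine ⟨.rigid e, he, 1, one_ne_zero, 1, by simp, ?_⟩
    simp only [one_mulVec, one_smul, Cfg.map_id']
    rfl
  · have hgp : GP Q e.1 := by
      rcases hor with rfl | rfl | rfl
      · exact (family_good he hst).1.gp
      · exact (family_good he hst).2.1.gp
      · exact (family_good he hst).2.2.gp
    have hv : v ∈ Q.V := by
      rcases hor with rfl | rfl | rfl <;> exact ⟨1, one_mem _, by simp⟩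
    clear hor h
    have h1 := family_cover
    rw [List.all_eq_true] at h1
    have h2 := h1 e he
    simp only [Bool.or_eq_true, Bool.and_eq_true, decide_eq_true_eq] at h2
    obtain ⟨t, σ, a⟩ := e
    simp only at h2 hst hgp
    have hfix : ev σ *ᵥ v = v := by
      rcases h2 with ⟨rfl, rfl, h2⟩ | ⟨rfl, rfl, h2⟩ | ⟨rfl, rfl, h2⟩ | ⟨rfl, rfl, h2⟩ <;>
        exact (hst _ (Tag.ev_mem (by decide))).2 (Or.inr rfl)
    rcases h2 with ⟨rfl, rfl, h2⟩ | ⟨rfl, rfl, h2⟩ | ⟨rfl, rfl, h2⟩ | ⟨rfl, rfl, h2⟩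
    · have e1 := fix_nccdc hfix
      refine th_gen (x := v 0) (y := v 1) hgp (by rw [← e1]; exact hv) ?_
      rw [← e1]
      exact fun A hA h => (hst A hA).1 h
    · have e1 := fix_s hfix
      refine td_gen (x := v 0) (z := v 2) hgp (by rw [← e1]; exact hv) ?_
      rw [← e1]
      exact fun A hA h => (hst A hA).1 h
    · have e1 := fix_ndq hfix
      refine oh_gen (x := v 0) (z := v 2) hgp (by rw [← e1]; exact hv) ?_
      rw [← e1]
      exact fun A hA h => (hst A hA).1 h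
    · have e1 := fix_nccdc hfix
      refine ih_gen (x := v 0) (y := v 1) hgp (by rw [← e1]; exact hv) ?_
      rw [← e1]
      exact fun A hA h => (hst A hA).1 h

end Pool.Agent.H38.FT
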