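import Pool.Agent.H38.FT.RigidSep

/-!
The rigid items are pairwise not similar.
-/

namespace Pool.Agent.H38.FT

open Matrix Code

theorem size_sep_check : (rigidList.all fun e => rigidList.all fun e' =>
    !(Nat.beq (Item.rigid e).size (Item.rigid e').size) ||
      (decide (e.1 = e'.1) && decide (e.2.1 = e'.2.1))) = true := by
  decide +kernel

theorem rigidDistinct : RigidDistinct := by
  intro e e' he he' hne c hc A hA h
  apply hne
  have hi : (Item.rigid e).Valid := he
  have hj : (Item.rigid e').Valid := he'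
  have hsz : (Item.rigid e).size = (Item.rigid e').size := by
    rw [← item_size hi, ← item_size hj, h, map_V_ncard hc.ne' hA]
  have h0 := size_sep_check
  simp only [List.all_eq_true] at h0
  have h1 := h0 e he e' he'
  rw [hsz] at h1
  have h1' : e.1 = e'.1 ∧ e.2.1 = e'.2.1 := by
    rw [Bool.or_eq_true, Bool.and_eq_true, decide_eq_true_eq, decide_eq_true_eq] at h1
    rcases h1 with h1 | h1
    · simp at h1
    · exact h1
  obtain ⟨htag, hvtx⟩ := h1'
  have h2 := rigid_cover
  rw [List.all_eq_true] at h2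
  have h3 := h2 e he
  have h4 := h2 e' he'
  simp only [Bool.or_eq_true] at h3 h4
  have key : ∀ (t : Tag) (v : Vtx) (R : List Row) (t' : Tag) (v' : Vtx) (R' : List Row),
      inC t v R e = true → inC t' v' R' e' = true → t = t' ∧ v = v' := by
    intro t v R t' v' R' h5 h6
    obtain ⟨a1, a2, -⟩ := inC_sound h5
    obtain ⟨b1, b2, -⟩ := inC_sound h6
    rw [← a1, ← a2, ← b1, ← b2]
    exact ⟨htag, hvtx⟩
  rcases h3 with h3 | h3 | h3 | h3 | h3 | h3 <;> rcases h4 with h4 | h4 | h4 | h4 | h4 | h4 <;>
    first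
      | (exfalso
         have h7 := key _ _ _ _ _ _ h3 h4
         exact absurd h7 (by decide))
      | skip
  · exact rigid_sep_of tetTd_ok tetTd_trans tetTd_map (by decide) (by decide) tetM_distinct
      tetM_zeroB tetR_ok (by rw [tetM_pt]; simp [Vtx.vec]) tet_rsep hi h3 h4 hc hA h
  · exact rigid_sep_of octOh_ok octOh_trans octOh_map (by decide) (by decide) octM_distinct
      octM_zeroB octR_ok (by rw [octM_pt]; simp [Vtx.vec]) oct_rsep hi h3 h4 hc hA h
  · exact rigid_sep_of cubOh_ok cubOh_trans cubOh_map (by decide) (by decide) cubM_distinct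
      cubM_zeroB cubR_ok (by rw [cubM_pt]; simp [Vtx.vec]) cub_rsep hi h3 h4 hc hA h
  · exact rigid_sep_of icoIh_ok icoIh_trans icoIh_map (by decide) (by decide) icoM_distinct
      icoM_zeroB icoR_ok (by rw [icoM_pt]; simp [Vtx.vec]) ico_rsep hi h3 h4 hc hA h
  · exact rigid_sep_of dodIh_ok dodIh_trans dodIh_map (by decide) (by decide) dodM_distinct
      dodM_zeroB dodR_ok (by rw [dodM_pt]; simp [Vtx.vec]) dod_rsep hi h3 h4 hc hA h
  · exact rigid_sep_of iciIh_ok iciIh_trans iciIh_map (by decide) (by decide) iciM_distinct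
      iciM_zeroB iciR_ok (by rw [iciM_pt]; simp [Vtx.vec]) ici_rsep hi h3 h4 hc hA h

end Pool.Agent.H38.FT
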