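import Pool.Agent.H38.FT.Final2

/-!
The rigid items are pairwise not similar: they are separated by the number of vertices, the product
of the ends of an edge, the number of faces and the sum over the corners at a vertex.
-/

namespace Pool.Agent.H38.FT

open Matrix Code

theorem map_F_ncard {X Y : Type*} {P : Cfg X} {t : X → Y} (ht : Function.Injective t) :
    (P.map t).F.ncard = P.F.ncard :=
  Set.ncard_image_of_injective _ (Set.image_injective.2 (Sym2.map.injective ht))

theorem cfgOf_F_ncard {M : Model} {t : Tag} {ws : List (List Letter × ℕ)}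
    (hok : M.okGroup t ws = true) {es : List ℕ} (hes : ws.map Prod.snd = es) (hn : M.n ≤ 64)
    {r : Row} (hr : M.okRow t r = true) {x y : ℝ}
    (hinj : ∀ i < M.n, ∀ j < M.n, M.pt x y i = M.pt x y j → i = j) :
    (cfgOf M.n (M.pt x y) (masks r.W es)).F.ncard = (masks r.W es).dedup.length := by
  classical
  have hact : ∀ q ∈ es, ∀ i < M.n, act q i < M.n := by
    intro q hq i hi
    rw [← hes] at hq
    obtain ⟨A, -, hrep⟩ := Model.group_of_code hok hq
    exact (hrep 0 0 i hi).1
  have hset : (cfgOf M.n (M.pt x y) (masks r.W es)).F =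
      dec M.n (M.pt x y) '' ((masks r.W es).toFinset : Set ℕ) := by
    ext f
    constructor
    · rintro ⟨m, hm, rfl⟩
      exact ⟨m, by simpa using hm, rfl⟩
    · rintro ⟨m, hm, rfl⟩
      exact ⟨m, by simpa using hm, rfl⟩
  have hI : Set.InjOn (dec M.n (M.pt x y)) ((masks r.W es).toFinset : Set ℕ) := by
    intro m hm m' hm' h
    simp only [List.coe_toFinset, Set.mem_ofPred_eq] at hm hm'
    rw [masks_eq] at hm hm'
    obtain ⟨p, hp, rfl⟩ := List.mem_map.1 hm
    obtain ⟨q, hq, rfl⟩ := List.mem_map.1 hm'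
    exact mask_eq_of_dec hn hinj (hact p hp) (hact q hq) (okRow_W hr) (okRow_W hr) h
  rw [hset, hI.ncard_image, Set.ncard_coe_finset, List.card_toFinset]

/-- product of the ends of an edge, number of faces, sum over the corners -/
def rdat (M : Model) (L : List ℕ) : Z2 × ℕ × Z2 :=
  ((qd (M.pts.getD 0 default) (M.pts.getD ((nb0 M.n L).headD 0) default)).1, L.dedup.length,
    (qsum M (corners0 M.n L)).1)

/-- the rows are separated by `rdat` -/
def rsep (M : Model) (es : List ℕ) (R : List Row) : Bool :=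
  force ((R.map fun r => r.W.length).sum) fun _ =>
  (R.map fun r => (r.spec, rdat M (masks r.W es), (nb0 M.n (masks r.W es)).isEmpty)) |> fun D =>
    D.all fun a => !a.2.2 && D.all fun b => decide (a.1 = b.1) || !(decide (a.2.1 = b.2.1))

theorem rsep_sound {M : Model} {es : List ℕ} {R : List Row} (h : rsep M es R = true) {r r' : Row}
    (hr : r ∈ R) (hr' : r' ∈ R) : nb0 M.n (masks r.W es) ≠ [] ∧
      (rdat M (masks r.W es) = rdat M (masks r'.W es) → r.spec = r'.spec) := by
  unfold rsep at h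
  rw [force_eq] at h
  simp only [List.all_map, List.all_eq_true, Function.comp_apply, Bool.and_eq_true,
    Bool.or_eq_true, Bool.not_eq_true', decide_eq_true_eq, decide_eq_false_iff_not] at h
  obtain ⟨h1, h2⟩ := h r hr
  refine ⟨?_, ?_⟩
  · intro h3
    rw [h3] at h1
    simp at h1
  · intro h3
    rcases h2 r' hr' with h4 | h4
    · exact h4
    · exact absurd h3 h4

theorem rigid_coded {t : Tag} {v : Vtx} {M : Model} {ws : List (List Letter × ℕ)}
    (hok : M.okGroup t ws = true) (htr : M.okTrans ws = true) {es : List ℕ}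
    (hes : ws.map Prod.snd = es) (h0 : 0 < M.n) (hn : M.n ≤ 64) {R : List Row}
    (hR : (R.all fun r => M.okRow t r) = true) (hpt : M.pt 1 0 0 = v.vec)
    {e : Tag × Vtx × Word × Word × Word} (he : inC t v R e = true) :
    ∃ r ∈ R, r.spec = .C e.2.2.1 e.2.2.2.1 e.2.2.2.2 ∧
      (Item.rigid e).cfg = cfgOf M.n (M.pt 1 0) (masks r.W es) := by
  obtain ⟨h1, h2, r, hr, hspec⟩ := inC_sound he
  rw [List.all_eq_true] at hR
  refine ⟨r, hr, hspec, ?_⟩
  rw [← orbitCfg_eq hok htr h0 hn hes (hR r hr) 1 0, hpt, hspec]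
  unfold Item.cfg
  simp only
  rw [h1, h2]
  rfl

theorem val3_one (q : Q3) : val3 q 1 0 = val q.1 := by
  unfold val3
  simp

theorem Vtx.dot_ne (v : Vtx) : v.vec ⬝ᵥ v.vec ≠ 0 := by
  intro h
  exact v.ne_zero (dotProduct_self_eq_zero.1 h)

theorem rigid_sep_of {t : Tag} {v : Vtx} {M : Model} {ws : List (List Letter × ℕ)}
    (hok : M.okGroup t ws = true) (htr : M.okTrans ws = true) {es : List ℕ}
    (hes : ws.map Prod.snd = es) (h0 : 0 < M.n) (hn : M.n ≤ 64) (hd : M.distinct = true)
    (hz : M.zeroB = true) {R : List Row}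
    (hR : (R.all fun r => M.okRow t r) = true) (hpt : M.pt 1 0 0 = v.vec)
    (hsep : rsep M es R = true)
    {e e' : Tag × Vtx × Word × Word × Word} (hv : (Item.rigid e).Valid)
    (he : inC t v R e = true)
    (he' : inC t v R e' = true) {c : ℝ} (hc : 0 < c) {A : Mat} (hA : Aᵀ * A = 1)
    (h : (Item.rigid e).cfg = (Item.rigid e').cfg.map (fun x => c • (A *ᵥ x))) : e = e' := by
  obtain ⟨r, hr, sp, hcfg⟩ := rigid_coded hok htr hes h0 hn hR hpt he
  obtain ⟨r', hr', sp', hcfg'⟩ := rigid_coded hok htr hes h0 hn hR hpt he'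
  have hinj := Model.inj_axis hd hz (x := 1) one_ne_zero 0
  have g : GP (Item.rigid e).cfg e.1 := (item_good hv).gp
  have hF : (Item.rigid e).cfg.F.ncard = (Item.rigid e').cfg.F.ncard := by
    rw [h, map_F_ncard (sim_inj hA hc.ne')]
  have hR' := hR
  rw [List.all_eq_true] at hR'
  rw [hcfg, hcfg', cfgOf_F_ncard hok hes hn (hR' r hr) hinj,
    cfgOf_F_ncard hok hes hn (hR' r' hr') hinj] at hF
  obtain ⟨ne1, -⟩ := rsep_sound hsep hr hr
  obtain ⟨ne2, -⟩ := rsep_sound hsep hr' hr'
  have edge : ∀ L : List ℕ, nb0 M.n L ≠ [] → s(M.pt 1 0 0, M.pt 1 0 ((nb0 M.n L).headD 0)) ∈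
      (cfgOf M.n (M.pt 1 0) L).E := by
    intro L hL
    have h1 : (nb0 M.n L).headD 0 ∈ nb0 M.n L := by
      cases hl : nb0 M.n L with
      | nil => exact absurd hl hL
      | cons a l => simp
    have h2 : ∀ j ∈ nb0 M.n L, s(M.pt 1 0 0, M.pt 1 0 j) ∈ (cfgOf M.n (M.pt 1 0) L).E := by
      intro j hj
      simp only [nb0, List.mem_filter, List.mem_range, List.any_eq_true] at hj
      obtain ⟨hj, m, hm, hb⟩ := hj
      exact ⟨m, hm, (mem_dec hinj h0).2 ⟨j, hj, rfl, hb⟩⟩
    exact h2 _ h1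
  have E1 := edge _ ne1
  have E2 := edge _ ne2
  have V1 : ∀ L : List ℕ, M.pt 1 0 0 ∈ (cfgOf M.n (M.pt 1 0) L).V := fun L => ⟨0, h0, rfl⟩
  rw [← hcfg] at E1
  rw [← hcfg'] at E2
  obtain ⟨d1, d2, d3⟩ := sim_data g hc hA h (v := M.pt 1 0 0) (v' := M.pt 1 0 0)
    (by rw [hcfg]; exact V1 _) (by rw [hcfg']; exact V1 _) E1 E2
  have hc2 : c ^ 2 = 1 := by
    rw [hpt] at d1
    have h3 := v.dot_ne
    have : (v.vec ⬝ᵥ v.vec) * (c ^ 2 - 1) = 0 := by linear_combination -d1
    rcases mul_eq_zero.1 this with h4 | h4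
    · exact absurd h4 h3
    · linarith
  rw [hc2, one_mul] at d2 d3
  have K : (rdat M (masks r.W es)).1 = (rdat M (masks r'.W es)).1 := by
    apply val_inj
    unfold rdat
    simp only
    rw [← val3_one, ← val3_one, ← qd_eval, ← qd_eval]
    unfold Model.pt at d2
    rw [d2]
  have C : (rdat M (masks r.W es)).2.2 = (rdat M (masks r'.W es)).2.2 := by
    apply val_inj
    unfold rdat
    simp only
    rw [hcfg, hcfg'] at d3
    rw [← val3_one, ← val3_one, ← csum_eval hinj h0, ← csum_eval hinj h0, d3]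
  have hspec := (rsep_sound hsep hr hr').2 (by
    apply Prod.ext K
    exact Prod.ext hF C)
  rw [sp, sp'] at hspec
  obtain ⟨a1, a2, -⟩ := inC_sound he
  obtain ⟨b1, b2, -⟩ := inC_sound he'
  obtain ⟨t1, v1, x1, y1, z1⟩ := e
  obtain ⟨t2, v2, x2, y2, z2⟩ := e'
  simp only [Spec.C.injEq] at hspec a1 a2 b1 b2
  obtain ⟨rfl, rfl, rfl⟩ := hspec
  rw [a1, a2, b1, b2]

theorem tet_rsep : rsep tetM tetTdE tetR = true := by decide +kernel

theorem oct_rsep : rsep octM octOhE octR = true := by decide +kernel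

theorem cub_rsep : rsep cubM cubOhE cubR = true := by decide +kernel

theorem ico_rsep : rsep icoM icoIhE icoR = true := by decide +kernel

theorem dod_rsep : rsep dodM dodIhE dodR = true := by decide +kernel

theorem ici_rsep : rsep iciM iciIhE iciR = true := by decide +kernel

end Pool.Agent.H38.FT
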