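import Pool.Agent.H38.FT.Exist

/-!
Different rows give different configurations.
-/

namespace Pool.Agent.H38.FT

open Matrix Code

theorem mask_eq_of_dec {X : Type*} {n : ℕ} {pt : ℕ → X} (hn : n ≤ 64)
    (hinj : ∀ i < n, ∀ j < n, pt i = pt j → i = j) {W W' : List (ℕ × ℕ)} {p p' : ℕ}
    (hp : ∀ i < n, act p i < n) (hp' : ∀ i < n, act p' i < n)
    (hW : ∀ e ∈ W, e.1 < n ∧ e.2 < n) (hW' : ∀ e ∈ W', e.1 < n ∧ e.2 < n)
    (h : dec n pt (mask p W) = dec n pt (mask p' W')) : mask p W = mask p' W' := by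
  have key : ∀ (W W' : List (ℕ × ℕ)) (p p' : ℕ), (∀ i < n, act p i < n) →
      (∀ e ∈ W, e.1 < n ∧ e.2 < n) →
      dec n pt (mask p W) = dec n pt (mask p' W') → ∀ k, tb (mask p W) k = true →
      tb (mask p' W') k = true := by
    intro W W' p p' hp hW h k hk
    rw [mask_iff] at hk
    obtain ⟨a, ha, rfl⟩ := hk
    have h1 := hp _ (hW a ha).1
    have h2 := hp _ (hW a ha).2
    have h3 : s(pt (act p a.1), pt (act p a.2)) ∈ dec n pt (mask p W) :=
      ⟨_, h1, _, h2, by rw [mask_iff]; exact ⟨a, ha, rfl⟩, rfl⟩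
    rw [h] at h3
    obtain ⟨i, hi, j, hj, hb, he⟩ := h3
    rw [Sym2.eq_iff] at he
    rcases he with ⟨e1, e2⟩ | ⟨e1, e2⟩
    · rw [hinj _ h1 _ hi e1, hinj _ h2 _ hj e2]; exact hb
    · rw [hinj _ h1 _ hj e1, hinj _ h2 _ hi e2, ec_comm]; exact hb
  apply Nat.eq_of_testBit_eq
  intro k
  have h1 := key W W' p p' hp hW h k
  have h2 := key W' W p' p hp' hW' h.symm k
  rw [tb_eq, tb_eq] at h1 h2
  cases hb : (mask p W).testBit k
  · cases hb' : (mask p' W').testBit k
    · rfl
    · rw [hb] at h2; exact absurd (h2 hb') (by simp)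
  · rw [h1 hb]

theorem okRow_W {M : Model} {t : Tag} {r : Row} (hr : M.okRow t r = true) :
    ∀ e ∈ r.W, e.1 < M.n ∧ e.2 < M.n := by
  unfold Model.okRow at hr
  simp only [Bool.and_eq_true] at hr
  have := hr.2.2.1
  rw [List.all_eq_true] at this
  intro e he
  have h1 := this e he
  rw [Bool.and_eq_true, Nat.blt_eq, Nat.blt_eq] at h1
  exact h1

/-- equal configurations have the same masks -/
theorem masks_of_eq {M : Model} {t : Tag} {ws : List (List Letter × ℕ)}
    (hok : M.okGroup t ws = true) {es : List ℕ} (hes : ws.map Prod.snd = es) (hn : M.n ≤ 64)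
    {r r' : Row} (hr : M.okRow t r = true) (hr' : M.okRow t r' = true) {x y : ℝ}
    (hinj : ∀ i < M.n, ∀ j < M.n, M.pt x y i = M.pt x y j → i = j)
    (h : cfgOf M.n (M.pt x y) (masks r.W es) = cfgOf M.n (M.pt x y) (masks r'.W es)) {p : ℕ}
    (hp : p ∈ es) : mem (mask p r.W) (masks r'.W es) = true := by
  have hact : ∀ q ∈ es, ∀ i < M.n, act q i < M.n := by
    intro q hq i hi
    rw [← hes] at hq
    obtain ⟨A, -, hrep⟩ := Model.group_of_code hok hq
    exact (hrep 0 0 i hi).1
  have hF : (cfgOf M.n (M.pt x y) (masks r.W es)).F = (cfgOf M.n (M.pt x y) (masks r'.W es)).F := by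
    rw [h]
  have h1 : dec M.n (M.pt x y) (mask p r.W) ∈ (cfgOf M.n (M.pt x y) (masks r.W es)).F :=
    ⟨mask p r.W, by rw [masks_eq]; exact List.mem_map.2 ⟨p, hp, rfl⟩, rfl⟩
  rw [hF] at h1
  obtain ⟨m, hm, hd⟩ := h1
  rw [masks_eq] at hm
  obtain ⟨q, hq, rfl⟩ := List.mem_map.1 hm
  rw [mask_eq_of_dec hn hinj (hact p hp) (hact q hq) (okRow_W hr) (okRow_W hr') hd, mem_iff,
    masks_eq]
  exact List.mem_map.2 ⟨q, hq, rfl⟩

/-- the base faces of different rows are not faces of the other rows -/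
def sepRows (es : List ℕ) (R : List Row) : Bool :=
  R.all fun r' => R.all fun r => decide (r.spec = r'.spec) ||
    !(mem (mask (es.headD 0) r.W) (masks r'.W es))

theorem spec_of_eq {M : Model} {t : Tag} {ws : List (List Letter × ℕ)}
    (hok : M.okGroup t ws = true) {es : List ℕ} (hes : ws.map Prod.snd = es) (hn : M.n ≤ 64)
    {R : List Row} (hR : (R.all fun r => M.okRow t r) = true) (hne : es ≠ [])
    (hsep : sepRows es R = true) {r r' : Row} (hr : r ∈ R) (hr' : r' ∈ R) {x y : ℝ}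
    (hinj : ∀ i < M.n, ∀ j < M.n, M.pt x y i = M.pt x y j → i = j)
    (h : cfgOf M.n (M.pt x y) (masks r.W es) = cfgOf M.n (M.pt x y) (masks r'.W es)) :
    r.spec = r'.spec := by
  rw [List.all_eq_true] at hR
  have hp : es.headD 0 ∈ es := by
    cases es with
    | nil => exact absurd rfl hne
    | cons a l => simp
  have h1 := masks_of_eq hok hes hn (hR r hr) (hR r' hr') hinj h hp
  unfold sepRows at hsep
  rw [List.all_eq_true] at hsep
  have h2 := hsep r' hr'
  rw [List.all_eq_true] at h2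
  have h3 := h2 r hr
  rw [h1] at h3
  simpa using h3

/-- the description of a member of a family -/
def specOf (e : Tag × Word × Word) (k : Kind) : Spec :=
  match k with
  | .A => .A e.2.1 e.2.2
  | .B => .B e.2.1 e.2.2
  | .B' => .B e.2.1 (e.2.1 ++ e.2.2)

theorem specOf_face (e : Tag × Word × Word) (k : Kind) (v : Fin 3 → ℝ) :
    (specOf e k).face v = k.face v (ev e.2.1) (ev e.2.2) := by
  cases k
  · rfl
  · rfl
  · simp only [specOf, Spec.face, Kind.face, ev_append]

/-- all kinds -/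
def kinds : List Kind := [.A, .B, .B']

theorem mem_kinds (k : Kind) : k ∈ kinds := by cases k <;> decide

theorem specOf_inj_check : (familyList.all fun e => familyList.all fun e' => kinds.all fun k =>
    kinds.all fun k' => !(decide (e.1 = e'.1) && decide (specOf e k = specOf e' k')) ||
      (decide (e = e') && decide (k = k'))) = true := by
  decide +kernel

theorem specOf_inj {e e' : Tag × Word × Word} (he : e ∈ familyList) (he' : e' ∈ familyList)
    {k k' : Kind} (ht : e.1 = e'.1) (h : specOf e k = specOf e' k') : e = e' ∧ k = k' := by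
  have h1 := specOf_inj_check
  simp only [List.all_eq_true] at h1
  have h2 := h1 e he e' he' k (mem_kinds k) k' (mem_kinds k')
  simpa [ht, h] using h2

theorem row_of_inF {R : List Row} {e : Tag × Word × Word} (h : inF R e.2.1 e.2.2 = true)
    (k : Kind) : ∃ r ∈ R, r.spec = specOf e k := by
  unfold inF at h
  simp only [Bool.and_eq_true, List.any_eq_true, decide_eq_true_eq] at h
  obtain ⟨⟨r1, hr1, s1⟩, ⟨r2, hr2, s2⟩, ⟨r3, hr3, s3⟩⟩ := h
  cases k
  · exact ⟨r1, hr1, s1⟩
  · exact ⟨r2, hr2, s2⟩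
  · exact ⟨r3, hr3, s3⟩

end Pool.Agent.H38.FT
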