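import Pool.Agent.H38.FT.RowSep

/-!
Kernel tests: the rows of the families are different.
-/

namespace Pool.Agent.H38.FT

open Code

theorem ihm_sep : sepRows ihmIhE ihmR = true := by decide +kernel

theorem thm_sep : sepRows thmThE thmR = true := by decide +kernel

theorem tdm_sep : sepRows tdmTdE tdmR = true := by decide +kernel

theorem ohs_sep : sepRows ohsOhE ohsR = true := by decide +kernel

/-- the elements commuting with `S` map the point 0 to a point with coordinates `±x, ±y, 0` -/
def commSign (M : Model) (ws : List (List Letter × ℕ)) (S : List Letter) : Bool :=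
  ws.all fun e => !((List.range M.n).all fun i =>
      Nat.beq (act e.2 (M.actW S i)) (M.actW S (act e.2 i))) ||
    ((zeq (M.pts.getD (act e.2 0) default).a0 (2, 0) ||
      zeq (M.pts.getD (act e.2 0) default).a0 (-2, 0)) &&
    (zeq (M.pts.getD (act e.2 0) default).b0 (0, 0) &&
    (zeq (M.pts.getD (act e.2 0) default).a1 (0, 0) &&
    (zeq (M.pts.getD (act e.2 0) default).b1 (2, 0) ||
      zeq (M.pts.getD (act e.2 0) default).b1 (-2, 0)))))

theorem ihm_comm : commSign ihmM ihmIh [.n, .c, .c, .d, .c] = true := by decide +kernel

end Pool.Agent.H38.FT
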