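import Pool.Agent.H38.FT.GP
import Pool.Agent.H38.FT.Trans
import Pool.Agent.H38.FT.SpanAff
import Pool.Agent.H59.FT.Reduction

/-!
Similar configurations with irreducible groups differ by a linear similarity; the matrices of the
symmetries form a finite group.
-/

namespace Pool.Agent.H38.FT

open Matrix Pool.Agent.H59.FT

theorem symG_fin {Q : Cfg (Fin 3 → ℝ)} (hfin : Q.V.Finite) (hspan : affineSpan ℝ Q.V = ⊤) :
    IsFinGroup (symG Q) := by
  have h1 : (Q.map (WithLp.toLp 2) : Cfg E3).V.Finite := hfin.image _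
  have h2 : affineSpan ℝ (Q.map (WithLp.toLp 2) : Cfg E3).V = ⊤ :=
    AffineMap.span_eq_top_of_surjective (k := ℝ)
    (WithLp.linearEquiv 2 ℝ (Fin 3 → ℝ)).symm.toLinearMap.toAffineMap (s := Q.V)
    (WithLp.linearEquiv 2 ℝ (Fin 3 → ℝ)).symm.surjective hspan
  have h3 := isFinGroup_symG h1 h2 0
  have h4 : (Q.map (WithLp.toLp 2) : Cfg E3).map (toC 0) = Q := by
    rw [Cfg.map_map]
    have : (fun x : Fin 3 → ℝ => toC 0 (WithLp.toLp 2 x)) = fun x => x := by
      funext x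
      unfold toC
      simp
    rw [this, Cfg.map_id']
  rw [h4] at h3
  exact h3

theorem GP.sum_zero {Q : Cfg (Fin 3 → ℝ)} {t : Tag} (h : GP Q t) (hfin : Q.V.Finite) :
    ∑ x ∈ hfin.toFinset, x = 0 := by
  classical
  set S := ∑ x ∈ hfin.toFinset, x with hS
  have key : ∀ A ∈ t.group, A *ᵥ S = S := by
    intro A hA
    have hinj := Tag.inj hA
    have himg : hfin.toFinset.image (fun x => A *ᵥ x) = hfin.toFinset := by
      ext z
      rw [Finset.mem_image, hfin.mem_toFinset]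
      have hV : (fun x => A *ᵥ x) '' Q.V = Q.V := congrArg Cfg.V (h.sym A hA)
      constructor
      · rintro ⟨x, hx, rfl⟩
        rw [← hV]
        exact ⟨x, hfin.mem_toFinset.1 hx, rfl⟩
      · intro hz
        rw [← hV] at hz
        obtain ⟨x, hx, rfl⟩ := hz
        exact ⟨x, hfin.mem_toFinset.2 hx, rfl⟩
    have h1 : A *ᵥ S = ∑ x ∈ hfin.toFinset, A *ᵥ x := by
      rw [hS, Matrix.mulVec_sum]
    rw [h1, hS]
    conv_rhs => rw [← himg]
    rw [Finset.sum_image (fun a _ b _ hab => hinj hab)]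
  have hc := key _ (c_mem t)
  have hd := key _ (d_mem t)
  rw [gen_c_apply] at hc
  rw [gen_d_apply] at hd
  have c0 := congrFun hc 0
  have c1 := congrFun hc 1
  have d1 := congrFun hd 1
  have d2 := congrFun hd 2
  simp at c0 c1 d1 d2
  funext i
  fin_cases i
  · change S 0 = 0; linarith
  · change S 1 = 0; linarith
  · change S 2 = 0; linarith

theorem similar_matrix {Q1 Q2 : Cfg (Fin 3 → ℝ)} {t1 t2 : Tag} (h1 : GP Q1 t1) (h2 : GP Q2 t2)
    (f1 : Q1.V.Finite) (f2 : Q2.V.Finite)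
    (h : Similar (Q1.map (WithLp.toLp 2)) (Q2.map (WithLp.toLp 2))) :
    ∃ c : ℝ, 0 < c ∧ ∃ A : Mat, Aᵀ * A = 1 ∧ Q1 = Q2.map (fun x => c • (A *ᵥ x)) := by
  classical
  obtain ⟨r, hr, g, hg⟩ := h
  obtain ⟨A, hA, hgA⟩ := exists_matrix g
  set b : Fin 3 → ℝ := WithLp.ofLp (g 0) with hb
  -- in coordinates
  have hQ : Q1 = Q2.map (fun x => r • (A *ᵥ x + b)) := by
    have e1 : (Q1.map (WithLp.toLp 2) : Cfg E3).map WithLp.ofLp = Q1 := by
      rw [Cfg.map_map]
      exact Cfg.map_id' Q1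
    rw [← e1, hg, Cfg.map_map, Cfg.map_map]
    congr 1
    funext x
    change WithLp.ofLp (r • g (WithLp.toLp 2 x)) = _
    rw [WithLp.ofLp_smul, hgA]
  have hinj : Function.Injective (fun x : Fin 3 → ℝ => r • (A *ᵥ x + b)) := by
    intro x y hxy
    have h3 : r • (A *ᵥ x + b) = r • (A *ᵥ y + b) := hxy
    have h4 : A *ᵥ x + b = A *ᵥ y + b := by
      have := congrArg (fun z => r⁻¹ • z) h3
      simpa [smul_smul, hr.ne'] using this
    have h5 : A *ᵥ x = A *ᵥ y := add_right_cancel h4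
    have := congrArg (fun z => Aᵀ *ᵥ z) h5
    simpa [mulVec_mulVec, hA] using this
  have himg : f1.toFinset = f2.toFinset.image (fun x => r • (A *ᵥ x + b)) := by
    ext z
    rw [Finset.mem_image, f1.mem_toFinset]
    have hV : Q1.V = (fun x => r • (A *ᵥ x + b)) '' Q2.V := congrArg Cfg.V hQ
    constructor
    · intro hz
      rw [hV] at hz
      obtain ⟨x, hx, rfl⟩ := hz
      exact ⟨x, f2.mem_toFinset.2 hx, rfl⟩
    · rintro ⟨x, hx, rfl⟩
      rw [hV]
      exact ⟨x, f2.mem_toFinset.1 hx, rfl⟩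
  have hsum : ∑ x ∈ f1.toFinset, x = r • (A *ᵥ (∑ x ∈ f2.toFinset, x) + (f2.toFinset.card : ℝ) • b) := by
    rw [himg, Finset.sum_image (fun a _ b _ hab => hinj hab), ← Finset.smul_sum,
      Finset.sum_add_distrib, Matrix.mulVec_sum, Finset.sum_const, ← Nat.cast_smul_eq_nsmul ℝ]
  rw [h1.sum_zero f1, h2.sum_zero f2, Matrix.mulVec_zero, zero_add, smul_smul] at hsum
  have hcard : (f2.toFinset.card : ℝ) ≠ 0 := by
    have : f2.toFinset.Nonempty := by
      obtain ⟨x, hx⟩ := h2.poly.nonempty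
      exact ⟨x, f2.mem_toFinset.2 hx⟩
    exact Nat.cast_ne_zero.2 (Finset.card_pos.2 this).ne'
  have hb0 : b = 0 := by
    rcases smul_eq_zero.1 hsum.symm with h3 | h3
    · exact absurd h3 (mul_ne_zero hr.ne' hcard)
    · exact h3
  refine ⟨r, hr, A, hA, ?_⟩
  rw [hb0] at hQ
  simpa using hQ

end Pool.Agent.H38.FT
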