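import Pool.Agent.H38.FT.UniqIh

/-!
The number of vertices of the items, and their coded forms.
-/

namespace Pool.Agent.H38.FT

open Matrix Code

theorem cfgOf_V_ncard {X : Type*} {n : ℕ} {pt : ℕ → X}
    (hinj : ∀ i < n, ∀ j < n, pt i = pt j → i = j) (r : List ℕ) : (cfgOf n pt r).V.ncard = n := by
  have : (cfgOf n pt r).V = pt '' {i | i < n} := by
    ext z
    constructor
    · rintro ⟨i, hi, rfl⟩
      exact ⟨i, hi, rfl⟩
    · rintro ⟨i, hi, rfl⟩
      exact ⟨i, hi, rfl⟩
  have h1 : Set.InjOn pt {i | i < n} := fun i hi j hj h => hinj i hi j hj h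
  rw [this, h1.ncard_image]
  have h2 : {i | i < n} = ((Finset.range n : Finset ℕ) : Set ℕ) := by
    ext i; simp
  rw [h2, Set.ncard_coe_finset, Finset.card_range]

theorem map_V_ncard {P : Cfg (Fin 3 → ℝ)} {c : ℝ} (hc : c ≠ 0) {A : Mat} (hA : Aᵀ * A = 1) :
    (P.map (fun x => c • (A *ᵥ x))).V.ncard = P.V.ncard := by
  apply Set.ncard_image_of_injective
  intro x y hxy
  have h1 := congrArg (fun z => Aᵀ *ᵥ (c⁻¹ • z)) hxy
  simpa [smul_smul, hc, mulVec_mulVec, hA] using h1

/-- number of vertices of an item -/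
def Item.size : Item → ℕ
  | .rigid (.Td, _, _) => 4
  | .rigid (.Oh, .v100, _) => 6
  | .rigid (.Oh, _, _) => 8
  | .rigid (_, .v01g, _) => 12
  | .rigid (_, .v111, _) => 20
  | .rigid (_, .v100, _) => 30
  | .family (.Th, _) _ _ => 12
  | .family (.Td, _) _ _ => 12
  | .family (.Oh, _) _ _ => 24
  | .family _ _ _ => 60

theorem rigid_size_of {t : Tag} {v : Vtx} {M : Model} {ws : List (List Letter × ℕ)}
    (hok : M.okGroup t ws = true)
    (htr : M.okTrans ws = true) {es : List ℕ} (hes : ws.map Prod.snd = es) (h0 : 0 < M.n)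
    (hn : M.n ≤ 64) (hd : M.distinct = true) (hz : M.zeroB = true) {R : List Row}
    (hR : (R.all fun r => M.okRow t r) = true) (hpt : M.pt 1 0 0 = v.vec)
    {e : Tag × Vtx × List Letter × List Letter × List Letter} (he : inC t v R e = true) :
    (Item.rigid e).cfg.V.ncard = M.n := by
  obtain ⟨h1, h2, r, hr, hspec⟩ := inC_sound he
  rw [List.all_eq_true] at hR
  have h3 : (Item.rigid e).cfg = cfgOf M.n (M.pt 1 0) (masks r.W es) := by
    rw [← orbitCfg_eq hok htr h0 hn hes (hR r hr) 1 0, hpt, hspec]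
    unfold Item.cfg
    simp only
    rw [h1, h2]
    rfl
  rw [h3, cfgOf_V_ncard (Model.inj_axis hd hz one_ne_zero 0)]

theorem item_size {i : Item} (hi : i.Valid) : i.cfg.V.ncard = i.size := by
  cases i with
  | rigid e =>
    have h1 := rigid_cover
    rw [List.all_eq_true] at h1
    have h2 := h1 e hi
    simp only [Bool.or_eq_true] at h2
    rcases h2 with h2 | h2 | h2 | h2 | h2 | h2
    · rw [rigid_size_of tetTd_ok tetTd_trans tetTd_map (by decide) (by decide) tetM_distinct
        tetM_zeroB tetR_ok (by rw [tetM_pt]; simp [Vtx.vec]) h2]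
      obtain ⟨h3, h4, -⟩ := inC_sound h2
      obtain ⟨t, v, w⟩ := e
      simp only at h3 h4
      subst h3; subst h4; rfl
    · rw [rigid_size_of octOh_ok octOh_trans octOh_map (by decide) (by decide) octM_distinct
        octM_zeroB octR_ok (by rw [octM_pt]; simp [Vtx.vec]) h2]
      obtain ⟨h3, h4, -⟩ := inC_sound h2
      obtain ⟨t, v, w⟩ := e
      simp only at h3 h4
      subst h3; subst h4; rfl
    · rw [rigid_size_of cubOh_ok cubOh_trans cubOh_map (by decide) (by decide) cubM_distinct
        cubM_zeroB cubR_ok (by rw [cubM_pt]; simp [Vtx.vec]) h2]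
      obtain ⟨h3, h4, -⟩ := inC_sound h2
      obtain ⟨t, v, w⟩ := e
      simp only at h3 h4
      subst h3; subst h4; rfl
    · rw [rigid_size_of icoIh_ok icoIh_trans icoIh_map (by decide) (by decide) icoM_distinct
        icoM_zeroB icoR_ok (by rw [icoM_pt]; simp [Vtx.vec]) h2]
      obtain ⟨h3, h4, -⟩ := inC_sound h2
      obtain ⟨t, v, w⟩ := e
      simp only at h3 h4
      subst h3; subst h4; rfl
    · rw [rigid_size_of dodIh_ok dodIh_trans dodIh_map (by decide) (by decide) dodM_distinct
        dodM_zeroB dodR_ok (by rw [dodM_pt]; simp [Vtx.vec]) h2]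
      obtain ⟨h3, h4, -⟩ := inC_sound h2
      obtain ⟨t, v, w⟩ := e
      simp only at h3 h4
      subst h3; subst h4; rfl
    · rw [rigid_size_of iciIh_ok iciIh_trans iciIh_map (by decide) (by decide) iciM_distinct
        iciM_zeroB iciR_ok (by rw [iciM_pt]; simp [Vtx.vec]) h2]
      obtain ⟨h3, h4, -⟩ := inC_sound h2
      obtain ⟨t, v, w⟩ := e
      simp only at h3 h4
      subst h3; subst h4; rfl
  | family e k s =>
    have hst := stab_item hi.1 hi.2
    have h1 := family_cover
    rw [List.all_eq_true] at h1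
    have h2 := h1 e hi.1
    simp only [Bool.or_eq_true, Bool.and_eq_true, decide_eq_true_eq] at h2
    have hr := hi.2
    obtain ⟨t, σ, a⟩ := e
    simp only at h2 hst hr
    rcases h2 with ⟨rfl, rfl, h2⟩ | ⟨rfl, rfl, h2⟩ | ⟨rfl, rfl, h2⟩ | ⟨rfl, rfl, h2⟩
    · obtain ⟨r, hr, -, hc⟩ := family_coded thmTh_ok thmTh_trans (by decide) (by decide)
        thmTh_map thmR_ok (e := (.Th, [.n, .c, .c, .d, .c], a)) rfl h2 k (s := s)
        (by rw [thmM_pt]; rfl)
      rw [hc, cfgOf_V_ncard]
      · rfl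
      · refine Model.inj_mirror thmM_distinct thmTh_ok thmTh_trans (by decide) thm_fix ?_
        rw [thmM_pt]
        exact fun A hA h => (hst A hA).1 h
    · obtain ⟨r, hr, -, hc⟩ := family_coded tdmTd_ok tdmTd_trans (by decide) (by decide)
        tdmTd_map tdmR_ok (e := (.Td, [.s], a)) rfl h2 k (s := s)
        (by rw [tdmM_pt]; rfl)
      rw [hc, cfgOf_V_ncard]
      · rfl
      · refine Model.inj_mirror tdmM_distinct tdmTd_ok tdmTd_trans (by decide) tdm_fix ?_
        rw [tdmM_pt]
        exact fun A hA h => (hst A hA).1 h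
    · obtain ⟨r, hr, -, hc⟩ := family_coded ohsOh_ok ohsOh_trans (by decide) (by decide)
        ohsOh_map ohsR_ok (e := (.Oh, [.n, .d, .q], a)) rfl h2 k (s := s)
        (by rw [ohsM_pt]; rfl)
      rw [hc, cfgOf_V_ncard]
      · rfl
      · refine Model.inj_mirror ohsM_distinct ohsOh_ok ohsOh_trans (by decide) ohs_fix ?_
        rw [ohsM_pt]
        exact fun A hA h => (hst A hA).1 h
    · obtain ⟨r, hr, -, hc⟩ := family_coded ihmIh_ok ihmIh_trans (by decide) (by decide)
        ihmIh_map ihmR_ok (e := (.Ih, [.n, .c, .c, .d, .c], a)) rfl h2 k (s := s)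
        (by rw [ihmM_pt]; rfl)
      rw [hc, cfgOf_V_ncard]
      · rfl
      · refine Model.inj_mirror ihmM_distinct ihmIh_ok ihmIh_trans (by decide) ihm_fix ?_
        rw [ihmM_pt]
        exact fun A hA h => (hst A hA).1 h

/-- the vertex set of a polyhedron of the family `Th` is centrally symmetric -/
theorem th_central {P : Cfg (Fin 3 → ℝ)} (h : GP P .Th) {x : Fin 3 → ℝ} (hx : x ∈ P.V) :
    -x ∈ P.V := by
  have := h.image_mem hx (A := ev [.n]) (Tag.ev_mem (by decide))
  rwa [n_apply] at this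

/-- the product of the coordinates is invariant under `Td` -/
theorem td_prod {A : Mat} (hA : A ∈ Tag.Td.group) (v : Fin 3 → ℝ) :
    (A *ᵥ v) 0 * (A *ᵥ v) 1 * (A *ᵥ v) 2 = v 0 * v 1 * v 2 := by
  unfold Tag.group at hA
  induction hA using Submonoid.closure_induction_left generalizing v with
  | one => simp
  | mul_left C hC D hD ih =>
    obtain ⟨l, hl, rfl⟩ := hC
    rw [← mulVec_mulVec, ← ih v]
    generalize D *ᵥ v = w
    simp only [Tag.letters, List.mem_cons, List.not_mem_nil, or_false] at hl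
    rcases hl with rfl | rfl | rfl
    · rw [gen_c_apply]; simp; ring
    · rw [gen_d_apply]; simp
    · have hs : gen .s *ᵥ w = ![w 1, w 0, w 2] := by
        funext i
        fin_cases i <;> simp [gen, Matrix.mulVec, dotProduct, Fin.sum_univ_three]
      rw [hs]
      change w 1 * w 0 * w 2 = _
      ring

/-- the vertex set of a member of the family `Td` is not centrally symmetric -/
theorem td_not_central {e : Tag × Word × Word} (ht : e.1 = .Td) {k : Kind} {s : ℝ} (hs : 0 < s) :
    ![1, 1, s] ∈ (Item.family e k s).cfg.V ∧ -![1, 1, s] ∉ (Item.family e k s).cfg.V := by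
  have hvx : e.1.vertex s = ![1, 1, s] := by rw [ht]; rfl
  constructor
  · exact ⟨1, one_mem _, by rw [one_mulVec, hvx]⟩
  · rintro ⟨A, hA, h⟩
    rw [hvx] at h
    rw [ht] at hA
    have h1 := td_prod hA ![1, 1, s]
    rw [← h] at h1
    simp at h1
    linarith

/-- a member of a family with group `Th` and one with group `Td` are not similar -/
theorem th_td_distinct {P : Cfg (Fin 3 → ℝ)} (hP : GP P .Th) {e : Tag × Word × Word}
    (ht : e.1 = .Td) {k : Kind} {s : ℝ} (hs : 0 < s) {c : ℝ} {A : Mat} :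
    (Item.family e k s).cfg ≠ P.map (fun x => c • (A *ᵥ x)) := by
  intro h
  obtain ⟨h1, h2⟩ := td_not_central ht (k := k) hs
  rw [h] at h1
  obtain ⟨x, hx, hx'⟩ := h1
  apply h2
  rw [h, ← hx']
  refine ⟨-x, th_central hP hx, ?_⟩
  simp [mulVec_neg]

end Pool.Agent.H38.FT
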