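import Pool.Agent.H38.FT.Comb2
import Pool.Agent.H38.FT.Dec
import Pool.Agent.H38.FT.Bits

/-!
Soundness of the finite search: local structure.
-/

namespace Pool.Agent.H38.FT.Code

open Cfg

variable {X : Type*}

/-- The symmetry `g` of `P` acts on the points `pt i` as the coded permutation `p`. -/
structure Impl (P : Cfg X) (n : ℕ) (pt : ℕ → X) (p : ℕ) (g : X → X) : Prop where
  inj : Function.Injective g
  map : P.map g = P
  act : ∀ i < n, Code.act p i < n ∧ g (pt i) = pt (Code.act p i)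

/-- A polyhedron with coded vertices, whose symmetries in the list `elts` are transitive on the
edges and on the faces. -/
structure Sys (P : Cfg X) (n : ℕ) (pt : ℕ → X) (elts : List ℕ) : Prop where
  poly : P.IsPolyhedron
  V_iff : ∀ x, x ∈ P.V ↔ ∃ i < n, x = pt i
  inj : ∀ i < n, ∀ j < n, pt i = pt j → i = j
  vtrans : P.VTrans
  sym : ∀ p ∈ elts, ∃ g : X → X, Impl P n pt p g
  tE : ∀ e ∈ P.E, ∀ e' ∈ P.E, ∃ p ∈ elts, ∃ g : X → X, Impl P n pt p g ∧ Sym2.map g e = e'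
  tF : ∀ f ∈ P.F, ∀ f' ∈ P.F, ∃ p ∈ elts, ∃ g : X → X, Impl P n pt p g ∧ Sym2.map g '' f = f'

/-- A coded corner of the face `f`. -/
structure Crn (n : ℕ) (pt : ℕ → X) (f : Set (Sym2 X)) (a b c : ℕ) : Prop where
  ha : a < n
  hb : b < n
  hc : c < n
  ne : a ≠ c
  e1 : s(pt a, pt b) ∈ f
  e2 : s(pt b, pt c) ∈ f

variable {P : Cfg X} {n : ℕ} {pt : ℕ → X} {elts : List ℕ}

theorem Crn.symm {f : Set (Sym2 X)} {a b c : ℕ} (h : Crn n pt f a b c) : Crn n pt f c b a :=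
  ⟨h.hc, h.hb, h.ha, h.ne.symm, by rw [Sym2.eq_swap]; exact h.e2,
    by rw [Sym2.eq_swap]; exact h.e1⟩

namespace Sys

theorem pt_ne (S : Sys P n pt elts) {i j : ℕ} (hi : i < n) (hj : j < n) (h : i ≠ j) :
    pt i ≠ pt j := fun h' => h (S.inj i hi j hj h')

theorem code_of_edge (S : Sys P n pt elts) {x y : X} (h : s(x, y) ∈ P.E) :
    ∃ i < n, ∃ j < n, x = pt i ∧ y = pt j := by
  obtain ⟨i, hi, hx⟩ := (S.V_iff x).1 (S.poly.left_mem h)
  obtain ⟨j, hj, hy⟩ := (S.V_iff y).1 (S.poly.right_mem h)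
  exact ⟨i, hi, j, hj, hx, hy⟩

theorem crn_ext (S : Sys P n pt elts) {f : Set (Sym2 X)} (hf : f ∈ P.F) {a b c t : ℕ}
    (h : Crn n pt f a b c) (ht : t < n) (h' : s(pt b, pt t) ∈ f) : t = a ∨ t = c := by
  obtain ⟨z, hz, -, hall⟩ := S.poly.next hf h.e1
  have h1 : pt c = z := by
    rcases hall _ h.e2 with h1 | h1
    · exact absurd (S.inj _ h.hc _ h.ha h1).symm h.ne
    · exact h1
  rcases hall _ h' with h2 | h2
  · left; exact S.inj _ ht _ h.ha h2
  · right; exact S.inj _ ht _ h.hc (h2.trans h1.symm)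

theorem crn_next (S : Sys P n pt elts) {f : Set (Sym2 X)} (hf : f ∈ P.F) {a b c : ℕ}
    (h : Crn n pt f a b c) : ∃ d, Crn n pt f b c d := by
  obtain ⟨z, hz, hcz, -⟩ := S.poly.next hf h.e2
  obtain ⟨-, -, d, hd, -, rfl⟩ := S.code_of_edge (S.poly.face_sub hf hcz)
  exact ⟨d, h.hb, h.hc, hd, fun h' => hz (by rw [h']), h.e2, hcz⟩

theorem crn_det (S : Sys P n pt elts) {f : Set (Sym2 X)} (hf : f ∈ P.F) {a b c d : ℕ}
    (h : Crn n pt f a b c) (h' : Crn n pt f a b d) : c = d := by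
  rcases S.crn_ext hf h h'.hc h'.e2 with h1 | h1
  · exact absurd h1.symm h'.ne
  · exact h1.symm

theorem crn_det' (S : Sys P n pt elts) {f : Set (Sym2 X)} (hf : f ∈ P.F) {a b c d : ℕ}
    (h : Crn n pt f a b c) (h' : Crn n pt f d b c) : a = d :=
  S.crn_det hf h.symm h'.symm

theorem crn_unique (S : Sys P n pt elts) {f g : Set (Sym2 X)} (hf : f ∈ P.F) (hg : g ∈ P.F)
    {a b c : ℕ} (h : Crn n pt f a b c) (h' : Crn n pt g a b c) : f = g :=
  S.poly.corner_unique (S.poly.deg3 S.vtrans _ ((S.V_iff _).2 ⟨b, h.hb, rfl⟩))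
    (S.pt_ne h.ha h.hc h.ne) hf hg h.e1 h.e2 h'.e1 h'.e2

theorem act_inj (S : Sys P n pt elts) {p : ℕ} {g : X → X} (hg : Impl P n pt p g) {a b : ℕ}
    (ha : a < n) (hb : b < n) (h : act p a = act p b) : a = b := by
  apply S.inj a ha b hb
  apply hg.inj
  rw [(hg.act a ha).2, (hg.act b hb).2, h]

theorem edge_image {p : ℕ} {g : X → X} (hg : Impl P n pt p g) {f : Set (Sym2 X)} {a b : ℕ}
    (ha : a < n) (hb : b < n) (h : s(pt a, pt b) ∈ f) :
    s(pt (act p a), pt (act p b)) ∈ Sym2.map g '' f := by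
  refine ⟨s(pt a, pt b), h, ?_⟩
  rw [← (hg.act a ha).2, ← (hg.act b hb).2]
  rfl

theorem crn_act (S : Sys P n pt elts) {p : ℕ} {g : X → X} (hg : Impl P n pt p g)
    {f : Set (Sym2 X)} {a b c : ℕ} (h : Crn n pt f a b c) :
    Crn n pt (Sym2.map g '' f) (act p a) (act p b) (act p c) :=
  ⟨(hg.act a h.ha).1, (hg.act b h.hb).1, (hg.act c h.hc).1,
    fun h' => h.ne (S.act_inj hg h.ha h.hc h'), edge_image hg h.ha h.hb h.e1,
    edge_image hg h.hb h.hc h.e2⟩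

/-- transitivity on the edges, in coded form -/
theorem tE_code (S : Sys P n pt elts) {i j k l : ℕ} (hi : i < n) (hj : j < n) (hk : k < n)
    (hl : l < n) (h : s(pt i, pt j) ∈ P.E) (h' : s(pt k, pt l) ∈ P.E) :
    ∃ p ∈ elts, ∃ g : X → X, Impl P n pt p g ∧
      ((act p i = k ∧ act p j = l) ∨ (act p i = l ∧ act p j = k)) := by
  obtain ⟨p, hp, g, hg, hmap⟩ := S.tE _ h _ h'
  refine ⟨p, hp, g, hg, ?_⟩
  have h1 : s(pt (act p i), pt (act p j)) = s(pt k, pt l) := by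
    rw [← (hg.act i hi).2, ← (hg.act j hj).2]
    exact hmap
  rw [Sym2.eq_iff] at h1
  rcases h1 with ⟨h1, h2⟩ | ⟨h1, h2⟩
  · left
    exact ⟨S.inj _ (hg.act i hi).1 _ hk h1, S.inj _ (hg.act j hj).1 _ hl h2⟩
  · right
    exact ⟨S.inj _ (hg.act i hi).1 _ hl h1, S.inj _ (hg.act j hj).1 _ hk h2⟩

end Sys

/-- The local data at the base edge `{0, u}`. -/
structure Loc (P : Cfg X) (n : ℕ) (pt : ℕ → X) (f1 f2 : Set (Sym2 X)) (u w1 w2 z1 z2 : ℕ) :
    Prop where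
  hf1 : f1 ∈ P.F
  hf2 : f2 ∈ P.F
  ne : f1 ≠ f2
  all : ∀ k ∈ P.F, s(pt 0, pt u) ∈ k → k = f1 ∨ k = f2
  c1 : Crn n pt f1 w1 0 u
  c1' : Crn n pt f1 0 u z1
  c2 : Crn n pt f2 w2 0 u
  c2' : Crn n pt f2 0 u z2

variable {f1 f2 : Set (Sym2 X)} {u w1 w2 z1 z2 : ℕ}

theorem Loc.base_ok (L : Loc P n pt f1 f2 u w1 w2 z1 z2) {q : Quad}
    (hq : q ∈ base u w1 w2 z1 z2) : ∃ f ∈ P.F, Crn n pt f q.1 q.2.1 q.2.2.1 ∧
      Crn n pt f q.2.1 q.2.2.1 q.2.2.2 := by
  simp only [base, List.mem_cons, List.not_mem_nil, or_false] at hq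
  rcases hq with rfl | rfl | rfl | rfl
  · exact ⟨f1, L.hf1, L.c1, L.c1'⟩
  · exact ⟨f2, L.hf2, L.c2, L.c2'⟩
  · exact ⟨f1, L.hf1, L.c1'.symm, L.c1.symm⟩
  · exact ⟨f2, L.hf2, L.c2'.symm, L.c2.symm⟩

theorem Loc.quad_ok (S : Sys P n pt elts) (L : Loc P n pt f1 f2 u w1 w2 z1 z2) {p : ℕ}
    (hp : p ∈ elts) {q : Quad} (hq : q ∈ base u w1 w2 z1 z2) :
    ∃ f ∈ P.F, Crn n pt f (act p q.1) (act p q.2.1) (act p q.2.2.1) ∧
      Crn n pt f (act p q.2.1) (act p q.2.2.1) (act p q.2.2.2) := by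
  obtain ⟨g, hg⟩ := S.sym p hp
  obtain ⟨f, hf, h1, h2⟩ := L.base_ok hq
  exact ⟨_, map_F_mem hg.map hf, S.crn_act hg h1, S.crn_act hg h2⟩

theorem Loc.complete (S : Sys P n pt elts) (L : Loc P n pt f1 f2 u w1 w2 z1 z2)
    {f : Set (Sym2 X)} (hf : f ∈ P.F) {a b c : ℕ} (h : Crn n pt f a b c) :
    ∃ p ∈ elts, ∃ q ∈ base u w1 w2 z1 z2, act p q.1 = a ∧ act p q.2.1 = b ∧
      act p q.2.2.1 = c := by
  have h0 : 0 < n := L.c1.hb
  have hu : u < n := L.c1.hc
  obtain ⟨p, hp, g, hg, hor⟩ := S.tE_code h0 hu h.hb h.hc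
    (S.poly.face_sub L.hf1 L.c1.e2) (S.poly.face_sub hf h.e2)
  refine ⟨p, hp, ?_⟩
  have hF1 := map_F_mem hg.map L.hf1
  have hF2 := map_F_mem hg.map L.hf2
  have hne : Sym2.map g '' f1 ≠ Sym2.map g '' f2 := fun h' =>
    L.ne ((Set.image_injective.2 (Sym2.map.injective hg.inj)) h')
  -- the face f is the image of f1 or of f2
  have himg : f = Sym2.map g '' f1 ∨ f = Sym2.map g '' f2 := by
    have he : s(pt b, pt c) ∈ Sym2.map g '' f1 ∧ s(pt b, pt c) ∈ Sym2.map g '' f2 := by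
      have k1 := Sys.edge_image hg h0 hu L.c1.e2
      have k2 := Sys.edge_image hg h0 hu L.c2.e2
      rcases hor with ⟨h1, h2⟩ | ⟨h1, h2⟩
      · rw [h1, h2] at k1 k2
        exact ⟨k1, k2⟩
      · rw [h1, h2, Sym2.eq_swap] at k1 k2
        exact ⟨k1, k2⟩
    obtain ⟨F, G, -, -, -, -, -, hall⟩ := S.poly.two_faces (S.poly.face_sub hf h.e2)
    rcases hall _ hF1 he.1 with h1 | h1 <;> rcases hall _ hF2 he.2 with h2 | h2 <;>
      rcases hall _ hf h.e2 with h3 | h3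
    · exact absurd (h1.trans h2.symm) hne
    · exact absurd (h1.trans h2.symm) hne
    · left; rw [h1, h3]
    · right; rw [h2, h3]
    · right; rw [h2, h3]
    · left; rw [h1, h3]
    · exact absurd (h1.trans h2.symm) hne
    · exact absurd (h1.trans h2.symm) hne
  rcases hor with ⟨h1, h2⟩ | ⟨h1, h2⟩
  · rcases himg with h3 | h3
    · refine ⟨(w1, 0, u, z1), by simp [base], ?_, h1, h2⟩
      have := S.crn_act hg L.c1
      rw [h1, h2, ← h3] at this
      exact S.crn_det' hf this h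
    · refine ⟨(w2, 0, u, z2), by simp [base], ?_, h1, h2⟩
      have := S.crn_act hg L.c2
      rw [h1, h2, ← h3] at this
      exact S.crn_det' hf this h
  · rcases himg with h3 | h3
    · refine ⟨(z1, u, 0, w1), by simp [base], ?_, h2, h1⟩
      have := S.crn_act hg L.c1'.symm
      rw [h1, h2, ← h3] at this
      exact S.crn_det' hf this h
    · refine ⟨(z2, u, 0, w2), by simp [base], ?_, h2, h1⟩
      have := S.crn_act hg L.c2'.symm
      rw [h1, h2, ← h3] at this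
      exact S.crn_det' hf this h

theorem tryQ_some {a b c p d : ℕ} {q : Quad} (h : tryQ a b c p q = some d) :
    act p q.1 = a ∧ act p q.2.1 = b ∧ act p q.2.2.1 = c ∧ act p q.2.2.2 = d := by
  unfold tryQ at h
  cases hc : (Nat.beq (act p q.2.1) b && (Nat.beq (act p q.2.2.1) c && Nat.beq (act p q.1) a))
  · rw [hc] at h; simp at h
  · rw [hc] at h
    simp only [Bool.and_eq_true, Nat.beq_eq] at hc
    simp only [cond_true, Option.some.injEq] at h
    exact ⟨hc.2.2, hc.1, hc.2.1, h⟩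

theorem tryQ_none {a b c p : ℕ} {q : Quad} (h : tryQ a b c p q = none) :
    ¬ (act p q.1 = a ∧ act p q.2.1 = b ∧ act p q.2.2.1 = c) := by
  rintro ⟨h1, h2, h3⟩
  unfold tryQ at h
  rw [h1, h2, h3] at h
  simp at h

theorem Loc.nxt_some (S : Sys P n pt elts) (L : Loc P n pt f1 f2 u w1 w2 z1 z2)
    {f : Set (Sym2 X)} (hf : f ∈ P.F) {a b c d : ℕ} (h : Crn n pt f a b c)
    (hd : nxt elts (base u w1 w2 z1 z2) a b c = some d) : Crn n pt f b c d := by
  unfold nxt at hd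
  obtain ⟨p, hp, hd⟩ := List.exists_of_findSome?_eq_some hd
  obtain ⟨q, hq, hd⟩ := List.exists_of_findSome?_eq_some hd
  obtain ⟨h1, h2, h3, h4⟩ := tryQ_some hd
  obtain ⟨f', hf', h5, h6⟩ := L.quad_ok S hp hq
  rw [h1, h2, h3] at h5
  rw [h2, h3, h4] at h6
  rw [S.crn_unique hf hf' h h5]
  exact h6

theorem Loc.nxt_ne_none (S : Sys P n pt elts) (L : Loc P n pt f1 f2 u w1 w2 z1 z2)
    {f : Set (Sym2 X)} (hf : f ∈ P.F) {a b c : ℕ} (h : Crn n pt f a b c) :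
    nxt elts (base u w1 w2 z1 z2) a b c ≠ none := by
  intro hn
  unfold nxt at hn
  rw [List.findSome?_eq_none_iff] at hn
  obtain ⟨p, hp, q, hq, h1⟩ := L.complete S hf h
  have := hn p hp
  rw [List.findSome?_eq_none_iff] at this
  exact tryQ_none (this q hq) h1

theorem Loc.trace_sound (S : Sys P n pt elts) (L : Loc P n pt f1 f2 u w1 w2 z1 z2) :
    ∀ (k a b c : ℕ) (acc : List (ℕ × ℕ)) (r : Option (List (ℕ × ℕ))), Crn n pt f1 a b c →
    (∀ e ∈ acc, e.1 < n ∧ e.2 < n ∧ s(pt e.1, pt e.2) ∈ f1) →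
    trace (nxt elts (base u w1 w2 z1 z2)) w1 u k a b c acc = some r →
    ∃ W, r = some W ∧ (∀ e ∈ W, e.1 < n ∧ e.2 < n ∧ s(pt e.1, pt e.2) ∈ f1) ∧
      ∀ e ∈ acc, e ∈ W := by
  intro k
  induction k with
  | zero => intro a b c acc r _ _ h; simp [trace] at h
  | succ k ih =>
    intro a b c acc r hc hacc h
    unfold trace at h
    rcases hx : nxt elts (base u w1 w2 z1 z2) a b c with _ | d
    · exact absurd hx (L.nxt_ne_none S L.hf1 hc)
    · rw [hx] at h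
      simp only [force_eq] at h
      have hd := L.nxt_some S L.hf1 hc hx
      cases hb : (Nat.beq b w1 && (Nat.beq c 0 && Nat.beq d u))
      · rw [hb, cond_false] at h
        obtain ⟨W, hW, h1, h2⟩ := ih b c d ((c, d) :: acc) r hd (by
          intro e he
          rcases List.mem_cons.1 he with rfl | he
          · exact ⟨hd.hb, hd.hc, hd.e2⟩
          · exact hacc e he) h
        exact ⟨W, hW, h1, fun e he => h2 e (List.mem_cons_of_mem _ he)⟩
      · rw [hb, cond_true] at h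
        simp only [Option.some.injEq] at h
        exact ⟨acc, h.symm, hacc, fun e he => he⟩

end Pool.Agent.H38.FT.Code
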