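import Pool.Agent.H38.FT.Sound

/-!
Soundness of the finite search: the tests.
-/

namespace Pool.Agent.H38.FT.Code

open Cfg

variable {X : Type*} {P : Cfg X} {n : ℕ} {pt : ℕ → X} {elts : List ℕ}
variable {f1 f2 : Set (Sym2 X)} {u w1 w2 z1 z2 : ℕ}

theorem Sys.nb_complete (S : Sys P n pt elts) (h0 : 0 < n) (hu : u < n)
    (he : s(pt 0, pt u) ∈ P.E) {x y : ℕ} (hx : x < n) (hy : y < n)
    (h : s(pt x, pt y) ∈ P.E) : tb (nbm u x elts) y = true := by
  rw [nbm_iff]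
  obtain ⟨p, hp, g, hg, hor⟩ := S.tE_code h0 hu hx hy he h
  refine ⟨p, hp, ?_⟩
  rcases hor with ⟨h1, h2⟩ | ⟨h1, h2⟩
  · left; exact ⟨h1, h2⟩
  · right; exact ⟨h2, h1⟩

theorem Sys.nb_sound (S : Sys P n pt elts) (h0 : 0 < n) (hu : u < n)
    (he : s(pt 0, pt u) ∈ P.E) {x y : ℕ} (h : tb (nbm u x elts) y = true) :
    x < n ∧ y < n ∧ s(pt x, pt y) ∈ P.E := by
  rw [nbm_iff] at h
  obtain ⟨p, hp, hor⟩ := h
  obtain ⟨g, hg⟩ := S.sym p hp
  have h1 := map_E_mem hg.map he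
  rw [(hg.act 0 h0).2, (hg.act u hu).2] at h1
  rcases hor with ⟨rfl, rfl⟩ | ⟨rfl, rfl⟩
  · exact ⟨(hg.act 0 h0).1, (hg.act u hu).1, h1⟩
  · rw [Sym2.eq_swap] at h1
    exact ⟨(hg.act u hu).1, (hg.act 0 h0).1, h1⟩

theorem Sys.not_disc (S : Sys P n pt elts) (h0 : 0 < n) (hu : u < n)
    (he : s(pt 0, pt u) ∈ P.E) : disc n elts u = false := by
  by_contra hcon
  rw [Bool.not_eq_false] at hcon
  unfold disc at hcon
  rw [force_eq] at hcon
  generalize iter (grow1 u elts) 6 1 = R at hcon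
  rw [Bool.and_eq_true, Bool.and_eq_true] at hcon
  obtain ⟨⟨hcl, hR0⟩, hex⟩ := hcon
  rw [List.all_eq_true] at hcl
  rw [List.any_eq_true] at hex
  obtain ⟨i, hi, hRi⟩ := hex
  rw [List.mem_range] at hi
  have key := S.poly.graph_induct {x | ∃ i < n, x = pt i ∧ tb R i = true}
    (x := pt 0) ((S.V_iff _).2 ⟨0, h0, rfl⟩) ⟨0, h0, rfl, hR0⟩ (by
      rintro _ ⟨a, ha, rfl, hRa⟩ b hb
      obtain ⟨-, -, j, hj, -, rfl⟩ := S.code_of_edge hb
      refine ⟨j, hj, rfl, ?_⟩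
      obtain ⟨p, hp, g, hg, hor⟩ := S.tE_code h0 hu ha hj he hb
      have h1 := hcl p hp
      rw [beq_iff_eq] at h1
      rcases hor with ⟨h2, h3⟩ | ⟨h2, h3⟩
      · rw [h2, h3] at h1; rw [← h1]; exact hRa
      · rw [h2, h3] at h1; rw [h1]; exact hRa)
  obtain ⟨j, hj, hij, hRj⟩ := key ((S.V_iff _).2 ⟨i, hi, rfl⟩)
  rw [S.inj i hi j hj hij, hRj] at hRi
  simp at hRi

theorem Loc.not_vdisc (S : Sys P n pt elts) (L : Loc P n pt f1 f2 u w1 w2 z1 z2) :
    vdisc n elts (base u w1 w2 z1 z2) u (nbm u 0 elts) = false := by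
  have h0 : 0 < n := L.c1.hb
  have hu : u < n := L.c1.hc
  have he : s(pt 0, pt u) ∈ P.E := S.poly.face_sub L.hf1 L.c1.e2
  by_contra hcon
  rw [Bool.not_eq_false] at hcon
  unfold vdisc at hcon
  rw [force_eq] at hcon
  generalize iter (grow2 (base u w1 w2 z1 z2) elts) 4 (1 <<< u) = R at hcon
  rw [Bool.and_eq_true, Bool.and_eq_true] at hcon
  obtain ⟨⟨hcl, hRu⟩, hex⟩ := hcon
  rw [List.all_eq_true] at hcl
  rw [List.any_eq_true] at hex
  obtain ⟨i, hi, hRi⟩ := hex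
  rw [List.mem_range] at hi
  rw [Bool.and_eq_true] at hRi
  obtain ⟨hNi, hRi⟩ := hRi
  obtain ⟨-, -, hei⟩ := S.nb_sound h0 hu he hNi
  have key := S.poly.vertex_induct (x := pt 0) {e | ∃ y < n, e = s(pt 0, pt y) ∧ tb R y = true}
    (e := s(pt 0, pt u)) he (Sym2.mem_mk_left _ _) ⟨u, hu, rfl, hRu⟩ (by
      rintro _ ⟨y, hy, rfl, hRy⟩ - - b hb h0b f hf haf hbf
      obtain ⟨b', rfl⟩ := Sym2.mem_iff_exists.1 h0b
      obtain ⟨-, -, j, hj, -, rfl⟩ := S.code_of_edge hb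
      refine ⟨j, hj, rfl, ?_⟩
      by_cases hyj : y = j
      · rw [← hyj]; exact hRy
      · have hcrn : Crn n pt f y 0 j := ⟨hy, h0, hj, hyj, by rw [Sym2.eq_swap]; exact haf, hbf⟩
        obtain ⟨p, hp, q, hq, h1, h2, h3⟩ := L.complete S hf hcrn
        have h4 := hcl p hp
        rw [List.all_eq_true] at h4
        have h5 := h4 q hq
        rw [h1, h2, h3] at h5
        simp only [Bool.or_eq_true, Bool.not_eq_true', beq_iff_eq] at h5
        rcases h5 with h5 | h5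
        · simp at h5
        · rw [← h5]; exact hRy)
  obtain ⟨j, hj, hij, hRj⟩ := key _ hei (Sym2.mem_mk_left _ _)
  have hij' : i = j := by
    rw [Sym2.eq_iff] at hij
    rcases hij with ⟨-, h2⟩ | ⟨h2, h3⟩
    · exact S.inj i hi j hj h2
    · exact S.inj i hi j hj (h3.trans h2)
  rw [hij', hRj] at hRi
  simp at hRi

theorem Loc.consis_true (S : Sys P n pt elts) (L : Loc P n pt f1 f2 u w1 w2 z1 z2) :
    consis elts u w1 w2 z1 z2 = true := by
  have h0 : 0 < n := L.c1.hb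
  have hu : u < n := L.c1.hc
  unfold consis
  rw [List.all_eq_true]
  intro p hp
  obtain ⟨g, hg⟩ := S.sym p hp
  have hF1 := map_F_mem hg.map L.hf1
  have hF2 := map_F_mem hg.map L.hf2
  have a1 := S.crn_act hg L.c1
  have a1' := S.crn_act hg L.c1'
  have a2 := S.crn_act hg L.c2
  have a2' := S.crn_act hg L.c2'
  have two : ∀ k ∈ P.F, s(pt 0, pt u) ∈ k → k = f1 ∨ k = f2 := L.all
  rw [Bool.and_eq_true]
  constructor
  · rw [Bool.or_eq_true]
    by_cases hc : act p 0 = 0 ∧ act p u = u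
    · right
      obtain ⟨h1, h2⟩ := hc
      rw [h1, h2] at a1 a1' a2 a2'
      simp only [Bool.and_eq_true, Bool.or_eq_true, Nat.beq_eq]
      constructor
      · rcases two _ hF1 a1.e2 with h3 | h3
        · left
          rw [h3] at a1 a1'
          exact ⟨S.crn_det' L.hf1 a1 L.c1, S.crn_det L.hf1 a1' L.c1'⟩
        · right
          rw [h3] at a1 a1'
          exact ⟨S.crn_det' L.hf2 a1 L.c2, S.crn_det L.hf2 a1' L.c2'⟩
      · rcases two _ hF2 a2.e2 with h3 | h3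
        · left
          rw [h3] at a2 a2'
          exact ⟨S.crn_det' L.hf1 a2 L.c1, S.crn_det L.hf1 a2' L.c1'⟩
        · right
          rw [h3] at a2 a2'
          exact ⟨S.crn_det' L.hf2 a2 L.c2, S.crn_det L.hf2 a2' L.c2'⟩
    · left
      rw [Bool.not_eq_true', Bool.eq_false_iff]
      intro h
      rw [Bool.and_eq_true] at h
      exact hc ⟨Nat.eq_of_beq_eq_true h.1, Nat.eq_of_beq_eq_true h.2⟩
  · rw [Bool.or_eq_true]
    by_cases hc : act p 0 = u ∧ act p u = 0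
    · right
      obtain ⟨h1, h2⟩ := hc
      rw [h1, h2] at a1 a1' a2 a2'
      simp only [Bool.and_eq_true, Bool.or_eq_true, Nat.beq_eq]
      have e1 : s(pt 0, pt u) ∈ Sym2.map g '' f1 := by rw [Sym2.eq_swap]; exact a1.e2
      have e2 : s(pt 0, pt u) ∈ Sym2.map g '' f2 := by rw [Sym2.eq_swap]; exact a2.e2
      constructor
      · rcases two _ hF1 e1 with h3 | h3
        · left
          rw [h3] at a1 a1'
          exact ⟨S.crn_det' L.hf1 a1 L.c1'.symm, S.crn_det L.hf1 a1' L.c1.symm⟩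
        · right
          rw [h3] at a1 a1'
          exact ⟨S.crn_det' L.hf2 a1 L.c2'.symm, S.crn_det L.hf2 a1' L.c2.symm⟩
      · rcases two _ hF2 e2 with h3 | h3
        · left
          rw [h3] at a2 a2'
          exact ⟨S.crn_det' L.hf1 a2 L.c1'.symm, S.crn_det L.hf1 a2' L.c1.symm⟩
        · right
          rw [h3] at a2 a2'
          exact ⟨S.crn_det' L.hf2 a2 L.c2'.symm, S.crn_det L.hf2 a2' L.c2.symm⟩
    · left
      rw [Bool.not_eq_true', Bool.eq_false_iff]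
      intro h
      rw [Bool.and_eq_true] at h
      exact hc ⟨Nat.eq_of_beq_eq_true h.1, Nat.eq_of_beq_eq_true h.2⟩

/-- The edges of `W` are edges of `f1`, and every vertex of `W` has two edges in `W`: then `W` is
all of `f1`. -/
theorem Loc.W_all (S : Sys P n pt elts) (L : Loc P n pt f1 f2 u w1 w2 z1 z2)
    {W : List (ℕ × ℕ)} (hW : ∀ e ∈ W, e.1 < n ∧ e.2 < n ∧ s(pt e.1, pt e.2) ∈ f1)
    (h0 : (0, u) ∈ W)
    (hdeg : ∀ e ∈ W, cnt (nbW e.1 W) (List.range n) = 2 ∧ cnt (nbW e.2 W) (List.range n) = 2) :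
    ∀ e, e ∈ f1 ↔ ∃ a ∈ W, e = s(pt a.1, pt a.2) := by
  have back : ∀ e, (∃ a ∈ W, e = s(pt a.1, pt a.2)) → e ∈ f1 := by
    rintro _ ⟨a, ha, rfl⟩
    exact (hW a ha).2.2
  have vtx : ∀ v, v < n → cnt (nbW v W) (List.range n) = 2 → ∀ j < n, s(pt v, pt j) ∈ f1 →
      (v, j) ∈ W ∨ (j, v) ∈ W := by
    intro v hv hc j hj hvj
    obtain ⟨t1, ht1, t2, ht2, hne, hb1, hb2⟩ := cnt_two hc
    rw [nbW_iff] at hb1 hb2
    have hcrn : Crn n pt f1 t1 v t2 := by
      refine ⟨ht1, hv, ht2, hne, ?_, ?_⟩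
      · rcases hb1 with h | h
        · rw [Sym2.eq_swap]; exact (hW _ h).2.2
        · exact (hW _ h).2.2
      · rcases hb2 with h | h
        · exact (hW _ h).2.2
        · rw [Sym2.eq_swap]; exact (hW _ h).2.2
    rcases S.crn_ext L.hf1 hcrn hj hvj with h | h
    · rw [h]; exact hb1
    · rw [h]; exact hb2
  intro e
  refine ⟨fun he => ?_, back e⟩
  have key := S.poly.face_induct L.hf1 {e | ∃ a ∈ W, e = s(pt a.1, pt a.2)}
    (e := s(pt 0, pt u)) L.c1.e2 ⟨(0, u), h0, rfl⟩ (by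
      rintro _ ⟨a, ha, rfl⟩ haf b hb x hxa hxb
      obtain ⟨y, rfl⟩ := Sym2.mem_iff_exists.1 hxb
      obtain ⟨-, -, j, hj, -, rfl⟩ := S.code_of_edge (S.poly.face_sub L.hf1 hb)
      rw [Sym2.mem_iff] at hxa
      have hin : ∀ v, v < n → cnt (nbW v W) (List.range n) = 2 → x = pt v →
          ∃ a ∈ W, s(x, pt j) = s(pt a.1, pt a.2) := by
        intro v hv hc hx
        rw [hx] at hb ⊢
        rcases vtx v hv hc j hj hb with h | h
        · exact ⟨_, h, rfl⟩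
        · exact ⟨_, h, Sym2.eq_swap⟩
      rcases hxa with h | h
      · exact hin a.1 (hW a ha).1 (hdeg a ha).1 h
      · exact hin a.2 (hW a ha).2.1 (hdeg a ha).2 h)
  exact key he

theorem Loc.simple (S : Sys P n pt elts) (L : Loc P n pt f1 f2 u w1 w2 z1 z2)
    {W : List (ℕ × ℕ)} (hW : ∀ e ∈ W, e.1 < n ∧ e.2 < n ∧ s(pt e.1, pt e.2) ∈ f1)
    {e : ℕ × ℕ} (he : e ∈ W) (hdeg : 3 ≤ cnt (nbW e.1 W) (List.range n)) : False := by
  obtain ⟨t1, ht1, t2, ht2, t3, ht3, h12, h13, h23, hb1, hb2, hb3⟩ := cnt_three hdeg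
  have hv := (hW e he).1
  have edge : ∀ t, tb (nbW e.1 W) t = true → s(pt e.1, pt t) ∈ f1 := by
    intro t ht
    rw [nbW_iff] at ht
    rcases ht with h | h
    · exact (hW _ h).2.2
    · rw [Sym2.eq_swap]; exact (hW _ h).2.2
  have hcrn : Crn n pt f1 t1 e.1 t2 :=
    ⟨ht1, hv, ht2, h12, by rw [Sym2.eq_swap]; exact edge _ hb1, edge _ hb2⟩
  rcases S.crn_ext L.hf1 hcrn ht3 (edge _ hb3) with h | h
  · exact h13 h.symm
  · exact h23 h.symm

/-- the decoded mask of the image of `W` is the image of `f1` -/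
theorem dec_mask (hn : n ≤ 64) {p : ℕ} {g : X → X} (hg : Impl P n pt p g)
    {W : List (ℕ × ℕ)} (hW : ∀ e ∈ W, e.1 < n ∧ e.2 < n)
    {f : Set (Sym2 X)} (hf : ∀ e, e ∈ f ↔ ∃ a ∈ W, e = s(pt a.1, pt a.2)) :
    dec n pt (mask p W) = Sym2.map g '' f := by
  ext e
  constructor
  · rintro ⟨i, hi, j, hj, hb, rfl⟩
    rw [mask_iff] at hb
    obtain ⟨a, ha, hec⟩ := hb
    have h1 := hg.act a.1 (hW a ha).1
    have h2 := hg.act a.2 (hW a ha).2
    refine ⟨s(pt a.1, pt a.2), (hf _).2 ⟨a, ha, rfl⟩, ?_⟩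
    have : Sym2.map g s(pt a.1, pt a.2) = s(pt (act p a.1), pt (act p a.2)) := by
      rw [← h1.2, ← h2.2]; rfl
    rw [this]
    rw [ec_eq_iff (by omega) (by omega) (by omega) (by omega)] at hec
    rcases hec with ⟨h3, h4⟩ | ⟨h3, h4⟩
    · rw [h3, h4]
    · rw [h3, h4, Sym2.eq_swap]
  · rintro ⟨e', he', rfl⟩
    obtain ⟨a, ha, rfl⟩ := (hf _).1 he'
    have h1 := hg.act a.1 (hW a ha).1
    have h2 := hg.act a.2 (hW a ha).2
    refine ⟨act p a.1, h1.1, act p a.2, h2.1, ?_, ?_⟩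
    · rw [mask_iff]; exact ⟨a, ha, rfl⟩
    · rw [← h1.2, ← h2.2]; rfl

theorem Loc.checkW_sound (S : Sys P n pt elts) (hn : n ≤ 64)
    (L : Loc P n pt f1 f2 u w1 w2 z1 z2) {rows : List (List ℕ)} {W : List (ℕ × ℕ)}
    (hW : ∀ e ∈ W, e.1 < n ∧ e.2 < n ∧ s(pt e.1, pt e.2) ∈ f1) (h0 : (0, u) ∈ W)
    (hchk : checkW n elts rows (base u w1 w2 z1 z2) u w2 (nbm u 0 elts) W = true) :
    ∃ r ∈ rows, ∀ f, f ∈ P.F ↔ ∃ m ∈ r, f = dec n pt m := by
  unfold checkW at hchk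
  cases hd : (W.all fun e => Nat.beq (cnt (nbW e.1 W) (List.range n)) 2 &&
      Nat.beq (cnt (nbW e.2 W) (List.range n)) 2)
  · rw [hd, cond_false, List.any_eq_true] at hchk
    obtain ⟨e, he, h3⟩ := hchk
    exact (L.simple S hW he (Nat.le_of_ble_eq_true h3)).elim
  · rw [hd, cond_true, L.not_vdisc S, Bool.false_or, Bool.or_eq_true] at hchk
    rw [List.all_eq_true] at hd
    have hall := L.W_all S hW h0 (by
      intro e he
      have := hd e he
      rw [Bool.and_eq_true] at this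
      exact ⟨Nat.eq_of_beq_eq_true this.1, Nat.eq_of_beq_eq_true this.2⟩)
    have hWn : ∀ e ∈ W, e.1 < n ∧ e.2 < n := fun e he => ⟨(hW e he).1, (hW e he).2.1⟩
    rw [masks_eq] at hchk
    -- every face is the decoded image of W
    have faces : ∀ f ∈ P.F, ∃ p ∈ elts, f = dec n pt (mask p W) := by
      intro f hf
      obtain ⟨p, hp, g, hg, hmap⟩ := S.tF f1 L.hf1 f hf
      exact ⟨p, hp, by rw [dec_mask hn hg hWn hall, hmap]⟩
    have faces' : ∀ p ∈ elts, dec n pt (mask p W) ∈ P.F := by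
      intro p hp
      obtain ⟨g, hg⟩ := S.sym p hp
      rw [dec_mask hn hg hWn hall]
      exact map_F_mem hg.map L.hf1
    rcases hchk with h | h
    · exfalso
      rw [List.all_eq_true] at h
      obtain ⟨p, hp, hf2⟩ := faces f2 L.hf2
      have h1 := h (mask p W) (List.mem_map.2 ⟨p, hp, rfl⟩)
      have bit : ∀ i < n, ∀ j < n, s(pt i, pt j) ∈ f2 → tb (mask p W) (ec i j) = true := by
        intro i hi j hj hij
        rw [hf2] at hij
        obtain ⟨i', hi', j', hj', hb, heq⟩ := hij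
        rw [Sym2.eq_iff] at heq
        rcases heq with ⟨h3, h4⟩ | ⟨h3, h4⟩
        · rw [S.inj i hi i' hi' h3, S.inj j hj j' hj' h4]; exact hb
        · rw [S.inj i hi j' hj' h3, S.inj j hj i' hi' h4, ec_comm]; exact hb
      rw [bit w2 L.c2.ha 0 L.c2.hb L.c2.e1, bit 0 L.c2.hb u L.c2.hc L.c2.e2] at h1
      simp at h1
    · rw [List.any_eq_true] at h
      obtain ⟨r, hr, h1⟩ := h
      rw [Bool.and_eq_true, List.all_eq_true, List.all_eq_true] at h1
      refine ⟨r, hr, fun f => ⟨fun hf => ?_, ?_⟩⟩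
      · obtain ⟨p, hp, hfp⟩ := faces f hf
        have := h1.2 (mask p W) (List.mem_map.2 ⟨p, hp, rfl⟩)
        rw [mem_iff] at this
        exact ⟨_, this, hfp⟩
      · rintro ⟨m, hm, rfl⟩
        have := h1.1 m hm
        rw [mem_iff, List.mem_map] at this
        obtain ⟨p, hp, rfl⟩ := this
        exact faces' p hp

theorem Loc.checkQ_sound (S : Sys P n pt elts) (hn : n ≤ 64)
    (L : Loc P n pt f1 f2 u w1 w2 z1 z2) {rows : List (List ℕ)}
    (hchk : checkQ n elts rows u w1 w2 z1 z2 (nbm u 0 elts) = true) :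
    ∃ r ∈ rows, ∀ f, f ∈ P.F ↔ ∃ m ∈ r, f = dec n pt m := by
  unfold checkQ at hchk
  rw [L.consis_true S, cond_true] at hchk
  rcases ht : trace (nxt elts (base u w1 w2 z1 z2)) w1 u 64 w1 0 u [(0, u), (w1, 0)] with _ | r
  · rw [ht] at hchk; simp at hchk
  · obtain ⟨W, hWr, hW, hsub⟩ := L.trace_sound S 64 w1 0 u [(0, u), (w1, 0)] r L.c1 (by
      intro e he
      simp only [List.mem_cons, List.not_mem_nil, or_false] at he
      rcases he with rfl | rfl
      · exact ⟨L.c1.hb, L.c1.hc, L.c1.e2⟩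
      · exact ⟨L.c1.ha, L.c1.hb, L.c1.e1⟩) ht
    rw [ht, hWr] at hchk
    exact L.checkW_sound S hn hW (hsub _ (by simp)) hchk

end Pool.Agent.H38.FT.Code
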