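import Pool.Agent.H38.FT.Canon

/-!
A test for the points of a model to span the space.
-/

namespace Pool.Agent.H38.FT

open Matrix Code

namespace Model

/-- the sum of the points `i` and `j` (for the parameters 1, 0) is twice the basis vector with the
given coordinates -/
def sumIs (M : Model) (i j : ℕ) (c0 c1 c2 : Z2) : Bool :=
  Nat.blt i M.n && (Nat.blt j M.n &&
  (zeq (zadd (M.pts.getD i default).a0 (M.pts.getD j default).a0) c0 &&
  (zeq (zadd (M.pts.getD i default).a1 (M.pts.getD j default).a1) c1 &&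
   zeq (zadd (M.pts.getD i default).a2 (M.pts.getD j default).a2) c2)))

theorem sumIs_sound {M : Model} {i j : ℕ} {c0 c1 c2 : Z2} (h : M.sumIs i j c0 c1 c2 = true) :
    i < M.n ∧ j < M.n ∧ M.pt 1 0 i + M.pt 1 0 j = ![val c0 / 2, val c1 / 2, val c2 / 2] := by
  unfold sumIs at h
  simp only [Bool.and_eq_true, zeq_iff, Nat.blt_eq] at h
  obtain ⟨h1, h2, h3, h4, h5⟩ := h
  refine ⟨h1, h2, ?_⟩
  rw [← h3, ← h4, ← h5, val_add, val_add, val_add]
  unfold pt V3.toR
  funext k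
  fin_cases k <;> (simp; ring)

/-- test for a spanning set -/
def okSpan (M : Model) (i0 j0 i1 j1 i2 j2 : ℕ) : Bool :=
  M.sumIs i0 j0 (4, 0) (0, 0) (0, 0) && (M.sumIs i1 j1 (0, 0) (4, 0) (0, 0) &&
    M.sumIs i2 j2 (0, 0) (0, 0) (4, 0))

theorem faithful_of_okSpan {M : Model} {i0 j0 i1 j1 i2 j2 : ℕ}
    (h : M.okSpan i0 j0 i1 j1 i2 j2 = true) : M.Faithful := by
  unfold okSpan at h
  rw [Bool.and_eq_true, Bool.and_eq_true] at h
  obtain ⟨h0, h1, h2⟩ := h
  obtain ⟨a0, b0, c0⟩ := sumIs_sound h0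
  obtain ⟨a1, b1, c1⟩ := sumIs_sound h1
  obtain ⟨a2, b2, c2⟩ := sumIs_sound h2
  have v4 : val ((4, 0) : Z2) = 4 := by unfold val; simp
  have v0 : val ((0, 0) : Z2) = 0 := by unfold val; simp
  rw [v4, v0] at c0 c1 c2
  intro A B hAB
  have key : ∀ i j, i < M.n → j < M.n → A *ᵥ (M.pt 1 0 i + M.pt 1 0 j) =
      B *ᵥ (M.pt 1 0 i + M.pt 1 0 j) := by
    intro i j hi hj
    rw [Matrix.mulVec_add, Matrix.mulVec_add, hAB i hi, hAB j hj]
  have k0 := key i0 j0 a0 b0
  have k1 := key i1 j1 a1 b1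
  have k2 := key i2 j2 a2 b2
  rw [c0] at k0
  rw [c1] at k1
  rw [c2] at k2
  ext i j
  have e0 := congrFun k0 i
  have e1 := congrFun k1 i
  have e2 := congrFun k2 i
  simp [Matrix.mulVec, dotProduct, Fin.sum_univ_three] at e0 e1 e2
  fin_cases j
  · simpa using e0
  · simpa using e1
  · simpa using e2

end Model

end Pool.Agent.H38.FT
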