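import Pool.Agent.H38.FT.Forward2
import Pool.Agent.H38.FT.Items

/-!
The stabilisers of the base vertices of the one-parameter families.
-/

namespace Pool.Agent.H38.FT

open Matrix Code

namespace Model

theorem code_of_group' {M : Model} {t : Tag} {ws : List (List Letter × ℕ)}
    (h : M.okGroup t ws = true) {A : Mat} (hA : A ∈ t.group) :
    ∃ p ∈ ws.map Prod.snd, ∀ x y, M.Rep x y A p := by
  have hl := okGroup_letters h
  unfold okGroup at h
  rw [Bool.and_eq_true, Bool.and_eq_true, Bool.and_eq_true] at h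
  obtain ⟨-, -, h2, h3⟩ := h
  unfold Tag.group at hA
  induction hA using Submonoid.closure_induction_left with
  | one =>
    rw [List.any_eq_true] at h2
    obtain ⟨e, he, h4⟩ := h2
    rw [List.all_eq_true] at h4
    exact ⟨e.2, List.mem_map.2 ⟨e, he, rfl⟩, fun x y => M.rep_one x y fun i hi =>
      Nat.eq_of_beq_eq_true (h4 i (List.mem_range.2 hi))⟩
  | mul_left A hA B hB ih =>
    obtain ⟨l, hlt, rfl⟩ := hA
    obtain ⟨p, hp, hrep⟩ := ih
    rw [List.mem_map] at hp
    obtain ⟨e, he, rfl⟩ := hp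
    rw [List.all_eq_true] at h3
    have h4 := h3 e he
    rw [List.all_eq_true] at h4
    have h5 := h4 l hlt
    rw [mem_iff] at h5
    exact ⟨_, h5, fun x y => rep_mul (rep_gen (hl l hlt) x y) (hrep x y) fun i hi => act_comp hi⟩

end Model

/-- a sufficient test for a coded number to be positive -/
def posZ (z : Z2) : Bool :=
  (decide (0 ≤ z.2) && decide (0 < 5 * z.1 + 8 * z.2)) ||
  (decide (z.2 < 0) && decide (0 < 50 * z.1 + 81 * z.2))

theorem gr_gt : (8 : ℝ) / 5 < gr := by
  have h1 : (0 : ℝ) < gr := Real.goldenRatio_pos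
  nlinarith [gr_sq]

theorem gr_lt : gr < (81 : ℝ) / 50 := by
  have h1 : (0 : ℝ) < gr := Real.goldenRatio_pos
  nlinarith [gr_sq]

theorem posZ_sound {z : Z2} (h : posZ z = true) : 0 < val z := by
  unfold posZ at h
  simp only [Bool.or_eq_true, Bool.and_eq_true, decide_eq_true_eq] at h
  unfold val
  rcases h with ⟨h1, h2⟩ | ⟨h1, h2⟩
  · have h1' : (0 : ℝ) ≤ z.2 := by exact_mod_cast h1
    have h2' : (0 : ℝ) < 5 * z.1 + 8 * z.2 := by exact_mod_cast h2
    nlinarith [gr_gt]
  · have h1' : (z.2 : ℝ) < 0 := by exact_mod_cast h1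
    have h2' : (0 : ℝ) < 50 * z.1 + 81 * z.2 := by exact_mod_cast h2
    nlinarith [gr_lt]

/-- a sufficient test for a coded number to be nonnegative -/
def nonnegZ (z : Z2) : Bool := zeq z (0, 0) || posZ z

theorem val_zero : val ((0, 0) : Z2) = 0 := by unfold val; simp

theorem nonnegZ_sound {z : Z2} (h : nonnegZ z = true) : 0 ≤ val z := by
  unfold nonnegZ at h
  rw [Bool.or_eq_true, zeq_iff] at h
  rcases h with h | h
  · rw [h, val_zero]
  · exact (posZ_sound h).le

/-- a certificate that `a + b s ≠ 0` for `0 < s` not in the list `L` -/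
def sepCo (L : List Z2) (a b : Z2) : Bool :=
  !(zeq a (0, 0) && zeq b (0, 0)) &&
  ((nonnegZ a && nonnegZ b) || ((nonnegZ (zneg a) && nonnegZ (zneg b)) ||
    L.any fun m => zeq (zadd a (zmul m b)) (0, 0)))

theorem sepCo_sound {L : List Z2} {a b : Z2} (h : sepCo L a b = true) {s : ℝ} (hs : 0 < s)
    (hL : ∀ m ∈ L, s ≠ val m) : val a + val b * s ≠ 0 := by
  unfold sepCo at h
  rw [Bool.and_eq_true] at h
  obtain ⟨h1, h2⟩ := h
  have h0 : ¬ (val a = 0 ∧ val b = 0) := by
    rintro ⟨ha, hb⟩
    rw [← val_zero] at ha hb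
    have ha' := val_inj ha
    have hb' := val_inj hb
    rw [ha', hb'] at h1
    simp [zeq] at h1
  simp only [Bool.or_eq_true, Bool.and_eq_true, List.any_eq_true] at h2
  intro he
  rcases h2 with ⟨h3, h4⟩ | ⟨h3, h4⟩ | ⟨m, hm, h3⟩
  · have k1 := nonnegZ_sound h3
    have k2 := nonnegZ_sound h4
    have k3 : 0 ≤ val b * s := mul_nonneg k2 hs.le
    have k4 : val b * s = 0 := by linarith
    exact h0 ⟨by linarith, (mul_eq_zero.1 k4).resolve_right hs.ne'⟩
  · have k1 := nonnegZ_sound h3
    have k2 := nonnegZ_sound h4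
    rw [val_neg] at k1 k2
    have k3 : 0 ≤ (- val b) * s := mul_nonneg k2 hs.le
    have k4 : val b * s = 0 := by linarith
    exact h0 ⟨by linarith, (mul_eq_zero.1 k4).resolve_right hs.ne'⟩
  · rw [zeq_iff] at h3
    have k1 := congrArg val h3
    rw [val_add, val_mul, val_zero] at k1
    have k2 : val b * (s - val m) = 0 := by linarith
    rcases mul_eq_zero.1 k2 with k3 | k3
    · apply h0
      rw [k3] at k1 he
      exact ⟨by linarith, k3⟩
    · exact hL m hm (by linarith)

/-- difference of coded numbers -/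
def zsub (z w : Z2) : Z2 := zadd z (zneg w)

theorem val_sub (z w : Z2) : val (zsub z w) = val z - val w := by
  unfold zsub
  rw [val_add, val_neg]
  ring

namespace Model

/-- a certificate that the points `j ≠ 0` differ from the point `0` for `x = 1`, `0 < y` not in
`L` -/
def sep0 (M : Model) (L : List Z2) : Bool :=
  (List.range M.n).all fun j => Nat.beq j 0 ||
    (sepCo L (zsub (M.pts.getD j default).a0 (M.pts.getD 0 default).a0)
        (zsub (M.pts.getD j default).b0 (M.pts.getD 0 default).b0) ||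
    (sepCo L (zsub (M.pts.getD j default).a1 (M.pts.getD 0 default).a1)
        (zsub (M.pts.getD j default).b1 (M.pts.getD 0 default).b1) ||
    sepCo L (zsub (M.pts.getD j default).a2 (M.pts.getD 0 default).a2)
        (zsub (M.pts.getD j default).b2 (M.pts.getD 0 default).b2)))

theorem sep0_sound {M : Model} {L : List Z2} (h : M.sep0 L = true) {s : ℝ} (hs : 0 < s)
    (hL : ∀ m ∈ L, s ≠ val m) {j : ℕ} (hj : j < M.n) (he : M.pt 1 s j = M.pt 1 s 0) : j = 0 := by
  unfold sep0 at h
  rw [List.all_eq_true] at h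
  have h1 := h j (List.mem_range.2 hj)
  simp only [Bool.or_eq_true] at h1
  unfold pt V3.toR at he
  clear h
  generalize M.pts.getD j default = v at h1 he
  generalize M.pts.getD 0 default = w at h1 he
  have e0 := congrFun he 0
  have e1 := congrFun he 1
  have e2 := congrFun he 2
  simp at e0 e1 e2
  rcases h1 with h1 | h1 | h1 | h1
  · exact Nat.eq_of_beq_eq_true h1
  · refine absurd ?_ (sepCo_sound h1 hs hL)
    rw [val_sub, val_sub]; linarith
  · refine absurd ?_ (sepCo_sound h1 hs hL)
    rw [val_sub, val_sub]; linarith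
  · refine absurd ?_ (sepCo_sound h1 hs hL)
    rw [val_sub, val_sub]; linarith

/-- the elements fixing the point 0 are the identity and the element named by `S` -/
def stab0 (M : Model) (es : List ℕ) (S : List Letter) : Bool :=
  es.all fun p => !(Nat.beq (act p 0) 0) || (M.isId p ||
    (List.range M.n).all fun i => Nat.beq (act p i) (M.actW S i))

theorem stab_of {M : Model} {t : Tag} {ws : List (List Letter × ℕ)}
    (hok : M.okGroup t ws = true) {es : List ℕ} (hes : ws.map Prod.snd = es) (h0 : 0 < M.n)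
    (hf : M.Faithful) {S : List Letter} (hS : ∀ l ∈ S, l ∈ t.letters)
    (hst : M.stab0 es S = true) {x y : ℝ}
    (hsep : ∀ j < M.n, M.pt x y j = M.pt x y 0 → j = 0)
    (hfix : ev S *ᵥ M.pt x y 0 = M.pt x y 0) (A : Mat) (hA : A ∈ t.group) :
    A *ᵥ M.pt x y 0 = M.pt x y 0 ↔ A = 1 ∨ A = ev S := by
  constructor
  · intro hAv
    obtain ⟨p, hp, hrep⟩ := code_of_group' hok hA
    rw [hes] at hp
    unfold stab0 at hst
    rw [List.all_eq_true] at hst
    have h1 := hst p hp
    have h2 : act p 0 = 0 := hsep _ (hrep x y 0 h0).1 (by rw [← (hrep x y 0 h0).2, hAv])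
    rw [Bool.or_eq_true, Bool.or_eq_true, h2] at h1
    rcases h1 with h1 | h1 | h1
    · simp at h1
    · left
      apply hf
      intro i hi
      unfold isId at h1
      rw [List.all_eq_true] at h1
      rw [(hrep 1 0 i hi).2, Nat.eq_of_beq_eq_true (h1 i (List.mem_range.2 hi)), Matrix.one_mulVec]
    · right
      apply hf
      intro i hi
      rw [List.all_eq_true] at h1
      rw [(hrep 1 0 i hi).2, Nat.eq_of_beq_eq_true (h1 i (List.mem_range.2 hi)),
        actW_eq (fun l hl => okGroup_letters hok l (hS l hl)) 1 0 hi]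
  · rintro (rfl | rfl)
    · rw [Matrix.one_mulVec]
    · exact hfix

end Model

theorem thmM_faithful : thmM.Faithful := by
  apply Model.faithful_of_okSpan (i0 := 0) (j0 := 0) (i1 := 1) (j1 := 1) (i2 := 4) (j2 := 4)
  decide +kernel

theorem tdmM_faithful : tdmM.Faithful := by
  apply Model.faithful_of_okSpan (i0 := 0) (j0 := 2) (i1 := 0) (j1 := 6) (i2 := 1) (j2 := 10)
  decide +kernel

theorem ohsM_faithful : ohsM.Faithful := by
  apply Model.faithful_of_okSpan (i0 := 0) (j0 := 2) (i1 := 0) (j1 := 3) (i2 := 1) (j2 := 11)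
  decide +kernel

theorem ihmM_faithful : ihmM.Faithful := by
  apply Model.faithful_of_okSpan (i0 := 0) (j0 := 0) (i1 := 1) (j1 := 1) (i2 := 5) (j2 := 5)
  decide +kernel

theorem val_one : val ((1, 0) : Z2) = 1 := by unfold val; simp
theorem val_gr : val ((0, 1) : Z2) = gr := by unfold val; simp
theorem val_two_sub : val ((2, -1) : Z2) = 2 - gr := by unfold val; push_cast; ring

theorem stab_Th {s : ℝ} (hs : 0 < s) (A : Mat) (hA : A ∈ Tag.Th.group) :
    A *ᵥ ![1, s, 0] = ![1, s, 0] ↔ A = 1 ∨ A = ev [.n, .c, .c, .d, .c] := by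
  have h := Model.stab_of thmTh_ok thmTh_map (by decide) thmM_faithful
    (S := [.n, .c, .c, .d, .c]) (by decide) (by decide +kernel) (x := 1) (y := s)
    (fun j hj he => Model.sep0_sound (L := []) (by decide +kernel) hs (by simp) hj he)
    (thm_fix 1 s) A hA
  rw [thmM_pt] at h
  exact h

theorem stab_Td {s : ℝ} (hs : 0 < s) (hs1 : s ≠ 1) (A : Mat) (hA : A ∈ Tag.Td.group) :
    A *ᵥ ![1, 1, s] = ![1, 1, s] ↔ A = 1 ∨ A = ev [.s] := by
  have h := Model.stab_of tdmTd_ok tdmTd_map (by decide) tdmM_faithful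
    (S := [.s]) (by decide) (by decide +kernel) (x := 1) (y := s)
    (fun j hj he => Model.sep0_sound (L := [(1, 0)]) (by decide +kernel) hs
      (by simpa [val_one] using hs1) hj he)
    (tdm_fix 1 s) A hA
  rw [tdmM_pt] at h
  exact h

theorem stab_Oh {s : ℝ} (hs : 0 < s) (hs1 : s ≠ 1) (A : Mat) (hA : A ∈ Tag.Oh.group) :
    A *ᵥ ![1, 1, s] = ![1, 1, s] ↔ A = 1 ∨ A = ev [.n, .d, .q] := by
  have h := Model.stab_of ohsOh_ok ohsOh_map (by decide) ohsM_faithful
    (S := [.n, .d, .q]) (by decide) (by decide +kernel) (x := 1) (y := s)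
    (fun j hj he => Model.sep0_sound (L := [(1, 0)]) (by decide +kernel) hs
      (by simpa [val_one] using hs1) hj he)
    (ohs_fix 1 s) A hA
  rw [ohsM_pt] at h
  exact h

theorem stab_Ih {s : ℝ} (hs : 0 < s) (h1 : s ≠ gr) (h2 : s ≠ 2 - gr) (A : Mat)
    (hA : A ∈ Tag.Ih.group) :
    A *ᵥ ![1, s, 0] = ![1, s, 0] ↔ A = 1 ∨ A = ev [.n, .c, .c, .d, .c] := by
  have h := Model.stab_of ihmIh_ok ihmIh_map (by decide) ihmM_faithful
    (S := [.n, .c, .c, .d, .c]) (by decide) (by decide +kernel) (x := 1) (y := s)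
    (fun j hj he => Model.sep0_sound (L := [(0, 1), (2, -1)]) (by decide +kernel) hs
      (by
        intro m hm
        simp only [List.mem_cons, List.not_mem_nil, or_false] at hm
        rcases hm with rfl | rfl
        · rw [val_gr]; exact h1
        · rw [val_two_sub]; exact h2) hj he)
    (ihm_fix 1 s) A hA
  rw [ihmM_pt] at h
  exact h

end Pool.Agent.H38.FT
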