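import Pool.Agent.H38.FT.SepData
import Pool.Agent.H38.FT.SimMat
import Pool.Agent.H70.FT.Normal

/-!
The members of the families with the group `Ih` are pairwise not similar.
-/

namespace Pool.Agent.H38.FT

open Matrix Code Pool.Agent.H59.FT

/-- the coded form of a member of a family -/
theorem family_coded {M : Model} {t : Tag} {ws : List (List Letter × ℕ)}
    (hok : M.okGroup t ws = true) (htr : M.okTrans ws = true) (h0 : 0 < M.n) (hn : M.n ≤ 64)
    {es : List ℕ} (hes : ws.map Prod.snd = es) {R : List Row}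
    (hR : (R.all fun r => M.okRow t r) = true) {e : Tag × Word × Word} (ht : e.1 = t)
    (hin : inF R e.2.1 e.2.2 = true) (k : Kind) {s : ℝ} (hpt : M.pt 1 s 0 = e.1.vertex s) :
    ∃ r ∈ R, r.spec = specOf e k ∧
      (Item.family e k s).cfg = cfgOf M.n (M.pt 1 s) (masks r.W es) := by
  obtain ⟨r, hr, hspec⟩ := row_of_inF hin k
  rw [List.all_eq_true] at hR
  refine ⟨r, hr, hspec, ?_⟩
  rw [← orbitCfg_eq hok htr h0 hn hes (hR r hr) 1 s, hpt, hspec, specOf_face, ← ht]
  rfl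

theorem Tag.smul_map_eq {P : Cfg (Fin 3 → ℝ)} {A : Mat} {c : ℝ}
    (hA : P.map (fun x => A *ᵥ x) = P) :
    P.map (fun x => c • (A *ᵥ x)) = P.map (fun x => c • x) := by
  conv_rhs => rw [← hA]
  rw [Cfg.map_map]

/-- symmetries of a similar configuration -/
theorem conj_sym {P P' : Cfg (Fin 3 → ℝ)} {A M : Mat} {c : ℝ} (hc : c ≠ 0) (hA : Aᵀ * A = 1)
    (h : P = P'.map (fun x => c • (A *ᵥ x))) (hM : P.map (fun x => M *ᵥ x) = P) :
    P'.map (fun x => (Aᵀ * M * A) *ᵥ x) = P' := by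
  have h1 : P.map (fun x => c⁻¹ • (Aᵀ *ᵥ x)) = P' := by
    rw [h, Cfg.map_map]
    have : (fun x : Fin 3 → ℝ => c⁻¹ • (Aᵀ *ᵥ (c • (A *ᵥ x)))) = fun x => x := by
      funext x
      rw [mulVec_smul, mulVec_mulVec, hA, one_mulVec, smul_smul, inv_mul_cancel₀ hc, one_smul]
    rw [this, Cfg.map_id']
  have h2 : P'.map (fun x => (Aᵀ * M * A) *ᵥ x) =
      (P.map (fun x => M *ᵥ x)).map (fun x => c⁻¹ • (Aᵀ *ᵥ x)) := by
    rw [h, Cfg.map_map, Cfg.map_map]
    congr 1
    funext x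
    rw [mulVec_smul, mulVec_smul, smul_smul, inv_mul_cancel₀ hc, one_smul, mulVec_mulVec,
      mulVec_mulVec, Matrix.mul_assoc]
  rw [h2, hM, h1]

theorem ih_distinct {e e' : Tag × Word × Word} {k k' : Kind} {s s' : ℝ}
    (he : (Item.family e k s).Valid) (he' : (Item.family e' k' s').Valid) (ht : e.1 = .Ih)
    (ht' : e'.1 = .Ih) {c : ℝ} (hc : 0 < c) {A : Mat} (hA : Aᵀ * A = 1)
    (h : (Item.family e k s).cfg = (Item.family e' k' s').cfg.map (fun x => c • (A *ᵥ x))) :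
    Item.family e k s = Item.family e' k' s' := by
  have g := item_good he
  have g' := item_good he'
  have gp : GP (Item.family e k s).cfg .Ih := by
    have h1 : GP (Item.family e k s).cfg e.1 := g.gp
    rw [ht] at h1; exact h1
  have gp' : GP (Item.family e' k' s').cfg .Ih := by
    have h1 : GP (Item.family e' k' s').cfg e'.1 := g'.gp
    rw [ht'] at h1; exact h1
  -- `A` is in the group
  have hAI : A ∈ Tag.Ih.group := by
    refine Pool.Agent.H70.FT.mem_Ih_of_normal A hA (symG (Item.family e' k' s').cfg)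
      (symG_fin g'.fin g'.span) ?_ ?_
    · intro M hM
      exact ⟨Tag.orth hM, gp'.sym M hM⟩
    · intro M hM
      refine ⟨?_, conj_sym hc.ne' hA h (gp.sym M hM)⟩
      rw [transpose_mul, transpose_mul, transpose_transpose]
      have hA' : A * Aᵀ = 1 := mul_eq_one_comm.1 hA
      have : Aᵀ * (Mᵀ * A) * (Aᵀ * M * A) = Aᵀ * (Mᵀ * (A * Aᵀ) * M) * A := by
        simp only [Matrix.mul_assoc]
      rw [this, hA', Matrix.mul_one, Tag.orth hM, Matrix.mul_one, hA]
  rw [Tag.smul_map_eq (gp'.sym A hAI)] at h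
  -- the base vertices
  have r := he.2
  have r' := he'.2
  rw [ht] at r
  rw [ht'] at r'
  obtain ⟨s0, s1, s2⟩ := r
  obtain ⟨s0', s1', s2'⟩ := r'
  have hv : (![1, s, 0] : Fin 3 → ℝ) ∈ (Item.family e k s).cfg.V := by
    refine ⟨1, one_mem _, ?_⟩
    rw [one_mulVec, ht]; rfl
  rw [h] at hv
  obtain ⟨w, ⟨B, hB, rfl⟩, hw⟩ := hv
  rw [ht'] at hB
  have hvx : e'.1.vertex s' = ![1, s', 0] := by rw [ht']; rfl
  rw [hvx] at hw
  have hw' : c • (B *ᵥ ![1, s', 0]) = ![1, s, 0] := hw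
  have hst := stab_Ih s0' s1' s2'
  have hσ : ev [.n, .c, .c, .d, .c] ∈ Tag.Ih.group := Tag.ev_mem (by decide)
  have hfix : ∀ x y : ℝ, ev [.n, .c, .c, .d, .c] *ᵥ ![x, y, 0] = ![x, y, 0] := by
    intro x y
    have := ihm_fix x y
    rw [ihmM_pt] at this
    exact this
  have hne1 : ev [.n, .c, .c, .d, .c] ≠ 1 := by
    intro h1
    rw [ev_nccdc] at h1
    have := congrFun (congrFun h1 2) 2
    simp at this
    norm_num at this
  have hσB : ev [.n, .c, .c, .d, .c] *ᵥ (B *ᵥ ![1, s', 0]) = B *ᵥ ![1, s', 0] := by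
    have h1 : ev [.n, .c, .c, .d, .c] *ᵥ (c • (B *ᵥ ![1, s', 0])) = c • (B *ᵥ ![1, s', 0]) := by
      rw [hw']; exact hfix 1 s
    rw [mulVec_smul] at h1
    exact smul_inj' hc.ne' h1
  have hcomm : ev [.n, .c, .c, .d, .c] * B = B * ev [.n, .c, .c, .d, .c] := by
    have h1 : (Bᵀ * ev [.n, .c, .c, .d, .c] * B) *ᵥ ![1, s', 0] = ![1, s', 0] := by
      rw [← mulVec_mulVec, ← mulVec_mulVec, hσB, mulVec_mulVec, Tag.orth hB, one_mulVec]
    have h2 : ev [.n, .c, .c, .d, .c] * B = B * (Bᵀ * ev [.n, .c, .c, .d, .c] * B) := by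
      rw [← Matrix.mul_assoc, ← Matrix.mul_assoc, Tag.orth' hB, Matrix.one_mul]
    rcases (hst _ (mul_mem (mul_mem (Tag.tr hB) hσ) hB)).1 h1 with h3 | h3
    · exfalso
      apply hne1
      rw [h3, Matrix.mul_one] at h2
      have h4 := congrArg (fun Z => Z * Bᵀ) h2
      simp only [Matrix.mul_assoc, Tag.orth' hB, Matrix.mul_one] at h4
      exact h4
    · rw [h2, h3]
  -- injectivity
  have hinj' : ∀ i < ihmM.n, ∀ j < ihmM.n, ihmM.pt 1 s' i = ihmM.pt 1 s' j → i = j := by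
    refine Model.inj_mirror ihmM_distinct ihmIh_ok ihmIh_trans (by decide) ihm_fix ?_
    rw [ihmM_pt]
    exact fun A hA h => (hst A hA).1 h
  -- the code of `B`
  obtain ⟨p, hp, hrep⟩ := Model.code_of_group' ihmIh_ok hB
  obtain ⟨e0, he0, rfl⟩ := List.mem_map.1 hp
  have hSl : ∀ l ∈ ([.n, .c, .c, .d, .c] : List Letter), ihmM.okLetter l = true := by
    intro l hl
    exact Model.okGroup_letters ihmIh_ok l (by revert l; decide)
  have hc1 := ihm_comm
  unfold commSign at hc1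
  rw [List.all_eq_true] at hc1
  have hc2 := hc1 e0 he0
  have hall : ((List.range ihmM.n).all fun i =>
      Nat.beq (act e0.2 (ihmM.actW [.n, .c, .c, .d, .c] i))
        (ihmM.actW [.n, .c, .c, .d, .c] (act e0.2 i))) = true := by
    rw [List.all_eq_true]
    intro i hi
    rw [List.mem_range] at hi
    have k1 := Model.actW_lt hSl hi
    have k2 := hrep 1 s' i hi
    have k3 := hrep 1 s' _ k1
    have k4 := Model.actW_lt hSl k2.1
    rw [Nat.beq_eq]
    apply hinj' _ k3.1 _ k4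
    rw [← k3.2, ← Model.actW_eq hSl 1 s' hi, ← Model.actW_eq hSl 1 s' k2.1, ← k2.2,
      mulVec_mulVec, mulVec_mulVec, hcomm]
  rw [hall] at hc2
  simp only [Bool.not_true, Bool.false_or, Bool.and_eq_true, Bool.or_eq_true, zeq_iff] at hc2
  obtain ⟨ha0, hb0, ha1, hb1⟩ := hc2
  have hB0 := (hrep 1 s' 0 (by decide)).2
  rw [ihmM_pt] at hB0
  have hpt : ihmM.pt 1 s' (act e0.2 0) 0 = 1 ∨ ihmM.pt 1 s' (act e0.2 0) 0 = -1 := by
    unfold Model.pt V3.toR
    generalize ihmM.pts.getD (act e0.2 0) default = V at ha0 hb0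
    rcases ha0 with h1 | h1
    · left; simp [h1, hb0, val]
    · right; simp [h1, hb0, val]
  have hpt1 : ihmM.pt 1 s' (act e0.2 0) 1 = s' ∨ ihmM.pt 1 s' (act e0.2 0) 1 = -s' := by
    unfold Model.pt V3.toR
    generalize ihmM.pts.getD (act e0.2 0) default = V at ha1 hb1
    rcases hb1 with h1 | h1
    · left; simp [h1, ha1, val]
    · right; simp [h1, ha1, val]; ring
  rw [hB0] at hw'
  have w0 := congrFun hw' 0
  have w1 := congrFun hw' 1
  simp only [Pi.smul_apply, smul_eq_mul] at w0 w1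
  simp at w0 w1
  have hc1 : c = 1 := by
    rcases hpt with h1 | h1
    · rw [h1] at w0; linarith
    · rw [h1] at w0; linarith
  have hss : s = s' := by
    rw [hc1] at w1
    rcases hpt1 with h1 | h1
    · rw [h1] at w1; linarith
    · rw [h1] at w1; linarith
  subst hss
  rw [hc1] at h
  have h' : (Item.family e k s).cfg = (Item.family e' k' s).cfg := by
    rw [h]
    have : (fun x : Fin 3 → ℝ => (1 : ℝ) • x) = fun x => x := by funext x; simp
    rw [this, Cfg.map_id']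
  -- rows
  have hin : ∀ e : Tag × Word × Word, e ∈ familyList → e.1 = .Ih →
      inF ihmR e.2.1 e.2.2 = true := by
    intro e he ht
    have h1 := family_cover
    rw [List.all_eq_true] at h1
    have h2 := h1 e he
    simp only [Bool.or_eq_true, Bool.and_eq_true, decide_eq_true_eq] at h2
    rcases h2 with ⟨h3, -, -⟩ | ⟨h3, -, -⟩ | ⟨h3, -, -⟩ | ⟨-, -, h3⟩
    · rw [ht] at h3; exact absurd h3 (by decide)
    · rw [ht] at h3; exact absurd h3 (by decide)
    · rw [ht] at h3; exact absurd h3 (by decide)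
    · exact h3
  obtain ⟨r1, hr1, sp1, c1⟩ := family_coded ihmIh_ok ihmIh_trans (by decide) (by decide)
    ihmIh_map ihmR_ok ht (hin e he.1 ht) k (s := s) (by rw [ihmM_pt, ht]; rfl)
  obtain ⟨r2, hr2, sp2, c2⟩ := family_coded ihmIh_ok ihmIh_trans (by decide) (by decide)
    ihmIh_map ihmR_ok ht' (hin e' he'.1 ht') k' (s := s) (by rw [ihmM_pt, ht']; rfl)
  rw [c1, c2] at h'
  have h5 := spec_of_eq ihmIh_ok ihmIh_map (by decide) ihmR_ok (by decide) ihm_sep hr1 hr2 hinj' h'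
  rw [sp1, sp2] at h5
  obtain ⟨rfl, rfl⟩ := specOf_inj he.1 he'.1 (by rw [ht, ht']) h5
  rfl

end Pool.Agent.H38.FT
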